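import Pool.Agent.Lib.KExp.Defs

/-!
# MP_0d5e35_al: exp(H)^3 divides dim(H)^4 in odd dimension, definitions
(paper /team-store/MP_0d5e35_al_paper77.md)
-/

set_option autoImplicit false

open scoped TensorProduct

namespace Pool.Agent.KExp

section com

variable {k : Type} [Field k] {H : Type} [Ring H] [HopfAlgebra k H] [FiniteDimensional k H]

variable {W V X : Type} [AddCommGroup W] [Module k W] [AddCommGroup V] [Module k V]
  [AddCommGroup X] [Module k X]

/-- left comodules: `κ f w = f(w₍₋₁₎) w₍₀₎` -/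
structure IsCom (κ : (H →ₗ[k] k) →ₗ[k] Module.End k W) : Prop where
  one : κ (Coalgebra.counit (R := k) (A := H)) = 1
  mul : ∀ f g : H →ₗ[k] k, κ f * κ g = κ (cv g f)

/-- `w ⊗ v ↦ w₍₀₎ ⊗ w₍₋₁₎ v` -/
noncomputable def Rop (κ : (H →ₗ[k] k) →ₗ[k] Module.End k W) (ρ : H →ₐ[k] Module.End k V) :
    Module.End k (W ⊗[k] V) :=
  ∑ j, TensorProduct.map (κ (ec k H j)) (ρ (e k H j))

/-- `x ⊗ w ↦ w₍₋₁₎ x ⊗ w₍₀₎` -/
noncomputable def Lop (κ : (H →ₗ[k] k) →ₗ[k] Module.End k W) : Module.End k (H ⊗[k] W) :=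
  ∑ j, TensorProduct.map (LinearMap.mulLeft k (e k H j)) (κ (ec k H j))

/-- the braiding `x ⊗ x' ↦ x₍₋₁₎ x' ⊗ x₍₀₎` of a Yetter-Drinfeld module with itself -/
noncomputable def cBr (ρ : H →ₐ[k] Module.End k X) (σ : (H →ₗ[k] k) →ₗ[k] Module.End k X) :
    Module.End k (X ⊗[k] X) :=
  (∑ j, TensorProduct.map (ρ (e k H j)) (σ (ec k H j))) * (TensorProduct.comm k X X).toLinearMap

variable (k H)

/-- the regular comodule: `Dreg f x = f(x₁) x₂` -/
noncomputable def Dreg : (H →ₗ[k] k) →ₗ[k] Module.End k H where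
  toFun f := (TensorProduct.lid k H).toLinearMap ∘ₗ f.rTensor H ∘ₗ
    Coalgebra.comul (R := k) (A := H)
  map_add' f g := by
    rw [LinearMap.rTensor_add, LinearMap.add_comp, LinearMap.comp_add]
  map_smul' c f := by
    rw [LinearMap.rTensor_smul, LinearMap.smul_comp, LinearMap.comp_smul, RingHom.id_apply]

/-- the adjoint coaction: `sA f x = f(x₁ S(x₃)) x₂` -/
noncomputable def sA : (H →ₗ[k] k) →ₗ[k] Module.End k H where
  toFun f := ∑ j, ∑ l, (f ∘ₗ LinearMap.mulLeft k (e k H j) ∘ₗ Sa k H ∘ₗ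
      D k H l ∘ₗ D k H j).smulRight (e k H l)
  map_add' f g := by
    simp only [← Finset.sum_add_distrib]
    refine Finset.sum_congr rfl fun j _ => Finset.sum_congr rfl fun l _ => ?_
    ext x
    simp [add_smul]
  map_smul' c f := by
    simp only [Finset.smul_sum, RingHom.id_apply]
    refine Finset.sum_congr rfl fun j _ => Finset.sum_congr rfl fun l _ => ?_
    ext x
    simp [mul_smul]

/-- `piK x = λ(x₁ S(x₃)) x₂` -/
noncomputable def piK : H →ₗ[k] H := sA k H (lam k H)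

/-- the subalgebra of the cocommutative elements: `z₁ ⊗ z₂ = z₂ ⊗ z₁` -/
noncomputable def cocS : Subalgebra k H :=
  AlgHom.equalizer (((Algebra.TensorProduct.comm k H H).toAlgHom).comp
    (Bialgebra.comulAlgHom k H)) (Bialgebra.comulAlgHom k H)

end com

section mc

variable {k : Type} [Field k] {H : Type} [Ring H] [HopfAlgebra k H] [FiniteDimensional k H]

variable {ι : Type} [Fintype ι] [DecidableEq ι] {n : ι → ℕ}

/-- matrix coefficients: a basis `c i a b` of `H` with `Δ(c_ab) = ∑ c_ad ⊗ c_db`,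
`ε(c_ab) = δ_ab` -/
structure MC (B : Module.Basis ((i : ι) × (Fin (n i) × Fin (n i))) k H) : Prop where
  pos : ∀ i, 0 < n i
  comul : ∀ (i : ι) (a b : Fin (n i)), Coalgebra.comul (R := k) (B ⟨i, (a, b)⟩) =
    ∑ d, B ⟨i, (a, d)⟩ ⊗ₜ[k] B ⟨i, (d, b)⟩
  counit : ∀ (i : ι) (a b : Fin (n i)), ep k H (B ⟨i, (a, b)⟩) = if a = b then 1 else 0

/-- the characters -/
noncomputable def chi (B : Module.Basis ((i : ι) × (Fin (n i) × Fin (n i))) k H) (i : ι) : H :=
  ∑ a, B ⟨i, (a, a)⟩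

/-- the comodule `k^(n i)`: `f` acts by `w_a ↦ ∑_b f(c_ab) w_b` -/
noncomputable def kapM (B : Module.Basis ((i : ι) × (Fin (n i) × Fin (n i))) k H) (i : ι) :
    (H →ₗ[k] k) →ₗ[k] Module.End k (Fin (n i) → k) where
  toFun f := Matrix.toLin' (Matrix.of fun b a => f (B ⟨i, (a, b)⟩))
  map_add' f g := by
    rw [← map_add]
    rfl
  map_smul' c f := by
    rw [RingHom.id_apply, ← map_smul]
    rfl

end mc

end Pool.Agent.KExp
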