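import Pool.Agent.Lib.KExp.Defs
import Pool.Agent.Lib.KExp.Sw
import Pool.Agent.Lib.KExp.CE
import Pool.Agent.Lib.KOd.Defs

/-!
# KOd.RopUnit (MP_0d5e35_al, paper /team-store/MP_0d5e35_al_paper77.md)

(2.3), (2.4). isCom_Dreg: `Dreg f (Dreg g x) = g(x₁) f(x₂) x₃ = Dreg (cv g f) x` (coassociativity, sw2 lemmas: `Dreg f x = sw2 (fun a b => f a • b) x`).
trace_Dreg: by definition `Lam = ∑ i, trace (D i) • e i` and `D i = Dreg (ec i)`: `f(Lam) = ∑ f(e_i) Tr(Dreg e^i) = Tr(Dreg f)` (sum_e).
det_Rop_ne: `T' = ∑_j κ(e^j) ⊗ ρ(S e_j)` satisfies `Rop κ ρ * T' = 1`: `∑_{i,j} κ(e^i)κ(e^j) ⊗ ρ(e_i S(e_j)) = ∑ κ(cv e^j e^i) ⊗ ρ(e_i S(e_j)) =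
∑_l κ(e^l) ⊗ ρ((e_l)₂ S((e_l)₁)) = ∑_l ε(e_l) κ(e^l) ⊗ 1 = 1` (ce_cv, sw2_mul_S'); so `det (Rop κ ρ) * det T' = 1`.
-/

set_option autoImplicit false

open scoped TensorProduct

namespace Pool.Agent.KExp

variable {k : Type} [Field k] {H : Type} [Ring H] [HopfAlgebra k H] [FiniteDimensional k H]

variable {W V : Type} [AddCommGroup W] [Module k W] [AddCommGroup V] [Module k V]

private theorem ru_Dreg (f : H →ₗ[k] k) (x : H) :
    Dreg k H f x = sw2 k (fun a b => f a • b) x := by
  have h1 := sw2_eq_lift (f.smulRight (LinearMap.id : H →ₗ[k] H)) x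
  have key : ∀ t : H ⊗[k] H, TensorProduct.lift (f.smulRight (LinearMap.id : H →ₗ[k] H)) t =
      TensorProduct.lid k H (f.rTensor H t) := by
    intro t
    induction t using TensorProduct.induction_on with
    | zero => simp
    | tmul a b => simp
    | add a b ha hb => rw [map_add, ha, hb, map_add, map_add]
  rw [key] at h1
  exact h1.symm

private theorem ru_map_sw2 {P Q : Type} [AddCommGroup P] [Module k P] [AddCommGroup Q] [Module k Q]
    (F : P →ₗ[k] Q) (G : H → H → P) (x : H) :
    F (sw2 k G x) = sw2 k (fun a b => F (G a b)) x := by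
  unfold sw2
  rw [map_sum]

theorem isCom_Dreg : IsCom (Dreg k H) := by
  constructor
  · ext x
    change TensorProduct.lid k H ((Coalgebra.counit (R := k) (A := H)).rTensor H
      (Coalgebra.comul (R := k) x)) = x
    rw [Coalgebra.rTensor_counit_comul, TensorProduct.lid_tmul, one_smul]
  · intro f g
    ext x
    change Dreg k H f (Dreg k H g x) = Dreg k H (cv g f) x
    have h1 : Dreg k H f (Dreg k H g x) = sw3 k (fun a b c => (g a * f b) • c) x := by
      rw [ru_Dreg g x, ru_map_sw2, sw3_eq]
      refine Finset.sum_congr rfl fun j _ => ?_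
      change Dreg k H f (g (e k H j) • D k H j x) = sw2 k (fun b c => (g (e k H j) * f b) • c)
        (D k H j x)
      rw [map_smul, ru_Dreg]
      unfold sw2
      rw [Finset.smul_sum]
      refine Finset.sum_congr rfl fun l _ => ?_
      rw [smul_smul]
    have h2 : Dreg k H (cv g f) x = sw3 k (fun a b c => (g a * f b) • c) x := by
      rw [ru_Dreg, ← sw2_assoc]
      · refine Finset.sum_congr rfl fun j _ => ?_
        beta_reduce
        rw [cv_apply]
        unfold sw2
        rw [Finset.sum_smul]
      · refine ⟨fun b c => ⟨fun x y => ?_, fun r x => ?_⟩, fun a c => ⟨fun x y => ?_, fun r x => ?_⟩,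
          fun a b => ⟨fun x y => ?_, fun r x => ?_⟩⟩
        all_goals beta_reduce
        · rw [map_add, add_mul, add_smul]
        · rw [map_smul, smul_eq_mul, smul_smul, mul_assoc]
        · rw [map_add, mul_add, add_smul]
        · rw [map_smul, smul_eq_mul, smul_smul, mul_left_comm]
        · rw [smul_add]
        · rw [smul_comm]
    rw [h1, h2]

theorem trace_Dreg (f : H →ₗ[k] k) : LinearMap.trace k H (Dreg k H f) = f (Lam k H) := by
  have h1 : Dreg k H f = ∑ i, f (e k H i) • D k H i := by
    conv_lhs => rw [← sum_e f]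
    rw [map_sum]
    refine Finset.sum_congr rfl fun i _ => ?_
    rw [map_smul]
    rfl
  rw [h1, map_sum]
  unfold Lam
  rw [map_sum]
  refine Finset.sum_congr rfl fun i _ => ?_
  rw [map_smul, map_smul, smul_eq_mul, smul_eq_mul, mul_comm]

theorem det_Rop_ne (hS : ∀ x : H, Sa k H (Sa k H x) = x) [FiniteDimensional k W]
    [FiniteDimensional k V] {κ : (H →ₗ[k] k) →ₗ[k] Module.End k W} (hκ : IsCom κ)
    (ρ : H →ₐ[k] Module.End k V) : LinearMap.det (Rop κ ρ) ≠ 0 := by
  have key : Rop κ ρ * (∑ j, TensorProduct.map (κ (ec k H j)) (ρ (Sa k H (e k H j)))) = 1 := by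
    unfold Rop
    rw [Finset.sum_mul]
    have h1 : ∀ i, TensorProduct.map (κ (ec k H i)) (ρ (e k H i)) *
        (∑ j, TensorProduct.map (κ (ec k H j)) (ρ (Sa k H (e k H j)))) =
        ∑ j, TensorProduct.map (κ (cv (ec k H j) (ec k H i)))
          (ρ (e k H i * Sa k H (e k H j))) := by
      intro i
      rw [Finset.mul_sum]
      refine Finset.sum_congr rfl fun j _ => ?_
      rw [← TensorProduct.map_mul, hκ.mul, map_mul]
    rw [Finset.sum_congr rfl fun i _ => h1 i, Finset.sum_comm]
    have h2 := ce_cv (k := k) (H := H)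
      (G := fun a b f => TensorProduct.map (κ f) (ρ (b * Sa k H a)))
      (fun b f => ⟨fun x y => by
          rw [map_add, mul_add, map_add, TensorProduct.map_add_right], fun r x => by
          rw [map_smul, mul_smul_comm, map_smul, TensorProduct.map_smul_right]⟩)
      (fun a f => ⟨fun x y => by
          rw [add_mul, map_add, TensorProduct.map_add_right], fun r x => by
          rw [smul_mul_assoc, map_smul, TensorProduct.map_smul_right]⟩)
      (fun a b => ⟨fun x y => by
          rw [map_add, TensorProduct.map_add_left], fun r x => by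
          rw [map_smul, TensorProduct.map_smul_left]⟩)
    rw [h2]
    have h3 : ∀ l, sw2 k (fun a b => TensorProduct.map (κ (ec k H l)) (ρ (b * Sa k H a)))
        (e k H l) = ep k H (e k H l) • TensorProduct.map (κ (ec k H l)) (1 : Module.End k V) := by
      intro l
      have h4 := sw2_mul_S' hS (f := fun v : H => TensorProduct.map (κ (ec k H l)) (ρ v))
        ⟨fun x y => by rw [map_add, TensorProduct.map_add_right],
          fun r x => by rw [map_smul, TensorProduct.map_smul_right]⟩ (e k H l)
      rw [map_one] at h4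
      exact h4
    rw [Finset.sum_congr rfl fun l _ => h3 l]
    have h5 : ∑ l, ep k H (e k H l) • TensorProduct.map (κ (ec k H l)) (1 : Module.End k V) =
        TensorProduct.map (κ (∑ l, ep k H (e k H l) • ec k H l)) (1 : Module.End k V) := by
      have h6 := map_sum ((TensorProduct.mapBilinear (RingHom.id k) W V W V).flip
        (1 : Module.End k V)) (fun l => κ (ep k H (e k H l) • ec k H l)) Finset.univ
      simp only [LinearMap.flip_apply, TensorProduct.mapBilinear_apply] at h6
      rw [map_sum, h6]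
      refine Finset.sum_congr rfl fun l _ => ?_
      rw [map_smul, TensorProduct.map_smul_left]
    rw [h5, sum_e, hκ.one]
    exact TensorProduct.map_one
  intro h0
  have h1 := congrArg LinearMap.det key
  rw [map_mul, h0, zero_mul, map_one] at h1
  exact zero_ne_one h1

end Pool.Agent.KExp
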