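import Pool.Agent.Lib.KExp.Defs
import Pool.Agent.Lib.KExp.Sw
import Pool.Agent.Lib.KExp.CE
import Pool.Agent.Lib.KExp.LInt
import Pool.Agent.Lib.KOd.Defs
import Pool.Agent.Lib.KOd.RopUnit

/-!
# KOd.LamCoc (MP_0d5e35_al, paper /team-store/MP_0d5e35_al_paper77.md)

Cocommutative elements in Sweedler form. coc_sw2: `z ∈ cocS` means `comm (Δ z) = Δ z`; `sw2 F z = lift F (Δ z)` (sw2_eq_lift / sw2_repr for
bilinear `F`). coc_sw3: `z₁ ⊗ z₂ ⊗ z₃ = z₃ ⊗ z₁ ⊗ z₂` (apply coc_sw2 to `F' a y = sw2 (fun b c => F a b c) y`, then sw2_assoc: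
`∑ F(z₂, z₁₁, z₁₂) = ∑ F(z₃, z₁, z₂)`). mem_cocS_of: if `∑ F z₁ z₂ = ∑ F z₂ z₁` for `F = ` tensor then `z ∈ cocS`.
Lam_coc: for functionals `f, g`: `(cv f g)(Lam) = Tr(Dreg (cv f g)) = Tr(Dreg g * Dreg f) = Tr(Dreg f * Dreg g) = (cv g f)(Lam)` (isCom_Dreg, trace_Dreg,
`LinearMap.trace_mul_comm`), and the functionals `f ⊗ g` separate the points of `H ⊗ H`.
Lam_move: `Lam₁ x ⊗ Lam₂ = Lam₁ ⊗ Lam₂ S(x)`: `Lam₁ x ⊗ Lam₂ = Lam₁ x₁ ⊗ Lam₂ x₂ S(x₃) = (Lam x₁)₁ ⊗ (Lam x₁)₂ S(x₂) = Lam₁ ⊗ Lam₂ S(x)`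
(Lam_mul of KExp.LInt; or from Lam_shift with Sa_Lam).
-/

/-!
# KOd.LamCoc (MP_0d5e35_al, paper /team-store/MP_0d5e35_al_paper77.md)

Cocommutative elements in Sweedler form. coc_sw2: `z ∈ cocS` means `comm (Δ z) = Δ z`; `sw2 F z = lift F (Δ z)` (sw2_eq_lift / sw2_repr for
bilinear `F`). coc_sw3: `z₁ ⊗ z₂ ⊗ z₃ = z₃ ⊗ z₁ ⊗ z₂` (apply coc_sw2 to `F' a y = sw2 (fun b c => F a b c) y`, then sw2_assoc:
`∑ F(z₂, z₁₁, z₁₂) = ∑ F(z₃, z₁, z₂)`). mem_cocS_of: if `∑ F z₁ z₂ = ∑ F z₂ z₁` for `F = ` tensor then `z ∈ cocS`.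
Lam_coc: for functionals `f, g`: `(cv f g)(Lam) = Tr(Dreg (cv f g)) = Tr(Dreg g * Dreg f) = Tr(Dreg f * Dreg g) = (cv g f)(Lam)` (isCom_Dreg, trace_Dreg,
`LinearMap.trace_mul_comm`), and the functionals `f ⊗ g` separate the points of `H ⊗ H`.
Lam_move: `Lam₁ x ⊗ Lam₂ = Lam₁ ⊗ Lam₂ S(x)`: `Lam₁ x ⊗ Lam₂ = Lam₁ x₁ ⊗ Lam₂ x₂ S(x₃) = (Lam x₁)₁ ⊗ (Lam x₁)₂ S(x₂) = Lam₁ ⊗ Lam₂ S(x)`
(Lam_mul of KExp.LInt; or from Lam_shift with Sa_Lam).
-/

set_option autoImplicit false

open scoped TensorProduct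

namespace Pool.Agent.KExp

variable {k : Type} [Field k] {H : Type} [Ring H] [HopfAlgebra k H] [FiniteDimensional k H]

variable {Z : Type} [AddCommGroup Z] [Module k Z]

private noncomputable def lc_bl {F : H → H → Z} (hF : Bil2 k F) : H →ₗ[k] H →ₗ[k] Z :=
  LinearMap.mk₂ k F (fun a a' b => (hF.1 b).map_add a a') (fun c a b => (hF.1 b).map_smul c a)
    (fun a b b' => (hF.2 a).map_add b b') (fun c a b => (hF.2 a).map_smul c b)

private theorem lc_comm (B : H →ₗ[k] H →ₗ[k] Z) (z : H) :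
    sw2 k (fun a b => B b a) z =
      TensorProduct.lift B (TensorProduct.comm k H H (Coalgebra.comul (R := k) z)) := by
  have h1 : sw2 k (fun a b => B b a) z = sw2 k (fun a b => B.flip a b) z := rfl
  rw [h1, sw2_eq_lift]
  have h2 : TensorProduct.lift B.flip =
      TensorProduct.lift B ∘ₗ (TensorProduct.comm k H H).toLinearMap := by
    apply TensorProduct.ext'
    intro x y
    rfl
  rw [h2]
  rfl

omit [FiniteDimensional k H] in
private theorem lc_mem {z : H} : z ∈ cocS k H ↔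
    TensorProduct.comm k H H (Coalgebra.comul (R := k) z) = Coalgebra.comul (R := k) z := by
  unfold cocS
  rw [AlgHom.mem_equalizer]
  rfl

private theorem lc_lin {P : Type} [AddCommGroup P] [Module k P] {F : P → H → H → Z}
    (hF : ∀ a b, IsLinearMap k (fun p => F p a b)) (h : H) :
    IsLinearMap k (fun p => sw2 k (F p) h) := by
  constructor
  · intro x y
    simp only [sw2]
    rw [← Finset.sum_add_distrib]
    exact Finset.sum_congr rfl fun j _ => (hF _ _).map_add x y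
  · intro c x
    simp only [sw2]
    rw [Finset.smul_sum]
    exact Finset.sum_congr rfl fun j _ => (hF _ _).map_smul c x

theorem coc_sw2 {z : H} (hz : z ∈ cocS k H) {F : H → H → Z} (hF : Bil2 k F) :
    sw2 k F z = sw2 k (fun a b => F b a) z := by
  have h1 : sw2 k F z = sw2 k (fun a b => lc_bl hF a b) z := rfl
  have h2 : sw2 k (fun a b => F b a) z = sw2 k (fun a b => lc_bl hF b a) z := rfl
  rw [h1, h2, sw2_eq_lift, lc_comm, lc_mem.1 hz]

theorem coc_sw3 {z : H} (hz : z ∈ cocS k H) {F : H → H → H → Z} (hF : Tri3 k F) :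
    sw3 k F z = sw3 k (fun a b c => F c a b) z := by
  have hG : Bil2 k (fun a y => sw2 k (fun b c => F a b c) y) :=
    ⟨fun y => lc_lin (F := fun a b c => F a b c) (fun b c => hF.1 b c) y,
      fun a => sw2_linear ⟨fun c => hF.2.1 a c, fun b => hF.2.2 a b⟩⟩
  have hF' : Tri3 k (fun a b c => F c a b) :=
    ⟨fun b c => hF.2.1 c b, fun a c => hF.2.2 c a, fun a b => hF.1 a b⟩
  rw [sw3_eq, coc_sw2 hz hG, ← sw2_assoc hF']

theorem mem_cocS_of {z : H} (h : sw2 k (fun a b => a ⊗ₜ[k] b) z = sw2 k (fun a b => b ⊗ₜ[k] a) z) :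
    z ∈ cocS k H := by
  rw [lc_mem]
  have h1 := sw2_eq_lift (TensorProduct.mk k H H) z
  have h2 := lc_comm (TensorProduct.mk k H H) z
  have h3 : TensorProduct.lift (TensorProduct.mk k H H) = LinearMap.id := by
    ext a b
    simp
  rw [h3] at h1 h2
  have h4 : sw2 k (fun a b => a ⊗ₜ[k] b) z = Coalgebra.comul (R := k) z := h1
  have h5 : sw2 k (fun a b => b ⊗ₜ[k] a) z =
      TensorProduct.comm k H H (Coalgebra.comul (R := k) z) := h2
  rw [← h4, ← h5, h4, h5] at *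
  exact h.symm

theorem Lam_coc : Lam k H ∈ cocS k H := by
  apply mem_cocS_of
  have h1 : ∀ f g : H →ₗ[k] k, cv f g (Lam k H) = cv g f (Lam k H) := by
    intro f g
    rw [← trace_Dreg, ← trace_Dreg, ← isCom_Dreg.mul, ← isCom_Dreg.mul, LinearMap.trace_mul_comm]
  have h2 : ∀ j, D k H j (Lam k H) = ∑ l, cv (ec k H j) (ec k H l) (Lam k H) • e k H l := by
    intro j
    conv_lhs => rw [← sum_ec (k := k) (D k H j (Lam k H))]
    exact Finset.sum_congr rfl fun l _ => by rw [cv_ec]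
  have h3 : sw2 k (fun a b => a ⊗ₜ[k] b) (Lam k H) =
      ∑ j, ∑ l, cv (ec k H j) (ec k H l) (Lam k H) • (e k H j ⊗ₜ[k] e k H l) := by
    unfold sw2
    refine Finset.sum_congr rfl fun j _ => ?_
    beta_reduce
    rw [h2, TensorProduct.tmul_sum]
    exact Finset.sum_congr rfl fun l _ => TensorProduct.tmul_smul _ _ _
  have h4 : sw2 k (fun a b => b ⊗ₜ[k] a) (Lam k H) =
      ∑ j, ∑ l, cv (ec k H j) (ec k H l) (Lam k H) • (e k H l ⊗ₜ[k] e k H j) := by
    unfold sw2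
    refine Finset.sum_congr rfl fun j _ => ?_
    beta_reduce
    rw [h2, TensorProduct.sum_tmul]
    exact Finset.sum_congr rfl fun l _ => (TensorProduct.smul_tmul' _ _ _).symm
  rw [h3, h4, Finset.sum_comm]
  refine Finset.sum_congr rfl fun j _ => Finset.sum_congr rfl fun l _ => ?_
  rw [h1]

theorem Lam_move (hS : ∀ x : H, Sa k H (Sa k H x) = x) {F : H → H → Z} (hF : Bil2 k F) (x : H) :
    sw2 k (fun a b => F (a * x) b) (Lam k H) = sw2 k (fun a b => F a (b * Sa k H x)) (Lam k H) := by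
  have hl1 : ∀ (p a b : H), IsLinearMap k (fun a => F (p * a) b) := fun p a b =>
    ⟨fun x y => by beta_reduce; rw [mul_add, (hF.1 b).map_add],
      fun c x => by beta_reduce; rw [mul_smul_comm, (hF.1 b).map_smul]⟩
  have hl2 : ∀ (a q : H), IsLinearMap k (fun v => F a (q * v)) := fun a q =>
    ⟨fun x y => by beta_reduce; rw [mul_add, (hF.2 a).map_add],
      fun c x => by beta_reduce; rw [mul_smul_comm, (hF.2 a).map_smul]⟩
  have hl3 : ∀ (a q : H), IsLinearMap k (fun c => F a (q * Sa k H c)) := fun a q =>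
    ⟨fun x y => by beta_reduce; rw [map_add, mul_add, (hF.2 a).map_add],
      fun c x => by beta_reduce; rw [map_smul, mul_smul_comm, (hF.2 a).map_smul]⟩
  have hT : Tri3 k (fun a b c => sw2 k (fun p q => F (p * a) (q * (b * Sa k H c))) (Lam k H)) := by
    refine ⟨fun b c => lc_lin (F := fun a p q => F (p * a) (q * (b * Sa k H c)))
        (fun p q => hl1 p p _) _,
      fun a c => lc_lin (F := fun b p q => F (p * a) (q * (b * Sa k H c)))
        (fun p q => ?_) _,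
      fun a b => lc_lin (F := fun c p q => F (p * a) (q * (b * Sa k H c)))
        (fun p q => ?_) _⟩
    · refine ⟨fun x y => ?_, fun c x => ?_⟩
      all_goals beta_reduce
      · rw [add_mul, (hl2 _ _).map_add]
      · rw [smul_mul_assoc, (hl2 _ _).map_smul]
    · refine ⟨fun x y => ?_, fun c x => ?_⟩
      all_goals beta_reduce
      · rw [map_add, mul_add, (hl2 _ _).map_add]
      · rw [map_smul, mul_smul_comm, (hl2 _ _).map_smul]
  have h0 := sw2_assoc hT x
  rw [sw3_eq] at h0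
  have h1 : ∀ a y : H, sw2 k (fun b c => sw2 k (fun p q => F (p * a) (q * (b * Sa k H c)))
      (Lam k H)) y = ep k H y • sw2 k (fun p q => F (p * a) (q * 1)) (Lam k H) := by
    intro a y
    exact sw2_mul_S (f := fun v : H => sw2 k (fun p q => F (p * a) (q * v)) (Lam k H))
      (lc_lin (F := fun v p q => F (p * a) (q * v)) (fun p q => hl2 _ _) _) y
  have h2 : sw2 k (fun a y => sw2 k (fun b c => sw2 k (fun p q => F (p * a)
      (q * (b * Sa k H c))) (Lam k H)) y) x = sw2 k (fun p q => F (p * x) (q * 1)) (Lam k H) := by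
    simp only [h1]
    exact sw2_counit_right (f := fun a : H => sw2 k (fun p q => F (p * a) (q * 1)) (Lam k H))
      (lc_lin (F := fun a p q => F (p * a) (q * 1)) (fun p q => hl1 p p _) _) x
  have h3 : ∀ y c : H, sw2 k (fun a b => sw2 k (fun p q => F (p * a) (q * (b * Sa k H c)))
      (Lam k H)) y = ep k H y • sw2 k (fun p q => F p (q * Sa k H c)) (Lam k H) := by
    intro y c
    have hB : Bil2 k (fun p q => F p (q * Sa k H c)) := by
      refine ⟨fun q => hF.1 _, fun p => ⟨fun x y => ?_, fun r x => ?_⟩⟩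
      all_goals beta_reduce
      · rw [add_mul, (hF.2 p).map_add]
      · rw [smul_mul_assoc, (hF.2 p).map_smul]
    have h4 := sw2_mul hB (Lam k H) y
    rw [Lam_mul hS, (sw2_linear hB).map_smul] at h4
    rw [h4]
    unfold sw2
    rw [Finset.sum_comm]
    refine Finset.sum_congr rfl fun j _ => Finset.sum_congr rfl fun l _ => ?_
    beta_reduce
    rw [mul_assoc]
  have h5 : sw2 k (fun y c => sw2 k (fun a b => sw2 k (fun p q => F (p * a)
      (q * (b * Sa k H c))) (Lam k H)) y) x =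
      sw2 k (fun p q => F p (q * Sa k H x)) (Lam k H) := by
    simp only [h3]
    exact sw2_counit_left (f := fun c : H => sw2 k (fun p q => F p (q * Sa k H c)) (Lam k H))
      (lc_lin (F := fun c p q => F p (q * Sa k H c)) (fun p q => hl3 _ _) _) x
  rw [h2, h5] at h0
  rw [h0]
  simp only [mul_one]

end Pool.Agent.KExp
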