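import Pool.Agent.Lib.KExp.Defs
import Pool.Agent.Lib.KExp.Sw
import Pool.Agent.Lib.KExp.CE
import Pool.Agent.Lib.KExp.PYD
import Pool.Agent.Lib.KOd.Defs
import Pool.Agent.Lib.KOd.LamCoc

/-!
# KOd.AdYD (MP_0d5e35_al, paper /team-store/MP_0d5e35_al_paper77.md)

(3.4) `A' = H` with left multiplication and the adjoint coaction. sA_apply: definition (sw3). isYD_A: the embedding
`j : H → H ⊗ H`, `x ↦ x ⊗ 1`, is injective (`(id ⊗ ε) ∘ j = id`), `rP h (j x) = j (h x)` (rP_tmul) and `sP f (j x) = j (sA f x)` (sP_tmul: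
`f(x₁ 1 S(x₃)) x₂ ⊗ 1`), so the three relations follow from isYD_P (or copy the proof of isYD_P). theta_A: from theta_P (`w = 1`), or directly
`x₁ S(x₃) x₂ = x₁ ε(x₂)`, (`S(x₂) x₁ = ε`). mulRight_sA: `sA f (x u) = f(x₁ u₁ S(u₃) S(x₃)) x₂ u₂` and for cocommutative `u` (coc_sw3)
`u₁ S(u₃) ⊗ u₂ = u₃ S(u₂) ⊗ u₁ = 1 ⊗ u` (S² = 1).
-/

set_option autoImplicit false

open scoped TensorProduct

namespace Pool.Agent.KExp

variable {k : Type} [Field k] {H : Type} [Ring H] [HopfAlgebra k H] [FiniteDimensional k H]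

section aux

variable {Z Z' : Type} [AddCommGroup Z] [Module k Z] [AddCommGroup Z'] [Module k Z']

private theorem yd_map_sw3 (φ : Z →ₗ[k] Z') (F : H → H → H → Z) (h : H) :
    φ (sw3 k F h) = sw3 k (fun a b c => φ (F a b c)) h := by
  simp only [sw3, map_sum]

private theorem yd_lin_sw2 {F : Z' → H → H → Z} (hF : ∀ a b, IsLinearMap k (fun z => F z a b))
    (h : H) : IsLinearMap k (fun z => sw2 k (F z) h) := by
  constructor
  · intro x y
    simp only [sw2, (hF _ _).map_add, Finset.sum_add_distrib]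
  · intro c x
    simp only [sw2, (hF _ _).map_smul, Finset.smul_sum]

private theorem yd_sw2_comm (F : H → H → H → H → Z) (x w : H) :
    sw2 k (fun a b => sw2 k (fun p q => F a b p q) w) x =
      sw2 k (fun p q => sw2 k (fun a b => F a b p q) x) w := by
  simp only [sw2]
  exact Finset.sum_comm

private theorem yd_sw3_mul {F : H → H → H → Z} (hF : Tri3 k F) (g h : H) :
    sw3 k F (g * h) = sw3 k (fun a b c => sw3 k (fun a' b' c' =>
      F (a * a') (b * b') (c * c')) h) g := by
  have hb : ∀ a, Bil2 k (fun b c => F a b c) := fun a => ⟨fun c => hF.2.1 a c, fun b => hF.2.2 a b⟩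
  rw [sw3_eq, sw2_mul (k := k)]
  · simp only [sw3_eq]
    congr 1
    funext a a'
    rw [yd_sw2_comm (k := k) (fun b c a'' y => sw2 k (fun b' c' => F (a * a'') (b * b') (c * c')) y)
      a' h]
    congr 1
    funext b b'
    exact sw2_mul (hb _) _ _
  · refine ⟨fun y => ?_, fun a => ?_⟩
    · exact yd_lin_sw2 (F := fun a b c => F a b c) (fun b c => hF.1 b c) y
    · exact sw2_linear (hb a)

private theorem yd_jinj {x y : H} (h : x ⊗ₜ[k] (1 : H) = y ⊗ₜ[k] (1 : H)) : x = y := by
  have := congrArg (fun t => (TensorProduct.rid k H) ((ep k H).lTensor H t)) h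
  simpa [LinearMap.lTensor_tmul] using this

end aux

theorem sA_apply (f : H →ₗ[k] k) (x : H) :
    sA k H f x = sw3 k (fun a b c => f (a * Sa k H c) • b) x := by
  simp [sA, sw3, LinearMap.sum_apply]

private theorem yd_j_sA (f : H →ₗ[k] k) (x : H) :
    (sA k H f x) ⊗ₜ[k] (1 : H) = sP f (x ⊗ₜ[k] (1 : H)) := by
  rw [sP_tmul, sA_apply]
  have e1 : ∀ a b c : H, sw2 k (fun p q => f (a * (p * Sa k H c)) • (b ⊗ₜ[k] q)) (1 : H) =
      (f (a * Sa k H c) • b) ⊗ₜ[k] (1 : H) := by
    intro a b c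
    rw [sw2_one (k := k)]
    · rw [one_mul, TensorProduct.smul_tmul']
    · refine ⟨fun q => ⟨fun u v => ?_, fun r u => ?_⟩, fun p => ⟨fun u v => ?_, fun r u => ?_⟩⟩
      · simp [add_mul, mul_add, add_smul]
      · simp [smul_smul]
      · beta_reduce
        rw [TensorProduct.tmul_add, smul_add]
      · beta_reduce
        rw [TensorProduct.tmul_smul, smul_comm]
  simp only [e1]
  exact yd_map_sw3 (k := k) ((TensorProduct.mk k H H).flip (1 : H))
    (fun a b c => f (a * Sa k H c) • b) x

variable (k H) in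
theorem isYD_A (hS : ∀ x : H, Sa k H (Sa k H x) = x) : IsYD (Algebra.lmul k H) (sA k H) := by
  have hP := isYD_P (k := k) (H := H) hS
  refine ⟨?_, ?_, ?_⟩
  · ext x
    apply yd_jinj (k := k)
    rw [yd_j_sA, hP.one]
    rfl
  · intro f g
    ext x
    apply yd_jinj (k := k)
    rw [Module.End.mul_apply, yd_j_sA, yd_j_sA, yd_j_sA, ← hP.mul]
    rfl
  · intro f h
    ext x
    apply yd_jinj (k := k)
    rw [Module.End.mul_apply, yd_j_sA]
    have e1 : (Algebra.lmul k H h x) ⊗ₜ[k] (1 : H) = rP h (x ⊗ₜ[k] (1 : H)) := by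
      rw [rP_tmul]
      rfl
    have e2 : sP f ((rP h) (x ⊗ₜ[k] (1 : H))) =
        (sP f * rP h : Module.End k (H ⊗[k] H)) (x ⊗ₜ[k] (1 : H)) := rfl
    rw [e1, e2, hP.yd]
    have e3 : (sw3 k (fun a b c => (rP (k := k) (H := H)) b * sP (tw f a (Sa k H c))) h)
        (x ⊗ₜ[k] (1 : H)) = sw3 k (fun a b c => ((rP (k := k) (H := H)) b *
          sP (tw f a (Sa k H c))) (x ⊗ₜ[k] (1 : H))) h := by
      simp only [sw3, LinearMap.sum_apply]
    have e4 : (sw3 k (fun a b c => Algebra.lmul k H b * sA k H (tw f a (Sa k H c))) h) x =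
        sw3 k (fun a b c => b * (sA k H (tw f a (Sa k H c)) x)) h := by
      simp only [sw3, LinearMap.sum_apply]
      rfl
    rw [e3, e4]
    have e5 := yd_map_sw3 (k := k) ((TensorProduct.mk k H H).flip (1 : H))
      (fun a b c => b * (sA k H (tw f a (Sa k H c)) x)) h
    simp only [LinearMap.flip_apply, TensorProduct.mk_apply] at e5
    rw [e5]
    congr 1
    funext a b c
    rw [Module.End.mul_apply, ← yd_j_sA, rP_tmul]

variable (k H) in
theorem theta_A (hS : ∀ x : H, Sa k H (Sa k H x) = x) :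
    theta (Algebra.lmul k H) (sA k H) = 1 := by
  ext x
  apply yd_jinj (k := k)
  have h1 : (theta (Algebra.lmul k H) (sA k H) x) ⊗ₜ[k] (1 : H) =
      theta (rP (k := k) (H := H)) sP (x ⊗ₜ[k] (1 : H)) := by
    unfold theta
    rw [LinearMap.sum_apply, LinearMap.sum_apply, TensorProduct.sum_tmul]
    refine Finset.sum_congr rfl fun i _ => ?_
    rw [Module.End.mul_apply, Module.End.mul_apply, ← yd_j_sA, rP_tmul]
    rfl
  rw [h1, theta_P hS, sw2_one (k := k)]
  · rw [mul_one]
    rfl
  · refine ⟨fun q => ⟨fun u v => ?_, fun r u => ?_⟩, fun p => ⟨fun u v => ?_, fun r u => ?_⟩⟩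
    · beta_reduce
      rw [mul_add, TensorProduct.add_tmul]
    · beta_reduce
      rw [mul_smul_comm, ← TensorProduct.smul_tmul']
    · beta_reduce
      rw [TensorProduct.tmul_add]
    · beta_reduce
      rw [TensorProduct.tmul_smul]

theorem mulRight_lmul (u h : H) : LinearMap.mulRight k u * Algebra.lmul k H h =
    Algebra.lmul k H h * LinearMap.mulRight k u := by
  ext x
  simp [Module.End.mul_apply, mul_assoc]

theorem mulRight_sA (hS : ∀ x : H, Sa k H (Sa k H x) = x) {u : H} (hu : u ∈ cocS k H)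
    (f : H →ₗ[k] k) : LinearMap.mulRight k u * sA k H f = sA k H f * LinearMap.mulRight k u := by
  ext x
  rw [Module.End.mul_apply, Module.End.mul_apply, LinearMap.mulRight_apply,
    LinearMap.mulRight_apply, sA_apply, sA_apply]
  have hT : Tri3 k (fun a b c : H => f (a * Sa k H c) • b) := by
    refine ⟨fun b c => ⟨fun u v => ?_, fun r u => ?_⟩, fun a c => ⟨fun u v => ?_, fun r u => ?_⟩,
      fun a b => ⟨fun u v => ?_, fun r u => ?_⟩⟩
    · simp [add_mul, add_smul]
    · simp [smul_smul]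
    · simp
    · simp only [smul_smul, mul_comm]
    · simp [mul_add, add_smul]
    · simp [smul_smul]
  rw [yd_sw3_mul hT]
  have e1 : (sw3 k (fun a b c => f (a * Sa k H c) • b) x) * u =
      sw3 k (fun a b c => f (a * Sa k H c) • (b * u)) x := by
    simp only [sw3, Finset.sum_mul, smul_mul_assoc]
  rw [e1]
  congr 1
  funext a b c
  have hT' : Tri3 k (fun a' b' c' : H => f (a * a' * Sa k H (c * c')) • (b * b')) := by
    refine ⟨fun b c => ⟨fun u v => ?_, fun r u => ?_⟩, fun a c => ⟨fun u v => ?_, fun r u => ?_⟩,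
      fun a b => ⟨fun u v => ?_, fun r u => ?_⟩⟩
    · simp [mul_add, add_mul, add_smul]
    · simp [smul_smul]
    · simp [mul_add]
    · simp only [mul_smul_comm, smul_smul, mul_comm]
    · simp [mul_add, add_smul]
    · simp [smul_smul]
  rw [coc_sw3 hu hT', sw3_eq]
  have e2 : ∀ a' y : H, sw2 k (fun b' c' => f (a * c' * Sa k H (c * b')) • (b * a')) y =
      ep k H y • (f (a * Sa k H c) • (b * a')) := by
    intro a' y
    have hl : IsLinearMap k (fun t : H => f (a * t * Sa k H c) • (b * a')) := by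
      constructor
      · intro u v
        simp [mul_add, add_mul, add_smul]
      · intro r u
        simp [smul_smul]
    have := sw2_mul_S' hS hl y
    simp only [Sa_mul]
    simpa [mul_assoc] using this
  simp only [e2]
  symm
  apply sw2_counit_right (f := fun t => f (a * Sa k H c) • (b * t))
  constructor
  · intro u v
    rw [mul_add, smul_add]
  · intro r u
    rw [mul_smul_comm, smul_comm]

end Pool.Agent.KExp
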