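import Pool.Agent.Lib.KExp.Defs
import Pool.Agent.Lib.KExp.Sw
import Pool.Agent.Lib.KExp.CE
import Pool.Agent.Lib.KExp.LamInt
import Pool.Agent.Lib.KExp.LInt
import Pool.Agent.Lib.KExp.TensApp
import Pool.Agent.Lib.KExp.TensYD
import Pool.Agent.Lib.KOd.Defs
import Pool.Agent.Lib.KOd.LamCoc
import Pool.Agent.Lib.KOd.AdYD

/-!
# KOd.AdT0 (MP_0d5e35_al, paper /team-store/MP_0d5e35_al_paper77.md)

(3.6) `tL w = Lam₁ ⊗ Lam₂ w`.
T0_Ad: `tR Lam (x ⊗ y) = Lam₁ x ⊗ Lam₂ y = Lam₁ ⊗ Lam₂ S(x) y = tL(S(x) y)` (Lam_move). `tS sA sA f (a ⊗ b) = f(a₁ S(a₃) b₁ S(b₃)) a₂ ⊗ b₂` (tS_apply, sA_apply,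
ce_ext / sum_ec). So `tS sA sA λ (tL w) = λ(Lam₁ S(Lam₃) Lam₄ w₁ S(w₃) S(Lam₆)) Lam₂ ⊗ Lam₅ w₂` (`Sa (Lam₆ w₃) = S(w₃) S(Lam₆)`), `S(Lam₃) Lam₄ = ε`:
`= λ(Lam₁ w₁ S(w₃) S(Lam₄)) Lam₂ ⊗ Lam₃ w₂ = λ(S(Lam₄) Lam₁ w₁ S(w₃)) Lam₂ ⊗ Lam₃ w₂` (lam_mul_comm); Lam cocommutative (Lam_coc: `Lam₁ ⊗ Lam₂ ⊗ Lam₃ ⊗ Lam₄ ->
Lam₂ ⊗ Lam₃ ⊗ Lam₄ ⊗ Lam₁`, from coc_sw2): `λ(S(Lam₁) Lam₂ w₁ S(w₃)) Lam₃ ⊗ Lam₄ w₂ = λ(w₁ S(w₃)) Lam₁ ⊗ Lam₂ w₂ = tL(π w)`.
mulRight_tL: Lam_move: `Lam₁ u ⊗ Lam₂ w = Lam₁ ⊗ Lam₂ S(u) w`.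
cBr_tL: `cBr (a ⊗ b) = a₁ S(a₃) b ⊗ a₂`: `Lam₁ S(Lam₃) Lam₄ w ⊗ Lam₂ = Lam₁ w ⊗ Lam₂ = Lam₁ ⊗ Lam₂ S(w)`.
mul_tL: `S(Lam₁) Lam₂ z = ε(Lam) z = m z` (sw2_S_mul, ep_Lam).
-/

set_option autoImplicit false

open scoped TensorProduct

namespace Pool.Agent.KExp

variable {k : Type} [Field k] {H : Type} [Ring H] [HopfAlgebra k H] [FiniteDimensional k H]

variable (k H) in
/-- `tL w = Lam₁ ⊗ Lam₂ w` -/
noncomputable def tL : H →ₗ[k] H ⊗[k] H :=
  ∑ j, (TensorProduct.mk k H H (e k H j)) ∘ₗ LinearMap.mulLeft k (D k H j (Lam k H))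

private theorem tL_apply (w : H) :
    tL k H w = sw2 k (fun a b => a ⊗ₜ[k] (b * w)) (Lam k H) := by
  unfold tL sw2
  rw [LinearMap.sum_apply]
  rfl

private theorem tmul_bil (f g : H →ₗ[k] H) : Bil2 k (fun a b : H => f a ⊗ₜ[k] g b) := by
  refine ⟨fun b => ⟨fun x y => ?_, fun c x => ?_⟩, fun a => ⟨fun x y => ?_, fun c x => ?_⟩⟩
  all_goals beta_reduce
  · rw [map_add, TensorProduct.add_tmul]
  · rw [map_smul, TensorProduct.smul_tmul']
  · rw [map_add, TensorProduct.tmul_add]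
  · rw [map_smul, TensorProduct.tmul_smul]

private theorem map_sw2' {Z Z' : Type} [AddCommGroup Z] [Module k Z] [AddCommGroup Z']
    [Module k Z'] (φ : Z →ₗ[k] Z') (F : H → H → Z) (h : H) :
    φ (sw2 k F h) = sw2 k (fun a b => φ (F a b)) h := by
  simp only [sw2, map_sum]

private theorem lin_sw2' {Z Z' : Type} [AddCommGroup Z] [Module k Z] [AddCommGroup Z']
    [Module k Z'] {F : Z' → H → H → Z} (hF : ∀ a b, IsLinearMap k (fun z => F z a b))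
    (h : H) : IsLinearMap k (fun z => sw2 k (F z) h) := by
  constructor
  · intro x y
    simp only [sw2, (hF _ _).map_add, Finset.sum_add_distrib]
  · intro c x
    simp only [sw2, (hF _ _).map_smul, Finset.smul_sum]

/-- `σ(λ)` and `ρ(Λ)` commute for all Yetter-Drinfeld data -/
private theorem yd_comm (hS : ∀ x : H, Sa k H (Sa k H x) = x) {X : Type} [AddCommGroup X]
    [Module k X] {ρ : H →ₐ[k] Module.End k X} {σ : (H →ₗ[k] k) →ₗ[k] Module.End k X}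
    (hX : IsYD ρ σ) : σ (lam k H) * ρ (Lam k H) = ρ (Lam k H) * σ (lam k H) := by
  have htw : ∀ a c : H, tw (lam k H) a (Sa k H c) = tw (lam k H) (Sa k H c * a) 1 := by
    intro a c
    ext x
    rw [tw_apply, tw_apply, mul_one, ← mul_assoc, lam_mul_comm, mul_assoc]
  have htw1 : tw (lam k H) (1 : H) 1 = lam k H := by
    ext x
    rw [tw_apply, one_mul, mul_one]
  have hadd : ∀ a b : H, tw (lam k H) (a + b) 1 = tw (lam k H) a 1 + tw (lam k H) b 1 := by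
    intro a b
    ext x
    rw [LinearMap.add_apply, tw_apply, tw_apply, tw_apply, add_mul, map_add]
  have hsmul : ∀ (c : k) (a : H), tw (lam k H) (c • a) 1 = c • tw (lam k H) a 1 := by
    intro c a
    ext x
    rw [LinearMap.smul_apply, tw_apply, tw_apply, smul_mul_assoc, map_smul]
  have hlin : ∀ b : H, IsLinearMap k (fun u : H => ρ b * σ (tw (lam k H) u 1)) := by
    intro b
    constructor
    · intro x y
      rw [hadd, map_add, mul_add]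
    · intro c x
      rw [hsmul, map_smul, mul_smul_comm]
  have hT : Tri3 k (fun a b c : H => ρ b * σ (tw (lam k H) (Sa k H c * a) 1)) := by
    refine ⟨fun b c => ⟨fun x y => ?_, fun t x => ?_⟩, fun a c => ⟨fun x y => ?_, fun t x => ?_⟩,
      fun a b => ⟨fun x y => ?_, fun t x => ?_⟩⟩
    all_goals beta_reduce
    · rw [mul_add, hadd, map_add, mul_add]
    · rw [mul_smul_comm, hsmul, map_smul, mul_smul_comm]
    · rw [map_add, add_mul]
    · rw [map_smul, smul_mul_assoc]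
    · rw [map_add, add_mul, hadd, map_add, mul_add]
    · rw [map_smul, smul_mul_assoc, hsmul, map_smul, mul_smul_comm]
  have h1 := hX.yd (lam k H) (Lam k H)
  simp only [htw] at h1
  rw [h1, coc_sw3 (Lam_coc (k := k) (H := H)) hT, sw3_eq]
  have h2 : ∀ a y : H, sw2 k (fun b c => ρ a * σ (tw (lam k H) (Sa k H b * c) 1)) y =
      ep k H y • (ρ a * σ (lam k H)) := by
    intro a y
    rw [sw2_S_mul (hlin a) y, htw1]
  simp only [h2]
  exact sw2_counit_right (f := fun a : H => ρ a * σ (lam k H))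
    ⟨fun x y => by rw [map_add, add_mul], fun c x => by rw [map_smul, smul_mul_assoc]⟩ _

private theorem tR_Lam (x y : H) :
    tR (Algebra.lmul k H) (Algebra.lmul k H) (Lam k H) (x ⊗ₜ[k] y) =
      sw2 k (fun a b => (a * x) ⊗ₜ[k] (b * y)) (Lam k H) := by
  rw [tR_apply]
  unfold sw2
  rw [LinearMap.sum_apply]
  rfl

private theorem move_tmul (hS : ∀ x : H, Sa k H (Sa k H x) = x) (x y : H) :
    sw2 k (fun a b => (a * x) ⊗ₜ[k] (b * y)) (Lam k H) = tL k H (Sa k H x * y) := by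
  rw [tL_apply]
  have hB : Bil2 k (fun a b : H => a ⊗ₜ[k] (b * y)) :=
    tmul_bil LinearMap.id (LinearMap.mulRight k y)
  have h1 := Lam_move (k := k) hS hB x
  beta_reduce at h1
  rw [h1]
  simp only [mul_assoc]

private theorem sA_one (f : H →ₗ[k] k) : sA k H f (1 : H) = f 1 • (1 : H) := by
  rw [sA_apply, sw3_eq]
  have hb : Bil2 k (fun b c : H => f (1 * Sa k H c) • b) := by
    refine ⟨fun b => ⟨fun x y => ?_, fun c x => ?_⟩, fun a => ⟨fun x y => ?_, fun c x => ?_⟩⟩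
    all_goals beta_reduce
    · rw [smul_add]
    · rw [smul_comm]
    · rw [map_add, mul_add, map_add, add_smul]
    · rw [map_smul, mul_smul_comm, map_smul, smul_eq_mul, mul_smul]
  have hb2 : ∀ a : H, Bil2 k (fun b c : H => f (a * Sa k H c) • b) := by
    intro a
    refine ⟨fun b => ⟨fun x y => ?_, fun c x => ?_⟩, fun a => ⟨fun x y => ?_, fun c x => ?_⟩⟩
    all_goals beta_reduce
    · rw [smul_add]
    · rw [smul_comm]
    · rw [map_add, mul_add, map_add, add_smul]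
    · rw [map_smul, mul_smul_comm, map_smul, smul_eq_mul, mul_smul]
  rw [sw2_one (F := fun a y => sw2 k (fun b c => f (a * Sa k H c) • b) y)]
  · rw [sw2_one hb, Sa_one, one_mul]
  · refine ⟨fun y => ?_, fun a => sw2_linear (hb2 a)⟩
    refine lin_sw2' (F := fun a b c => f (a * Sa k H c) • b) (fun b c => ?_) y
    refine ⟨fun x y => ?_, fun t x => ?_⟩
    · rw [add_mul, map_add, add_smul]
    · rw [smul_mul_assoc, map_smul, smul_eq_mul, mul_smul]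

private theorem tS_one (w : H) : tS (sA k H) (sA k H) (lam k H) ((1 : H) ⊗ₜ[k] w) =
    (1 : H) ⊗ₜ[k] piK k H w := by
  rw [tS_apply, LinearMap.sum_apply]
  simp only [LinearMap.sum_apply, LinearMap.smul_apply, TensorProduct.map_tmul, sA_one]
  rw [Finset.sum_comm]
  have h1 : ∀ j, ∑ i, lam k H (e k H i * e k H j) •
      ((ec k H i (1 : H) • (1 : H)) ⊗ₜ[k] (sA k H (ec k H j)) w) =
      lam k H (e k H j) • ((1 : H) ⊗ₜ[k] (sA k H (ec k H j)) w) := by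
    intro j
    have h2 : ∀ i, lam k H (e k H i * e k H j) •
      ((ec k H i (1 : H) • (1 : H)) ⊗ₜ[k] (sA k H (ec k H j)) w) =
        (lam k H ((ec k H i (1 : H) • e k H i) * e k H j)) •
          ((1 : H) ⊗ₜ[k] (sA k H (ec k H j)) w) := by
      intro i
      rw [← TensorProduct.smul_tmul', smul_smul, smul_mul_assoc, map_smul, smul_eq_mul, mul_comm]
    simp only [h2]
    rw [← Finset.sum_smul, ← map_sum, ← Finset.sum_mul, sum_ec, one_mul]
  simp only [h1]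
  have h3 : ∀ j, lam k H (e k H j) • ((1 : H) ⊗ₜ[k] (sA k H (ec k H j)) w) =
      (1 : H) ⊗ₜ[k] ((sA k H (lam k H (e k H j) • ec k H j)) w) := by
    intro j
    rw [map_smul, LinearMap.smul_apply, TensorProduct.tmul_smul]
  simp only [h3]
  rw [← TensorProduct.tmul_sum, ← LinearMap.sum_apply, ← map_sum, sum_e]
  rfl

theorem T0_Ad (hS : ∀ x : H, Sa k H (Sa k H x) = x) (x y : H) :
    (tS (sA k H) (sA k H) (lam k H) *
      tR (Algebra.lmul k H) (Algebra.lmul k H) (Lam k H)) (x ⊗ₜ[k] y) =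
      tL k H (piK k H (Sa k H x * y)) := by
  have hYD := isYD_tens (isYD_A k H hS) (isYD_A k H hS)
  have hc := yd_comm hS hYD
  have key : ∀ w : H, tR (Algebra.lmul k H) (Algebra.lmul k H) (Lam k H) ((1 : H) ⊗ₜ[k] w) =
      tL k H w := by
    intro w
    rw [tR_Lam, move_tmul hS, Sa_one, one_mul]
  rw [Module.End.mul_apply, tR_Lam, move_tmul hS, ← key (Sa k H x * y), ← Module.End.mul_apply,
    hc, Module.End.mul_apply, tS_one, key]

theorem mulRight_tL (hS : ∀ x : H, Sa k H (Sa k H x) = x) (u w : H) :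
    TensorProduct.map (LinearMap.mulRight k u) (1 : Module.End k H) (tL k H w) =
      tL k H (Sa k H u * w) := by
  rw [tL_apply, map_sw2', ← move_tmul hS]
  simp only [TensorProduct.map_tmul, LinearMap.mulRight_apply, Module.End.one_apply]

private theorem cBr_tmul (a b : H) : cBr (Algebra.lmul k H) (sA k H) (a ⊗ₜ[k] b) =
    sw3 k (fun a₁ a₂ a₃ => (a₁ * Sa k H a₃ * b) ⊗ₜ[k] a₂) a := by
  unfold cBr
  rw [Module.End.mul_apply, LinearEquiv.coe_coe, TensorProduct.comm_tmul, LinearMap.sum_apply]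
  simp only [TensorProduct.map_tmul, sA_apply]
  have h1 : ∀ j, (Algebra.lmul k H (e k H j)) b ⊗ₜ[k]
      sw3 k (fun a₁ a₂ a₃ => (ec k H j) (a₁ * Sa k H a₃) • a₂) a =
      sw3 k (fun a₁ a₂ a₃ => ((ec k H j (a₁ * Sa k H a₃) • e k H j) * b) ⊗ₜ[k] a₂) a := by
    intro j
    simp only [sw3, TensorProduct.tmul_sum, TensorProduct.tmul_smul, smul_mul_assoc,
      TensorProduct.smul_tmul']
    rfl
  rw [Finset.sum_congr rfl fun j _ => h1 j]
  unfold sw3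
  rw [Finset.sum_comm]
  refine Finset.sum_congr rfl fun p _ => ?_
  rw [Finset.sum_comm]
  refine Finset.sum_congr rfl fun q _ => ?_
  rw [← TensorProduct.sum_tmul, ← Finset.sum_mul, sum_ec]

theorem cBr_tL (hS : ∀ x : H, Sa k H (Sa k H x) = x) (w : H) :
    cBr (Algebra.lmul k H) (sA k H) (tL k H w) = tL k H (Sa k H w) := by
  rw [tL_apply, map_sw2']
  simp only [cBr_tmul]
  -- four factors
  have hsm : ∀ (a₁ a₂ : H), IsLinearMap k (fun u : H => (a₁ * (u * w)) ⊗ₜ[k] a₂) := by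
    intro a₁ a₂
    refine ⟨fun x y => ?_, fun c x => ?_⟩
    · rw [add_mul, mul_add, TensorProduct.add_tmul]
    · rw [smul_mul_assoc, mul_smul_comm, TensorProduct.smul_tmul']
  have hl1 : ∀ (b a₂ a₃ : H),
      IsLinearMap k (fun a₁ : H => (a₁ * Sa k H a₃ * (b * w)) ⊗ₜ[k] a₂) := by
    intro b a₂ a₃
    refine ⟨fun x y => ?_, fun c x => ?_⟩
    · rw [add_mul, add_mul, TensorProduct.add_tmul]
    · rw [smul_mul_assoc, smul_mul_assoc, TensorProduct.smul_tmul']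
  have hl2 : ∀ (b a₁ a₃ : H),
      IsLinearMap k (fun a₂ : H => (a₁ * Sa k H a₃ * (b * w)) ⊗ₜ[k] a₂) := by
    intro b a₁ a₃
    refine ⟨fun x y => ?_, fun c x => ?_⟩
    · rw [TensorProduct.tmul_add]
    · rw [TensorProduct.tmul_smul]
  have hl3 : ∀ (b a₁ a₂ : H),
      IsLinearMap k (fun a₃ : H => (a₁ * Sa k H a₃ * (b * w)) ⊗ₜ[k] a₂) := by
    intro b a₁ a₂
    refine ⟨fun x y => ?_, fun c x => ?_⟩
    · rw [map_add, mul_add, add_mul, TensorProduct.add_tmul]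
    · rw [map_smul, mul_smul_comm, smul_mul_assoc, TensorProduct.smul_tmul']
  have hl4 : ∀ (a₁ a₂ a₃ : H),
      IsLinearMap k (fun b : H => (a₁ * Sa k H a₃ * (b * w)) ⊗ₜ[k] a₂) := by
    intro a₁ a₂ a₃
    refine ⟨fun x y => ?_, fun c x => ?_⟩
    · rw [add_mul, mul_add, TensorProduct.add_tmul]
    · rw [smul_mul_assoc, mul_smul_comm, TensorProduct.smul_tmul']
  have step1 : sw2 k (fun a b => sw3 k (fun a₁ a₂ a₃ =>
      (a₁ * Sa k H a₃ * (b * w)) ⊗ₜ[k] a₂) a) (Lam k H) =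
      sw2 k (fun a₁ z => sw2 k (fun y b => sw2 k (fun a₂ a₃ =>
        (a₁ * Sa k H a₃ * (b * w)) ⊗ₜ[k] a₂) y) z) (Lam k H) := by
    have e1 : ∀ a b : H, sw3 k (fun a₁ a₂ a₃ => (a₁ * Sa k H a₃ * (b * w)) ⊗ₜ[k] a₂) a =
        sw2 k (fun a₁ y => sw2 k (fun a₂ a₃ => (a₁ * Sa k H a₃ * (b * w)) ⊗ₜ[k] a₂) y) a :=
      fun a b => sw3_eq _ _
    simp only [e1]
    rw [sw2_assoc (k := k) (F := fun a₁ y b => sw2 k (fun a₂ a₃ =>
      (a₁ * Sa k H a₃ * (b * w)) ⊗ₜ[k] a₂) y), sw3_eq]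
    refine ⟨fun y b => ?_, fun a₁ b => ?_, fun a₁ y => ?_⟩
    · exact lin_sw2' (F := fun a₁ a₂ a₃ => (a₁ * Sa k H a₃ * (b * w)) ⊗ₜ[k] a₂)
        (fun a₂ a₃ => hl1 b a₂ a₃) y
    · exact sw2_linear ⟨fun a₃ => hl2 b a₁ a₃, fun a₂ => hl3 b a₁ a₂⟩
    · exact lin_sw2' (F := fun b a₂ a₃ => (a₁ * Sa k H a₃ * (b * w)) ⊗ₜ[k] a₂)
        (fun a₂ a₃ => hl4 a₁ a₂ a₃) y
  have step2 : ∀ a₁ z : H, sw2 k (fun y b => sw2 k (fun a₂ a₃ =>
      (a₁ * Sa k H a₃ * (b * w)) ⊗ₜ[k] a₂) y) z = (a₁ * w) ⊗ₜ[k] z := by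
    intro a₁ z
    rw [sw2_assoc (k := k) (F := fun a₂ a₃ b => (a₁ * Sa k H a₃ * (b * w)) ⊗ₜ[k] a₂)
      ⟨fun a₃ b => hl2 b a₁ a₃, fun a₂ b => hl3 b a₁ a₂, fun a₂ a₃ => hl4 a₁ a₂ a₃⟩, sw3_eq]
    have e2 : ∀ a₂ u : H, sw2 k (fun a₃ b => (a₁ * Sa k H a₃ * (b * w)) ⊗ₜ[k] a₂) u =
        ep k H u • ((a₁ * w) ⊗ₜ[k] a₂) := by
      intro a₂ u
      have e3 : (fun a₃ b : H => (a₁ * Sa k H a₃ * (b * w)) ⊗ₜ[k] a₂) =
          fun a₃ b => (fun v : H => (a₁ * (v * w)) ⊗ₜ[k] a₂) (Sa k H a₃ * b) := by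
        funext a₃ b
        simp only [mul_assoc]
      rw [e3, sw2_S_mul (hsm a₁ a₂) u]
      simp only [one_mul]
    simp only [e2]
    exact sw2_counit_right (f := fun a₂ : H => (a₁ * w) ⊗ₜ[k] a₂)
      ⟨fun x y => TensorProduct.tmul_add _ _ _, fun c x => TensorProduct.tmul_smul _ _ _⟩ z
  rw [step1]
  simp only [step2]
  have h5 := move_tmul (k := k) hS w (1 : H)
  simp only [mul_one] at h5
  rw [h5, tL_apply]

theorem mul_tL (z : H) : (LinearMap.mul' k H ∘ₗ (Sa k H).rTensor H) (tL k H z) =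
    (Module.finrank k H : k) • z := by
  rw [tL_apply, map_sw2']
  simp only [LinearMap.comp_apply, LinearMap.rTensor_tmul, LinearMap.mul'_apply]
  have e3 : (fun a b : H => Sa k H a * (b * z)) =
      fun a b => (fun v : H => v * z) (Sa k H a * b) := by
    funext a b
    simp only [mul_assoc]
  rw [e3, sw2_S_mul (f := fun v : H => v * z)
    ⟨fun x y => add_mul _ _ _, fun c x => smul_mul_assoc _ _ _⟩, ep_Lam]
  simp only [one_mul]

end Pool.Agent.KExp
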