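import Pool.Agent.Lib.KExp.Defs
import Pool.Agent.Lib.KExp.Sw
import Pool.Agent.Lib.KExp.CE
import Pool.Agent.Lib.KExp.Theta
import Pool.Agent.Lib.KOd.Defs

/-!
# KOd.T24a (MP_0d5e35_al, paper /team-store/MP_0d5e35_al_paper77.md)

(3.5), formulas (*1), (*2). Note `Rop κ ρ = A`, `Bop τ σ = B` of the paper, operators on `Y ⊗ X`.
(*1) `(1 ⊗ θ) B = ∑_{q,b} τ(e_b) ⊗ ρ(e_q)σ(e^q)σ(e^b) = ∑_{q,b} τ(e_b) ⊗ ρ(e_q) σ(cv e^b e^q) = ∑_j τ((e_j)₁) ⊗ ρ((e_j)₂) σ(e^j)` (ce_cv).
(*2) `A (1 ⊗ θ) B = ∑_{j,p} κ(e^p) τ((e_j)₁) ⊗ ρ(e_p) ρ((e_j)₂) σ(e^j)`; Yetter-Drinfeld for `Y` (`κ f * τ h = ∑ τ h₂ κ(tw f h₁ (S h₃))`) and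
`∑_p (tw e^p a c) ⊗ e_p = ∑_p e^p ⊗ a e_p c` (ce_lin / ce_ext): `∑_p κ(e^p) τ(h) ⊗ ρ(e_p) = ∑_p τ(h₂) κ(e^p) ⊗ ρ(h₁ e_p S(h₃))`; with
`h = (e_j)₁` (three legs) followed by `ρ((e_j)₂)`: `S(h₃) h₄ = ε` (sw2_S_mul). Result `∑_{j,p} τ((e_j)₂) κ(e^p) ⊗ ρ((e_j)₁ e_p) σ(e^j)`.
-/

set_option autoImplicit false

open scoped TensorProduct

namespace Pool.Agent.KExp

variable {k : Type} [Field k] {H : Type} [Ring H] [HopfAlgebra k H] [FiniteDimensional k H]

variable {X Y : Type} [AddCommGroup X] [Module k X] [AddCommGroup Y] [Module k Y]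
  {ρ : H →ₐ[k] Module.End k X} {σ : (H →ₗ[k] k) →ₗ[k] Module.End k X}
  {τ : H →ₐ[k] Module.End k Y} {κ : (H →ₗ[k] k) →ₗ[k] Module.End k Y}

/-- `y ⊗ x ↦ x₍₋₁₎ y ⊗ x₍₀₎` -/
noncomputable def Bop (τ : H →ₐ[k] Module.End k Y) (σ : (H →ₗ[k] k) →ₗ[k] Module.End k X) :
    Module.End k (Y ⊗[k] X) :=
  ∑ j, TensorProduct.map (τ (e k H j)) (σ (ec k H j))

private theorem t24_map_sum_left {ι : Type} (T : Finset ι) (A : ι → Module.End k Y)
    (B : Module.End k X) : TensorProduct.map (∑ t ∈ T, A t) B = ∑ t ∈ T, TensorProduct.map (A t) B := by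
  have h : ∀ A' : Module.End k Y, TensorProduct.map A' B =
      (TensorProduct.mapBilinear (RingHom.id k) Y X Y X).flip B A' := fun _ => rfl
  rw [h, map_sum]
  rfl

private theorem t24_map_sum_right {ι : Type} (T : Finset ι) (A : Module.End k Y)
    (B : ι → Module.End k X) : TensorProduct.map A (∑ t ∈ T, B t) = ∑ t ∈ T, TensorProduct.map A (B t) := by
  have h : ∀ B' : Module.End k X, TensorProduct.map A B' =
      TensorProduct.mapBilinear (RingHom.id k) Y X Y X A B' := fun _ => rfl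
  rw [h, map_sum]
  rfl

private theorem t24_mul (A A' : Module.End k Y) (B B' : Module.End k X) :
    TensorProduct.map A B * TensorProduct.map A' B' = TensorProduct.map (A * A') (B * B') :=
  (TensorProduct.map_mul _ _ _ _).symm

private theorem t24_sw2_congr {Z : Type} [AddCommMonoid Z] {F G : H → H → Z}
    (h : ∀ a b, F a b = G a b) (x : H) : sw2 k F x = sw2 k G x := by
  unfold sw2
  exact Finset.sum_congr rfl fun j _ => h _ _

private theorem t24_slide {Z : Type} [AddCommGroup Z] [Module k Z] {Φ : H → H → H → Z}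
    (hΦ : Tri3 k Φ) (h : H) :
    sw2 k (fun a b => sw3 k (fun x y z => Φ x y (Sa k H z * b)) a) h =
      sw2 k (fun x y => Φ x y 1) h := by
  have t1 : Tri3 k (fun x y' b => sw2 k (fun y z => Φ x y (Sa k H z * b)) y') := by
    refine ⟨fun y' b => ⟨fun p q => ?_, fun c p => ?_⟩, fun x b => ?_,
      fun x y' => ⟨fun p q => ?_, fun c p => ?_⟩⟩
    · simp only [sw2, (hΦ.1 _ _).map_add, Finset.sum_add_distrib]
    · simp only [sw2, (hΦ.1 _ _).map_smul, Finset.smul_sum]
    · refine sw2_linear ⟨fun z => hΦ.2.1 x _, fun y => ⟨fun p q => ?_, fun c p => ?_⟩⟩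
      · beta_reduce
        rw [map_add, add_mul, (hΦ.2.2 _ _).map_add]
      · beta_reduce
        rw [map_smul, smul_mul_assoc, (hΦ.2.2 _ _).map_smul]
    · simp only [sw2, mul_add, (hΦ.2.2 _ _).map_add, Finset.sum_add_distrib]
    · simp only [sw2, mul_smul_comm, (hΦ.2.2 _ _).map_smul, Finset.smul_sum]
  have e1 := sw2_assoc t1 h
  simp only [sw3_eq] at e1 ⊢
  rw [e1]
  refine t24_sw2_congr (fun x w => ?_) h
  have t2 : Tri3 k (fun y z b => Φ x y (Sa k H z * b)) := by
    refine ⟨fun z b => hΦ.2.1 x _, fun y b => ⟨fun p q => ?_, fun c p => ?_⟩,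
      fun y z => ⟨fun p q => ?_, fun c p => ?_⟩⟩
    · beta_reduce
      rw [map_add, add_mul, (hΦ.2.2 _ _).map_add]
    · beta_reduce
      rw [map_smul, smul_mul_assoc, (hΦ.2.2 _ _).map_smul]
    · beta_reduce
      rw [mul_add, (hΦ.2.2 _ _).map_add]
    · beta_reduce
      rw [mul_smul_comm, (hΦ.2.2 _ _).map_smul]
  have e2 := sw2_assoc t2 w
  rw [sw3_eq] at e2
  rw [e2]
  rw [t24_sw2_congr (fun y w' => sw2_S_mul (f := fun v => Φ x y v) (hΦ.2.2 x y) w') w]
  exact sw2_counit_right (f := fun y => Φ x y 1) (hΦ.2.1 x 1) w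

theorem Mop_eq_Bop_Rop : Mop τ κ ρ σ = Bop τ σ * Rop κ ρ := by
  unfold Mop Bop Rop
  rw [Finset.sum_mul, Finset.sum_comm]
  refine Finset.sum_congr rfl fun j _ => ?_
  rw [Finset.mul_sum]
  refine Finset.sum_congr rfl fun i _ => ?_
  rw [t24_mul]

theorem theta_Bop (hX : IsYD ρ σ) : TensorProduct.map 1 (theta ρ σ) * Bop τ σ =
    ∑ j, sw2 k (fun a b => TensorProduct.map (τ a) (ρ b * σ (ec k H j))) (e k H j) := by
  rw [← ce_cv (G := fun a b f => TensorProduct.map (τ a) (ρ b * σ f))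
    (fun b f => ⟨fun x y => by rw [map_add, TensorProduct.map_add_left],
      fun c x => by rw [map_smul, TensorProduct.map_smul_left]⟩)
    (fun a f => ⟨fun x y => by rw [map_add, add_mul, TensorProduct.map_add_right],
      fun c x => by rw [map_smul, smul_mul_assoc, TensorProduct.map_smul_right]⟩)
    (fun a b => ⟨fun x y => by rw [map_add, mul_add, TensorProduct.map_add_right],
      fun c x => by rw [map_smul, mul_smul_comm, TensorProduct.map_smul_right]⟩)]
  unfold Bop
  rw [Finset.mul_sum]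
  refine Finset.sum_congr rfl fun b _ => ?_
  rw [t24_mul, one_mul, theta, Finset.sum_mul, t24_map_sum_right]
  refine Finset.sum_congr rfl fun q _ => ?_
  rw [mul_assoc, hX.mul]

theorem Rop_theta_Bop (hX : IsYD ρ σ) (hY : IsYD τ κ) :
    Rop κ ρ * TensorProduct.map 1 (theta ρ σ) * Bop τ σ =
      ∑ j, ∑ p, sw2 k (fun a b => TensorProduct.map (τ b * κ (ec k H p))
        (ρ (a * e k H p) * σ (ec k H j))) (e k H j) := by
  rw [mul_assoc, theta_Bop hX, Finset.mul_sum]
  refine Finset.sum_congr rfl fun j _ => ?_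
  -- the trilinear function
  have hΦ : Tri3 k (fun x y v : H => ∑ p, TensorProduct.map (τ y * κ (ec k H p))
      (ρ (x * (e k H p * v)) * σ (ec k H j))) := by
    refine ⟨fun b c => ⟨fun x y => ?_, fun r x => ?_⟩, fun a c => ⟨fun x y => ?_, fun r x => ?_⟩,
      fun a b => ⟨fun x y => ?_, fun r x => ?_⟩⟩
    · rw [← Finset.sum_add_distrib]
      refine Finset.sum_congr rfl fun p _ => ?_
      rw [add_mul, map_add, add_mul, TensorProduct.map_add_right]
    · rw [Finset.smul_sum]
      refine Finset.sum_congr rfl fun p _ => ?_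
      rw [smul_mul_assoc, map_smul, smul_mul_assoc, TensorProduct.map_smul_right]
    · rw [← Finset.sum_add_distrib]
      refine Finset.sum_congr rfl fun p _ => ?_
      rw [map_add, add_mul, TensorProduct.map_add_left]
    · rw [Finset.smul_sum]
      refine Finset.sum_congr rfl fun p _ => ?_
      rw [map_smul, smul_mul_assoc, TensorProduct.map_smul_left]
    · rw [← Finset.sum_add_distrib]
      refine Finset.sum_congr rfl fun p _ => ?_
      rw [mul_add, mul_add, map_add, add_mul, TensorProduct.map_add_right]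
    · rw [Finset.smul_sum]
      refine Finset.sum_congr rfl fun p _ => ?_
      rw [mul_smul_comm, mul_smul_comm, map_smul, smul_mul_assoc, TensorProduct.map_smul_right]
  -- the Yetter-Drinfeld relation of `Y`
  have h1 : ∀ a b : H, Rop κ ρ * TensorProduct.map (τ a) (ρ b * σ (ec k H j)) =
      sw3 k (fun x y z => ∑ p, TensorProduct.map (τ y * κ (ec k H p))
        (ρ (x * (e k H p * (Sa k H z * b))) * σ (ec k H j))) a := by
    intro a b
    have h2 : Rop κ ρ * TensorProduct.map (τ a) (ρ b * σ (ec k H j)) =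
        sw3 k (fun x y z => ∑ p, TensorProduct.map (τ y * κ (tw (ec k H p) x (Sa k H z)))
          (ρ (e k H p) * (ρ b * σ (ec k H j)))) a := by
      unfold Rop
      rw [Finset.sum_mul]
      have h3 : ∀ p, TensorProduct.map (κ (ec k H p)) (ρ (e k H p)) *
          TensorProduct.map (τ a) (ρ b * σ (ec k H j)) = sw3 k (fun x y z =>
            TensorProduct.map (τ y * κ (tw (ec k H p) x (Sa k H z)))
            (ρ (e k H p) * (ρ b * σ (ec k H j)))) a := by
        intro p
        rw [t24_mul, hY.yd]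
        simp only [sw3, t24_map_sum_left]
      rw [Finset.sum_congr rfl fun p _ => h3 p]
      simp only [sw3]
      rw [Finset.sum_comm]
      refine Finset.sum_congr rfl fun _ _ => ?_
      rw [Finset.sum_comm]
    rw [h2]
    simp only [sw3]
    refine Finset.sum_congr rfl fun u _ => Finset.sum_congr rfl fun v _ => ?_
    have h4 := ce_lin (k := k) (H := H) (LinearMap.mulLeft k (e k H u) ∘ₗ
      LinearMap.mulRight k (Sa k H (D k H v (D k H u a))))
      (G := fun x f => TensorProduct.map (τ (e k H v) * κ f) (ρ x * (ρ b * σ (ec k H j))))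
      (fun f => ⟨fun x y => by rw [map_add, add_mul, TensorProduct.map_add_right],
        fun c x => by rw [map_smul, smul_mul_assoc, TensorProduct.map_smul_right]⟩)
      (fun x => ⟨fun f g => by rw [map_add, mul_add, TensorProduct.map_add_left],
        fun c f => by rw [map_smul, mul_smul_comm, TensorProduct.map_smul_left]⟩)
    refine Eq.trans h4 ?_
    refine Finset.sum_congr rfl fun p _ => ?_
    simp only [LinearMap.comp_apply, LinearMap.mulLeft_apply, LinearMap.mulRight_apply]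
    rw [← mul_assoc (ρ _) (ρ b), ← map_mul]
    simp only [mul_assoc]
  have h5 : Rop κ ρ * sw2 k (fun a b => TensorProduct.map (τ a) (ρ b * σ (ec k H j))) (e k H j) =
      sw2 k (fun a b => sw3 k (fun x y z => ∑ p, TensorProduct.map (τ y * κ (ec k H p))
        (ρ (x * (e k H p * (Sa k H z * b))) * σ (ec k H j))) a) (e k H j) := by
    have : Rop κ ρ * sw2 k (fun a b => TensorProduct.map (τ a) (ρ b * σ (ec k H j))) (e k H j) =
        sw2 k (fun a b => Rop κ ρ * TensorProduct.map (τ a) (ρ b * σ (ec k H j))) (e k H j) := by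
      unfold sw2
      rw [Finset.mul_sum]
    rw [this]
    exact t24_sw2_congr h1 _
  rw [h5, t24_slide hΦ]
  simp only [sw2, mul_one]
  rw [Finset.sum_comm]

end Pool.Agent.KExp
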