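import Pool.Agent.Lib.KExp.Defs
import Pool.Agent.Lib.KExp.Sw
import Pool.Agent.Lib.KExp.CE
import Pool.Agent.Lib.KExp.Theta
import Pool.Agent.Lib.KOd.Defs
import Pool.Agent.Lib.KOd.T24a

/-!
# KOd.T24b (MP_0d5e35_al, paper /team-store/MP_0d5e35_al_paper77.md)

(3.5), formula (*3). PROOF used here: with `M = Bop τ σ * Rop κ ρ` (the double braiding of `Y ⊗ X`), `C = ∑_{i,q} (1 ⊗ ρ(e_i e_q)) M (κ(e^i) ⊗ σ(e^q))
= ∑_r (1 ⊗ ρ(e_r)) M Δ(e^r)`, where `Δ(f) = ∑ f(e_i e_q) κ(e^i) ⊗ σ(e^q)` is the coaction of `Y ⊗ X` (`T1`), and in the same way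
`Rop κ ρ * (1 ⊗ θ) * M = ∑_r (1 ⊗ ρ(e_r)) Δ(e^r) M`. The two braidings are comodule maps (`slide`): `Rop κ ρ * T1 f = T2 f * Rop κ ρ`,
`Bop τ σ * T2 f = T1 f * Bop τ σ`, `T2` the coaction `y ⊗ x ↦ x₋₁ y₋₁ ⊗ y₀ ⊗ x₀`; so `M` commutes with `Δ(f)`. No hypothesis on the square of the
antipode is needed.
-/

set_option autoImplicit false

open scoped TensorProduct

namespace Pool.Agent.KExp

variable {k : Type} [Field k] {H : Type} [Ring H] [HopfAlgebra k H] [FiniteDimensional k H]

variable {X Y : Type} [AddCommGroup X] [Module k X] [AddCommGroup Y] [Module k Y]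
  {ρ : H →ₐ[k] Module.End k X} {σ : (H →ₗ[k] k) →ₗ[k] Module.End k X}
  {τ : H →ₐ[k] Module.End k Y} {κ : (H →ₗ[k] k) →ₗ[k] Module.End k Y}

/-- linearity in three variables -/
private structure Lin3 {Z : Type} [AddCommGroup Z] [Module k Z] (Φ : H → H → H → Z) :
    Prop where
  a1 : ∀ x x' b c, Φ (x + x') b c = Φ x b c + Φ x' b c
  s1 : ∀ (r : k) x b c, Φ (r • x) b c = r • Φ x b c
  a2 : ∀ a x x' c, Φ a (x + x') c = Φ a x c + Φ a x' c
  s2 : ∀ (r : k) a x c, Φ a (r • x) c = r • Φ a x c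
  a3 : ∀ a b x x', Φ a b (x + x') = Φ a b x + Φ a b x'
  s3 : ∀ (r : k) a b x, Φ a b (r • x) = r • Φ a b x

private theorem sw2_congr {Z : Type} [AddCommMonoid Z] {F G : H → H → Z}
    (h : ∀ a b, F a b = G a b) (x : H) : sw2 k F x = sw2 k G x := by
  unfold sw2
  exact Finset.sum_congr rfl fun j _ => h _ _

private theorem sw3_congr {Z : Type} [AddCommMonoid Z] {F G : H → H → H → Z}
    (h : ∀ a b c, F a b c = G a b c) (x : H) : sw3 k F x = sw3 k G x := by
  unfold sw3
  exact Finset.sum_congr rfl fun j _ => Finset.sum_congr rfl fun l _ => h _ _ _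

private theorem sum_sw3 {Z : Type} [AddCommMonoid Z] {ι : Type} (T : Finset ι)
    (F : ι → H → H → H → Z) (a : H) :
    ∑ t ∈ T, sw3 k (F t) a = sw3 k (fun x y z => ∑ t ∈ T, F t x y z) a := by
  unfold sw3
  rw [Finset.sum_comm]
  refine Finset.sum_congr rfl fun j _ => ?_
  rw [Finset.sum_comm]

private theorem map_sw3 {Z Z' : Type} [AddCommGroup Z] [Module k Z] [AddCommGroup Z']
    [Module k Z'] (L : Z →ₗ[k] Z') (F : H → H → H → Z) (a : H) :
    L (sw3 k F a) = sw3 k (fun x y z => L (F x y z)) a := by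
  unfold sw3
  simp only [map_sum]

private theorem smul_sw3 {Z : Type} [AddCommGroup Z] [Module k Z] (r : k)
    (F : H → H → H → Z) (a : H) : r • (sw3 k F a) = sw3 k (fun x y z => r • (F x y z)) a := by
  unfold sw3
  simp only [Finset.smul_sum]

/-- `h₁ ⊗ h₂ ⊗ S(h₃) h₄ = h₁ ⊗ h₂ ⊗ 1` -/
private theorem four {Z : Type} [AddCommGroup Z] [Module k Z] {Φ : H → H → H → Z}
    (hΦ : Lin3 (k := k) Φ) (h : H) :
    sw2 k (fun u v => sw3 k (fun x y z => Φ x y (Sa k H z * v)) u) h =
      sw2 k (fun x y => Φ x y 1) h := by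
  obtain ⟨a1, s1, a2, s2, a3, s3⟩ := hΦ
  simp only [sw3_eq]
  have t1 : Tri3 k (fun x u' v => sw2 k (fun y z => Φ x y (Sa k H z * v)) u') := by
    refine ⟨fun b c => ⟨?_, ?_⟩, fun b c => ⟨?_, ?_⟩, fun b c => ⟨?_, ?_⟩⟩
    · intro x x'
      simp only [sw2, a1, Finset.sum_add_distrib]
    · intro r x
      simp only [sw2, s1, Finset.smul_sum]
    · intro x x'
      simp only [sw2, map_add, add_mul, a3, Finset.sum_add_distrib]
    · intro r x
      simp only [sw2, map_smul, smul_mul_assoc, s3, Finset.smul_sum]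
    · intro x x'
      simp only [sw2, mul_add, a3, Finset.sum_add_distrib]
    · intro r x
      simp only [sw2, mul_smul_comm, s3, Finset.smul_sum]
  have t2 := sw2_assoc t1 h
  rw [sw3_eq] at t2
  rw [t2]
  refine sw2_congr (fun x w => ?_) h
  have t3 : Tri3 k (fun y z v => Φ x y (Sa k H z * v)) := by
    refine ⟨fun b c => ⟨?_, ?_⟩, fun b c => ⟨?_, ?_⟩, fun b c => ⟨?_, ?_⟩⟩
    · intro x x'
      simp only [a2]
    · intro r x
      simp only [s2]
    · intro x x'
      simp only [map_add, add_mul, a3]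
    · intro r x
      simp only [map_smul, smul_mul_assoc, s3]
    · intro x x'
      simp only [mul_add, a3]
    · intro r x
      simp only [mul_smul_comm, s3]
  have t4 := sw2_assoc t3 w
  rw [sw3_eq] at t4
  rw [t4]
  have t5 : ∀ y w' : H, sw2 k (fun z v => Φ x y (Sa k H z * v)) w' =
      ep k H w' • Φ x y 1 := fun y w' =>
    sw2_S_mul (f := fun z => Φ x y z) ⟨fun _ _ => a3 _ _ _ _, fun _ _ => s3 _ _ _ _⟩ w'
  rw [sw2_congr (fun y w' => t5 y w')]
  exact sw2_counit_right (f := fun y => Φ x y 1) ⟨fun _ _ => a2 _ _ _ _, fun _ _ => s2 _ _ _ _⟩ w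

/-- `TensorProduct.map` as a bilinear map -/
private noncomputable def MB (k : Type) [Field k] (X Y : Type) [AddCommGroup X] [Module k X]
    [AddCommGroup Y] [Module k Y] :
    Module.End k X →ₗ[k] Module.End k Y →ₗ[k] Module.End k (X ⊗[k] Y) :=
  TensorProduct.mapBilinear (RingHom.id k) X Y X Y

omit [FiniteDimensional k H] [HopfAlgebra k H] [Ring H] in
private theorem MB_apply (A : Module.End k Y) (B : Module.End k X) :
    TensorProduct.map A B = MB k Y X A B := rfl

omit [FiniteDimensional k H] [HopfAlgebra k H] [Ring H] in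
private theorem MB_mul (A A' : Module.End k Y) (B B' : Module.End k X) :
    MB k Y X A B * MB k Y X A' B' = MB k Y X (A * A') (B * B') :=
  (TensorProduct.map_mul _ _ _ _).symm

/-- one element: `h₁ f(h₁ x₋₁) h₂ x₀ = f((h₁ x)₋₁ h₂) (h₁ x)₀` -/
private theorem slide1 {Z : Type} [AddCommGroup Z] [Module k Z] (hX : IsYD ρ σ)
    (f : H →ₗ[k] k) (Q : Module.End k X →ₗ[k] Z) (h : H) :
    sw2 k (fun a b => ∑ l, f (a * e k H l) • Q (ρ b * σ (ec k H l))) h =
      sw2 k (fun a b => ∑ l, f (e k H l * b) • Q (σ (ec k H l) * ρ a)) h := by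
  have h1 : ∀ a b : H, ∑ l, f (e k H l * b) • Q (σ (ec k H l) * ρ a) =
      sw3 k (fun x y z => ∑ l, f (x * e k H l * (Sa k H z * b)) •
        Q (ρ y * σ (ec k H l))) a := by
    intro a b
    have h2 : ∀ l, f (e k H l * b) • Q (σ (ec k H l) * ρ a) =
        sw3 k (fun x y z => f (e k H l * b) •
          Q (ρ y * σ (tw (ec k H l) x (Sa k H z)))) a := by
      intro l
      rw [hX.yd, map_sw3, smul_sw3]
    rw [Finset.sum_congr rfl fun l _ => h2 l, sum_sw3]
    refine sw3_congr (fun x y z => ?_) a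
    have h3 := ce_lin (k := k) (H := H)
      (LinearMap.mulLeft k x ∘ₗ LinearMap.mulRight k (Sa k H z))
      (G := fun u g => f (u * b) • Q (ρ y * σ g)) ?_ ?_
    · refine Eq.trans ?_ (h3.trans ?_)
      · rfl
      · refine Finset.sum_congr rfl fun l _ => ?_
        simp only [LinearMap.coe_comp, Function.comp_apply, LinearMap.mulLeft_apply,
          LinearMap.mulRight_apply, mul_assoc]
    · intro g
      refine ⟨fun u v => ?_, fun r u => ?_⟩
      · simp only [add_mul, map_add, add_smul]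
      · simp only [smul_mul_assoc, map_smul, smul_eq_mul, mul_smul]
    · intro g
      refine ⟨fun u v => ?_, fun r u => ?_⟩
      · simp only [map_add, mul_add, smul_add]
      · simp only [map_smul, mul_smul_comm, smul_comm r]
  rw [sw2_congr (fun a b => h1 a b)]
  have h4 : Lin3 (k := k) (fun x y w : H => ∑ l, f (x * e k H l * w) •
      Q (ρ y * σ (ec k H l))) := by
    refine ⟨?_, ?_, ?_, ?_, ?_, ?_⟩
    · intro x x' b c
      simp only [add_mul, map_add, add_smul, Finset.sum_add_distrib]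
    · intro r x b c
      simp only [smul_mul_assoc, map_smul, smul_eq_mul, mul_smul, Finset.smul_sum]
    · intro a x x' c
      simp only [map_add, add_mul, smul_add, Finset.sum_add_distrib]
    · intro r a x c
      simp only [map_smul, smul_mul_assoc, Finset.smul_sum, smul_comm r]
    · intro a b x x'
      simp only [mul_add, map_add, add_smul, Finset.sum_add_distrib]
    · intro r a b x
      simp only [mul_smul_comm, map_smul, smul_eq_mul, mul_smul, Finset.smul_sum]
  rw [four h4 h]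
  simp only [mul_one]

/-- the braiding is a comodule map -/
private theorem slide {Z : Type} [AddCommGroup Z] [Module k Z] (hX : IsYD ρ σ)
    (f : H →ₗ[k] k) (P : (H →ₗ[k] k) →ₗ[k] Module.End k X →ₗ[k] Z) :
    ∑ i, ∑ j, ∑ l, f (e k H i * e k H l) •
        P (cv (ec k H i) (ec k H j)) (ρ (e k H j) * σ (ec k H l)) =
      ∑ j, ∑ i, ∑ l, f (e k H l * e k H i) •
        P (cv (ec k H j) (ec k H i)) (σ (ec k H l) * ρ (e k H j)) := by
  have h1 := ce_cv (k := k) (H := H)
    (G := fun a b g => ∑ l, f (a * e k H l) • P g (ρ b * σ (ec k H l))) ?_ ?_ ?_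
  · have h2 := ce_cv (k := k) (H := H)
      (G := fun a b g => ∑ l, f (e k H l * b) • P g (σ (ec k H l) * ρ a)) ?_ ?_ ?_
    · refine h1.trans (Eq.trans ?_ h2.symm)
      exact Finset.sum_congr rfl fun r _ => slide1 hX f (P (ec k H r)) (e k H r)
    · intro b g
      refine ⟨fun u v => ?_, fun r u => ?_⟩
      · simp only [map_add, mul_add, smul_add, Finset.sum_add_distrib]
      · simp only [map_smul, mul_smul_comm, Finset.smul_sum, smul_comm r]
    · intro b g
      refine ⟨fun u v => ?_, fun r u => ?_⟩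
      · simp only [mul_add, map_add, add_smul, Finset.sum_add_distrib]
      · simp only [mul_smul_comm, map_smul, smul_eq_mul, mul_smul, Finset.smul_sum]
    · intro a b
      refine ⟨fun u v => ?_, fun r u => ?_⟩
      · simp only [map_add, LinearMap.add_apply, smul_add, Finset.sum_add_distrib]
      · simp only [map_smul, LinearMap.smul_apply, Finset.smul_sum, smul_comm r]
  · intro b g
    refine ⟨fun u v => ?_, fun r u => ?_⟩
    · simp only [add_mul, map_add, add_smul, Finset.sum_add_distrib]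
    · simp only [smul_mul_assoc, map_smul, smul_eq_mul, mul_smul, Finset.smul_sum]
  · intro b g
    refine ⟨fun u v => ?_, fun r u => ?_⟩
    · simp only [map_add, add_mul, smul_add, Finset.sum_add_distrib]
    · simp only [map_smul, smul_mul_assoc, Finset.smul_sum, smul_comm r]
  · intro a b
    refine ⟨fun u v => ?_, fun r u => ?_⟩
    · simp only [map_add, LinearMap.add_apply, smul_add, Finset.sum_add_distrib]
    · simp only [map_smul, LinearMap.smul_apply, Finset.smul_sum, smul_comm r]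

/-- the coaction `y ⊗ x ↦ y₋₁ x₋₁ ⊗ y₀ ⊗ x₀` -/
private noncomputable def T1 (κ : (H →ₗ[k] k) →ₗ[k] Module.End k Y)
    (σ : (H →ₗ[k] k) →ₗ[k] Module.End k X) (f : H →ₗ[k] k) : Module.End k (Y ⊗[k] X) :=
  ∑ i, ∑ l, f (e k H i * e k H l) • MB k Y X (κ (ec k H i)) (σ (ec k H l))

/-- the coaction `y ⊗ x ↦ x₋₁ y₋₁ ⊗ y₀ ⊗ x₀` -/
private noncomputable def T2 (κ : (H →ₗ[k] k) →ₗ[k] Module.End k Y)
    (σ : (H →ₗ[k] k) →ₗ[k] Module.End k X) (f : H →ₗ[k] k) : Module.End k (Y ⊗[k] X) :=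
  ∑ i, ∑ l, f (e k H l * e k H i) • MB k Y X (κ (ec k H i)) (σ (ec k H l))

private theorem Rop_T1 (hX : IsYD ρ σ) (hY : IsYD τ κ) (f : H →ₗ[k] k) :
    Rop κ ρ * T1 κ σ f = T2 κ σ f * Rop κ ρ := by
  have h := slide hX f ((MB k Y X).comp κ)
  have hl : Rop κ ρ * T1 κ σ f = ∑ i, ∑ j, ∑ l, f (e k H i * e k H l) •
        ((MB k Y X).comp κ) (cv (ec k H i) (ec k H j)) (ρ (e k H j) * σ (ec k H l)) := by
    unfold Rop T1
    rw [Finset.mul_sum]
    refine Finset.sum_congr rfl fun i _ => ?_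
    rw [Finset.sum_mul]
    refine Finset.sum_congr rfl fun j _ => ?_
    rw [Finset.mul_sum]
    refine Finset.sum_congr rfl fun l _ => ?_
    rw [mul_smul_comm, MB_apply, MB_mul, hY.mul, LinearMap.comp_apply]
  have hr : T2 κ σ f * Rop κ ρ = ∑ j, ∑ i, ∑ l, f (e k H l * e k H i) •
        ((MB k Y X).comp κ) (cv (ec k H j) (ec k H i)) (σ (ec k H l) * ρ (e k H j)) := by
    unfold Rop T2
    rw [Finset.mul_sum]
    refine Finset.sum_congr rfl fun j _ => ?_
    rw [Finset.sum_mul]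
    refine Finset.sum_congr rfl fun i _ => ?_
    rw [Finset.sum_mul]
    refine Finset.sum_congr rfl fun l _ => ?_
    rw [smul_mul_assoc, MB_apply, MB_mul, hY.mul, LinearMap.comp_apply]
  rw [hl, hr, h]

private theorem Bop_T2 (hX : IsYD ρ σ) (hY : IsYD τ κ) (f : H →ₗ[k] k) :
    Bop τ σ * T2 κ σ f = T1 κ σ f * Bop τ σ := by
  have h := slide hY f ((MB k Y X).flip.comp σ)
  have hl : Bop τ σ * T2 κ σ f = ∑ i, ∑ j, ∑ l, f (e k H i * e k H l) •
        ((MB k Y X).flip.comp σ) (cv (ec k H i) (ec k H j)) (τ (e k H j) * κ (ec k H l)) := by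
    unfold Bop T2
    rw [Finset.sum_comm (s := Finset.univ) (t := Finset.univ)
      (f := fun i l => f (e k H l * e k H i) • MB k Y X (κ (ec k H i)) (σ (ec k H l)))]
    rw [Finset.mul_sum]
    refine Finset.sum_congr rfl fun i _ => ?_
    rw [Finset.sum_mul]
    refine Finset.sum_congr rfl fun j _ => ?_
    rw [Finset.mul_sum]
    refine Finset.sum_congr rfl fun l _ => ?_
    rw [mul_smul_comm, MB_apply, MB_mul, hX.mul, LinearMap.comp_apply, LinearMap.flip_apply]
  have hr : T1 κ σ f * Bop τ σ = ∑ j, ∑ i, ∑ l, f (e k H l * e k H i) •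
        ((MB k Y X).flip.comp σ) (cv (ec k H j) (ec k H i)) (κ (ec k H l) * τ (e k H j)) := by
    unfold Bop T1
    rw [Finset.sum_comm (s := Finset.univ) (t := Finset.univ)
      (f := fun i l => f (e k H i * e k H l) • MB k Y X (κ (ec k H i)) (σ (ec k H l)))]
    rw [Finset.mul_sum]
    refine Finset.sum_congr rfl fun j _ => ?_
    rw [Finset.sum_mul]
    refine Finset.sum_congr rfl fun i _ => ?_
    rw [Finset.sum_mul]
    refine Finset.sum_congr rfl fun l _ => ?_
    rw [smul_mul_assoc, MB_apply, MB_mul, hX.mul, LinearMap.comp_apply, LinearMap.flip_apply]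
  rw [hl, hr, h]

/-- the operator `C` of the paper -/
noncomputable def Cop (τ : H →ₐ[k] Module.End k Y) (κ : (H →ₗ[k] k) →ₗ[k] Module.End k Y)
    (ρ : H →ₐ[k] Module.End k X) (σ : (H →ₗ[k] k) →ₗ[k] Module.End k X) :
    Module.End k (Y ⊗[k] X) :=
  ∑ b, ∑ i, ∑ i', ∑ q, TensorProduct.map (τ (e k H b) * κ (cv (ec k H i) (ec k H i')))
    (ρ (e k H i) * ρ (e k H q) * σ (ec k H b) * ρ (e k H i') * σ (ec k H q))

/-- `y ⊗ x ↦ y₋₁ x₋₁ (T (y₀ ⊗ x₀))` -/
private theorem ce_T1 (T T' : Module.End k (Y ⊗[k] X)) :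
    ∑ i, ∑ q, MB k Y X 1 (ρ (e k H i * e k H q)) * T *
        MB k Y X (κ (ec k H i)) (σ (ec k H q)) * T' =
      ∑ r, MB k Y X 1 (ρ (e k H r)) * T * T1 κ σ (ec k H r) * T' := by
  have h := ce_mul (k := k) (H := H) (G := fun f g a => MB k Y X 1 (ρ a) * T *
    MB k Y X (κ f) (σ g) * T') ?_ ?_ ?_
  · refine h.symm.trans ?_
    refine Finset.sum_congr rfl fun r _ => ?_
    unfold T1
    rw [Finset.mul_sum, Finset.sum_mul]
    refine Finset.sum_congr rfl fun i _ => ?_
    rw [Finset.mul_sum, Finset.sum_mul]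
    refine Finset.sum_congr rfl fun q _ => ?_
    rw [mul_smul_comm, smul_mul_assoc]
  · intro g a
    refine ⟨fun u v => ?_, fun r u => ?_⟩
    · simp only [map_add, LinearMap.add_apply, mul_add, add_mul]
    · simp only [map_smul, LinearMap.smul_apply, mul_smul_comm, smul_mul_assoc]
  · intro g a
    refine ⟨fun u v => ?_, fun r u => ?_⟩
    · simp only [map_add, mul_add, add_mul]
    · simp only [map_smul, mul_smul_comm, smul_mul_assoc]
  · intro g a
    refine ⟨fun u v => ?_, fun r u => ?_⟩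
    · simp only [map_add, add_mul]
    · simp only [map_smul, smul_mul_assoc]

theorem Cop_eq (hX : IsYD ρ σ) (hY : IsYD τ κ) :
    Cop τ κ ρ σ = Rop κ ρ * TensorProduct.map 1 (theta ρ σ) * Bop τ σ * Rop κ ρ := by
  have hM : ∀ f : H →ₗ[k] k, Bop τ σ * Rop κ ρ * T1 κ σ f =
      T1 κ σ f * (Bop τ σ * Rop κ ρ) := by
    intro f
    rw [mul_assoc, Rop_T1 hX hY, ← mul_assoc, Bop_T2 hX hY, mul_assoc]
  have hL : Cop τ κ ρ σ = ∑ i, ∑ q, MB k Y X 1 (ρ (e k H i * e k H q)) *
      (Bop τ σ * Rop κ ρ) * MB k Y X (κ (ec k H i)) (σ (ec k H q)) * 1 := by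
    have h1 : Cop τ κ ρ σ = ∑ i, ∑ q, ∑ b, ∑ i', TensorProduct.map
        (τ (e k H b) * κ (cv (ec k H i) (ec k H i')))
        (ρ (e k H i) * ρ (e k H q) * σ (ec k H b) * ρ (e k H i') * σ (ec k H q)) := by
      unfold Cop
      rw [Finset.sum_comm]
      refine Finset.sum_congr rfl fun i _ => ?_
      symm
      rw [Finset.sum_comm]
      exact Finset.sum_congr rfl fun b _ => Finset.sum_comm
    rw [h1]
    refine Finset.sum_congr rfl fun i _ => Finset.sum_congr rfl fun q _ => ?_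
    unfold Bop Rop
    rw [mul_one, Finset.sum_mul, Finset.mul_sum, Finset.sum_mul]
    refine Finset.sum_congr rfl fun b _ => ?_
    rw [Finset.mul_sum, Finset.mul_sum, Finset.sum_mul]
    refine Finset.sum_congr rfl fun i' _ => ?_
    rw [MB_apply, MB_apply, MB_apply, MB_mul, MB_mul, MB_mul, one_mul, map_mul ρ, ← hY.mul]
    simp only [mul_assoc]
  have hR : Rop κ ρ * TensorProduct.map 1 (theta ρ σ) =
      ∑ i, ∑ q, MB k Y X 1 (ρ (e k H i * e k H q)) * 1 *
        MB k Y X (κ (ec k H i)) (σ (ec k H q)) * 1 := by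
    unfold Rop
    rw [Finset.sum_mul]
    refine Finset.sum_congr rfl fun i _ => ?_
    rw [MB_apply, MB_apply]
    unfold theta
    rw [map_sum, Finset.mul_sum]
    refine Finset.sum_congr rfl fun q _ => ?_
    rw [MB_mul, mul_one, mul_one, mul_one, MB_mul, one_mul, map_mul ρ, mul_assoc]
  rw [hL, ce_T1, mul_assoc (Rop κ ρ * TensorProduct.map 1 (theta ρ σ)), hR, ce_T1, Finset.sum_mul]
  refine Finset.sum_congr rfl fun r _ => ?_
  rw [mul_one, mul_one, mul_one, mul_assoc, hM, mul_assoc]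

end Pool.Agent.KExp
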