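import Pool.Agent.Lib.KExp.Defs
import Pool.Agent.Lib.KExp.Sw
import Pool.Agent.Lib.KExp.CE
import Pool.Agent.Lib.KExp.Theta
import Pool.Agent.Lib.KExp.TensApp
import Pool.Agent.Lib.KExp.Ptr
import Pool.Agent.Lib.KOd.Defs
import Pool.Agent.Lib.KOd.T24a
import Pool.Agent.Lib.KOd.T24b

/-!
# KOd.T24 (MP_0d5e35_al, paper /team-store/MP_0d5e35_al_paper77.md)

(3.5), identity (T24). (i) `Mop τ κ (tR ρ ρ) (tS σ σ) = ∑_{a,b,i,i'} τ(e_a e_b) κ(cv e^i e^i') ⊗ (σ(e^a)ρ(e_i) ⊗ σ(e^b)ρ(e_i'))` (tR_apply with ce_cv,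
tS_apply with ce_mul, as in KExp.PtrMul). (ii) for `P, Q, r : End X`: `Tr_{X ⊗ X}((P ⊗ Q) τ_X (r ⊗ 1)) = Tr_X(P Q r)` (`τ_X = TensorProduct.comm`; e.g. in the
basis `b_i ⊗ b_j`, or by linearity for rank one operators `P`, `r`), so `Tr(F ⊗ ((P ⊗ Q) τ_X (r ⊗ 1))) = Tr F Tr(P Q r) = Tr(F ⊗ P Q r)`
(`LinearMap.trace_tensorProduct'`). With `cBr ρ σ = (∑_q ρ(e_q) ⊗ σ(e^q)) τ_X`: the left side is the trace of `G (1 ⊗ r)`,
`G = ∑ τ(e_a e_b) κ(cv e^i e^i') ⊗ σ(e^a)ρ(e_i)ρ(e_q)σ(e^b)ρ(e_i')σ(e^q) = Bop τ σ * Cop τ κ ρ σ`. (iii) Cop_eq; `1 ⊗ θ` commutes with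
`Rop κ ρ` and `Bop τ σ` (theta_rho, theta_sigma), Mop_eq_Bop_Rop: `G = M M (1 ⊗ θ)`.
-/

set_option autoImplicit false

open scoped TensorProduct

namespace Pool.Agent.KExp

variable {k : Type} [Field k] {H : Type} [Ring H] [HopfAlgebra k H] [FiniteDimensional k H]

variable {X Y : Type} [AddCommGroup X] [Module k X] [AddCommGroup Y] [Module k Y]
  {ρ : H →ₐ[k] Module.End k X} {σ : (H →ₗ[k] k) →ₗ[k] Module.End k X}
  {τ : H →ₐ[k] Module.End k Y} {κ : (H →ₗ[k] k) →ₗ[k] Module.End k Y}

omit [FiniteDimensional k H] in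
private theorem t24_mul {A B : Type} [AddCommGroup A] [Module k A] [AddCommGroup B] [Module k B]
    (f f' : Module.End k A) (g g' : Module.End k B) :
    TensorProduct.map f g * TensorProduct.map f' g' = TensorProduct.map (f * f') (g * g') := by
  rw [Module.End.mul_eq_comp, Module.End.mul_eq_comp, Module.End.mul_eq_comp,
    TensorProduct.map_comp]

omit [FiniteDimensional k H] in
private theorem t24_sum {A B J : Type} [AddCommGroup A] [Module k A] [AddCommGroup B]
    [Module k B] (s : Finset J) (f : Module.End k A) (g : J → Module.End k B) :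
    TensorProduct.map f (∑ i ∈ s, g i) = ∑ i ∈ s, TensorProduct.map f (g i) := by
  classical
  induction s using Finset.induction_on with
  | empty => simp [TensorProduct.map_zero_right]
  | insert a s ha ih =>
    rw [Finset.sum_insert ha, Finset.sum_insert ha, TensorProduct.map_add_right, ih]

private theorem t24_trace {A J : Type} [AddCommGroup A] [Module k A] [Fintype J] [DecidableEq J]
    (b : Module.Basis J k A) (f : Module.End k A) :
    LinearMap.trace k A f = ∑ j, b.repr (f (b j)) j := by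
  rw [LinearMap.trace_eq_matrix_trace k b, Matrix.trace]
  refine Finset.sum_congr rfl fun j _ => ?_
  rw [Matrix.diag_apply, LinearMap.toMatrix_apply]

private theorem t24_swap [FiniteDimensional k X] (P Q r : Module.End k X) :
    LinearMap.trace k (X ⊗[k] X) (TensorProduct.map P Q * (TensorProduct.comm k X X).toLinearMap *
      TensorProduct.map r 1) = LinearMap.trace k X (P * Q * r) := by
  classical
  set b := Module.finBasis k X with hb
  rw [t24_trace (b.tensorProduct b), t24_trace b, Fintype.sum_prod_type]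
  refine Finset.sum_congr rfl fun i _ => ?_
  have h1 : ∀ j, (b.tensorProduct b).repr (((TensorProduct.map P Q *
      (TensorProduct.comm k X X).toLinearMap * TensorProduct.map r 1 :
        Module.End k (X ⊗[k] X)))
        ((b.tensorProduct b) (i, j))) (i, j) = b.repr (Q (r (b i))) j * b.repr (P (b j)) i := by
    intro j
    rw [Module.Basis.tensorProduct_apply, Module.End.mul_apply, Module.End.mul_apply,
      TensorProduct.map_tmul, LinearEquiv.coe_coe, TensorProduct.comm_tmul,
      TensorProduct.map_tmul, Module.Basis.tensorProduct_repr_tmul_apply]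
    rfl
  rw [Finset.sum_congr rfl fun j _ => h1 j]
  have h2 : (P * Q * r) (b i) = ∑ j, b.repr (Q (r (b i))) j • P (b j) := by
    have h3 : Q (r (b i)) = ∑ j, b.repr (Q (r (b i))) j • b j := (b.sum_repr _).symm
    show P (Q (r (b i))) = _
    conv_lhs => rw [h3]
    rw [map_sum]
    exact Finset.sum_congr rfl fun j _ => map_smul _ _ _
  rw [h2, map_sum, Finsupp.finset_sum_apply]
  refine Finset.sum_congr rfl fun j _ => ?_
  rw [map_smul, Finsupp.smul_apply, smul_eq_mul]

private theorem t24_tens1 (R0 : Module.End k (X ⊗[k] X)) (K0 : Module.End k Y) :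
    ∑ j, TensorProduct.map (τ (e k H j) * K0) (tS σ σ (ec k H j) * R0) =
      ∑ a, ∑ b, TensorProduct.map (τ (e k H a * e k H b) * K0)
        (TensorProduct.map (σ (ec k H a)) (σ (ec k H b)) * R0) := by
  have h := ce_mul (k := k) (H := H)
    (G := fun f g x => TensorProduct.map (τ x * K0) (TensorProduct.map (σ f) (σ g) * R0))
    (fun b f => ⟨fun u v => by
        simp only [map_add, TensorProduct.map_add_left, TensorProduct.map_add_right, add_mul],
      fun c u => by
        simp only [map_smul, TensorProduct.map_smul_left, TensorProduct.map_smul_right,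
          smul_mul_assoc]⟩)
    (fun b f => ⟨fun u v => by
        simp only [map_add, TensorProduct.map_add_right, add_mul],
      fun c u => by
        simp only [map_smul, TensorProduct.map_smul_right,
          smul_mul_assoc]⟩)
    (fun b f => ⟨fun u v => by
        simp only [map_add, TensorProduct.map_add_left, add_mul],
      fun c u => by
        simp only [map_smul, TensorProduct.map_smul_left, smul_mul_assoc]⟩)
  rw [← h]
  refine Finset.sum_congr rfl fun j _ => ?_
  rw [tS_apply, Finset.sum_mul, t24_sum]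
  refine Finset.sum_congr rfl fun p _ => ?_
  rw [Finset.sum_mul, t24_sum]
  refine Finset.sum_congr rfl fun q _ => ?_
  rw [smul_mul_assoc, TensorProduct.map_smul_right]

private theorem t24_tens2 (T0 : Module.End k Y) (S0 : Module.End k (X ⊗[k] X)) :
    ∑ i, TensorProduct.map (T0 * κ (ec k H i)) (S0 * tR ρ ρ (e k H i)) =
      ∑ i, ∑ i', TensorProduct.map (T0 * κ (cv (ec k H i) (ec k H i')))
        (S0 * TensorProduct.map (ρ (e k H i)) (ρ (e k H i'))) := by
  have h := ce_cv (k := k) (H := H)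
    (G := fun x y f => TensorProduct.map (T0 * κ f) (S0 * TensorProduct.map (ρ x) (ρ y)))
    (fun b f => ⟨fun u v => by
        simp only [map_add, TensorProduct.map_add_left, TensorProduct.map_add_right, mul_add],
      fun c u => by
        simp only [map_smul, TensorProduct.map_smul_left, TensorProduct.map_smul_right,
          mul_smul_comm]⟩)
    (fun b f => ⟨fun u v => by
        simp only [map_add, TensorProduct.map_add_right, mul_add],
      fun c u => by
        simp only [map_smul, TensorProduct.map_smul_right, mul_smul_comm]⟩)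
    (fun b f => ⟨fun u v => by
        simp only [map_add, TensorProduct.map_add_left, mul_add],
      fun c u => by
        simp only [map_smul, TensorProduct.map_smul_left, mul_smul_comm]⟩)
  rw [h]
  refine Finset.sum_congr rfl fun i _ => ?_
  rw [tR_apply]
  unfold sw2
  rw [Finset.mul_sum, t24_sum]

private theorem t24_Mop : Mop τ κ (tR ρ ρ) (tS σ σ) =
    ∑ a, ∑ b, ∑ i, ∑ i', TensorProduct.map
      (τ (e k H a * e k H b) * κ (cv (ec k H i) (ec k H i')))
      (TensorProduct.map (σ (ec k H a) * ρ (e k H i)) (σ (ec k H b) * ρ (e k H i'))) := by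
  unfold Mop
  simp only [t24_tens1]
  rw [Finset.sum_comm]
  refine Finset.sum_congr rfl fun a _ => ?_
  rw [Finset.sum_comm]
  refine Finset.sum_congr rfl fun b _ => ?_
  rw [t24_tens2]
  refine Finset.sum_congr rfl fun i _ => Finset.sum_congr rfl fun i' _ => ?_
  rw [t24_mul]

private theorem t24_lhs [FiniteDimensional k X] [FiniteDimensional k Y] (r : Module.End k X) :
    LinearMap.trace k (Y ⊗[k] (X ⊗[k] X)) (Mop τ κ (tR ρ ρ) (tS σ σ) *
        TensorProduct.map 1 (cBr ρ σ * TensorProduct.map r 1)) =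
    ∑ a, ∑ b, ∑ i, ∑ i', ∑ q,
      LinearMap.trace k Y (τ (e k H a * e k H b) * κ (cv (ec k H i) (ec k H i'))) *
      LinearMap.trace k X (σ (ec k H a) * ρ (e k H i) * ρ (e k H q) *
        (σ (ec k H b) * ρ (e k H i') * σ (ec k H q)) * r) := by
  rw [t24_Mop, Finset.sum_mul, map_sum]
  refine Finset.sum_congr rfl fun a _ => ?_
  rw [Finset.sum_mul, map_sum]
  refine Finset.sum_congr rfl fun b _ => ?_
  rw [Finset.sum_mul, map_sum]
  refine Finset.sum_congr rfl fun i _ => ?_
  rw [Finset.sum_mul, map_sum]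
  refine Finset.sum_congr rfl fun i' _ => ?_
  rw [t24_mul, mul_one, LinearMap.trace_tensorProduct', ← Finset.mul_sum]
  congr 1
  unfold cBr
  rw [Finset.sum_mul, Finset.sum_mul, Finset.mul_sum, map_sum]
  refine Finset.sum_congr rfl fun q _ => ?_
  rw [← mul_assoc, ← mul_assoc, t24_mul, t24_swap]

private theorem t24_rhs [FiniteDimensional k X] [FiniteDimensional k Y] (r : Module.End k X) :
    LinearMap.trace k (Y ⊗[k] X) (Bop τ σ * Cop τ κ ρ σ * TensorProduct.map 1 r) =
    ∑ a, ∑ b, ∑ i, ∑ i', ∑ q,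
      LinearMap.trace k Y (τ (e k H a * e k H b) * κ (cv (ec k H i) (ec k H i'))) *
      LinearMap.trace k X (σ (ec k H a) * ρ (e k H i) * ρ (e k H q) *
        (σ (ec k H b) * ρ (e k H i') * σ (ec k H q)) * r) := by
  unfold Bop Cop
  rw [Finset.sum_mul, Finset.sum_mul, map_sum]
  refine Finset.sum_congr rfl fun a _ => ?_
  rw [Finset.mul_sum, Finset.sum_mul, map_sum]
  refine Finset.sum_congr rfl fun b _ => ?_
  rw [Finset.mul_sum, Finset.sum_mul, map_sum]
  refine Finset.sum_congr rfl fun i _ => ?_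
  rw [Finset.mul_sum, Finset.sum_mul, map_sum]
  refine Finset.sum_congr rfl fun i' _ => ?_
  rw [Finset.mul_sum, Finset.sum_mul, map_sum]
  refine Finset.sum_congr rfl fun q _ => ?_
  rw [t24_mul, t24_mul, mul_one, LinearMap.trace_tensorProduct', map_mul τ]
  simp only [mul_assoc]

private theorem t24_comm_R (hS : ∀ x : H, Sa k H (Sa k H x) = x) (hX : IsYD ρ σ) :
    TensorProduct.map 1 (theta ρ σ) * Rop κ ρ = Rop κ ρ * TensorProduct.map 1 (theta ρ σ) := by
  unfold Rop
  rw [Finset.mul_sum, Finset.sum_mul]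
  refine Finset.sum_congr rfl fun j _ => ?_
  rw [t24_mul, t24_mul, one_mul, mul_one, theta_rho hS hX]

private theorem t24_comm_B (hS : ∀ x : H, Sa k H (Sa k H x) = x) (hX : IsYD ρ σ) :
    TensorProduct.map 1 (theta ρ σ) * Bop τ σ = Bop τ σ * TensorProduct.map 1 (theta ρ σ) := by
  unfold Bop
  rw [Finset.mul_sum, Finset.sum_mul]
  refine Finset.sum_congr rfl fun j _ => ?_
  rw [t24_mul, t24_mul, one_mul, mul_one, theta_sigma hS hX]

theorem trace_T24 [FiniteDimensional k X] [FiniteDimensional k Y]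
    (hS : ∀ x : H, Sa k H (Sa k H x) = x) (hX : IsYD ρ σ) (hY : IsYD τ κ)
    (r : Module.End k X) :
    LinearMap.trace k (Y ⊗[k] (X ⊗[k] X)) (Mop τ κ (tR ρ ρ) (tS σ σ) *
        TensorProduct.map 1 (cBr ρ σ * TensorProduct.map r 1)) =
      LinearMap.trace k (Y ⊗[k] X) (Mop τ κ ρ σ * Mop τ κ ρ σ *
        TensorProduct.map 1 (theta ρ σ * r)) := by
  rw [t24_lhs, ← t24_rhs, Cop_eq hX hY]
  have h1 : Bop τ σ * (Rop κ ρ * TensorProduct.map 1 (theta ρ σ) * Bop τ σ * Rop κ ρ) =
      Mop τ κ ρ σ * Mop τ κ ρ σ * TensorProduct.map 1 (theta ρ σ) := by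
    rw [Mop_eq_Bop_Rop]
    calc Bop τ σ * (Rop κ ρ * TensorProduct.map 1 (theta ρ σ) * Bop τ σ * Rop κ ρ)
        = Bop τ σ * Rop κ ρ * (TensorProduct.map 1 (theta ρ σ) * Bop τ σ) * Rop κ ρ := by
          simp only [mul_assoc]
      _ = Bop τ σ * Rop κ ρ * Bop τ σ * (TensorProduct.map 1 (theta ρ σ) * Rop κ ρ) := by
          rw [t24_comm_B hS hX]
          simp only [mul_assoc]
      _ = Bop τ σ * Rop κ ρ * (Bop τ σ * Rop κ ρ) * TensorProduct.map 1 (theta ρ σ) := by
          rw [t24_comm_R hS hX]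
          simp only [mul_assoc]
  rw [h1, mul_assoc, t24_mul, one_mul]

end Pool.Agent.KExp
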