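import Pool.Agent.Lib.KExp.Defs
import Pool.Agent.Lib.KExp.Sw
import Pool.Agent.Lib.KExp.CE
import Pool.Agent.Lib.KExp.LamInt
import Pool.Agent.Lib.KExp.LInt
import Pool.Agent.Lib.KExp.QPow
import Pool.Agent.Lib.KExp.Theta
import Pool.Agent.Lib.KExp.TensApp
import Pool.Agent.Lib.KExp.TensYD
import Pool.Agent.Lib.KExp.PYD
import Pool.Agent.Lib.KExp.Ptr
import Pool.Agent.Lib.KExp.TnPtr
import Pool.Agent.Lib.KOd.Defs
import Pool.Agent.Lib.KOd.LamCoc
import Pool.Agent.Lib.KOd.AdYD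
import Pool.Agent.Lib.KOd.T24
import Pool.Agent.Lib.KOd.AdT0

/-!
# KOd.AdTr2 (MP_0d5e35_al, paper /team-store/MP_0d5e35_al_paper77.md)

(3.6), (3.7). Let `A' = (H, lmul, sA)`, `P = (H ⊗ H, rP, sP)`.
Tn_zero: unfold Tn, Q_zero: `T_0 = ∑ λ(e_j ε(Lam₂)) σ(e^j) ρ(Lam₁) = σ(λ) ρ(Lam)` (sum_e, sw2_counit_right).
trace_sq_Ad: trace_T24 with `X = A'`, `Y = P`, `r = mulRight u`, `theta = 1` (theta_A): the right side is the left side of the claim. Its left side:
`Tr_{P ⊗ (A' ⊗ A')}(M (1 ⊗ C)) = Tr_{A' ⊗ A'}(ptr M * C)` (trace_ptr, ptr_mul_right), `ptr M = T_0 = tS(λ) tR(Lam)` (ptr_Mop_P with `n = 0` for the YD module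
`A' ⊗ A'`, isYD_tens; Tn_zero), `= Tr(C * T_0)` (`LinearMap.trace_mul_comm`), `C = cBr * (mulRight u ⊗ 1)`. By T0_Ad, mulRight_tL, cBr_tL:
`C T_0 (x ⊗ y) = tL(S(S(u) π(S(x) y))) = tL(S(π(S(x) y)) u)` (Sa_mul), i.e. `C T_0 = tL ∘ F ∘ μ`, `F = mulRight u ∘ S ∘ π`,
`μ = mul' ∘ (S ⊗ 1)`; `Tr(tL ∘ F ∘ μ) = Tr(F ∘ μ ∘ tL)` (`LinearMap.trace_comp_comm'`) and `μ ∘ tL = m` (mul_tL).
trace_one_Ad: `Tr(M (1 ⊗ r)) = Tr_{A'}(T_0 r)` (same lemmas for `A'`), `T_0 r x = sA(λ)(Lam x u) = ε(x) ε(u) sA(λ)(Lam)`, `sA(λ)(Lam) = λ(Lam₁ S(Lam₃)) Lam₂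
= λ(S(Lam₃) Lam₁) Lam₂ = λ(S(Lam₁) Lam₂) Lam₃ = m Lam` (lam_mul_comm, coc_sw3, lam_one): a rank one operator with trace `m ε(u) ε(Lam) = m² ε(u)` (ep_Lam).
-/

set_option autoImplicit false

open scoped TensorProduct

namespace Pool.Agent.KExp

variable {k : Type} [Field k] {H : Type} [Ring H] [HopfAlgebra k H] [FiniteDimensional k H]

theorem Tn_zero {Y : Type} [AddCommGroup Y] [Module k Y] (ρ : H →ₐ[k] Module.End k Y)
    (σ : (H →ₗ[k] k) →ₗ[k] Module.End k Y) : Tn 0 ρ σ = σ (lam k H) * ρ (Lam k H) := by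
  have h1 : ∀ a b : H, ∑ j, lam k H (e k H j * Q k H 0 b) • (σ (ec k H j) * ρ a) =
      ep k H b • (σ (lam k H) * ρ a) := by
    intro a b
    have h2 : σ (lam k H) = ∑ j, lam k H (e k H j) • σ (ec k H j) := by
      conv_lhs => rw [← sum_e (k := k) (lam k H)]
      rw [map_sum]
      exact Finset.sum_congr rfl fun j _ => map_smul _ _ _
    rw [h2, Finset.sum_mul, Finset.smul_sum]
    refine Finset.sum_congr rfl fun j _ => ?_
    rw [Q_zero, mul_smul_comm, mul_one, map_smul, smul_eq_mul, mul_smul, smul_mul_assoc]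
  unfold Tn
  simp only [h1]
  exact sw2_counit_right (k := k) (f := fun a : H => σ (lam k H) * ρ a)
    ⟨fun x y => by beta_reduce; rw [map_add, mul_add], fun c x => by
      beta_reduce; rw [map_smul, mul_smul_comm]⟩ (Lam k H)

private theorem ptr_Mop_zero (hS : ∀ x : H, Sa k H (Sa k H x) = x) {Y : Type} [AddCommGroup Y]
    [Module k Y] {ρ : H →ₐ[k] Module.End k Y} {σ : (H →ₗ[k] k) →ₗ[k] Module.End k Y}
    (hY : IsYD ρ σ) : ptr (Mop (rP (k := k) (H := H)) sP ρ σ) = σ (lam k H) * ρ (Lam k H) := by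
  have h := ptr_Mop_P hS hY 0
  rw [pow_zero, TensorProduct.map_one, mul_one, Tn_zero] at h
  exact h

theorem trace_sq_Ad (hS : ∀ x : H, Sa k H (Sa k H x) = x) (u : H) :
    LinearMap.trace k ((H ⊗[k] H) ⊗[k] H)
      (Mop (rP (k := k) (H := H)) sP (Algebra.lmul k H) (sA k H) *
        Mop (rP (k := k) (H := H)) sP (Algebra.lmul k H) (sA k H) *
        TensorProduct.map 1 (LinearMap.mulRight k u)) =
      (Module.finrank k H : k) *
        LinearMap.trace k H (LinearMap.mulRight k u ∘ₗ Sa k H ∘ₗ piK k H) := by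
  have hA := isYD_A k H hS
  have h1 := trace_T24 (X := H) (Y := H ⊗[k] H) hS hA (isYD_P hS)
    (LinearMap.mulRight k u : Module.End k H)
  rw [theta_A k H hS, one_mul] at h1
  rw [← h1, ← trace_ptr, ptr_mul_right, ptr_Mop_zero hS (isYD_tens hA hA),
    LinearMap.trace_mul_comm]
  have h2 : (cBr (Algebra.lmul k H) (sA k H) *
        TensorProduct.map (LinearMap.mulRight k u : Module.End k H) (1 : Module.End k H)) *
      (tS (sA k H) (sA k H) (lam k H) *
        tR (Algebra.lmul k H) (Algebra.lmul k H) (Lam k H)) =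
      tL k H ∘ₗ ((LinearMap.mulRight k u ∘ₗ Sa k H ∘ₗ piK k H) ∘ₗ
        (LinearMap.mul' k H ∘ₗ (Sa k H).rTensor H)) := by
    refine TensorProduct.ext' fun x y => ?_
    rw [Module.End.mul_apply, Module.End.mul_apply, T0_Ad hS, mulRight_tL hS, cBr_tL hS]
    simp only [LinearMap.comp_apply, LinearMap.rTensor_tmul, LinearMap.mul'_apply,
      LinearMap.mulRight_apply]
    rw [Sa_mul, hS]
  rw [h2, LinearMap.trace_comp_comm', LinearMap.comp_assoc]
  have h3 : (LinearMap.mul' k H ∘ₗ (Sa k H).rTensor H) ∘ₗ tL k H =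
      (Module.finrank k H : k) • (LinearMap.id : H →ₗ[k] H) := by
    refine LinearMap.ext fun z => ?_
    rw [LinearMap.comp_apply, mul_tL, LinearMap.smul_apply, LinearMap.id_apply]
  rw [h3, LinearMap.comp_smul, LinearMap.comp_id, map_smul, smul_eq_mul]

private theorem sA_lam_Lam (hS : ∀ x : H, Sa k H (Sa k H x) = x) :
    sA k H (lam k H) (Lam k H) = (Module.finrank k H : k) • Lam k H := by
  rw [sA_apply]
  have h1 : (fun a b c : H => lam k H (a * Sa k H c) • b) =
      fun a b c : H => lam k H (Sa k H c * a) • b := by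
    funext a b c
    rw [lam_mul_comm]
  rw [h1, coc_sw3 (F := fun a b c : H => lam k H (Sa k H c * a) • b) Lam_coc
    ⟨fun b c => ⟨fun x y => by beta_reduce; rw [mul_add, map_add, add_smul], fun r x => by
        beta_reduce; rw [mul_smul_comm, map_smul, smul_eq_mul, mul_smul]⟩,
      fun a c => ⟨fun x y => by beta_reduce; rw [smul_add], fun r x => by
        beta_reduce; rw [smul_comm]⟩,
      fun a b => ⟨fun x y => by beta_reduce; rw [map_add, add_mul, map_add, add_smul],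
        fun r x => by
          beta_reduce; rw [map_smul, smul_mul_assoc, map_smul, smul_eq_mul, mul_smul]⟩⟩, sw3_eq]
  have h2 : ∀ a y : H, sw2 k (fun b c => lam k H (Sa k H b * c) • a) y =
      ep k H y • ((Module.finrank k H : k) • a) := by
    intro a y
    have h3 := sw2_S_mul (k := k) (f := fun t : H => lam k H t • a)
      ⟨fun x y => by beta_reduce; rw [map_add, add_smul], fun r x => by
        beta_reduce; rw [map_smul, smul_eq_mul, mul_smul]⟩ y
    rw [h3, lam_one]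
  simp only [h2]
  exact sw2_counit_right (k := k) (f := fun a : H => (Module.finrank k H : k) • a)
    ⟨fun x y => by beta_reduce; rw [smul_add], fun r x => by
      beta_reduce; rw [smul_comm]⟩ (Lam k H)

theorem trace_one_Ad (hS : ∀ x : H, Sa k H (Sa k H x) = x) (u : H) :
    LinearMap.trace k ((H ⊗[k] H) ⊗[k] H)
      (Mop (rP (k := k) (H := H)) sP (Algebra.lmul k H) (sA k H) *
        TensorProduct.map 1 (LinearMap.mulRight k u)) =
      (Module.finrank k H : k) * (Module.finrank k H : k) * ep k H u := by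
  have hA := isYD_A k H hS
  rw [← trace_ptr, ptr_mul_right, ptr_Mop_zero hS hA]
  have h2 : sA k H (lam k H) * Algebra.lmul k H (Lam k H) *
      (LinearMap.mulRight k u : Module.End k H) =
      (ep k H).smulRight ((ep k H u * (Module.finrank k H : k)) • Lam k H) := by
    refine LinearMap.ext fun x => ?_
    rw [Module.End.mul_apply, Module.End.mul_apply, LinearMap.mulRight_apply,
      LinearMap.smulRight_apply]
    have h3 : (Algebra.lmul k H (Lam k H)) (x * u) = (ep k H x * ep k H u) • Lam k H := by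
      have h4 : (Algebra.lmul k H (Lam k H)) (x * u) = Lam k H * (x * u) := rfl
      rw [h4, Lam_mul hS, ep_mul]
    rw [h3, map_smul, sA_lam_Lam hS, smul_smul, smul_smul]
    congr 1
    ring
  rw [h2, LinearMap.trace_smulRight, map_smul, ep_Lam, smul_eq_mul]
  ring

end Pool.Agent.KExp
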