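import Pool.Agent.Lib.KExp.Defs
import Pool.Agent.Lib.KExp.Sw
import Pool.Agent.Lib.KExp.CE
import Pool.Agent.Lib.KExp.TensApp
import Pool.Agent.Lib.KOd.Defs

/-!
# KOd.ComTens (MP_0d5e35_al, paper /team-store/MP_0d5e35_al_paper77.md)

(2.3) The tensor product of comodules. isCom_tS: tS_apply; `one`: `∑ ε(e_i)ε(e_j) κ(e^i) ⊗ κ'(e^j) = κ(ε) ⊗ κ'(ε)`; `mul`: copy the
computation from KExp.TensYD (isYD_tens, its field `mul` uses only the fields `one`, `mul`):
`(κ(e^i) ⊗ κ'(e^j))(κ(e^p) ⊗ κ'(e^q)) = κ(cv e^p e^i) ⊗ κ'(cv e^q e^j)`.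
trace_tS: `∑ f(e_i e_j) Tr κ(e^i) Tr κ'(e^j) = ∑ f(e_i e_j) e^i(z) e^j(z') = f(z z')` (`LinearMap.trace_tensorProduct'`, sum_ec).
-/

set_option autoImplicit false

open scoped TensorProduct

namespace Pool.Agent.KExp

variable {k : Type} [Field k] {H : Type} [Ring H] [HopfAlgebra k H] [FiniteDimensional k H]

section aux

variable {X Y : Type} [AddCommGroup X] [Module k X] [AddCommGroup Y] [Module k Y]
  {σ : (H →ₗ[k] k) →ₗ[k] Module.End k X} {σ' : (H →ₗ[k] k) →ₗ[k] Module.End k Y}

/-- `TensorProduct.map` as a bilinear map -/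
private noncomputable def MB (k : Type) [Field k] (X Y : Type) [AddCommGroup X] [Module k X]
    [AddCommGroup Y] [Module k Y] :
    Module.End k X →ₗ[k] Module.End k Y →ₗ[k] Module.End k (X ⊗[k] Y) :=
  TensorProduct.mapBilinear (RingHom.id k) X Y X Y

omit [FiniteDimensional k H] [HopfAlgebra k H] [Ring H] in
private theorem MB_apply (A : Module.End k X) (B : Module.End k Y) :
    TensorProduct.map A B = MB k X Y A B := rfl

private theorem aux_com (hX : IsCom σ) (hY : IsCom σ') : IsCom (tS σ σ') := by
  refine ⟨?_, ?_⟩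
  · -- the counit
    rw [tS_apply]
    have h1 : ∀ i j, (Coalgebra.counit (R := k) (A := H)) (e k H i * e k H j) =
        ep k H (e k H i) * ep k H (e k H j) := fun i j => ep_mul _ _
    have h2 : MB k X Y (σ (ep k H)) (σ' (ep k H)) = 1 := by
      rw [show σ (ep k H) = 1 from hX.one, show σ' (ep k H) = 1 from hY.one]
      exact TensorProduct.map_one
    rw [← h2]
    conv_rhs => rw [← sum_e (ep k H)]
    simp only [map_sum, map_smul, LinearMap.sum_apply, LinearMap.smul_apply,
      MB_apply, Finset.smul_sum, h1, mul_smul]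
    conv_rhs => rw [Finset.sum_comm]
    refine Finset.sum_congr rfl fun i _ => Finset.sum_congr rfl fun j _ => ?_
    rw [smul_comm]
  · -- the product
    intro f g
    rw [tS_apply, tS_apply, tS_apply]
    have e1 : (∑ i, ∑ j, f (e k H i * e k H j) •
          TensorProduct.map (σ (ec k H i)) (σ' (ec k H j))) *
        (∑ p, ∑ q, g (e k H p * e k H q) • TensorProduct.map (σ (ec k H p)) (σ' (ec k H q))) =
        ∑ p, ∑ i, ∑ q, ∑ j, (f (e k H i * e k H j) * g (e k H p * e k H q)) •
          MB k X Y (σ (cv (ec k H p) (ec k H i))) (σ' (cv (ec k H q) (ec k H j))) := by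
      rw [Finset.sum_mul_sum, Finset.sum_comm]
      refine Finset.sum_congr rfl fun p _ => Finset.sum_congr rfl fun i _ => ?_
      rw [Finset.sum_mul_sum, Finset.sum_comm]
      refine Finset.sum_congr rfl fun q _ => Finset.sum_congr rfl fun j _ => ?_
      rw [smul_mul_smul_comm, ← TensorProduct.map_mul, hX.mul, hY.mul, MB_apply]
    rw [e1]
    have e2 : ∀ p i, ∑ q, ∑ j, (f (e k H i * e k H j) * g (e k H p * e k H q)) •
          MB k X Y (σ (cv (ec k H p) (ec k H i))) (σ' (cv (ec k H q) (ec k H j))) =
        ∑ m, sw2 k (fun c d => (f (e k H i * d) * g (e k H p * c)) •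
          MB k X Y (σ (cv (ec k H p) (ec k H i))) (σ' (ec k H m))) (e k H m) := by
      intro p i
      refine ce_cv (G := fun c d F => (f (e k H i * d) * g (e k H p * c)) •
          MB k X Y (σ (cv (ec k H p) (ec k H i))) (σ' F)) ?_ ?_ ?_
      · intro b F
        refine ⟨fun x y => ?_, fun r x => ?_⟩
        · simp only [mul_add, map_add, add_smul]
        · simp only [mul_smul_comm, map_smul, smul_eq_mul, smul_smul, mul_left_comm]
      · intro b F
        refine ⟨fun x y => ?_, fun r x => ?_⟩
        · simp only [mul_add, map_add, add_smul, add_mul]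
        · simp only [mul_smul_comm, map_smul, smul_eq_mul, smul_smul, mul_assoc]
      · intro a b
        refine ⟨fun x y => ?_, fun r x => ?_⟩
        · simp only [map_add, smul_add]
        · simp only [map_smul, smul_smul, mul_comm]
    simp only [e2]
    have e3 := ce_cv (k := k) (H := H) (G := fun a b F => ∑ m, sw2 k (fun c d =>
        (f (b * d) * g (a * c)) • MB k X Y (σ F) (σ' (ec k H m))) (e k H m)) ?_ ?_ ?_
    · rw [e3]
      refine Finset.sum_congr rfl fun l _ => ?_
      have e4 : ∀ m, cv g f (e k H l * e k H m) =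
          sw2 k (fun a b => sw2 k (fun c d => g (a * c) * f (b * d)) (e k H m)) (e k H l) := by
        intro m
        rw [cv_apply]
        refine sw2_mul ⟨fun b => ⟨?_, ?_⟩, fun b => ⟨?_, ?_⟩⟩ _ _
        · intro x y
          simp only [map_add, add_mul]
        · intro r x
          simp only [map_smul, smul_eq_mul, mul_assoc]
        · intro x y
          simp only [map_add, mul_add]
        · intro r x
          simp only [map_smul, smul_eq_mul, mul_left_comm]
      simp only [e4, MB_apply]
      unfold sw2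
      rw [Finset.sum_comm]
      refine Finset.sum_congr rfl fun m _ => ?_
      rw [Finset.sum_smul]
      refine Finset.sum_congr rfl fun j _ => ?_
      rw [Finset.sum_smul]
      refine Finset.sum_congr rfl fun j _ => ?_
      simp only [mul_comm]
    · intro b F
      refine ⟨fun x y => ?_, fun r x => ?_⟩
      · simp only [sw2, add_mul, mul_add, map_add, add_smul, Finset.sum_add_distrib]
      · simp only [sw2, smul_mul_assoc, map_smul, smul_eq_mul, smul_smul,
          Finset.smul_sum, mul_left_comm]
    · intro b F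
      refine ⟨fun x y => ?_, fun r x => ?_⟩
      · simp only [sw2, add_mul, mul_add, map_add, add_smul, Finset.sum_add_distrib]
      · simp only [sw2, smul_mul_assoc, map_smul, smul_eq_mul, smul_smul,
          Finset.smul_sum, mul_assoc]
    · intro a b
      refine ⟨fun x y => ?_, fun r x => ?_⟩
      · simp only [sw2, map_add, LinearMap.add_apply, smul_add, Finset.sum_add_distrib]
      · simp only [sw2, map_smul, LinearMap.smul_apply, smul_smul, Finset.smul_sum, mul_comm]

end aux

variable {W W' V : Type} [AddCommGroup W] [Module k W] [AddCommGroup W'] [Module k W']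
  [AddCommGroup V] [Module k V] [FiniteDimensional k W] [FiniteDimensional k W']
  [FiniteDimensional k V]

omit [FiniteDimensional k W] [FiniteDimensional k W'] in
theorem isCom_tS {κ : (H →ₗ[k] k) →ₗ[k] Module.End k W}
    {κ' : (H →ₗ[k] k) →ₗ[k] Module.End k W'} (hκ : IsCom κ) (hκ' : IsCom κ') :
    IsCom (tS κ κ') := by
  exact aux_com hκ hκ'

theorem trace_tS (κ : (H →ₗ[k] k) →ₗ[k] Module.End k W)
    (κ' : (H →ₗ[k] k) →ₗ[k] Module.End k W') {z z' : H}
    (hz : ∀ f, LinearMap.trace k W (κ f) = f z) (hz' : ∀ f, LinearMap.trace k W' (κ' f) = f z')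
    (f : H →ₗ[k] k) : LinearMap.trace k (W ⊗[k] W') (tS κ κ' f) = f (z * z') := by
  rw [tS_apply]
  simp only [map_sum, map_smul, LinearMap.trace_tensorProduct', hz, hz', smul_eq_mul]
  have h1 := congrArg f (congrArg₂ (· * ·) (sum_ec (k := k) z) (sum_ec (k := k) z'))
  simp only [Finset.sum_mul_sum, smul_mul_smul_comm, map_sum, map_smul, smul_eq_mul] at h1
  rw [← h1]
  refine Finset.sum_congr rfl fun i _ => Finset.sum_congr rfl fun j _ => ?_
  ring

end Pool.Agent.KExp
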