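import Mathlib

/-!
# KOd.Idem (MP_0d5e35_al, paper /team-store/MP_0d5e35_al_paper77.md)

A semisimple finite-dimensional algebra over an algebraically closed field is spanned by idempotents. PROOF.
`IsSemisimpleRing.exists_algEquiv_pi_matrix_of_isAlgClosed`: `Φ : A ≃ₐ ∏ M_{d i}(k)`. The elements `E^i_ab = Pi.single i (Matrix.single a b 1)`
(matrix units) span the product; `E_aa` is idempotent, for `a ≠ b` `E_aa + E_ab` is idempotent and `E_ab = (E_aa + E_ab) - E_aa`.
Transport by `Φ.symm`.
-/

set_option autoImplicit false

namespace Pool.Agent.KExp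

private theorem span_idem_matrix {k : Type} [Field k] (d : ℕ) :
    Submodule.span k {z : Matrix (Fin d) (Fin d) k | z * z = z} = ⊤ := by
  rw [eq_top_iff]
  intro M _
  rw [Matrix.matrix_eq_sum_single M]
  refine Submodule.sum_mem _ fun a _ => Submodule.sum_mem _ fun b _ => ?_
  have haa : ∀ a : Fin d, Matrix.single a a (1 : k) ∈
      Submodule.span k {z : Matrix (Fin d) (Fin d) k | z * z = z} := fun a =>
    Submodule.subset_span (by
      show Matrix.single a a (1 : k) * Matrix.single a a 1 = _
      rw [Matrix.single_mul_single_same, one_mul])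
  have h1 : Matrix.single a b (M a b) = M a b • Matrix.single a b (1 : k) := by
    rw [Matrix.smul_single, smul_eq_mul, mul_one]
  rw [h1]
  refine Submodule.smul_mem _ _ ?_
  by_cases hab : a = b
  · subst hab
    exact haa a
  · have h2 : Matrix.single a a (1 : k) + Matrix.single a b 1 ∈
        Submodule.span k {z : Matrix (Fin d) (Fin d) k | z * z = z} :=
      Submodule.subset_span (by
        show (Matrix.single a a (1 : k) + Matrix.single a b 1) *
          (Matrix.single a a (1 : k) + Matrix.single a b 1) = _
        rw [add_mul, mul_add, mul_add, Matrix.single_mul_single_same,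
          Matrix.single_mul_single_same, Matrix.single_mul_single_of_ne _ _ _ _ (Ne.symm hab),
          Matrix.single_mul_single_of_ne _ _ _ _ (Ne.symm hab), one_mul, add_zero, add_zero])
    have h3 := Submodule.sub_mem _ h2 (haa a)
    rwa [add_sub_cancel_left] at h3

theorem span_idempotents {k : Type} [Field k] [IsAlgClosed k] {A : Type} [Ring A] [Algebra k A]
    [FiniteDimensional k A] [IsSemisimpleRing A] :
    Submodule.span k {z : A | z * z = z} = ⊤ := by
  obtain ⟨n, d, _, ⟨Φ⟩⟩ := IsSemisimpleRing.exists_algEquiv_pi_matrix_of_isAlgClosed k A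
  rw [eq_top_iff]
  intro x _
  have key : ∀ (i : Fin n) (M : Matrix (Fin (d i)) (Fin (d i)) k),
      Φ.symm (Pi.single i M) ∈ Submodule.span k {z : A | z * z = z} := by
    intro i M
    have hM : M ∈ Submodule.span k {z : Matrix (Fin (d i)) (Fin (d i)) k | z * z = z} := by
      rw [span_idem_matrix]
      trivial
    induction hM using Submodule.span_induction with
    | mem z hz =>
      refine Submodule.subset_span ?_
      show Φ.symm (Pi.single i z) * Φ.symm (Pi.single i z) = _
      rw [← map_mul, ← Pi.single_mul, hz]
    | zero => 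
      rw [Pi.single_zero, map_zero]
      exact Submodule.zero_mem _
    | add y z _ _ hy hz =>
      rw [Pi.single_add, map_add]
      exact Submodule.add_mem _ hy hz
    | smul c z _ hz =>
      rw [Pi.single_smul, map_smul]
      exact Submodule.smul_mem _ _ hz
  have h1 : x = ∑ i, Φ.symm (Pi.single i (Φ x i)) := by
    rw [← map_sum, Finset.univ_sum_single (Φ x), AlgEquiv.symm_apply_apply]
  rw [h1]
  exact Submodule.sum_mem _ fun i _ => key i _

end Pool.Agent.KExp
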