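import Mathlib

/-!
# KOd.PowRoots (MP_0d5e35_al, paper /team-store/MP_0d5e35_al_paper77.md)

(2.1) The trace of `T^n` is the sum of the `r^n` over the roots `r` (with multiplicity) of the characteristic
polynomial. PROOF. `V` is the internal direct sum of the generalized eigenspaces
(`Module.End.iSup_maxGenEigenspace_eq_top`, `Module.End.independent_maxGenEigenspace`, for the finitely many
eigenvalues, i.e. `charpoly.roots.toFinset`); `LinearMap.trace_eq_sum_trace_restrict` (or its primed version); on
the generalized eigenspace of `μ` the map `T - μ` is nilpotent, so `trace (T^n) = finrank * μ^n` by induction on `n`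
with `LinearMap.trace_comp_eq_mul_of_commute_of_isNilpotent`; `LinearMap.finrank_maxGenEigenspace_eq`: the dimension
is the root multiplicity; `Finset.sum_multiset_map_count`. See also Mathlib/LinearAlgebra/Eigenspace/Charpoly.lean.
(Alternative: induction on the dimension / triangular matrices.)
-/

set_option autoImplicit false

namespace Pool.Agent.KExp

open Polynomial

private lemma pr_card {k : Type} [Field k] [IsAlgClosed k] {V : Type} [AddCommGroup V]
    [Module k V] [FiniteDimensional k V] (T : Module.End k V) :
    Multiset.card (LinearMap.charpoly T).roots = Module.finrank k V := by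
  rw [← LinearMap.charpoly_natDegree T]
  exact (Polynomial.splits_iff_card_roots.1 (IsAlgClosed.splits _))

private lemma pr_det {k : Type} [Field k] [IsAlgClosed k] {V : Type} [AddCommGroup V]
    [Module k V] [FiniteDimensional k V] (T : Module.End k V) (b : k) :
    LinearMap.det (T - algebraMap k (Module.End k V) b) =
      ((LinearMap.charpoly T).roots.map (fun r => r - b)).prod := by
  have h1 : (LinearMap.charpoly T).eval b =
      ((LinearMap.charpoly T).roots.map (fun r => b - r)).prod := by
    conv_lhs => rw [(IsAlgClosed.splits (LinearMap.charpoly T)).eq_prod_roots_of_monic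
      (LinearMap.charpoly_monic T)]
    rw [Polynomial.eval_multiset_prod, Multiset.map_map]
    simp
  rw [LinearMap.eval_charpoly] at h1
  have h2 : T - algebraMap k (Module.End k V) b =
      (-1 : k) • (algebraMap k (Module.End k V) b - T) := by
    rw [neg_one_smul, neg_sub]
  have h3 : ((LinearMap.charpoly T).roots.map (fun r => r - b)) =
      ((LinearMap.charpoly T).roots.map (fun r => (-1) * (b - r))) := by
    refine Multiset.map_congr rfl fun r _ => ?_
    ring
  rw [h2, LinearMap.det_smul, h1, h3, Multiset.prod_map_mul, Multiset.map_const',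
    Multiset.prod_replicate, pr_card]

private lemma pr_detPow {k : Type} [Field k] [IsAlgClosed k] {V : Type} [AddCommGroup V]
    [Module k V] [FiniteDimensional k V] (T : Module.End k V) {n : ℕ} (hn : n ≠ 0) (c : k) :
    LinearMap.det (T ^ n - algebraMap k (Module.End k V) c) =
      ((LinearMap.charpoly T).roots.map (fun r => r ^ n - c)).prod := by
  let φ : k[X] →* k := (LinearMap.det : Module.End k V →* k).comp
    ((aeval T : k[X] →ₐ[k] Module.End k V) : k[X] →* Module.End k V)
  have hm : (X ^ n - C c : k[X]).Monic := monic_X_pow_sub_C c hn
  have hs := (IsAlgClosed.splits (X ^ n - C c : k[X])).eq_prod_roots_of_monic hm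
  have h1 : φ (X ^ n - C c) = LinearMap.det (T ^ n - algebraMap k (Module.End k V) c) := by
    show LinearMap.det (aeval T (X ^ n - C c)) = _
    rw [map_sub, map_pow, aeval_X, aeval_C]
  have h2 : ∀ b : k, φ (X - C b) = ((LinearMap.charpoly T).roots.map (fun r => r - b)).prod := by
    intro b
    show LinearMap.det (aeval T (X - C b)) = _
    rw [map_sub, aeval_X, aeval_C, pr_det]
  have h3 : ∀ r : k, r ^ n - c = ((X ^ n - C c : k[X]).roots.map (fun b => r - b)).prod := by
    intro r
    have h4 : (X ^ n - C c : k[X]).eval r = r ^ n - c := by simp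
    rw [← h4]
    conv_lhs => rw [hs]
    rw [Polynomial.eval_multiset_prod, Multiset.map_map]
    simp
  rw [← h1]
  conv_lhs => rw [hs]
  rw [map_multiset_prod, Multiset.map_map]
  have h5 : (X ^ n - C c : k[X]).roots.map (⇑φ ∘ fun a => X - C a) =
      (X ^ n - C c : k[X]).roots.map
        (fun b => ((LinearMap.charpoly T).roots.map (fun r => r - b)).prod) :=
    Multiset.map_congr rfl fun b _ => h2 b
  rw [h5, Multiset.prod_map_prod_map]
  refine congrArg Multiset.prod (Multiset.map_congr rfl fun r _ => (h3 r).symm)

theorem trace_pow_roots {k : Type} [Field k] [IsAlgClosed k] {V : Type} [AddCommGroup V]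
    [Module k V] [FiniteDimensional k V] (T : Module.End k V) (n : ℕ) :
    LinearMap.trace k V (T ^ n) = ((LinearMap.charpoly T).roots.map (fun r => r ^ n)).sum := by
  rcases Nat.eq_zero_or_pos n with hn | hn
  · subst hn
    simp only [pow_zero]
    rw [Multiset.map_const', Multiset.sum_replicate, pr_card, LinearMap.trace_one, nsmul_one]
  have hn' : n ≠ 0 := hn.ne'
  have h1 : LinearMap.charpoly (T ^ n) =
      (((LinearMap.charpoly T).roots.map (fun r => r ^ n)).map (fun a => X - C a)).prod := by
    apply Polynomial.funext
    intro c
    rw [LinearMap.eval_charpoly, Polynomial.eval_multiset_prod, Multiset.map_map,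
      Multiset.map_map]
    have h2 : algebraMap k (Module.End k V) c - T ^ n =
        (-1 : k) • (T ^ n - algebraMap k (Module.End k V) c) := by
      rw [neg_one_smul, neg_sub]
    have h3 : (LinearMap.charpoly T).roots.map
        ((eval c ∘ fun a => X - C a) ∘ fun r => r ^ n) =
        (LinearMap.charpoly T).roots.map (fun r => (-1) * (r ^ n - c)) := by
      refine Multiset.map_congr rfl fun r _ => ?_
      simp
    rw [h2, LinearMap.det_smul, pr_detPow T hn' c, h3, Multiset.prod_map_mul,
      Multiset.map_const', Multiset.prod_replicate, pr_card]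
  rw [Module.End.trace_eq_sum_roots_charpoly_of_splits (IsAlgClosed.splits _), h1,
    Polynomial.roots_multiset_prod_X_sub_C]

end Pool.Agent.KExp
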