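import Mathlib
import Pool.Agent.Lib.KOd.PowRoots
import Pool.Agent.Lib.KExp.Gal

/-!
# KOd.Gal2 (MP_0d5e35_al, paper /team-store/MP_0d5e35_al_paper77.md)

(3.8) PROOF. `B^(N+1) = B`, so each root `r` of the characteristic polynomial (an eigenvalue) satisfies `r^(N+1) = r`:
`r = 0` or `r = ζ^j`, `ζ` a primitive `N`-th root of unity. trace_pow_roots with `n = 1, 2`: `Tr B = ∑ r`, `Tr(B*B) = ∑ r^2`. With
`f = ∑_{r ≠ 0} X^{j(r)} - q` (over ℚ): `aeval ζ f = 0`, so `aeval (ζ^2) f = 0` by aeval_pow (KExp.Gal, `Nat.Coprime 2 N`), i.e.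
`Tr(B*B) = q`.
-/

set_option autoImplicit false

namespace Pool.Agent.KExp

theorem trace_sq {k : Type} [Field k] [CharZero k] [IsAlgClosed k] {V : Type} [AddCommGroup V]
    [Module k V] [FiniteDimensional k V] {N : ℕ} (hN : Odd N) (B : Module.End k V)
    (hB : B ^ (N + 1) = B) (q : ℚ) (hq : LinearMap.trace k V B = (q : k)) :
    LinearMap.trace k V (B * B) = (q : k) := by
  classical
  have hN0 : 0 < N := hN.pos
  have : NeZero N := ⟨hN0.ne'⟩
  have : NeZero (N : k) := ⟨by exact_mod_cast hN0.ne'⟩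
  obtain ⟨ζ, hζ⟩ : ∃ ζ : k, IsPrimitiveRoot ζ N :=
    HasEnoughRootsOfUnity.exists_primitiveRoot k N
  have hroot : ∀ r ∈ (LinearMap.charpoly B).roots, r ^ (N + 1) = r := by
    intro r hr
    have h1 : (LinearMap.charpoly B).IsRoot r := (Polynomial.mem_roots'.mp hr).2
    rw [← Module.End.hasEigenvalue_iff_isRoot_charpoly] at h1
    obtain ⟨v, hv⟩ := h1.exists_hasEigenvector
    have h2 : (B ^ (N + 1)) v = r ^ (N + 1) • v := hv.pow_apply (N + 1)
    rw [hB, hv.apply_eq_smul] at h2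
    have h3 : (r ^ (N + 1) - r) • v = 0 := by rw [sub_smul, ← h2, sub_self]
    rcases smul_eq_zero.mp h3 with h | h
    · exact sub_eq_zero.mp h
    · exact absurd h hv.2
  have hj : ∀ r : k, ∃ j : ℕ, r ^ (N + 1) = r → r ≠ 0 → ζ ^ j = r := by
    intro r
    by_cases h : r ^ (N + 1) = r ∧ r ≠ 0
    · have h1 : r ^ N = 1 := by
        have := h.1
        rw [pow_succ] at this
        exact mul_right_cancel₀ h.2 (by rw [this, one_mul])
      obtain ⟨j, -, hj⟩ := hζ.eq_pow_of_pow_eq_one h1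
      exact ⟨j, fun _ _ => hj⟩
    · exact ⟨0, fun h1 h2 => absurd ⟨h1, h2⟩ h⟩
  choose j hj using hj
  set S := (LinearMap.charpoly B).roots with hS
  set g : k → Polynomial ℚ := fun r => if r = 0 then 0 else Polynomial.X ^ (j r) with hg
  have hev : ∀ m : ℕ, ∀ r ∈ S, m ≠ 0 → Polynomial.aeval (ζ ^ m) (g r) = r ^ m := by
    intro m r hr hm
    rw [hg]
    simp only
    split_ifs with h0
    · rw [h0, map_zero, zero_pow hm]
    · rw [map_pow, Polynomial.aeval_X, ← pow_mul, mul_comm, pow_mul, hj r (hroot r hr) h0]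
  have hsum : ∀ m : ℕ, m ≠ 0 → Polynomial.aeval (ζ ^ m) ((S.map g).sum - Polynomial.C q) =
      LinearMap.trace k V (B ^ m) - (q : k) := by
    intro m hm
    rw [map_sub, map_multiset_sum, Multiset.map_map, Polynomial.aeval_C, eq_ratCast,
      trace_pow_roots]
    congr 2
    exact Multiset.map_congr rfl fun r hr => hev m r hr hm
  have h1 := hsum 1 one_ne_zero
  rw [pow_one, pow_one, hq, sub_self] at h1
  have h2 := aeval_pow hN0 hζ (r := 2) (Nat.coprime_two_left.mpr hN) _ h1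
  rw [hsum 2 two_ne_zero, pow_two] at h2
  exact sub_eq_zero.mp h2

end Pool.Agent.KExp
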