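import Pool.Agent.Lib.KExp.Defs
import Pool.Agent.Lib.KExp.LamInt
import Pool.Agent.Lib.KExp.ExFin
import Pool.Agent.Lib.KExp.AlgCl
import Pool.Agent.Lib.KExp.MFin
import Pool.Agent.Lib.KExp.PYD
import Pool.Agent.Lib.KOd.Defs
import Pool.Agent.Lib.KOd.AdYD
import Pool.Agent.Lib.KOd.AdTr2
import Pool.Agent.Lib.KOd.Gal2

/-!
# KOd.KeyA (MP_0d5e35_al, paper /team-store/MP_0d5e35_al_paper77.md)

(3.8). `e` an idempotent cocommutative element, `m = dim H` odd. `B = M (1 ⊗ r_e)` satisfies `B^(N+1) = B` with `N` odd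
(exponent; `2 ∣ N` would give `2 ∣ m`), its trace is `m² ε(e)` with `ε(e) ∈ {0, 1}` rational, so `Tr(B²) = m² ε(e)`.
-/

set_option autoImplicit false

open scoped TensorProduct

namespace Pool.Agent.KExp

variable {k : Type} [Field k] {H : Type} [Ring H] [HopfAlgebra k H] [FiniteDimensional k H]

theorem exists_odd_exponent [CharZero k] [IsAlgClosed k] (hS : ∀ x : H, Sa k H (Sa k H x) = x)
    (hm : Odd (Module.finrank k H)) : ∃ N : ℕ, Odd N ∧ Q k H N = Q k H 0 := by
  classical
  have hex := exists_exponent hS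
  have hN := Nat.find_spec hex
  have hmin : ∀ n, 0 < n → Q k H n = Q k H 0 → Nat.find hex ≤ n := fun n h1 h2 =>
    Nat.find_min' hex ⟨h1, h2⟩
  refine ⟨Nat.find hex, ?_, hN.2⟩
  rw [← Nat.not_even_iff_odd]
  intro h
  have h1 := (bound_algClosed hS hN.1 hN.2 hmin Nat.prime_two).2.2 h.two_dvd
  exact (Nat.not_even_iff_odd.mpr hm) (even_iff_two_dvd.mpr h1)

private theorem Mop_end_right {X Y : Type} [AddCommGroup X] [Module k X] [AddCommGroup Y]
    [Module k Y] {ρ : H →ₐ[k] Module.End k X} {σ : (H →ₗ[k] k) →ₗ[k] Module.End k X}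
    {ρ' : H →ₐ[k] Module.End k Y} {σ' : (H →ₗ[k] k) →ₗ[k] Module.End k Y} {b : Module.End k Y}
    (hb : ∀ h, b * ρ' h = ρ' h * b) (hb' : ∀ f, b * σ' f = σ' f * b) :
    Mop ρ σ ρ' σ' * TensorProduct.map 1 b = TensorProduct.map 1 b * Mop ρ σ ρ' σ' := by
  unfold Mop
  rw [Finset.sum_mul, Finset.mul_sum]
  refine Finset.sum_congr rfl fun i _ => ?_
  rw [Finset.sum_mul, Finset.mul_sum]
  refine Finset.sum_congr rfl fun j _ => ?_
  rw [← TensorProduct.map_mul, ← TensorProduct.map_mul, mul_one, one_mul, mul_assoc, ← hb,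
    ← mul_assoc, ← hb', mul_assoc]

theorem idem_trace [CharZero k] [IsAlgClosed k] (hS : ∀ x : H, Sa k H (Sa k H x) = x)
    (hm : Odd (Module.finrank k H)) {e : H} (he : e ∈ cocS k H) (hee : e * e = e) :
    LinearMap.trace k H (LinearMap.mulRight k e ∘ₗ Sa k H ∘ₗ piK k H) =
      (Module.finrank k H : k) * ep k H e := by
  obtain ⟨N, hNo, hQ⟩ := exists_odd_exponent hS hm
  set M : Module.End k ((H ⊗[k] H) ⊗[k] H) :=
    Mop (rP (k := k) (H := H)) sP (Algebra.lmul k H) (sA k H) with hM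
  set R : Module.End k ((H ⊗[k] H) ⊗[k] H) :=
    TensorProduct.map 1 (LinearMap.mulRight k e) with hR
  have hMN : M ^ N = 1 := Mop_pow hS (isYD_P hS) (isYD_A k H hS) hQ
  have hre : LinearMap.mulRight k e * LinearMap.mulRight k e = LinearMap.mulRight k e := by
    ext x
    simp only [Module.End.mul_apply, LinearMap.mulRight_apply, mul_assoc, hee]
  have hRR : R * R = R := by
    rw [hR, ← TensorProduct.map_mul, one_mul, hre]
  have hMR : M * R = R * M := Mop_end_right (fun h => mulRight_lmul e h)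
    (fun f => mulRight_sA hS he f)
  have hRp : ∀ n : ℕ, R ^ (n + 1) = R := by
    intro n
    induction n with
    | zero => rw [zero_add, pow_one]
    | succ n ih => rw [pow_succ, ih, hRR]
  have hB : (M * R) ^ (N + 1) = M * R := by
    rw [(show Commute M R from hMR).mul_pow, hRp, pow_succ, hMN, one_mul]
  have hm0 : (Module.finrank k H : k) ≠ 0 := by
    exact_mod_cast (finrank_pos_H (k := k) (H := H)).ne'
  have hep : ep k H e = 0 ∨ ep k H e = 1 := by
    have h1 : ep k H e * ep k H e = ep k H e := by rw [← ep_mul, hee]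
    have h2 : ep k H e * (ep k H e - 1) = 0 := by rw [mul_sub, h1, mul_one, sub_self]
    rcases mul_eq_zero.mp h2 with h | h
    · exact Or.inl h
    · exact Or.inr (sub_eq_zero.mp h)
  obtain ⟨q, hq⟩ : ∃ q : ℚ, (Module.finrank k H : k) * (Module.finrank k H : k) * ep k H e =
      (q : k) := by
    rcases hep with h | h
    · exact ⟨0, by rw [h, mul_zero, Rat.cast_zero]⟩
    · refine ⟨(Module.finrank k H : ℚ) * (Module.finrank k H : ℚ), ?_⟩
      rw [h, mul_one]
      push_cast
      rfl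
  have h1 : LinearMap.trace k _ (M * R) = (q : k) := by
    rw [hM, hR, trace_one_Ad hS e, hq]
  have h2 := trace_sq hNo (M * R) hB q h1
  have h3 : M * R * (M * R) = M * M * R := by
    rw [mul_assoc, ← mul_assoc R, ← hMR, mul_assoc M R R, hRR, mul_assoc]
  rw [h3, hM, hR, trace_sq_Ad hS e, ← hq, mul_assoc] at h2
  exact mul_left_cancel₀ hm0 h2

end Pool.Agent.KExp
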