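import Pool.Agent.Lib.KExp.Defs
import Pool.Agent.Lib.KExp.Sw
import Pool.Agent.Lib.KExp.CE
import Pool.Agent.Lib.KOd.Defs

/-!
# KOd.McCom (MP_0d5e35_al, paper /team-store/MP_0d5e35_al_paper77.md)

(2.5). isCom_kapM: `cv g f (c_ab) = ∑_d g(c_ad) f(c_db)` from `MC.comul`, so the matrix `(b, a) ↦ (cv g f)(c_ab)` is the product of the
matrices of `κ f` and `κ g` (`Matrix.toLin'_mul`); `κ ε = 1` by `MC.counit`. trace_kapM: `Matrix.trace_toLin'_eq` or `LinearMap.trace_eq_matrix_trace`:
`∑_a f(c_aa) = f(χ_i)`. Lam_eq: `f(Lam) = Tr(Dreg f)` (definition of Lam, as in trace_Dreg of RopUnit) `= ∑` over the basis `B` of the diagonal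
coefficients of `Dreg f c_ab = ∑_d f(c_ad) c_db`, i.e. `∑_{i,a,b} f(c^i_aa) = ∑_i n_i f(χ_i)`, for all `f` (`Module.Dual` separates points).
-/

set_option autoImplicit false

open scoped TensorProduct

namespace Pool.Agent.KExp

variable {k : Type} [Field k] {H : Type} [Ring H] [HopfAlgebra k H] [FiniteDimensional k H]

variable {ι : Type} [Fintype ι] [DecidableEq ι] {n : ι → ℕ}
  {B : Module.Basis ((i : ι) × (Fin (n i) × Fin (n i))) k H}

private theorem mcc_cv (hB : MC B) (i : ι) (a b : Fin (n i)) (f g : H →ₗ[k] k) :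
    cv g f (B ⟨i, (a, b)⟩) = ∑ d, g (B ⟨i, (a, d)⟩) * f (B ⟨i, (d, b)⟩) := by
  unfold cv
  rw [LinearMap.comp_apply, LinearMap.comp_apply, hB.comul i a b, map_sum, map_sum]
  refine Finset.sum_congr rfl fun d _ => ?_
  rw [TensorProduct.map_tmul, LinearMap.mul'_apply]

omit [FiniteDimensional k H] in
private theorem mcc_kap (i : ι) (f : H →ₗ[k] k) :
    kapM B i f = Matrix.toLin' (Matrix.of fun b a => f (B ⟨i, (a, b)⟩)) := rfl

theorem isCom_kapM (hB : MC B) (i : ι) : IsCom (kapM B i) := by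
  constructor
  · rw [mcc_kap]
    have h : (Matrix.of fun b a => (Coalgebra.counit (R := k) (A := H)) (B ⟨i, (a, b)⟩) :
        Matrix (Fin (n i)) (Fin (n i)) k) = 1 := by
      ext b a
      rw [Matrix.of_apply, Matrix.one_apply]
      have h1 := hB.counit i a b
      rw [show (Coalgebra.counit (R := k) (A := H)) (B ⟨i, (a, b)⟩) =
        ep k H (B ⟨i, (a, b)⟩) from rfl, h1]
      by_cases hab : a = b
      · rw [if_pos hab, if_pos hab.symm]
      · rw [if_neg hab, if_neg (Ne.symm hab)]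
    rw [h, Matrix.toLin'_one]
    rfl
  · intro f g
    rw [mcc_kap, mcc_kap, mcc_kap, Module.End.mul_eq_comp, ← Matrix.toLin'_mul]
    congr 1
    ext b a
    rw [Matrix.mul_apply, Matrix.of_apply, mcc_cv hB]
    refine Finset.sum_congr rfl fun d _ => ?_
    rw [Matrix.of_apply, Matrix.of_apply, mul_comm]

omit [FiniteDimensional k H] in
theorem trace_kapM (i : ι) (f : H →ₗ[k] k) :
    LinearMap.trace k (Fin (n i) → k) (kapM B i f) = f (chi B i) := by
  rw [mcc_kap, Matrix.trace_toLin'_eq, Matrix.trace, chi, map_sum]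
  refine Finset.sum_congr rfl fun a _ => ?_
  rw [Matrix.diag_apply, Matrix.of_apply]

private theorem mcc_lam (f : H →ₗ[k] k) : LinearMap.trace k H (Dreg k H f) = f (Lam k H) := by
  have h1 : Dreg k H f = ∑ i, f (e k H i) • D k H i := by
    have h2 : Dreg k H (∑ i, f (e k H i) • ec k H i) = ∑ i, f (e k H i) • Dreg k H (ec k H i) := by
      rw [map_sum]
      exact Finset.sum_congr rfl fun i _ => map_smul _ _ _
    rw [sum_e] at h2
    exact h2
  rw [h1, map_sum]
  unfold Lam
  rw [map_sum]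
  refine Finset.sum_congr rfl fun i _ => ?_
  rw [map_smul, map_smul, smul_eq_mul, smul_eq_mul, mul_comm]

private theorem mcc_dreg (hB : MC B) (i : ι) (a b : Fin (n i)) (f : H →ₗ[k] k) :
    Dreg k H f (B ⟨i, (a, b)⟩) = ∑ d, f (B ⟨i, (a, d)⟩) • B ⟨i, (d, b)⟩ := by
  change (TensorProduct.lid k H) (f.rTensor H (Coalgebra.comul (R := k) (B ⟨i, (a, b)⟩))) = _
  rw [hB.comul i a b, map_sum, map_sum]
  refine Finset.sum_congr rfl fun d _ => ?_
  rw [LinearMap.rTensor_tmul, TensorProduct.lid_tmul]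

theorem Lam_eq (hB : MC B) : Lam k H = ∑ i, (n i : k) • chi B i := by
  have key : ∀ f : H →ₗ[k] k, f (Lam k H) = f (∑ i, (n i : k) • chi B i) := by
    intro f
    rw [← mcc_lam, LinearMap.trace_eq_matrix_trace k B, Matrix.trace, map_sum,
      Fintype.sum_sigma]
    refine Finset.sum_congr rfl fun i _ => ?_
    have h1 : ∀ x : Fin (n i) × Fin (n i),
        (LinearMap.toMatrix B B (Dreg k H f)).diag ⟨i, x⟩ = f (B ⟨i, (x.1, x.1)⟩) := by
      rintro ⟨a, b⟩
      rw [Matrix.diag_apply, LinearMap.toMatrix_apply, mcc_dreg hB, map_sum, Finsupp.finset_sum_apply]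
      rw [Finset.sum_eq_single a]
      · rw [map_smul, Module.Basis.repr_self, Finsupp.smul_apply, Finsupp.single_eq_same,
          smul_eq_mul, mul_one]
      · intro d _ hd
        rw [map_smul, Module.Basis.repr_self, Finsupp.smul_apply, Finsupp.single_apply, if_neg,
          smul_zero]
        intro h
        apply hd
        have h2 := eq_of_heq (Sigma.mk.inj h).2
        exact congrArg Prod.fst h2
      · intro h
        exact absurd (Finset.mem_univ a) h
    rw [Finset.sum_congr rfl fun x _ => h1 x, Fintype.sum_prod_type, map_smul, chi, map_sum,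
      Finset.smul_sum]
    refine Finset.sum_congr rfl fun a _ => ?_
    change ∑ _y : Fin (n i), f (B ⟨i, (a, a)⟩) = _
    rw [Finset.sum_const, Finset.card_univ, Fintype.card_fin, nsmul_eq_mul, smul_eq_mul]
  rw [← sub_eq_zero]
  refine (Module.forall_dual_apply_eq_zero_iff k _).1 fun f => ?_
  rw [map_sub, key f, sub_self]

end Pool.Agent.KExp
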