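import Mathlib

/-!
# KOd.TF (MP_0d5e35_al, paper /team-store/MP_0d5e35_al_paper77.md)

A finite-dimensional algebra with a nondegenerate trace form is semisimple. PROOF. `IsArtinianRing.isSemisimpleRing_iff_jacobson`
(`A` is artinian: `IsArtinianRing.of_finite k A`): let `a` be in the Jacobson radical, `b : A`. `a * b` is in the radical, which is nilpotent
(artinian), so `a * b` is nilpotent, `ρ (a * b)` is nilpotent and its trace is `0` (`LinearMap.isNilpotent_trace_of_isNilpotent`,
`IsReduced`). So `a = 0`.
-/

set_option autoImplicit false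

namespace Pool.Agent.KExp

theorem semisimple_of_trace {k : Type} [Field k] {A : Type} [Ring A] [Algebra k A]
    [FiniteDimensional k A] {V : Type} [AddCommGroup V] [Module k V] [FiniteDimensional k V]
    (ρ : A →ₐ[k] Module.End k V)
    (h : ∀ a, (∀ b, LinearMap.trace k V (ρ (a * b)) = 0) → a = 0) : IsSemisimpleRing A := by
  haveI : IsArtinianRing A := IsArtinianRing.of_finite k A
  rw [IsArtinianRing.isSemisimpleRing_iff_jacobson, eq_bot_iff]
  intro a ha
  refine h a fun b => ?_
  obtain ⟨n, hn⟩ := IsSemiprimaryRing.isNilpotent (R := A)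
  have h1 : a * b ∈ Ring.jacobson A := Ideal.mul_mem_right b _ ha
  have h2 : (a * b) ^ n = 0 := by
    have h3 := Ideal.pow_mem_pow h1 n
    rw [hn] at h3
    exact h3
  have h3 : IsNilpotent (ρ (a * b)) := ⟨n, by rw [← map_pow, h2, map_zero]⟩
  exact (LinearMap.isNilpotent_trace_of_isNilpotent h3).eq_zero

end Pool.Agent.KExp
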