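import Pool.Agent.Lib.KExp.Defs
import Pool.Agent.Lib.KExp.Sw
import Pool.Agent.Lib.KExp.CE
import Pool.Agent.Lib.KExp.LamInt
import Pool.Agent.Lib.KExp.LInt
import Pool.Agent.Lib.KExp.ExFin
import Pool.Agent.Lib.KOd.Defs
import Pool.Agent.Lib.KOd.TF
import Pool.Agent.Lib.KOd.RopUnit

/-!
# KOd.McEx (MP_0d5e35_al, paper /team-store/MP_0d5e35_al_paper77.md)

(2.5) Existence of matrix coefficients. PROOF. Let `A` be the range of `Dreg : H* → End H`; it is a subalgebra (isCom_Dreg:
`Dreg f * Dreg g = Dreg (cv g f)`, `Dreg ε = 1`) and `Dreg` is injective (`ε(Dreg f x) = f(x)`). `A` is semisimple by TF (`ρ` = inclusion):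
`Tr(Dreg f * Dreg g) = Tr(Dreg(cv g f)) = (cv g f)(Lam) = 0` for all `g` implies `Dreg`-wise `Λ₁ f(Λ₂) = 0`, and this implies `f = 0`
(apply `x ↦ λ(x S(y))`... : `f(Λ₂) λ(Λ₁ y) = m f(S y)`; use Lam_shift, lam_Sa; compare `KExp.ExFin` lam_nondeg and the computation in paper 4.1).
Wedderburn (`IsSemisimpleRing.exists_algEquiv_pi_matrix_of_isAlgClosed`): `Φ : A ≃ₐ ∏_i M_{n i}(k)`. The linear isomorphism
`H* ≃ A ≃ ∏ M_{n i}` gives the functionals `f ↦ (Φ (Dreg f))_i b a` on `H*`; by reflexivity (`Module.evalEquiv`) there are unique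
`c^i_ab ∈ H` with `f(c^i_ab) = (Φ (Dreg f))_i b a` for all `f` (NOTE the transposition), and they form a basis of `H` (dual basis).
`Δ(c_ab) = ∑ c_ad ⊗ c_db`: `(cv g f)(c_ab) = (Φ(Dreg f * Dreg g))_{ba} = ∑_d (Φ Dreg f)_{bd} (Φ Dreg g)_{da} = ∑_d f(c_db) g(c_ad)`, and the functionals
`x ⊗ y ↦ g(x) f(y)` separate points of `H ⊗ H`. `ε(c_ab) = (Φ 1)_{ba}`. Take `ι = Fin N` and `n i > 0` from `NeZero`.
-/

set_option autoImplicit false

open scoped TensorProduct

namespace Pool.Agent.KExp

variable {k : Type} [Field k] {H : Type} [Ring H] [HopfAlgebra k H] [FiniteDimensional k H]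

private theorem Dreg_sw (f : H →ₗ[k] k) (x : H) :
    Dreg k H f x = sw2 k (fun a b => f a • b) x := by
  have h1 := sw2_eq_lift (k := k) (H := H) (Z := H)
    ((LinearMap.lsmul k H) ∘ₗ f) x
  have h2 : TensorProduct.lift ((LinearMap.lsmul k H) ∘ₗ f) =
      (TensorProduct.lid k H).toLinearMap ∘ₗ f.rTensor H := by
    apply TensorProduct.ext'
    intro a b
    simp
  rw [h2] at h1
  exact h1.symm

private theorem ep_Dreg (f : H →ₗ[k] k) (x : H) : ep k H (Dreg k H f x) = f x := by
  rw [Dreg_sw]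
  have h1 := sw2_counit_right (k := k) (H := H) (f := fun a => f a) f.isLinear x
  rw [← h1, sw2, sw2, map_sum]
  refine Finset.sum_congr rfl fun j _ => ?_
  rw [map_smul, smul_eq_mul, smul_eq_mul, mul_comm]

private theorem Dreg_inj : Function.Injective (Dreg k H) := by
  intro f g hfg
  ext x
  rw [← ep_Dreg f x, ← ep_Dreg g x, hfg]

private theorem nondeg [CharZero k] (hS : ∀ x : H, Sa k H (Sa k H x) = x) (f : H →ₗ[k] k)
    (h : ∀ g : H →ₗ[k] k, cv g f (Lam k H) = 0) : f = 0 := by
  have hm : (Module.finrank k H : k) ≠ 0 := by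
    have := finrank_pos_H (k := k) (H := H)
    exact_mod_cast this.ne'
  have key : ∀ y : H, f (Sa k H y) = 0 := by
    intro y
    have h1 := Lam_shift (k := k) (H := H) (Z := k) hS
      (F := fun p q => lam k H p * f (Sa k H q))
      ⟨fun b => ⟨fun x y => by beta_reduce; rw [map_add, add_mul], fun c x => by
          beta_reduce; rw [map_smul, smul_eq_mul, smul_eq_mul, mul_assoc]⟩,
        fun a => ⟨fun x y => by beta_reduce; rw [map_add, map_add, mul_add], fun c x => by
          beta_reduce; rw [map_smul, map_smul, smul_eq_mul, smul_eq_mul, mul_left_comm]⟩⟩ y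
    have h2 : sw2 k (fun a b => lam k H (y * a) * f (Sa k H (Sa k H b))) (Lam k H) = 0 := by
      have h3 := h (lam k H ∘ₗ LinearMap.mulLeft k y)
      rw [cv_apply] at h3
      rw [← h3]
      refine congrArg (fun F => sw2 k F (Lam k H)) (funext fun a => funext fun b => ?_)
      rw [hS]
      rfl
    have h4 : sw2 k (fun a b => lam k H a * f (Sa k H (Sa k H b * y))) (Lam k H) =
        (Module.finrank k H : k) * f (Sa k H y) := by
      have h5 := lam_comul (k := k) (H := H) (Z := k) hS (f := fun b => f (Sa k H y * b))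
        ⟨fun x y => by beta_reduce; rw [mul_add, map_add], fun c x => by
          beta_reduce; rw [mul_smul_comm, map_smul]⟩ (Lam k H)
      rw [lam_Lam hS, mul_one, smul_eq_mul] at h5
      rw [← h5]
      refine congrArg (fun F => sw2 k F (Lam k H)) (funext fun a => funext fun b => ?_)
      rw [Sa_mul, hS, smul_eq_mul]
    have h6 : (Module.finrank k H : k) * f (Sa k H y) = 0 := by
      rw [← h4, ← h1]
      exact h2
    exact (mul_eq_zero.mp h6).resolve_left hm
  ext x
  rw [← hS x, key]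
  rfl

variable (k H) in
/-- the range of `Dreg` -/
private noncomputable def DA : Subalgebra k (Module.End k H) where
  carrier := Set.range (Dreg k H)
  mul_mem' := by
    rintro _ _ ⟨f, rfl⟩ ⟨g, rfl⟩
    exact ⟨cv g f, (isCom_Dreg.mul f g).symm⟩
  add_mem' := by
    rintro _ _ ⟨f, rfl⟩ ⟨g, rfl⟩
    exact ⟨f + g, map_add _ _ _⟩
  algebraMap_mem' := by
    intro c
    refine ⟨c • ep k H, ?_⟩
    rw [map_smul, isCom_Dreg.one, Algebra.algebraMap_eq_smul_one]

variable (k H) in
/-- `Dreg` as a linear equivalence onto its range -/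
private noncomputable def Deq : (H →ₗ[k] k) ≃ₗ[k] DA k H :=
  LinearEquiv.ofBijective
    { toFun := fun f => ⟨Dreg k H f, ⟨f, rfl⟩⟩
      map_add' := fun f g => Subtype.ext (map_add (Dreg k H) f g)
      map_smul' := fun c f => Subtype.ext (map_smul (Dreg k H) c f) }
    ⟨fun f g hfg => Dreg_inj (congrArg Subtype.val hfg), by
      rintro ⟨_, f, rfl⟩
      exact ⟨f, rfl⟩⟩

private theorem Deq_mul (f g : H →ₗ[k] k) : Deq k H f * Deq k H g = Deq k H (cv g f) :=
  Subtype.ext (isCom_Dreg.mul f g)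

private theorem Deq_one : Deq k H (ep k H) = 1 := Subtype.ext isCom_Dreg.one

private theorem DA_semisimple [CharZero k] (hS : ∀ x : H, Sa k H (Sa k H x) = x) :
    IsSemisimpleRing (DA k H) := by
  refine semisimple_of_trace (k := k) (V := H) (DA k H).val fun a ha => ?_
  obtain ⟨f, rfl⟩ := (Deq k H).surjective a
  rw [nondeg hS f, map_zero]
  intro g
  have h1 := ha (Deq k H g)
  rw [Deq_mul] at h1
  rw [← trace_Dreg]
  exact h1

private theorem tens_ext {J : Type} [Fintype J] (B : Module.Basis J k H) (t t' : H ⊗[k] H)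
    (h : ∀ g f : H →ₗ[k] k, LinearMap.mul' k k (TensorProduct.map g f t) =
      LinearMap.mul' k k (TensorProduct.map g f t')) : t = t' := by
  have key : ∀ (t : H ⊗[k] H) (i j : J), (B.tensorProduct B).repr t (i, j) =
      LinearMap.mul' k k (TensorProduct.map (B.coord i) (B.coord j) t) := by
    intro t i j
    induction t using TensorProduct.induction_on with
    | zero => simp
    | tmul x y =>
      rw [Module.Basis.tensorProduct_repr_tmul_apply, TensorProduct.map_tmul,
        LinearMap.mul'_apply, smul_eq_mul, mul_comm]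
      rfl
    | add x y hx hy =>
      rw [map_add, Finsupp.add_apply, hx, hy, map_add, map_add]
  refine (B.tensorProduct B).ext_elem fun ij => ?_
  obtain ⟨i, j⟩ := ij
  rw [key, key, h]

variable (k H) in
theorem exists_MC [CharZero k] [IsAlgClosed k] (hS : ∀ x : H, Sa k H (Sa k H x) = x) :
    ∃ (N : ℕ) (n : Fin N → ℕ) (B : Module.Basis ((i : Fin N) × (Fin (n i) × Fin (n i))) k H),
      MC B := by
  haveI := DA_semisimple (k := k) (H := H) hS
  haveI : FiniteDimensional k (DA k H) := Module.Finite.equiv (Deq k H)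
  obtain ⟨N, n, hn, ⟨Φ⟩⟩ :=
    IsSemisimpleRing.exists_algEquiv_pi_matrix_of_isAlgClosed k (DA k H)
  set L : (H →ₗ[k] k) ≃ₗ[k] (∀ i, Matrix (Fin (n i)) (Fin (n i)) k) :=
    (Deq k H).trans Φ.toLinearEquiv with hL
  have hLmul : ∀ f g, L (cv g f) = L f * L g := by
    intro f g
    rw [hL, LinearEquiv.trans_apply, LinearEquiv.trans_apply, LinearEquiv.trans_apply, ← Deq_mul]
    exact map_mul Φ _ _
  have hLone : L (ep k H) = 1 := by
    rw [hL, LinearEquiv.trans_apply, Deq_one]
    exact map_one Φ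
  set b0 : Module.Basis ((i : Fin N) × (Fin (n i) × Fin (n i))) k
      (∀ i, Matrix (Fin (n i)) (Fin (n i)) k) :=
    (Pi.basis fun i => Matrix.stdBasis k (Fin (n i)) (Fin (n i))).reindex
      (Equiv.sigmaCongrRight fun i => Equiv.prodComm (Fin (n i)) (Fin (n i))) with hb0
  have hb0r : ∀ (x : ∀ i, Matrix (Fin (n i)) (Fin (n i)) k) (i : Fin N) (a b : Fin (n i)),
      b0.repr x ⟨i, (a, b)⟩ = x i b a := by
    intro x i a b
    rw [hb0, Module.Basis.repr_reindex_apply]
    rfl
  set b1 : Module.Basis ((i : Fin N) × (Fin (n i) × Fin (n i))) k (Module.Dual k H) :=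
    b0.map L.symm with hb1
  set B : Module.Basis ((i : Fin N) × (Fin (n i) × Fin (n i))) k H :=
    b1.dualBasis.map (Module.evalEquiv k H).symm with hBdef
  have hB : ∀ (f : H →ₗ[k] k) (i : Fin N) (a b : Fin (n i)), f (B ⟨i, (a, b)⟩) = L f i b a := by
    intro f i a b
    rw [hBdef, Module.Basis.map_apply, Module.apply_evalEquiv_symm_apply,
      Module.Basis.dualBasis_apply, hb1, Module.Basis.map_repr, LinearEquiv.trans_apply,
      LinearEquiv.symm_symm, hb0r]
  refine ⟨N, n, B, ⟨fun i => Nat.pos_of_ne_zero (hn i).out, fun i a b => ?_, fun i a b => ?_⟩⟩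
  · refine tens_ext B _ _ fun g f => ?_
    have h1 : LinearMap.mul' k k (TensorProduct.map g f (Coalgebra.comul (R := k)
        (B ⟨i, (a, b)⟩))) = cv g f (B ⟨i, (a, b)⟩) := rfl
    rw [h1, hB, hLmul, Pi.mul_apply, Matrix.mul_apply, map_sum, map_sum]
    refine Finset.sum_congr rfl fun d _ => ?_
    rw [TensorProduct.map_tmul, LinearMap.mul'_apply, hB, hB, mul_comm]
  · rw [hB, hLone, Pi.one_apply, Matrix.one_apply]
    by_cases hab : a = b
    · rw [if_pos hab, if_pos hab.symm]
    · rw [if_neg hab, if_neg (Ne.symm hab)]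

end Pool.Agent.KExp
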