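import Pool.Agent.Lib.KExp.Defs
import Pool.Agent.Lib.KExp.Sw
import Pool.Agent.Lib.KExp.CE
import Pool.Agent.Lib.KExp.LamInt
import Pool.Agent.Lib.KOd.Defs

/-!
# KOd.McOrth (MP_0d5e35_al, paper /team-store/MP_0d5e35_al_paper77.md)

(3.1) Orthogonality relations. PROOF. Fix `b : Fin (n j)`, `c : Fin (n i)`, `T e f = λ(c^j_eb S(c^i_cf))`. From `x₁ λ(x₂) = λ(x) 1`
(lam_comul') for `x = c^j_ab S(c^i_cd)` (`MC.comul`, sw2_mul, sw2_Sa): `∑_{e,f} T e f c^j_ae S(c^i_fd) = T a d 1`. Multiply on the right by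
`c^i_dg` and sum over `d` (`∑_d S(c_fd) c_dg = ε(c_fg) = δ_fg`): `∑_e T e g c^j_ae = ∑_d T a d c^i_dg`. Compare coefficients in the basis `B`:
`T = 0` if `i ≠ j`; `T e g = δ_eg T a a` for all `a` if `i = j`. So `λ(c^j_ab S(c^i_cd)) = δ_ij δ_ad κ(b, c)`. Likewise, from
`λ(x₁) x₂ = λ(x) 1` (lam_comul), with `∑_c S(c_cf) c_gc = δ_gf` (`S(x₂) x₁ = ε(x)`, sw2_S_mul', S² = 1), it is a multiple of `δ_bc`. The constant:
`∑_b c_ab S(c_ba) = 1`, `λ(1) = m` (lam_one), so `n_i κ = m`. (`λ(xy) = λ(yx)` also allows to deduce the second from the first: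
`λ(c_ab S(c_cd)) = λ(S(c_cd) c_ab)`, lam_Sa: `= λ(S(c_ab) c_cd)= λ(c_cd S(c_ab))`: symmetric under `(a,b) ↔ (c,d)`.)
-/

set_option autoImplicit false

open scoped TensorProduct

namespace Pool.Agent.KExp

variable {k : Type} [Field k] {H : Type} [Ring H] [HopfAlgebra k H] [FiniteDimensional k H]

variable {ι : Type} [Fintype ι] [DecidableEq ι] {n : ι → ℕ}
  {B : Module.Basis ((i : ι) × (Fin (n i) × Fin (n i))) k H}

/-- `x ⊗ y ↦ λ(y) x` -/
private noncomputable def orL : H ⊗[k] H →ₗ[k] H :=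
  (TensorProduct.rid k H).toLinearMap ∘ₗ (lam k H).lTensor H

omit [FiniteDimensional k H] in
private theorem orL_tmul (x y : H) : orL (k := k) (x ⊗ₜ[k] y) = lam k H y • x := by
  rw [orL, LinearMap.comp_apply, LinearMap.lTensor_tmul, LinearEquiv.coe_coe,
    TensorProduct.rid_tmul]

private theorem orL_comul (hS : ∀ x : H, Sa k H (Sa k H x) = x) (h : H) :
    orL (k := k) (Coalgebra.comul (R := k) h) = lam k H h • (1 : H) := by
  have h1 := lam_comul' hS (f := fun x : H => x) ⟨fun _ _ => rfl, fun _ _ => rfl⟩ h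
  have h2 := sw2_eq_lift (TensorProduct.curry (orL (k := k) (H := H))) h
  have h3 : TensorProduct.lift (TensorProduct.curry (orL (k := k) (H := H))) = orL := by
    apply TensorProduct.ext'
    intro x y
    rfl
  rw [h3] at h2
  rw [← h2, ← h1]
  refine congrArg (fun F => sw2 k F h) (funext fun u => funext fun v => ?_)
  rw [TensorProduct.curry_apply, orL_tmul]

private theorem or_comul_Sa (hB : MC B) (i : ι) (c d : Fin (n i)) :
    Coalgebra.comul (R := k) (Sa k H (B ⟨i, (c, d)⟩)) =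
      ∑ f, Sa k H (B ⟨i, (f, d)⟩) ⊗ₜ[k] Sa k H (B ⟨i, (c, f)⟩) := by
  have b1 : Bil2 k (fun a b : H => a ⊗ₜ[k] b) :=
    ⟨fun b => ⟨fun x y => TensorProduct.add_tmul x y b, fun t x => (TensorProduct.smul_tmul' t x b).symm⟩,
      fun a => ⟨fun x y => TensorProduct.tmul_add a x y, fun t x => TensorProduct.tmul_smul t a x⟩⟩
  have b2 : Bil2 k (fun a b : H => Sa k H b ⊗ₜ[k] Sa k H a) := by
    refine ⟨fun b => ⟨fun x y => ?_, fun c x => ?_⟩, fun a => ⟨fun x y => ?_, fun c x => ?_⟩⟩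
    all_goals beta_reduce
    · rw [map_add, TensorProduct.tmul_add]
    · rw [map_smul, TensorProduct.tmul_smul]
    · rw [map_add, TensorProduct.add_tmul]
    · rw [map_smul, ← TensorProduct.smul_tmul']
  have h1 := sw2_Sa b1 (B ⟨i, (c, d)⟩)
  have h2 := sw2_eq_lift (TensorProduct.mk k H H) (Sa k H (B ⟨i, (c, d)⟩))
  have h3 : TensorProduct.lift (TensorProduct.mk k H H) = LinearMap.id := by
    ext a b
    simp
  rw [h3] at h2
  have h4 : Coalgebra.comul (R := k) (Sa k H (B ⟨i, (c, d)⟩)) =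
      sw2 k (fun a b : H => a ⊗ₜ[k] b) (Sa k H (B ⟨i, (c, d)⟩)) := h2.symm
  rw [h4, h1, sw2_repr b2 _ (⟨Finset.univ, fun f => B ⟨i, (c, f)⟩, fun f => B ⟨i, (f, d)⟩,
    (hB.comul i c d).symm⟩ : Coalgebra.Repr k (B ⟨i, (c, d)⟩) (Fin (n i)))]

private theorem or_comul (hB : MC B) (i j : ι) (a b : Fin (n j)) (c d : Fin (n i)) :
    Coalgebra.comul (R := k) (B ⟨j, (a, b)⟩ * Sa k H (B ⟨i, (c, d)⟩)) =
      ∑ e', ∑ f, (B ⟨j, (a, e')⟩ * Sa k H (B ⟨i, (f, d)⟩)) ⊗ₜ[k]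
        (B ⟨j, (e', b)⟩ * Sa k H (B ⟨i, (c, f)⟩)) := by
  rw [Bialgebra.comul_mul, or_comul_Sa hB, hB.comul, Finset.sum_mul]
  refine Finset.sum_congr rfl fun e' _ => ?_
  rw [Finset.mul_sum]
  refine Finset.sum_congr rfl fun f _ => ?_
  rw [Algebra.TensorProduct.tmul_mul_tmul]

private theorem or_one (hS : ∀ x : H, Sa k H (Sa k H x) = x) (hB : MC B) (i j : ι)
    (a b : Fin (n j)) (c d : Fin (n i)) :
    ∑ e', ∑ f, lam k H (B ⟨j, (e', b)⟩ * Sa k H (B ⟨i, (c, f)⟩)) •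
      (B ⟨j, (a, e')⟩ * Sa k H (B ⟨i, (f, d)⟩)) =
      lam k H (B ⟨j, (a, b)⟩ * Sa k H (B ⟨i, (c, d)⟩)) • (1 : H) := by
  rw [← orL_comul hS, or_comul hB, map_sum]
  refine Finset.sum_congr rfl fun e' _ => ?_
  rw [map_sum]
  refine Finset.sum_congr rfl fun f _ => ?_
  rw [orL_tmul]

private theorem or_S_mul (hB : MC B) (i : ι) (f g : Fin (n i)) :
    ∑ d, Sa k H (B ⟨i, (f, d)⟩) * B ⟨i, (d, g)⟩ = if f = g then 1 else 0 := by
  have h := HopfAlgebra.mul_antipode_rTensor_comul_apply (R := k) (B ⟨i, (f, g)⟩)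
  rw [hB.comul, map_sum, map_sum] at h
  have h2 : Coalgebra.counit (R := k) (B ⟨i, (f, g)⟩) = (if f = g then 1 else 0 : k) :=
    hB.counit i f g
  rw [h2] at h
  have h3 : ∀ d, LinearMap.mul' k H ((HopfAlgebra.antipode k (A := H)).rTensor H
      (B ⟨i, (f, d)⟩ ⊗ₜ[k] B ⟨i, (d, g)⟩)) = Sa k H (B ⟨i, (f, d)⟩) * B ⟨i, (d, g)⟩ := by
    intro d
    rw [LinearMap.rTensor_tmul, LinearMap.mul'_apply]
  rw [Finset.sum_congr rfl fun d _ => h3 d] at h
  rw [h]
  split_ifs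
  · rw [map_one]
  · rw [map_zero]

private theorem or_mul_S (hB : MC B) (i : ι) (f g : Fin (n i)) :
    ∑ d, B ⟨i, (f, d)⟩ * Sa k H (B ⟨i, (d, g)⟩) = if f = g then 1 else 0 := by
  have h := HopfAlgebra.mul_antipode_lTensor_comul_apply (R := k) (B ⟨i, (f, g)⟩)
  rw [hB.comul, map_sum, map_sum] at h
  have h2 : Coalgebra.counit (R := k) (B ⟨i, (f, g)⟩) = (if f = g then 1 else 0 : k) :=
    hB.counit i f g
  rw [h2] at h
  have h3 : ∀ d, LinearMap.mul' k H ((HopfAlgebra.antipode k (A := H)).lTensor H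
      (B ⟨i, (f, d)⟩ ⊗ₜ[k] B ⟨i, (d, g)⟩)) = B ⟨i, (f, d)⟩ * Sa k H (B ⟨i, (d, g)⟩) := by
    intro d
    rw [LinearMap.lTensor_tmul, LinearMap.mul'_apply]
  rw [Finset.sum_congr rfl fun d _ => h3 d] at h
  rw [h]
  split_ifs
  · rw [map_one]
  · rw [map_zero]

private theorem or_star (hS : ∀ x : H, Sa k H (Sa k H x) = x) (hB : MC B) (i j : ι)
    (a b : Fin (n j)) (c g : Fin (n i)) :
    ∑ e', lam k H (B ⟨j, (e', b)⟩ * Sa k H (B ⟨i, (c, g)⟩)) • B ⟨j, (a, e')⟩ =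
      ∑ d, lam k H (B ⟨j, (a, b)⟩ * Sa k H (B ⟨i, (c, d)⟩)) • B ⟨i, (d, g)⟩ := by
  have h1 : ∀ d, lam k H (B ⟨j, (a, b)⟩ * Sa k H (B ⟨i, (c, d)⟩)) • B ⟨i, (d, g)⟩ =
      ∑ e', ∑ f, lam k H (B ⟨j, (e', b)⟩ * Sa k H (B ⟨i, (c, f)⟩)) •
        (B ⟨j, (a, e')⟩ * (Sa k H (B ⟨i, (f, d)⟩) * B ⟨i, (d, g)⟩)) := by
    intro d
    have h2 := congrArg (fun x : H => x * B ⟨i, (d, g)⟩) (or_one hS hB i j a b c d)
    beta_reduce at h2
    rw [smul_mul_assoc, one_mul] at h2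
    rw [← h2, Finset.sum_mul]
    refine Finset.sum_congr rfl fun e' _ => ?_
    rw [Finset.sum_mul]
    refine Finset.sum_congr rfl fun f _ => ?_
    rw [smul_mul_assoc, mul_assoc]
  rw [Finset.sum_congr rfl fun d _ => h1 d, Finset.sum_comm]
  refine Finset.sum_congr rfl fun e' _ => ?_
  rw [Finset.sum_comm]
  have h3 : ∀ f, ∑ d, lam k H (B ⟨j, (e', b)⟩ * Sa k H (B ⟨i, (c, f)⟩)) •
      (B ⟨j, (a, e')⟩ * (Sa k H (B ⟨i, (f, d)⟩) * B ⟨i, (d, g)⟩)) =
      if f = g then lam k H (B ⟨j, (e', b)⟩ * Sa k H (B ⟨i, (c, f)⟩)) • B ⟨j, (a, e')⟩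
        else 0 := by
    intro f
    rw [← Finset.smul_sum, ← Finset.mul_sum, or_S_mul hB]
    split_ifs
    · rw [mul_one]
    · rw [mul_zero, smul_zero]
  rw [Finset.sum_congr rfl fun f _ => h3 f, Finset.sum_ite_eq' Finset.univ g, if_pos (Finset.mem_univ g)]

private theorem or_coord (x y : (i : ι) × (Fin (n i) × Fin (n i))) :
    B.coord y (B x) = if x = y then 1 else 0 := by
  rw [Module.Basis.coord_apply, Module.Basis.repr_self_apply]

private theorem or_ne (hS : ∀ x : H, Sa k H (Sa k H x) = x) (hB : MC B) {i j : ι} (hij : j ≠ i)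
    (a b : Fin (n j)) (c d : Fin (n i)) :
    lam k H (B ⟨j, (a, b)⟩ * Sa k H (B ⟨i, (c, d)⟩)) = 0 := by
  have h := congrArg (B.coord ⟨j, (a, a)⟩) (or_star hS hB i j a b c d)
  rw [map_sum, map_sum, Finset.sum_eq_single a, Finset.sum_eq_zero] at h
  · rw [map_smul, or_coord, if_pos rfl, smul_eq_mul, mul_one] at h
    exact h
  · intro f _
    rw [map_smul, or_coord, if_neg, smul_zero]
    intro h1
    exact hij (congrArg Sigma.fst h1).symm
  · intro e' _ he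
    rw [map_smul, or_coord, if_neg, smul_zero]
    intro h1
    rw [Sigma.mk.injEq, heq_eq_eq, Prod.mk.injEq] at h1
    exact he h1.2.2
  · intro h1
    exact absurd (Finset.mem_univ a) h1

private theorem or_eq (hS : ∀ x : H, Sa k H (Sa k H x) = x) (hB : MC B) (i : ι)
    (a b c g v : Fin (n i)) :
    lam k H (B ⟨i, (v, b)⟩ * Sa k H (B ⟨i, (c, g)⟩)) =
      if g = v then lam k H (B ⟨i, (a, b)⟩ * Sa k H (B ⟨i, (c, a)⟩)) else 0 := by
  have h := congrArg (B.coord ⟨i, (a, v)⟩) (or_star hS hB i i a b c g)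
  rw [map_sum, map_sum, Finset.sum_eq_single v, Finset.sum_eq_single a] at h
  · rw [map_smul, map_smul, or_coord, or_coord, if_pos rfl, smul_eq_mul, smul_eq_mul, mul_one] at h
    rw [h]
    by_cases hg : g = v
    · subst hg
      rw [if_pos rfl, if_pos rfl, mul_one]
    · rw [if_neg hg, if_neg, mul_zero]
      intro h1
      rw [Sigma.mk.injEq, heq_eq_eq, Prod.mk.injEq] at h1
      exact hg h1.2.2
  · intro f _ hf
    rw [map_smul, or_coord, if_neg, smul_zero]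
    intro h1
    rw [Sigma.mk.injEq, heq_eq_eq, Prod.mk.injEq] at h1
    exact hf h1.2.1
  · intro h1
    exact absurd (Finset.mem_univ a) h1
  · intro e' _ he
    rw [map_smul, or_coord, if_neg, smul_zero]
    intro h1
    rw [Sigma.mk.injEq, heq_eq_eq, Prod.mk.injEq] at h1
    exact he h1.2.2
  · intro h1
    exact absurd (Finset.mem_univ v) h1

private theorem or_symm [CharZero k] (hS : ∀ x : H, Sa k H (Sa k H x) = x) (x y : H) :
    lam k H (x * Sa k H y) = lam k H (y * Sa k H x) := by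
  rw [← lam_Sa hS (x * Sa k H y), HopfAlgebra.antipode_mul_antidistrib, hS]

private theorem or_const [CharZero k] (hS : ∀ x : H, Sa k H (Sa k H x) = x) (hB : MC B) (i : ι)
    (a b : Fin (n i)) :
    lam k H (B ⟨i, (a, b)⟩ * Sa k H (B ⟨i, (b, a)⟩)) =
      (Module.finrank k H : k) / (n i : k) := by
  have hn : (n i : k) ≠ 0 := Nat.cast_ne_zero.mpr (hB.pos i).ne'
  -- the value does not depend on the indices
  have hc : ∀ b', lam k H (B ⟨i, (a, b')⟩ * Sa k H (B ⟨i, (b', a)⟩)) =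
      lam k H (B ⟨i, (a, b)⟩ * Sa k H (B ⟨i, (b, a)⟩)) := by
    intro b'
    have t1 : ∀ u v w : Fin (n i), lam k H (B ⟨i, (u, w)⟩ * Sa k H (B ⟨i, (w, u)⟩)) =
        lam k H (B ⟨i, (v, w)⟩ * Sa k H (B ⟨i, (w, v)⟩)) := by
      intro u v w
      rw [or_eq hS hB i v w w u u, if_pos rfl]
    rw [or_symm hS, t1 b' b a, or_symm hS]
  have hs : ∑ b', lam k H (B ⟨i, (a, b')⟩ * Sa k H (B ⟨i, (b', a)⟩)) =
      (Module.finrank k H : k) := by
    rw [← map_sum, or_mul_S hB, if_pos rfl, lam_one]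
  rw [Finset.sum_congr rfl fun b' _ => hc b', Finset.sum_const, Finset.card_univ,
    Fintype.card_fin, nsmul_eq_mul] at hs
  rw [eq_div_iff hn, mul_comm]
  exact hs

theorem orth [CharZero k] (hS : ∀ x : H, Sa k H (Sa k H x) = x) (hB : MC B) (i j : ι)
    (a b : Fin (n j)) (c d : Fin (n i)) :
    lam k H (B ⟨j, (a, b)⟩ * Sa k H (B ⟨i, (c, d)⟩)) =
      if (⟨j, (a, b)⟩ : (i : ι) × (Fin (n i) × Fin (n i))) = ⟨i, (d, c)⟩ then
        (Module.finrank k H : k) / (n i : k) else 0 := by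
  by_cases hij : j = i
  · subst hij
    by_cases h1 : d = a
    · subst h1
      by_cases h2 : b = c
      · subst h2
        rw [if_pos rfl]
        exact or_const hS hB j d b
      · rw [if_neg (fun h => by
          rw [Sigma.mk.injEq, heq_eq_eq, Prod.mk.injEq] at h
          exact h2 h.2.2)]
        rw [or_symm hS, or_eq hS hB j d d d b c, if_neg h2]
    · rw [if_neg (fun h => by
        rw [Sigma.mk.injEq, heq_eq_eq, Prod.mk.injEq] at h
        exact h1 h.2.1.symm)]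
      rw [or_eq hS hB j d b c d a, if_neg h1]
  · rw [if_neg (fun h => hij (congrArg Sigma.fst h))]
    exact or_ne hS hB hij a b c d

end Pool.Agent.KExp
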