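import Pool.Agent.Lib.KExp.Defs
import Pool.Agent.Lib.KExp.Sw
import Pool.Agent.Lib.KExp.CE
import Pool.Agent.Lib.KExp.LamInt
import Pool.Agent.Lib.KExp.LInt
import Pool.Agent.Lib.KOd.Defs
import Pool.Agent.Lib.KOd.McOrth
import Pool.Agent.Lib.KOd.McEx
import Pool.Agent.Lib.KOd.McCom

/-!
# KOd.McCoc (MP_0d5e35_al, paper /team-store/MP_0d5e35_al_paper77.md)

(3.3) Cocommutative elements. chi_mem: `Δ χ_i = ∑_{a,d} c_ad ⊗ c_da` is symmetric. mem_coc: if `z = ∑ z^i_ab c^i_ab` is cocommutative, compare in the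
basis `c^i_ac ⊗ c^j_c'b` of `H ⊗ H`: `δ_cc' z_ab = δ_ab z_c'c` (`i = j`): so `z^i_ab = δ_ab κ_i` and `z = ∑ κ_i χ_i`. Sa_mem: `S` reverses `Δ` (sw2_Sa).
Lam_mem: from `lam`/`Lam` (Lam_shift) or from McCom Lam_eq. coc_nondeg: take an MC (exists_MC), `w = ∑ κ_i χ_i`,
`u = S(χ_j)`: `λ(S(χ_j) χ_i) = λ(χ_i S(χ_j)) = m δ_ij` (orth), so `κ_j = 0`.
-/

set_option autoImplicit false

open scoped TensorProduct

namespace Pool.Agent.KExp

variable {k : Type} [Field k] {H : Type} [Ring H] [HopfAlgebra k H] [FiniteDimensional k H]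

variable {ι : Type} [Fintype ι] [DecidableEq ι] {n : ι → ℕ}
  {B : Module.Basis ((i : ι) × (Fin (n i) × Fin (n i))) k H}

omit [FiniteDimensional k H] in
private theorem coc_iff {z : H} : z ∈ cocS k H ↔
    TensorProduct.comm k H H (Coalgebra.comul (R := k) z) = Coalgebra.comul (R := k) z := by
  rw [cocS, AlgHom.mem_equalizer]
  rfl

omit [FiniteDimensional k H] in
private theorem cv_chi_aux (f g : H →ₗ[k] k) (x : H) :
    cv f g x = LinearMap.mul' k k (TensorProduct.map f g (Coalgebra.comul (R := k) x)) := rfl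

theorem chi_mem (hB : MC B) (i : ι) : chi B i ∈ cocS k H := by
  rw [coc_iff, chi]
  simp only [map_sum, hB.comul, TensorProduct.comm_tmul]
  exact Finset.sum_comm

omit [FiniteDimensional k H] in
private theorem cv_coc {z : H} (hz : z ∈ cocS k H) (f g : H →ₗ[k] k) : cv f g z = cv g f z := by
  have h : ∀ t : H ⊗[k] H, LinearMap.mul' k k (TensorProduct.map f g t) =
      LinearMap.mul' k k (TensorProduct.map g f (TensorProduct.comm k H H t)) := by
    intro t
    induction t with
    | zero => simp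
    | tmul a b => simp [mul_comm]
    | add a b ha hb => rw [map_add, map_add, ha, hb, map_add, map_add, map_add]
  rw [cv_chi_aux, h, coc_iff.1 hz, cv_chi_aux]

omit [FiniteDimensional k H] in
private theorem cv_coord (hB : MC B) (i : ι) (a c c' b : Fin (n i)) :
    cv (B.coord ⟨i, (a, c)⟩) (B.coord ⟨i, (c', b)⟩) =
      if c = c' then B.coord ⟨i, (a, b)⟩ else 0 := by
  apply B.ext
  rintro ⟨j, x, y⟩
  rw [cv_chi_aux, hB.comul]
  simp only [map_sum, TensorProduct.map_tmul, LinearMap.mul'_apply, Module.Basis.coord_apply,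
    Module.Basis.repr_self, Finsupp.single_apply]
  by_cases hji : j = i
  · subst hji
    by_cases hcc : c = c'
    · subst hcc
      rw [if_pos rfl, Finset.sum_eq_single c]
      · simp only [Module.Basis.coord_apply, Module.Basis.repr_self, Finsupp.single_apply]
        by_cases hx : x = a <;> by_cases hy : y = b <;> simp [hx, hy]
      · intro d _ hd
        simp [hd]
      · simp
    · rw [if_neg hcc, LinearMap.zero_apply]
      apply Finset.sum_eq_zero
      intro d _
      by_cases hd : d = c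
      · subst hd
        simp [hcc]
      · simp [hd]
  · have h1 : ∀ u v : _, (⟨j, u⟩ : (i : ι) × (Fin (n i) × Fin (n i))) ≠ ⟨i, v⟩ := by
      intro u v h
      exact hji (congrArg Sigma.fst h)
    split_ifs with hcc
    · simp [h1, Finsupp.single_apply]
    · simp [h1]

theorem mem_coc (hB : MC B) {z : H} (hz : z ∈ cocS k H) : ∃ κ : ι → k, z = ∑ i, κ i • chi B i := by
  have key : ∀ (i : ι) (a b c : Fin (n i)), B.repr z ⟨i, (a, b)⟩ =
      if a = b then B.repr z ⟨i, (c, c)⟩ else 0 := by
    intro i a b c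
    have h1 := cv_coc hz (B.coord ⟨i, (a, c)⟩) (B.coord ⟨i, (c, b)⟩)
    rw [cv_coord hB, cv_coord hB, if_pos rfl] at h1
    simp only [Module.Basis.coord_apply] at h1
    rw [h1]
    by_cases hab : a = b
    · subst hab
      simp
    · rw [if_neg (Ne.symm hab), if_neg hab, LinearMap.zero_apply]
  refine ⟨fun i => B.repr z ⟨i, (⟨0, hB.pos i⟩, ⟨0, hB.pos i⟩)⟩, ?_⟩
  conv_lhs => rw [← B.sum_repr z]
  rw [Fintype.sum_sigma]
  refine Finset.sum_congr rfl fun i _ => ?_
  rw [Fintype.sum_prod_type, chi, Finset.smul_sum]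
  refine Finset.sum_congr rfl fun a _ => ?_
  rw [Finset.sum_eq_single a]
  · rw [key i a a ⟨0, hB.pos i⟩, if_pos rfl]
  · intro b _ hb
    rw [key i a b a, if_neg (Ne.symm hb), zero_smul]
  · simp

theorem Sa_mem {z : H} (hz : z ∈ cocS k H) : Sa k H z ∈ cocS k H := by
  have hbil : Bil2 k (fun a b : H => a ⊗ₜ[k] b) :=
    ⟨fun b => ⟨fun x y => TensorProduct.add_tmul _ _ _, fun c x => (TensorProduct.smul_tmul' c x b).symm⟩,
      fun a => ⟨fun x y => TensorProduct.tmul_add _ _ _, fun c x => TensorProduct.tmul_smul _ _ _⟩⟩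
  have e0 : ∀ x : H, Coalgebra.comul (R := k) x = sw2 k (fun a b => a ⊗ₜ[k] b) x := by
    intro x
    have h1 := sw2_eq_lift (TensorProduct.mk k H H) x
    have h2 : TensorProduct.lift (TensorProduct.mk k H H) = LinearMap.id := by
      ext a b
      simp
    rw [h2] at h1
    exact h1.symm
  have e1 : Coalgebra.comul (R := k) (Sa k H z) =
      TensorProduct.map (Sa k H) (Sa k H) (TensorProduct.comm k H H (Coalgebra.comul (R := k) z)) := by
    rw [e0, sw2_Sa hbil, e0]
    simp only [sw2, map_sum, TensorProduct.comm_tmul, TensorProduct.map_tmul]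
  have e2 : ∀ t : H ⊗[k] H, TensorProduct.comm k H H (TensorProduct.map (Sa k H) (Sa k H) t) =
      TensorProduct.map (Sa k H) (Sa k H) (TensorProduct.comm k H H t) := by
    intro t
    induction t with
    | zero => simp
    | tmul a b => simp
    | add a b ha hb => simp only [map_add, ha, hb]
  rw [coc_iff]
  rw [e1, coc_iff.1 hz, e2, coc_iff.1 hz]

theorem coc_nondeg [CharZero k] [IsAlgClosed k] (hS : ∀ x : H, Sa k H (Sa k H x) = x) {w : H}
    (hw : w ∈ cocS k H) (h : ∀ u ∈ cocS k H, lam k H (u * w) = 0) : w = 0 := by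
  obtain ⟨N, n, B, hB⟩ := exists_MC k H hS
  obtain ⟨κ, hκ⟩ := mem_coc hB hw
  have hm : (Module.finrank k H : k) ≠ 0 := by
    exact_mod_cast (finrank_pos_H (k := k) (H := H)).ne'
  have h1 : ∀ i j : Fin N, lam k H (chi B i * Sa k H (chi B j)) =
      if i = j then (Module.finrank k H : k) else 0 := by
    intro i j
    have e1 : lam k H (chi B i * Sa k H (chi B j)) =
        ∑ a, ∑ b, lam k H (B ⟨i, (a, a)⟩ * Sa k H (B ⟨j, (b, b)⟩)) := by
      simp only [chi, map_sum, Finset.sum_mul, Finset.mul_sum]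
      exact Finset.sum_comm
    rw [e1]
    simp only [orth hS hB]
    by_cases hij : i = j
    · subst hij
      rw [if_pos rfl]
      have e2 : ∀ a : Fin (n i), ∑ b, (if (⟨i, (a, a)⟩ : (i : Fin N) × (Fin (n i) × Fin (n i))) =
          ⟨i, (b, b)⟩ then (Module.finrank k H : k) / (n i : k) else 0) =
          (Module.finrank k H : k) / (n i : k) := by
        intro a
        rw [Finset.sum_eq_single a]
        · simp
        · intro b _ hb
          rw [if_neg]
          intro hh
          apply hb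
          have := (Sigma.mk.inj_iff.1 hh).2
          exact (congrArg Prod.fst (eq_of_heq this)).symm
        · simp
      simp only [e2]
      rw [Finset.sum_const, Finset.card_univ, Fintype.card_fin, nsmul_eq_mul]
      have hn : (n i : k) ≠ 0 := by
        exact_mod_cast (hB.pos i).ne'
      field_simp
    · rw [if_neg hij]
      refine Finset.sum_eq_zero fun a _ => Finset.sum_eq_zero fun b _ => ?_
      rw [if_neg]
      intro hh
      exact hij (Sigma.mk.inj_iff.1 hh).1
  have h2 : ∀ j, κ j = 0 := by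
    intro j
    have h3 := h _ (Sa_mem (chi_mem hB j))
    rw [lam_mul_comm, hκ, Finset.sum_mul, map_sum] at h3
    simp only [smul_mul_assoc, map_smul, h1, smul_eq_mul, mul_ite, mul_zero] at h3
    rw [Finset.sum_ite_eq' Finset.univ j, if_pos (Finset.mem_univ _)] at h3
    exact (mul_eq_zero.1 h3).resolve_right hm
  rw [hκ]
  exact Finset.sum_eq_zero fun i _ => by rw [h2, zero_smul]

theorem Lam_mem [CharZero k] [IsAlgClosed k] (hS : ∀ x : H, Sa k H (Sa k H x) = x) :
    Lam k H ∈ cocS k H := by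
  obtain ⟨N, n, B, hB⟩ := exists_MC k H hS
  rw [Lam_eq hB]
  exact sum_mem fun i _ => Subalgebra.smul_mem _ (chi_mem hB i) _

end Pool.Agent.KExp
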