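import Pool.Agent.Lib.KExp.Defs
import Pool.Agent.Lib.KExp.LamInt
import Pool.Agent.Lib.KOd.Defs
import Pool.Agent.Lib.KOd.KeyA
import Pool.Agent.Lib.KOd.McCoc
import Pool.Agent.Lib.KOd.TF
import Pool.Agent.Lib.KOd.Idem

/-!
# KOd.KeyB (MP_0d5e35_al, paper /team-store/MP_0d5e35_al_paper77.md)

(3.9), first part. The algebra `cocS k H` is semisimple (semisimple_of_trace with the trace form `λ(u w)`, coc_nondeg), hence spanned by
idempotents (span_idempotents), and idem_trace extends by linearity.
-/

set_option autoImplicit false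

open scoped TensorProduct

namespace Pool.Agent.KExp

variable {k : Type} [Field k] {H : Type} [Ring H] [HopfAlgebra k H] [FiniteDimensional k H]

theorem coc_semisimple [CharZero k] [IsAlgClosed k] (hS : ∀ x : H, Sa k H (Sa k H x) = x) :
    IsSemisimpleRing (cocS k H) := by
  refine semisimple_of_trace ((Algebra.lmul k H).comp (cocS k H).val) fun a ha => ?_
  have h1 : (a : H) = 0 := by
    refine coc_nondeg hS a.2 fun u hu => ?_
    have h2 := ha ⟨u, hu⟩
    rw [lam_mul_comm]
    exact h2
  exact Subtype.ext h1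

theorem coc_trace [CharZero k] [IsAlgClosed k] (hS : ∀ x : H, Sa k H (Sa k H x) = x)
    (hm : Odd (Module.finrank k H)) {u : H} (hu : u ∈ cocS k H) :
    LinearMap.trace k H (LinearMap.mulRight k u ∘ₗ Sa k H ∘ₗ piK k H) =
      (Module.finrank k H : k) * ep k H u := by
  have := coc_semisimple (k := k) (H := H) hS
  let φ : cocS k H →ₗ[k] k :=
    LinearMap.trace k H ∘ₗ (LinearMap.lcomp k H (Sa k H ∘ₗ piK k H)) ∘ₗ
      (LinearMap.mul k H).flip ∘ₗ (cocS k H).val.toLinearMap
  let ψ : cocS k H →ₗ[k] k := (Module.finrank k H : k) • (ep k H ∘ₗ (cocS k H).val.toLinearMap)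
  have hφ : ∀ z : cocS k H, φ z =
      LinearMap.trace k H (LinearMap.mulRight k (z : H) ∘ₗ Sa k H ∘ₗ piK k H) := fun z => rfl
  have hψ : ∀ z : cocS k H, ψ z = (Module.finrank k H : k) * ep k H (z : H) := fun z => rfl
  have key : ∀ z : cocS k H, φ z = ψ z := by
    intro z
    have hz : z ∈ Submodule.span k {z : cocS k H | z * z = z} := by
      rw [span_idempotents]
      trivial
    induction hz using Submodule.span_induction with
    | mem z hz =>
      rw [hφ, hψ]
      refine idem_trace hS hm z.2 ?_
      have h1 : z * z = z := hz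
      exact congrArg Subtype.val h1
    | zero => rw [map_zero, map_zero]
    | add x y _ _ hx hy => rw [map_add, map_add, hx, hy]
    | smul c x _ hx => rw [map_smul, map_smul, hx]
  have h1 := key ⟨u, hu⟩
  rwa [hφ, hψ] at h1

end Pool.Agent.KExp
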