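import Pool.Agent.Lib.KExp.Defs
import Pool.Agent.Lib.KExp.Sw
import Pool.Agent.Lib.KExp.CE
import Pool.Agent.Lib.KExp.LamInt
import Pool.Agent.Lib.KOd.Defs
import Pool.Agent.Lib.KOd.McOrth

/-!
# KOd.McPi (MP_0d5e35_al, paper /team-store/MP_0d5e35_al_paper77.md)

(3.2). pi_B: `π(c_ab) = λ(x₁S(x₃))x₂ = ∑_{c,d} λ(c_ac S(c_db)) c_cd = δ_ab (m/n_i) ∑_c c_cc` (orth). trace_mulRight: for `T : End H`,
`Tr T = ∑_{i,a,b}` of the `B`-coordinate `(i,a,b)` of `T(c^i_ab)`, and the coordinate of `y` is `(n_i/m) λ(y S(c^i_ba))` (orth). With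
`T z = S(π z) u`: `∑_{i,a,b} (n_i/m) λ(S(π c_ab) u S(c_ba)) = ∑_{i,a} λ(S(χ_i) u S(c_aa)) = ∑_i λ(S(χ_i) u S(χ_i)) = ∑_i λ(u S(χ_i) S(χ_i)) = λ(u S(∑ χ_i χ_i))`
(lam_mul_comm, Sa_mul).
-/

set_option autoImplicit false

open scoped TensorProduct

namespace Pool.Agent.KExp

variable {k : Type} [Field k] {H : Type} [Ring H] [HopfAlgebra k H] [FiniteDimensional k H]

variable {ι : Type} [Fintype ι] [DecidableEq ι] {n : ι → ℕ}
  {B : Module.Basis ((i : ι) × (Fin (n i) × Fin (n i))) k H}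

private theorem mp_in (a : H) : Bil2 k (fun b c : H => lam k H (a * Sa k H c) • b) := by
  refine ⟨fun c => ⟨fun x y => ?_, fun r x => ?_⟩, fun b => ⟨fun x y => ?_, fun r x => ?_⟩⟩
  · beta_reduce
    rw [smul_add]
  · beta_reduce
    rw [smul_comm]
  · beta_reduce
    rw [map_add, mul_add, map_add, add_smul]
  · beta_reduce
    rw [map_smul, mul_smul_comm, map_smul, smul_assoc]

private theorem mp_out : Bil2 k (fun a y : H =>
    sw2 k (fun b c : H => lam k H (a * Sa k H c) • b) y) := by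
  refine ⟨fun y => ⟨fun x z => ?_, fun r x => ?_⟩, fun a => sw2_linear (mp_in a)⟩
  · beta_reduce
    unfold sw2
    rw [← Finset.sum_add_distrib]
    refine Finset.sum_congr rfl fun j _ => ?_
    beta_reduce
    rw [add_mul, map_add, add_smul]
  · beta_reduce
    unfold sw2
    rw [Finset.smul_sum]
    refine Finset.sum_congr rfl fun j _ => ?_
    beta_reduce
    rw [smul_mul_assoc, map_smul, smul_assoc]

private theorem mp_piK (x : H) : piK k H x =
    sw2 k (fun a y : H => sw2 k (fun b c : H => lam k H (a * Sa k H c) • b) y) x := by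
  unfold piK sA sw2
  simp only [LinearMap.coe_mk, AddHom.coe_mk, LinearMap.sum_apply, LinearMap.smulRight_apply,
    LinearMap.comp_apply, LinearMap.mulLeft_apply]

private theorem mp_repr (hB : MC B) {F : H → H → H} (hF : Bil2 k F) (i : ι) (a b : Fin (n i)) :
    sw2 k F (B ⟨i, (a, b)⟩) = ∑ d, F (B ⟨i, (a, d)⟩) (B ⟨i, (d, b)⟩) :=
  sw2_repr hF (B ⟨i, (a, b)⟩)
    (⟨Finset.univ, fun d => B ⟨i, (a, d)⟩, fun d => B ⟨i, (d, b)⟩, (hB.comul i a b).symm⟩ :
      Coalgebra.Repr k (B ⟨i, (a, b)⟩) (Fin (n i)))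

theorem pi_B [CharZero k] (hS : ∀ x : H, Sa k H (Sa k H x) = x) (hB : MC B) (i : ι)
    (a b : Fin (n i)) : piK k H (B ⟨i, (a, b)⟩) =
      if a = b then ((Module.finrank k H : k) / (n i : k)) • chi B i else 0 := by
  rw [mp_piK, mp_repr hB mp_out]
  have h1 : ∀ c : Fin (n i), sw2 k (fun b' c' : H =>
      lam k H (B ⟨i, (a, c)⟩ * Sa k H c') • b') (B ⟨i, (c, b)⟩) =
      if a = b then ((Module.finrank k H : k) / (n i : k)) • B ⟨i, (c, c)⟩ else 0 := by
    intro c
    rw [mp_repr hB (mp_in _)]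
    have h2 : ∀ d : Fin (n i),
        lam k H (B ⟨i, (a, c)⟩ * Sa k H (B ⟨i, (d, b)⟩)) • B ⟨i, (c, d)⟩ =
        if c = d then (if a = b then ((Module.finrank k H : k) / (n i : k)) • B ⟨i, (c, c)⟩
          else 0) else 0 := by
      intro d
      rw [orth hS hB i i a c d b]
      by_cases hcd : c = d
      · subst hcd
        rw [if_pos rfl]
        by_cases hab : a = b
        · subst hab
          rw [if_pos rfl, if_pos rfl]
        · rw [if_neg, if_neg hab, zero_smul]
          intro h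
          have h' := eq_of_heq (Sigma.mk.inj h).2
          exact hab (Prod.mk.inj h').1
      · rw [if_neg, if_neg hcd, zero_smul]
        intro h
        have h' := eq_of_heq (Sigma.mk.inj h).2
        exact hcd (Prod.mk.inj h').2
    rw [Finset.sum_congr rfl fun d _ => h2 d, Finset.sum_ite_eq, if_pos (Finset.mem_univ c)]
  rw [Finset.sum_congr rfl fun c _ => h1 c]
  by_cases hab : a = b
  · simp only [if_pos hab]
    rw [chi, Finset.smul_sum]
  · simp only [if_neg hab]
    rw [Finset.sum_const_zero]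

private theorem mp_coord [CharZero k] (hS : ∀ x : H, Sa k H (Sa k H x) = x) (hB : MC B) (y : H)
    (i : ι) (a b : Fin (n i)) : B.repr y ⟨i, (a, b)⟩ =
      (n i : k) / (Module.finrank k H : k) * lam k H (y * Sa k H (B ⟨i, (b, a)⟩)) := by
  have hm : (Module.finrank k H : k) ≠ 0 := by
    exact_mod_cast (finrank_pos_H (k := k) (H := H)).ne'
  have hn : (n i : k) ≠ 0 := by
    exact_mod_cast (hB.pos i).ne'
  have h1 : lam k H (y * Sa k H (B ⟨i, (b, a)⟩)) =
      ∑ q, B.repr y q * lam k H (B q * Sa k H (B ⟨i, (b, a)⟩)) := by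
    conv_lhs => rw [← B.sum_repr y]
    rw [Finset.sum_mul, map_sum]
    refine Finset.sum_congr rfl fun q _ => ?_
    rw [smul_mul_assoc, map_smul, smul_eq_mul]
  have h2 : ∀ q : (i : ι) × (Fin (n i) × Fin (n i)),
      B.repr y q * lam k H (B q * Sa k H (B ⟨i, (b, a)⟩)) =
      if q = ⟨i, (a, b)⟩ then B.repr y q * ((Module.finrank k H : k) / (n i : k)) else 0 := by
    rintro ⟨j, c, d⟩
    rw [orth hS hB i j c d b a]
    split_ifs
    · rfl
    · rw [mul_zero]
  rw [h1, Finset.sum_congr rfl fun q _ => h2 q, Finset.sum_ite_eq', if_pos (Finset.mem_univ _)]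
  field_simp

theorem trace_Sa_pi [CharZero k] (hS : ∀ x : H, Sa k H (Sa k H x) = x) (hB : MC B) (u : H) :
    LinearMap.trace k H (LinearMap.mulRight k u ∘ₗ Sa k H ∘ₗ piK k H) =
      lam k H (u * Sa k H (∑ i, chi B i * chi B i)) := by
  have hm : (Module.finrank k H : k) ≠ 0 := by
    exact_mod_cast (finrank_pos_H (k := k) (H := H)).ne'
  rw [LinearMap.trace_eq_matrix_trace k B, Matrix.trace, Fintype.sum_sigma]
  rw [map_sum, Finset.mul_sum, map_sum]
  refine Finset.sum_congr rfl fun i _ => ?_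
  have hn : (n i : k) ≠ 0 := by
    exact_mod_cast (hB.pos i).ne'
  rw [Fintype.sum_prod_type]
  have h1 : ∀ a b : Fin (n i),
      (LinearMap.toMatrix B B (LinearMap.mulRight k u ∘ₗ Sa k H ∘ₗ piK k H)).diag
        ⟨i, (a, b)⟩ =
      if a = b then lam k H (Sa k H (chi B i) * u * Sa k H (B ⟨i, (a, a)⟩)) else 0 := by
    intro a b
    rw [Matrix.diag_apply, LinearMap.toMatrix_apply, mp_coord hS hB]
    rw [LinearMap.comp_apply, LinearMap.comp_apply, LinearMap.mulRight_apply, pi_B hS hB]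
    by_cases hab : a = b
    · subst hab
      rw [if_pos rfl, if_pos rfl, map_smul, smul_mul_assoc, smul_mul_assoc, map_smul,
        smul_eq_mul]
      field_simp
    · rw [if_neg hab, if_neg hab, map_zero, zero_mul, zero_mul, map_zero, mul_zero]
  have h2 : ∀ a : Fin (n i), ∑ b : Fin (n i),
      (LinearMap.toMatrix B B (LinearMap.mulRight k u ∘ₗ Sa k H ∘ₗ piK k H)).diag
        ⟨i, (a, b)⟩ = lam k H (Sa k H (chi B i) * u * Sa k H (B ⟨i, (a, a)⟩)) := by
    intro a
    rw [Finset.sum_congr rfl fun b _ => h1 a b, Finset.sum_ite_eq, if_pos (Finset.mem_univ a)]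
  rw [Finset.sum_congr rfl fun a _ => h2 a, ← map_sum, ← Finset.mul_sum, ← map_sum]
  have h3 : ∑ a, B ⟨i, (a, a)⟩ = chi B i := rfl
  rw [h3, Sa_mul, lam_mul_comm, ← mul_assoc, lam_mul_comm]

end Pool.Agent.KExp
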