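import Pool.Agent.Lib.KExp.Defs
import Pool.Agent.Lib.KExp.LamInt
import Pool.Agent.Lib.KExp.LInt
import Pool.Agent.Lib.KOd.Defs
import Pool.Agent.Lib.KOd.LamCoc
import Pool.Agent.Lib.KOd.McPi
import Pool.Agent.Lib.KOd.McCoc
import Pool.Agent.Lib.KOd.KeyB

/-!
# KOd.Key (MP_0d5e35_al, paper /team-store/MP_0d5e35_al_paper77.md)

(3.9) KEY. `∑ χ_i² = Λ` if `dim H` is odd. `w = S(s) - Λ`, `s = ∑ χ_i²`, is cocommutative and `λ(u w) = 0` for every cocommutative `u`
(trace_Sa_pi, coc_trace, mul_Lam, lam_Lam), so `w = 0` (coc_nondeg), `s = S(Λ) = Λ`.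
-/

set_option autoImplicit false

open scoped TensorProduct

namespace Pool.Agent.KExp

variable {k : Type} [Field k] {H : Type} [Ring H] [HopfAlgebra k H] [FiniteDimensional k H]

variable {ι : Type} [Fintype ι] [DecidableEq ι] {n : ι → ℕ}
  {B : Module.Basis ((i : ι) × (Fin (n i) × Fin (n i))) k H}

theorem key [CharZero k] [IsAlgClosed k] (hS : ∀ x : H, Sa k H (Sa k H x) = x)
    (hm : Odd (Module.finrank k H)) (hB : MC B) : ∑ i, chi B i * chi B i = Lam k H := by
  set s : H := ∑ i, chi B i * chi B i with hs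
  have hsc : s ∈ cocS k H :=
    Subalgebra.sum_mem _ fun i _ => Subalgebra.mul_mem _ (chi_mem hB i) (chi_mem hB i)
  have hw : Sa k H s - Lam k H ∈ cocS k H := Subalgebra.sub_mem _ (Sa_mem hsc) Lam_coc
  have h1 : Sa k H s - Lam k H = 0 := by
    refine coc_nondeg hS hw fun u hu => ?_
    rw [mul_sub, map_sub, ← trace_Sa_pi hS hB u, coc_trace hS hm hu, mul_Lam hS, map_smul,
      lam_Lam hS, smul_eq_mul, mul_comm, sub_self]
  have h2 : Sa k H s = Lam k H := sub_eq_zero.mp h1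
  rw [← hS s, h2, Sa_Lam hS]

end Pool.Agent.KExp
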