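import Mathlib

/-!
# KOd.MsetPow (MP_0d5e35_al, paper /team-store/MP_0d5e35_al_paper77.md)

(2.1) Multisets with equal power sums `∑ r^n`, `n ≥ 0`, are equal (characteristic 0). PROOF. By linearity
`∑_{r∈s} f(r) = ∑_{r∈t} f(r)` for every polynomial `f`. Given `r₀`, take the Lagrange polynomial
`f = ∏_{x ∈ (s + t).toFinset, x ≠ r₀} (X - x)/(r₀ - x)`: it is `1` at `r₀` and `0` at all other elements of `s + t`, so the
sums are the multiplicities: `(count r₀ s : k) = (count r₀ t : k)`, `Nat.cast_injective`, `Multiset.ext`.
-/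

set_option autoImplicit false

namespace Pool.Agent.KExp

private theorem msp_eval {k : Type} [Field k] (s t : Multiset k)
    (h : ∀ n : ℕ, (s.map (fun r => r ^ n)).sum = (t.map (fun r => r ^ n)).sum) (f : Polynomial k) :
    (s.map (fun r => f.eval r)).sum = (t.map (fun r => f.eval r)).sum := by
  induction f using Polynomial.induction_on' with
  | add p q hp hq =>
    simp only [Polynomial.eval_add, Multiset.sum_map_add, hp, hq]
  | monomial n a =>
    simp only [Polynomial.eval_monomial, Multiset.sum_map_mul_left, h n]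

private theorem msp_count {k : Type} [Field k] [DecidableEq k] (r₀ : k) (s : Multiset k) :
    (s.map (fun r => if r = r₀ then (1 : k) else 0)).sum = (s.count r₀ : k) := by
  induction s using Multiset.induction_on with
  | empty => simp
  | cons a s ih =>
    rw [Multiset.map_cons, Multiset.sum_cons, ih, Multiset.count_cons]
    by_cases ha : a = r₀
    · subst ha
      simp [add_comm]
    · rw [if_neg ha, if_neg (fun e => ha e.symm)]
      simp

private theorem msp_sum {k : Type} [Field k] [DecidableEq k] (F : Finset k) (r₀ : k) (hr : r₀ ∈ F) (s : Multiset k)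
    (hs : ∀ r ∈ s, r ∈ F) :
    (s.map (fun r => (Lagrange.basis F id r₀).eval r)).sum = (s.count r₀ : k) := by
  rw [← msp_count r₀ s]
  refine congrArg Multiset.sum (Multiset.map_congr rfl ?_)
  intro r hrs
  by_cases hr0 : r = r₀
  · subst hr0
    rw [if_pos rfl]
    exact Lagrange.eval_basis_self (s := F) (v := id) (fun _ _ _ _ e => e) hr
  · rw [if_neg hr0]
    exact Lagrange.eval_basis_of_ne (s := F) (v := id) (fun e => hr0 e.symm) (hs r hrs)

theorem multiset_eq_of_psum {k : Type} [Field k] [CharZero k] (s t : Multiset k)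
    (h : ∀ n : ℕ, (s.map (fun r => r ^ n)).sum = (t.map (fun r => r ^ n)).sum) : s = t := by
  classical
  ext r₀
  by_cases hr : r₀ ∈ s + t
  · have e1 := msp_sum (s + t).toFinset r₀ (Multiset.mem_toFinset.2 hr) s
      (fun r hs => Multiset.mem_toFinset.2 (Multiset.mem_add.2 (Or.inl hs)))
    have e2 := msp_sum (s + t).toFinset r₀ (Multiset.mem_toFinset.2 hr) t
      (fun r hs => Multiset.mem_toFinset.2 (Multiset.mem_add.2 (Or.inr hs)))
    have e3 := msp_eval s t h (Lagrange.basis (s + t).toFinset id r₀)
    rw [e1, e2] at e3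
    exact Nat.cast_injective e3
  · rw [Multiset.mem_add, not_or] at hr
    rw [Multiset.count_eq_zero_of_notMem hr.1, Multiset.count_eq_zero_of_notMem hr.2]

end Pool.Agent.KExp
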