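import Mathlib
import Pool.Agent.Lib.KOd.PowRoots
import Pool.Agent.Lib.KOd.MsetPow

/-!
# KOd.DetFam (MP_0d5e35_al, paper /team-store/MP_0d5e35_al_paper77.md)

(2.1) Finite families of endomorphisms with the same sums of traces of powers have the same product of
determinants. PROOF. Let `s = ∑ i, (charpoly (T i)).roots` (multiset), `s'` likewise. trace_pow_roots: the power sums
of `s` and `s'` agree; multiset_eq_of_psum: `s = s'`; `det (T i) = (charpoly (T i)).roots.prod`
(Mathlib/LinearAlgebra/Eigenspace/Charpoly.lean) and `Multiset.prod_sum`.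
-/

set_option autoImplicit false

namespace Pool.Agent.KExp

private lemma sum_map_sum {k ι : Type} [AddCommMonoid k] (s : Finset ι) (F : ι → Multiset k)
    (g : k → k) : ((∑ i ∈ s, F i).map g).sum = ∑ i ∈ s, ((F i).map g).sum := by
  classical
  induction s using Finset.induction_on with
  | empty => simp
  | insert a s ha ih => rw [Finset.sum_insert ha, Finset.sum_insert ha, Multiset.map_add,
      Multiset.sum_add, ih]

theorem prod_det_eq {k : Type} [Field k] [CharZero k] [IsAlgClosed k] {ι ι' : Type} [Fintype ι]
    [Fintype ι'] (V : ι → Type) [∀ i, AddCommGroup (V i)] [∀ i, Module k (V i)]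
    [∀ i, FiniteDimensional k (V i)] (V' : ι' → Type) [∀ i, AddCommGroup (V' i)]
    [∀ i, Module k (V' i)] [∀ i, FiniteDimensional k (V' i)] (T : ∀ i, Module.End k (V i))
    (T' : ∀ i, Module.End k (V' i))
    (h : ∀ n : ℕ, ∑ i, LinearMap.trace k (V i) (T i ^ n) =
      ∑ i, LinearMap.trace k (V' i) (T' i ^ n)) :
    ∏ i, LinearMap.det (T i) = ∏ i, LinearMap.det (T' i) := by
  have h1 : (∑ i, (LinearMap.charpoly (T i)).roots) = ∑ i, (LinearMap.charpoly (T' i)).roots := by
    apply multiset_eq_of_psum
    intro n
    have key1 : ((∑ i, (LinearMap.charpoly (T i)).roots).map (fun r => r ^ n)).sum =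
        ∑ i, LinearMap.trace k (V i) (T i ^ n) := by
      rw [sum_map_sum]
      exact Finset.sum_congr rfl fun i _ => (trace_pow_roots (T i) n).symm
    have key2 : ((∑ i, (LinearMap.charpoly (T' i)).roots).map (fun r => r ^ n)).sum =
        ∑ i, LinearMap.trace k (V' i) (T' i ^ n) := by
      rw [sum_map_sum]
      exact Finset.sum_congr rfl fun i _ => (trace_pow_roots (T' i) n).symm
    rw [key1, key2]
    exact h n
  have h2 : ∏ i, LinearMap.det (T i) = (∑ i, (LinearMap.charpoly (T i)).roots).prod := by
    rw [Multiset.prod_sum]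
    exact Finset.prod_congr rfl fun i _ =>
      Module.End.det_eq_prod_roots_charpoly_of_splits (IsAlgClosed.splits _)
  have h3 : ∏ i, LinearMap.det (T' i) = (∑ i, (LinearMap.charpoly (T' i)).roots).prod := by
    rw [Multiset.prod_sum]
    exact Finset.prod_congr rfl fun i _ =>
      Module.End.det_eq_prod_roots_charpoly_of_splits (IsAlgClosed.splits _)
  rw [h2, h3, h1]

end Pool.Agent.KExp
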