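import Pool.Agent.Lib.KExp.Defs
import Pool.Agent.Lib.KExp.Sw
import Pool.Agent.Lib.KExp.CE
import Pool.Agent.Lib.KOd.Defs

/-!
# KOd.RopPow (MP_0d5e35_al, paper /team-store/MP_0d5e35_al_paper77.md)

(2.2) `(Rop κ ρ)^n = ∑_j κ(e^j) ⊗ ρ(q_n(e_j))` with `q_n(x) = xₙ ⋯ x₁`. PROOF. `q 0 = ε(·) 1` and `q (n+1) x = ∑ q n (x₂) x₁`
(a linear map, e.g. `∑_i mulRight (e i) ∘ q n ∘ D i`). `n = 0`: `∑_j ε(e_j) κ(e^j) = κ(ε) = 1` (`sum_e`). Step:
`(Rop)^n Rop = ∑_{j,i} κ(e^j) κ(e^i) ⊗ ρ(q_n(e_j) e_i)`, `κ(e^j) κ(e^i) = κ(cv e^i e^j)` and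
`∑_{i,j} κ(cv e^i e^j) ⊗ ρ(q_n(e_j) e_i) = ∑_l κ(e^l) ⊗ ρ(q_n((e_l)₂) (e_l)₁)` (ce_cv with `G a b f = κ f ⊗ ρ(q_n(b) a)`).
-/

set_option autoImplicit false

open scoped TensorProduct

namespace Pool.Agent.KExp

variable {k : Type} [Field k] {H : Type} [Ring H] [HopfAlgebra k H] [FiniteDimensional k H]

variable {W V : Type} [AddCommGroup W] [Module k W] [AddCommGroup V] [Module k V]

variable (k H) in
private noncomputable def rp_q : ℕ → (H →ₗ[k] H)
  | 0 => Algebra.linearMap k H ∘ₗ Coalgebra.counit (R := k) (A := H)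
  | n + 1 => ∑ i, LinearMap.mulRight k (e k H i) ∘ₗ rp_q n ∘ₗ D k H i

private theorem rp_zero (κ : (H →ₗ[k] k) →ₗ[k] Module.End k W)
    (ρ : H →ₐ[k] Module.End k V) (hκ : IsCom κ) :
    (1 : Module.End k (W ⊗[k] V)) =
      ∑ j, TensorProduct.map (κ (ec k H j)) (ρ (rp_q k H 0 (e k H j))) := by
  have h1 : ∀ j, TensorProduct.map (κ (ec k H j)) (ρ (rp_q k H 0 (e k H j))) =
      TensorProduct.map (ep k H (e k H j) • κ (ec k H j)) (1 : Module.End k V) := by
    intro j
    have h2 : rp_q k H 0 (e k H j) = algebraMap k H (ep k H (e k H j)) := rfl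
    rw [h2, AlgHom.commutes, Algebra.algebraMap_eq_smul_one, TensorProduct.map_smul_right,
      TensorProduct.map_smul_left]
  rw [Finset.sum_congr rfl fun j _ => h1 j]
  have h3 : ∑ j, TensorProduct.map (ep k H (e k H j) • κ (ec k H j)) (1 : Module.End k V) =
      TensorProduct.map (∑ j, ep k H (e k H j) • κ (ec k H j)) (1 : Module.End k V) := by
    have := map_sum ((TensorProduct.mapBilinear (RingHom.id k) W V W V).flip (1 : Module.End k V))
      (fun j => ep k H (e k H j) • κ (ec k H j)) Finset.univ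
    exact this.symm
  rw [h3]
  have h4 : ∑ j, ep k H (e k H j) • κ (ec k H j) = κ (ep k H) := by
    rw [← sum_e (k := k) (H := H) (ep k H), map_sum]
    refine Finset.sum_congr rfl fun j _ => ?_
    rw [map_smul, sum_e]
  rw [h4, hκ.one]
  exact TensorProduct.map_one.symm

variable (k H) in
theorem exists_q : ∃ q : ℕ → (H →ₗ[k] H), ∀ (W V : Type) [AddCommGroup W] [Module k W]
    [AddCommGroup V] [Module k V] (κ : (H →ₗ[k] k) →ₗ[k] Module.End k W)
    (ρ : H →ₐ[k] Module.End k V), IsCom κ → ∀ n : ℕ,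
    Rop κ ρ ^ n = ∑ j, TensorProduct.map (κ (ec k H j)) (ρ (q n (e k H j))) := by
  refine ⟨rp_q k H, ?_⟩
  intro W V _ _ _ _ κ ρ hκ n
  induction n with
  | zero =>
    rw [pow_zero]
    exact rp_zero κ ρ hκ
  | succ n ih =>
    rw [pow_succ, ih]
    have h1 : (∑ j, TensorProduct.map (κ (ec k H j)) (ρ (rp_q k H n (e k H j)))) * Rop κ ρ =
        ∑ i, ∑ j, TensorProduct.map (κ (cv (ec k H i) (ec k H j)))
          (ρ (rp_q k H n (e k H j) * e k H i)) := by
      unfold Rop
      rw [Finset.sum_mul_sum, Finset.sum_comm]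
      refine Finset.sum_congr rfl fun i _ => Finset.sum_congr rfl fun j _ => ?_
      rw [← hκ.mul, map_mul ρ]
      exact (TensorProduct.map_mul _ _ _ _).symm
    rw [h1]
    have h2 := ce_cv (k := k) (H := H) (Z := Module.End k (W ⊗[k] V))
      (G := fun a b f => TensorProduct.map (κ f) (ρ (rp_q k H n b * a))) ?_ ?_ ?_
    · refine h2.trans ?_
      refine Finset.sum_congr rfl fun i _ => ?_
      have h3 : rp_q k H (n + 1) (e k H i) = ∑ j, rp_q k H n (D k H j (e k H i)) * e k H j := by
        change (∑ j, LinearMap.mulRight k (e k H j) ∘ₗ rp_q k H n ∘ₗ D k H j) (e k H i) = _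
        rw [LinearMap.sum_apply]
        rfl
      rw [h3, map_sum]
      have := map_sum (TensorProduct.mapBilinear (RingHom.id k) W V W V (κ (ec k H i)))
        (fun j => ρ (rp_q k H n (D k H j (e k H i)) * e k H j)) Finset.univ
      exact this.symm
    · intro b f
      constructor
      · intro x y
        simp only [mul_add, map_add, TensorProduct.map_add_right]
      · intro c x
        simp only [mul_smul_comm, map_smul, TensorProduct.map_smul_right]
    · intro a f
      constructor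
      · intro x y
        simp only [add_mul, map_add, TensorProduct.map_add_right]
      · intro c x
        simp only [smul_mul_assoc, map_smul, TensorProduct.map_smul_right]
    · intro a b
      constructor
      · intro x y
        simp only [map_add, TensorProduct.map_add_left]
      · intro c x
        simp only [map_smul, TensorProduct.map_smul_left]

end Pool.Agent.KExp
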