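import Pool.Agent.Lib.KExp.Defs
import Pool.Agent.Lib.KExp.Sw
import Pool.Agent.Lib.KExp.CE
import Pool.Agent.Lib.KOd.Defs
import Pool.Agent.Lib.KOd.RopPow
import Pool.Agent.Lib.KOd.DetFam

/-!
# KOd.RopDet (MP_0d5e35_al, paper /team-store/MP_0d5e35_al_paper77.md)

(2.2) The product of the determinants of `Rop (κ i) ρ` depends only on the total character. PROOF. exists_q and
`LinearMap.trace_tensorProduct'`: `Tr((Rop κ ρ)^n) = ∑_j Tr κ(e^j) Tr ρ(q_n e_j)`; sum over `i`; prod_det_eq.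
-/

/-!
# KOd.RopDet (MP_0d5e35_al, paper /team-store/MP_0d5e35_al_paper77.md)

(2.2) The product of the determinants of `Rop (κ i) ρ` depends only on the total character. PROOF. exists_q and
`LinearMap.trace_tensorProduct'`: `Tr((Rop κ ρ)^n) = ∑_j Tr κ(e^j) Tr ρ(q_n e_j)`; sum over `i`; prod_det_eq.
-/

set_option autoImplicit false

open scoped TensorProduct

namespace Pool.Agent.KExp

variable {k : Type} [Field k] {H : Type} [Ring H] [HopfAlgebra k H] [FiniteDimensional k H]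

private theorem RopDet_tr {W V : Type} [AddCommGroup W] [Module k W]
    [FiniteDimensional k W] [AddCommGroup V] [Module k V] [FiniteDimensional k V]
    (κ : (H →ₗ[k] k) →ₗ[k] Module.End k W) (ρ : H →ₐ[k] Module.End k V) (q : H →ₗ[k] H) (n : ℕ)
    (h : Rop κ ρ ^ n = ∑ j, TensorProduct.map (κ (ec k H j)) (ρ (q (e k H j)))) :
    LinearMap.trace k (W ⊗[k] V) (Rop κ ρ ^ n) =
      ∑ j, LinearMap.trace k W (κ (ec k H j)) * LinearMap.trace k V (ρ (q (e k H j))) := by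
  rw [h, map_sum]
  refine Finset.sum_congr rfl fun j _ => ?_
  exact LinearMap.trace_tensorProduct' _ _

theorem prod_det_Rop [CharZero k] [IsAlgClosed k] {ι ι' : Type} [Fintype ι] [Fintype ι']
    (W : ι → Type) [∀ i, AddCommGroup (W i)] [∀ i, Module k (W i)]
    [∀ i, FiniteDimensional k (W i)] (W' : ι' → Type) [∀ i, AddCommGroup (W' i)]
    [∀ i, Module k (W' i)] [∀ i, FiniteDimensional k (W' i)]
    (κ : ∀ i, (H →ₗ[k] k) →ₗ[k] Module.End k (W i))
    (κ' : ∀ i, (H →ₗ[k] k) →ₗ[k] Module.End k (W' i)) (hκ : ∀ i, IsCom (κ i))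
    (hκ' : ∀ i, IsCom (κ' i))
    (h : ∀ f, ∑ i, LinearMap.trace k (W i) (κ i f) = ∑ i, LinearMap.trace k (W' i) (κ' i f))
    {V : Type} [AddCommGroup V] [Module k V] [FiniteDimensional k V]
    (ρ : H →ₐ[k] Module.End k V) :
    ∏ i, LinearMap.det (Rop (κ i) ρ) = ∏ i, LinearMap.det (Rop (κ' i) ρ) := by
  obtain ⟨q, hq⟩ := exists_q k H
  refine prod_det_eq (fun i => W i ⊗[k] V) (fun i => W' i ⊗[k] V) (fun i => Rop (κ i) ρ)
    (fun i => Rop (κ' i) ρ) ?_
  intro n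
  have h1 : ∀ i, LinearMap.trace k (W i ⊗[k] V) (Rop (κ i) ρ ^ n) =
      ∑ j, LinearMap.trace k (W i) (κ i (ec k H j)) *
        LinearMap.trace k V (ρ (q n (e k H j))) :=
    fun i => RopDet_tr (κ i) ρ (q n) n (hq (W i) V (κ i) ρ (hκ i) n)
  have h2 : ∀ i, LinearMap.trace k (W' i ⊗[k] V) (Rop (κ' i) ρ ^ n) =
      ∑ j, LinearMap.trace k (W' i) (κ' i (ec k H j)) *
        LinearMap.trace k V (ρ (q n (e k H j))) :=
    fun i => RopDet_tr (κ' i) ρ (q n) n (hq (W' i) V (κ' i) ρ (hκ' i) n)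
  rw [Finset.sum_congr rfl fun i _ => h1 i, Finset.sum_congr rfl fun i _ => h2 i,
    Finset.sum_comm, Finset.sum_comm (s := (Finset.univ : Finset ι'))]
  refine Finset.sum_congr rfl fun j _ => ?_
  rw [← Finset.sum_mul, ← Finset.sum_mul, h]

end Pool.Agent.KExp
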