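import Pool.Agent.Lib.KExp.Defs
import Pool.Agent.Lib.KExp.Sw
import Pool.Agent.Lib.KExp.CE
import Pool.Agent.Lib.KExp.TensApp
import Pool.Agent.Lib.KExp.Triv
import Pool.Agent.Lib.KExp.DetA
import Pool.Agent.Lib.KOd.Defs

/-!
# KOd.RopTens (MP_0d5e35_al, paper /team-store/MP_0d5e35_al_paper77.md)

(2.3) PROOF. `Rop (tS κ κ') ρ = ∑_{i,j} (κ(e^i) ⊗ κ'(e^j)) ⊗ ρ(e_i) ρ(e_j)` (tS_apply, ce_mul) `= R₁₃ R₂₃`,
`R₁₃ = ∑_i (κ(e^i) ⊗ 1) ⊗ ρ(e_i)`, `R₂₃ = ∑_j (1 ⊗ κ'(e^j)) ⊗ ρ(e_j)` on `(W ⊗ W') ⊗ V`. `R₁₃` is conjugate to `Rop κ ρ ⊗ 1` on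
`(W ⊗ V) ⊗ W'` (`TensorProduct.rightComm`), `R₂₃` to `1 ⊗ Rop κ' ρ` on `W ⊗ (W' ⊗ V)` (`TensorProduct.assoc`); `LinearMap.det_conj` and
det_map of KExp.DetA. (Compare KExp.DetB, which does the same for `Mop`.)
-/

set_option autoImplicit false

open scoped TensorProduct

namespace Pool.Agent.KExp

variable {k : Type} [Field k] {H : Type} [Ring H] [HopfAlgebra k H] [FiniteDimensional k H]

variable {W W' V : Type} [AddCommGroup W] [Module k W] [AddCommGroup W'] [Module k W']
  [AddCommGroup V] [Module k V] [FiniteDimensional k W] [FiniteDimensional k W']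
  [FiniteDimensional k V]

omit [FiniteDimensional k W] [FiniteDimensional k V] in
private theorem rt_sum_left {ι : Type} (s : Finset ι) (f : ι → Module.End k W)
    (g : Module.End k V) :
    TensorProduct.map (∑ i ∈ s, f i) g = ∑ i ∈ s, TensorProduct.map (f i) g := by
  classical
  induction s using Finset.induction_on with
  | empty => simp
  | insert a s ha ih => rw [Finset.sum_insert ha, Finset.sum_insert ha,
      TensorProduct.map_add_left, ih]

omit [FiniteDimensional k W] [FiniteDimensional k V] in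
private theorem rt_sum_right {ι : Type} (s : Finset ι) (f : Module.End k W)
    (g : ι → Module.End k V) :
    TensorProduct.map f (∑ i ∈ s, g i) = ∑ i ∈ s, TensorProduct.map f (g i) := by
  classical
  induction s using Finset.induction_on with
  | empty => simp
  | insert a s ha ih => rw [Finset.sum_insert ha, Finset.sum_insert ha,
      TensorProduct.map_add_right, ih]

/-- `∑ (κ(e^i) ⊗ 1) ⊗ ρ(eᵢ)` -/
private noncomputable def rtC (κ : (H →ₗ[k] k) →ₗ[k] Module.End k W)
    (ρ : H →ₐ[k] Module.End k V) (W' : Type) [AddCommGroup W'] [Module k W'] :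
    Module.End k ((W ⊗[k] W') ⊗[k] V) :=
  ∑ i, TensorProduct.map (TensorProduct.map (κ (ec k H i)) 1) (ρ (e k H i))

/-- `∑ (1 ⊗ κ'(e^i)) ⊗ ρ(eᵢ)` -/
private noncomputable def rtG (κ' : (H →ₗ[k] k) →ₗ[k] Module.End k W')
    (ρ : H →ₐ[k] Module.End k V) (W : Type) [AddCommGroup W] [Module k W] :
    Module.End k ((W ⊗[k] W') ⊗[k] V) :=
  ∑ i, TensorProduct.map (TensorProduct.map 1 (κ' (ec k H i))) (ρ (e k H i))

omit [FiniteDimensional k W] [FiniteDimensional k W'] [FiniteDimensional k V] in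
private theorem rt_B (κ : (H →ₗ[k] k) →ₗ[k] Module.End k W)
    (κ' : (H →ₗ[k] k) →ₗ[k] Module.End k W') (ρ : H →ₐ[k] Module.End k V) :
    Rop (tS κ κ') ρ = rtC κ ρ W' * rtG κ' ρ W := by
  have h1 := ce_mul (k := k) (H := H)
    (G := fun f g a => TensorProduct.map (TensorProduct.map (κ f) (κ' g)) (ρ a))
    (fun b f => ⟨fun a a' => by
        simp only [map_add, TensorProduct.map_add_left], fun c a => by
        simp only [map_smul, TensorProduct.map_smul_left]⟩)
    (fun a f => ⟨fun b b' => by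
        simp only [map_add, TensorProduct.map_add_left, TensorProduct.map_add_right],
        fun c b => by
        simp only [map_smul, TensorProduct.map_smul_left, TensorProduct.map_smul_right]⟩)
    (fun a b => ⟨fun f f' => by
        simp only [map_add, TensorProduct.map_add_right], fun c f => by
        simp only [map_smul, TensorProduct.map_smul_right]⟩)
  have h2 : ∀ l, TensorProduct.map (tS κ κ' (ec k H l)) (ρ (e k H l)) =
      ∑ i, ∑ j, ec k H l (e k H i * e k H j) •
        TensorProduct.map (TensorProduct.map (κ (ec k H i)) (κ' (ec k H j))) (ρ (e k H l)) := by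
    intro l
    rw [tS_apply, rt_sum_left]
    refine Finset.sum_congr rfl fun i _ => ?_
    rw [rt_sum_left]
    refine Finset.sum_congr rfl fun j _ => ?_
    rw [TensorProduct.map_smul_left]
  unfold Rop
  rw [Finset.sum_congr rfl (fun j _ => h2 j), h1, rtC, rtG, Finset.sum_mul_sum]
  refine Finset.sum_congr rfl fun j' _ => Finset.sum_congr rfl fun j _ => ?_
  rw [← TensorProduct.map_mul, ← TensorProduct.map_mul, one_mul, mul_one, map_mul]

private theorem rt_detC (κ : (H →ₗ[k] k) →ₗ[k] Module.End k W) (ρ : H →ₐ[k] Module.End k V) :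
    LinearMap.det (rtC κ ρ W') = LinearMap.det (Rop κ ρ) ^ Module.finrank k W' := by
  rw [rtC, ← LinearMap.det_conj _ (TensorProduct.rightComm k W W' V)]
  have h : ((TensorProduct.rightComm k W W' V : (W ⊗[k] W') ⊗[k] V →ₗ[k] (W ⊗[k] V) ⊗[k] W') ∘ₗ
      (∑ i, TensorProduct.map (TensorProduct.map (κ (ec k H i))
      (1 : Module.End k W')) (ρ (e k H i))) ∘ₗ
      ((TensorProduct.rightComm k W W' V).symm : (W ⊗[k] V) ⊗[k] W' →ₗ[k] (W ⊗[k] W') ⊗[k] V)) =
      TensorProduct.map (Rop κ ρ) (1 : Module.End k W') := by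
    unfold Rop
    rw [rt_sum_left]
    apply TensorProduct.ext'
    intro u x'
    induction u with
    | zero => simp
    | add u v hu hv => rw [TensorProduct.add_tmul, map_add, map_add, hu, hv]
    | tmul x y =>
      have h1 : ((TensorProduct.rightComm k W W' V).symm :
          (W ⊗[k] V) ⊗[k] W' →ₗ[k] (W ⊗[k] W') ⊗[k] V) ((x ⊗ₜ[k] y) ⊗ₜ[k] x') =
          (x ⊗ₜ[k] x') ⊗ₜ[k] y := by simp
      rw [LinearMap.comp_apply, LinearMap.comp_apply, h1]
      simp only [LinearMap.sum_apply, TensorProduct.map_tmul, map_sum]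
      refine Finset.sum_congr rfl fun i _ => ?_
      simp
  rw [h, det_map, map_one, one_pow, mul_one]

private theorem rt_detG (κ' : (H →ₗ[k] k) →ₗ[k] Module.End k W') (ρ : H →ₐ[k] Module.End k V) :
    LinearMap.det (rtG κ' ρ W) = LinearMap.det (Rop κ' ρ) ^ Module.finrank k W := by
  rw [rtG, ← LinearMap.det_conj _ (TensorProduct.assoc k W W' V)]
  have h : ((TensorProduct.assoc k W W' V : (W ⊗[k] W') ⊗[k] V →ₗ[k] W ⊗[k] (W' ⊗[k] V)) ∘ₗ
      (∑ i, TensorProduct.map (TensorProduct.map (1 : Module.End k W)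
      (κ' (ec k H i))) (ρ (e k H i))) ∘ₗ
      ((TensorProduct.assoc k W W' V).symm : W ⊗[k] (W' ⊗[k] V) →ₗ[k] (W ⊗[k] W') ⊗[k] V)) =
      TensorProduct.map (1 : Module.End k W) (Rop κ' ρ) := by
    unfold Rop
    rw [rt_sum_right]
    apply TensorProduct.ext'
    intro x u
    induction u with
    | zero => simp
    | add u v hu hv => rw [TensorProduct.tmul_add, map_add, map_add, hu, hv]
    | tmul x' y =>
      rw [LinearMap.comp_apply, LinearMap.comp_apply, LinearEquiv.coe_coe, LinearEquiv.coe_coe,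
        TensorProduct.assoc_symm_tmul]
      simp only [LinearMap.sum_apply, TensorProduct.map_tmul, map_sum]
      refine Finset.sum_congr rfl fun i _ => ?_
      simp
  rw [h, det_map, map_one, one_pow, one_mul]

theorem det_Rop_tS (κ : (H →ₗ[k] k) →ₗ[k] Module.End k W)
    (κ' : (H →ₗ[k] k) →ₗ[k] Module.End k W') (ρ : H →ₐ[k] Module.End k V) :
    LinearMap.det (Rop (tS κ κ') ρ) = LinearMap.det (Rop κ ρ) ^ Module.finrank k W' *
      LinearMap.det (Rop κ' ρ) ^ Module.finrank k W := by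
  rw [rt_B, map_mul, rt_detC, rt_detG]

end Pool.Agent.KExp
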