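import Pool.Agent.Lib.KExp.Defs
import Pool.Agent.Lib.KExp.Sw
import Pool.Agent.Lib.KExp.CE
import Pool.Agent.Lib.KExp.LamInt
import Pool.Agent.Lib.KExp.LInt
import Pool.Agent.Lib.KOd.Defs
import Pool.Agent.Lib.KOd.RopDet
import Pool.Agent.Lib.KOd.RopTens
import Pool.Agent.Lib.KOd.ComTens
import Pool.Agent.Lib.KOd.RopUnit
import Pool.Agent.Lib.KOd.McCom
import Pool.Agent.Lib.KOd.McEx
import Pool.Agent.Lib.KOd.Key

/-!
# KOd.Alpha (MP_0d5e35_al, paper /team-store/MP_0d5e35_al_paper77.md)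

THEOREM ALPHA (2.4, 2.7). Let `D = det (Rop Dreg ρ)`, `D ≠ 0` (det_Rop_ne). First part: prod_det_Rop for `{tS Dreg Dreg}` (index `Unit`) and `m` copies of
`Dreg` (index `Fin m`): characters `f(Lam * Lam) = m f(Lam)` (trace_tS, trace_Dreg, mul_Lam, ep_Lam); det_Rop_tS: `D^m D^m = D^m`, so `D^m = 1`.
Second part, `m` odd: exists_MC, `r_i = det (Rop (kapM B i) ρ)`. prod_det_Rop for `Dreg` (index `Unit`) and `kapM B i` (index `(i : ι) × Fin (n i)`): characters
`f(Lam) = ∑ n_i f(χ_i)` (Lam_eq, trace_kapM): `D = ∏ r_i^{n_i}`. prod_det_Rop for `Dreg` and `tS (kapM B i) (kapM B i)` (index `ι`): characters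
`f(Lam) = ∑ f(χ_i χ_i)` (key): `D = ∏ (r_i^{n_i} r_i^{n_i}) = D²`. So `D = 1`.
-/

set_option autoImplicit false

open scoped TensorProduct

namespace Pool.Agent.KExp

variable {k : Type} [Field k] {H : Type} [Ring H] [HopfAlgebra k H] [FiniteDimensional k H]

private theorem al_pow [CharZero k] [IsAlgClosed k] (hS : ∀ x : H, Sa k H (Sa k H x) = x) {V : Type}
    [AddCommGroup V] [Module k V] [FiniteDimensional k V] (ρ : H →ₐ[k] Module.End k V) :
    LinearMap.det (Rop (Dreg k H) ρ) ^ Module.finrank k H = 1 := by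
  have hD : LinearMap.det (Rop (Dreg k H) ρ) ≠ 0 := det_Rop_ne hS isCom_Dreg ρ
  have hmul : Lam k H * Lam k H = (Module.finrank k H : k) • Lam k H := by
    rw [mul_Lam hS, ep_Lam]
  have htr : ∀ f : H →ₗ[k] k,
      ∑ _i : Unit, LinearMap.trace k (H ⊗[k] H) (tS (Dreg k H) (Dreg k H) f) =
        ∑ _i : Fin (Module.finrank k H), LinearMap.trace k H (Dreg k H f) := by
    intro f
    rw [Fintype.sum_unique, trace_tS (Dreg k H) (Dreg k H) trace_Dreg trace_Dreg, hmul, map_smul,
      trace_Dreg, Finset.sum_const, Finset.card_univ, Fintype.card_fin, smul_eq_mul, nsmul_eq_mul]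
  have h := prod_det_Rop (ι := Unit) (ι' := Fin (Module.finrank k H)) (fun _ => H ⊗[k] H)
    (fun _ => H) (fun _ => tS (Dreg k H) (Dreg k H)) (fun _ => Dreg k H)
    (fun _ => isCom_tS isCom_Dreg isCom_Dreg) (fun _ => isCom_Dreg) htr ρ
  rw [Fintype.prod_unique, det_Rop_tS, Finset.prod_const, Finset.card_univ, Fintype.card_fin] at h
  exact mul_eq_left₀ (pow_ne_zero _ hD) |>.1 h

private theorem al_odd [CharZero k] [IsAlgClosed k] (hS : ∀ x : H, Sa k H (Sa k H x) = x) {V : Type}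
    [AddCommGroup V] [Module k V] [FiniteDimensional k V] (ρ : H →ₐ[k] Module.End k V)
    (hm : Odd (Module.finrank k H)) : LinearMap.det (Rop (Dreg k H) ρ) = 1 := by
  have hD : LinearMap.det (Rop (Dreg k H) ρ) ≠ 0 := det_Rop_ne hS isCom_Dreg ρ
  obtain ⟨N, n, B, hB⟩ := exists_MC (k := k) (H := H) hS
  have h1 : LinearMap.det (Rop (Dreg k H) ρ) =
      ∏ i, LinearMap.det (Rop (kapM B i) ρ) ^ n i := by
    have htr : ∀ f : H →ₗ[k] k,
        ∑ _i : Unit, LinearMap.trace k H (Dreg k H f) =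
          ∑ p : (i : Fin N) × Fin (n i), LinearMap.trace k (Fin (n p.1) → k) (kapM B p.1 f) := by
      intro f
      rw [Fintype.sum_unique, trace_Dreg, Lam_eq hB, map_sum, Fintype.sum_sigma]
      refine Finset.sum_congr rfl fun i _ => ?_
      rw [map_smul]
      simp only [trace_kapM, Finset.sum_const, Finset.card_univ, Fintype.card_fin, smul_eq_mul,
        nsmul_eq_mul]
    have h := prod_det_Rop (ι := Unit) (ι' := (i : Fin N) × Fin (n i)) (fun _ => H)
      (fun p => Fin (n p.1) → k) (fun _ => Dreg k H) (fun p => kapM B p.1)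
      (fun _ => isCom_Dreg) (fun p => isCom_kapM hB p.1) htr ρ
    rw [Fintype.prod_unique, Fintype.prod_sigma] at h
    rw [h]
    refine Finset.prod_congr rfl fun i _ => ?_
    change ∏ _y : Fin (n i), LinearMap.det (Rop (kapM B i) ρ) = _
    rw [Finset.prod_const, Finset.card_univ, Fintype.card_fin]
  have h2 : LinearMap.det (Rop (Dreg k H) ρ) =
      ∏ i, LinearMap.det (Rop (kapM B i) ρ) ^ n i * LinearMap.det (Rop (kapM B i) ρ) ^ n i := by
    have htr : ∀ f : H →ₗ[k] k,
        ∑ _i : Unit, LinearMap.trace k H (Dreg k H f) =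
          ∑ i : Fin N, LinearMap.trace k ((Fin (n i) → k) ⊗[k] (Fin (n i) → k))
            (tS (kapM B i) (kapM B i) f) := by
      intro f
      rw [Fintype.sum_unique, trace_Dreg, ← key hS hm hB, map_sum]
      refine Finset.sum_congr rfl fun i _ => ?_
      rw [trace_tS (kapM B i) (kapM B i) (trace_kapM i) (trace_kapM i)]
    have h := prod_det_Rop (ι := Unit) (ι' := Fin N) (fun _ => H)
      (fun i => (Fin (n i) → k) ⊗[k] (Fin (n i) → k)) (fun _ => Dreg k H)
      (fun i => tS (kapM B i) (kapM B i))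
      (fun _ => isCom_Dreg) (fun i => isCom_tS (isCom_kapM hB i) (isCom_kapM hB i)) htr ρ
    rw [Fintype.prod_unique] at h
    rw [h]
    refine Finset.prod_congr rfl fun i _ => ?_
    rw [det_Rop_tS, Module.finrank_fin_fun]
  rw [Finset.prod_mul_distrib, ← h1] at h2
  exact mul_eq_left₀ hD |>.1 h2.symm

theorem alpha [CharZero k] [IsAlgClosed k] (hS : ∀ x : H, Sa k H (Sa k H x) = x) {V : Type}
    [AddCommGroup V] [Module k V] [FiniteDimensional k V] (ρ : H →ₐ[k] Module.End k V) :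
    LinearMap.det (Rop (Dreg k H) ρ) ^ Module.finrank k H = 1 ∧
      (Odd (Module.finrank k H) → LinearMap.det (Rop (Dreg k H) ρ) = 1) := by
  exact ⟨al_pow hS ρ, fun hm => al_odd hS ρ hm⟩

end Pool.Agent.KExp
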