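import Pool.Agent.Lib.KExp.Defs
import Pool.Agent.Lib.KExp.Sw
import Pool.Agent.Lib.KExp.CE
import Pool.Agent.Lib.KOd.Defs

/-!
# KOd.DuA (MP_0d5e35_al, paper /team-store/MP_0d5e35_al_paper77.md)

(1.4) The dual Hopf algebra, first part: ring and algebra. Fill in the proofs (`sorry`) without changing the data. The product is
`f * g = cv g f`: `(f * g)(x) = g(x₁) f(x₂)` (cv_apply: `cv f g x = sw2 (fun a b => f a * g b) x`); bilinear in `f`, `g`; associative by
coassociativity (`cv (cv f g) h = cv f (cv g h)`: sw2_assoc, or directly with `Coalgebra.coassoc`), unit `ε` (sw2_counit_left / right).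
-/

set_option autoImplicit false

open scoped TensorProduct

namespace Pool.Agent.KExp

/-- the dual space of `H`, with the product `(f g)(x) = g(x₁) f(x₂)` and the coproduct
`f₍₁₎(x) f₍₂₎(y) = f(y x)` -/
def Du (k H : Type) [Field k] [Ring H] [HopfAlgebra k H] : Type := H →ₗ[k] k

private theorem du_cv_add_left {k H : Type} [Field k] [Ring H] [HopfAlgebra k H]
    (f g h : H →ₗ[k] k) : cv (f + g) h = cv f h + cv g h := by
  unfold cv
  rw [TensorProduct.map_add_left, LinearMap.add_comp, LinearMap.comp_add]

private theorem du_cv_add_right {k H : Type} [Field k] [Ring H] [HopfAlgebra k H]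
    (f g h : H →ₗ[k] k) : cv f (g + h) = cv f g + cv f h := by
  unfold cv
  rw [TensorProduct.map_add_right, LinearMap.add_comp, LinearMap.comp_add]

private theorem du_cv_smul_left {k H : Type} [Field k] [Ring H] [HopfAlgebra k H]
    (c : k) (f g : H →ₗ[k] k) : cv (c • f) g = c • cv f g := by
  unfold cv
  rw [TensorProduct.map_smul_left, LinearMap.smul_comp, LinearMap.comp_smul]

private theorem du_cv_smul_right {k H : Type} [Field k] [Ring H] [HopfAlgebra k H]
    (c : k) (f g : H →ₗ[k] k) : cv f (c • g) = c • cv f g := by
  unfold cv
  rw [TensorProduct.map_smul_right, LinearMap.smul_comp, LinearMap.comp_smul]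

private theorem du_cv_assoc {k H : Type} [Field k] [Ring H] [HopfAlgebra k H]
    (f g h : H →ₗ[k] k) : cv (cv f g) h = cv f (cv g h) :=
  congrArg WithConv.ofConv (mul_assoc (WithConv.toConv f) (WithConv.toConv g) (WithConv.toConv h))

private theorem du_cv_one_left {k H : Type} [Field k] [Ring H] [HopfAlgebra k H]
    (f : H →ₗ[k] k) : cv (Coalgebra.counit (R := k) (A := H)) f = f :=
  congrArg WithConv.ofConv (one_mul (WithConv.toConv f))

private theorem du_cv_one_right {k H : Type} [Field k] [Ring H] [HopfAlgebra k H]
    (f : H →ₗ[k] k) : cv f (Coalgebra.counit (R := k) (A := H)) = f :=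
  congrArg WithConv.ofConv (mul_one (WithConv.toConv f))

private theorem du_cv_zero_left {k H : Type} [Field k] [Ring H] [HopfAlgebra k H]
    (f : H →ₗ[k] k) : cv (0 : H →ₗ[k] k) f = 0 := by
  have h := du_cv_smul_left (0 : k) f f
  rw [zero_smul, zero_smul] at h
  exact h

private theorem du_cv_zero_right {k H : Type} [Field k] [Ring H] [HopfAlgebra k H]
    (f : H →ₗ[k] k) : cv f (0 : H →ₗ[k] k) = 0 := by
  have h := du_cv_smul_right (0 : k) f f
  rw [zero_smul, zero_smul] at h
  exact h

section

variable (k H : Type) [Field k] [Ring H] [HopfAlgebra k H]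

/-- additive group of the dual -/
@[reducible] noncomputable def agDu : AddCommGroup (Du k H) :=
  inferInstanceAs (AddCommGroup (H →ₗ[k] k))

noncomputable instance instRingDu : Ring (Du k H) :=
  { agDu k H with
    mul := fun f g => (cv (k := k) (H := H) g f : H →ₗ[k] k)
    one := (Coalgebra.counit (R := k) (A := H) : H →ₗ[k] k)
    left_distrib := by
      intro a b c
      exact du_cv_add_left (k := k) (H := H) b c a
    right_distrib := by
      intro a b c
      exact du_cv_add_right (k := k) (H := H) c a b
    zero_mul := by
      intro a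
      exact du_cv_zero_right (k := k) (H := H) a
    mul_zero := by
      intro a
      exact du_cv_zero_left (k := k) (H := H) a
    mul_assoc := by
      intro a b c
      exact (du_cv_assoc (k := k) (H := H) c b a).symm
    one_mul := by
      intro a
      exact du_cv_one_right (k := k) (H := H) a
    mul_one := by
      intro a
      exact du_cv_one_left (k := k) (H := H) a }

/-- vector space structure of the dual -/
@[reducible] noncomputable def moDu : Module k (Du k H) :=
  inferInstanceAs (Module k (H →ₗ[k] k))

noncomputable instance instAlgDu : Algebra k (Du k H) :=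
  letI := moDu k H
  Algebra.ofModule
    (by
      intro c f g
      exact du_cv_smul_right (k := k) (H := H) c g f)
    (by
      intro c f g
      exact du_cv_smul_left (k := k) (H := H) c g f)

/-- the identity `H* → Du k H` -/
noncomputable def toDu : (H →ₗ[k] k) ≃ₗ[k] Du k H where
  toFun f := f
  invFun f := f
  map_add' _ _ := rfl
  map_smul' _ _ := rfl
  left_inv _ := rfl
  right_inv _ := rfl

variable {k H}

theorem toDu_mul (f g : H →ₗ[k] k) : toDu k H f * toDu k H g = toDu k H (cv g f) := rfl

theorem toDu_one : toDu k H (Coalgebra.counit (R := k) (A := H)) = 1 := rfl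

variable (k H)

variable [FiniteDimensional k H]

instance instFDDu : FiniteDimensional k (Du k H) := Module.Finite.equiv (toDu k H)

theorem finrank_Du : Module.finrank k (Du k H) = Module.finrank k H := by
  rw [← (toDu k H).finrank_eq]
  exact Subspace.dual_finrank_eq

end

end Pool.Agent.KExp
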