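import Pool.Agent.Lib.KExp.Defs
import Pool.Agent.Lib.KExp.Sw
import Pool.Agent.Lib.KExp.CE
import Pool.Agent.Lib.KOd.Defs
import Pool.Agent.Lib.KOd.DuA

/-!
# KOd.DuB (MP_0d5e35_al, paper /team-store/MP_0d5e35_al_paper77.md)

(1.4) The dual Hopf algebra, second part: the coalgebra. Fill in the proofs (`sorry`) without changing the data.
`Δ f = ∑_{i,j} f(e_j e_i) e^i ⊗ e^j` (so `f₍₁₎(x) f₍₂₎(y) = f(y x)`), `ε f = f(1)`. The functionals `x ⊗ y ⊗ z` (evaluation) separate the points of
`H* ⊗ (H* ⊗ H*)`: or compute directly: `(Δ ⊗ 1) Δ f = ∑ f(e_j e_i) (e^i(e_q e_p)) e^p ⊗ e^q ⊗ e^j = ∑_{p,q,j} f(e_j e_q e_p) e^p ⊗ e^q ⊗ e^j` (sum_ec) and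
`(1 ⊗ Δ) Δ f = ∑ f(e_j e_i) e^j(e_q e_p) e^i ⊗ e^p ⊗ e^q = ∑ f(e_q e_p e_i) e^i ⊗ e^p ⊗ e^q`. Counit: `∑ f(e_j e_i) e^i(1) e^j = ∑ f(e_j) e^j = f` (sum_ec, sum_e).
-/

set_option autoImplicit false

open scoped TensorProduct

namespace Pool.Agent.KExp

section

variable (k H : Type) [Field k] [Ring H] [HopfAlgebra k H] [FiniteDimensional k H]

/-- the coproduct of the dual (auxiliary name) -/
private noncomputable def dC : Du k H →ₗ[k] Du k H ⊗[k] Du k H :=
  ∑ i, ∑ j, (((LinearMap.applyₗ (R := k) (e k H j * e k H i)) ∘ₗ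
    (toDu k H).symm.toLinearMap).smulRight
      (toDu k H (ec k H i) ⊗ₜ[k] toDu k H (ec k H j)))

variable {k H}

private theorem dC_apply (f : H →ₗ[k] k) : dC k H (toDu k H f) =
    ∑ i, ∑ j, f (e k H j * e k H i) • (toDu k H (ec k H i) ⊗ₜ[k] toDu k H (ec k H j)) := by
  unfold dC
  rw [LinearMap.sum_apply]
  refine Finset.sum_congr rfl fun i _ => ?_
  rw [LinearMap.sum_apply]
  refine Finset.sum_congr rfl fun j _ => ?_
  rfl

private theorem sum_ec_mul (f : H →ₗ[k] k) (x y : H) :
    ∑ i, ec k H i x * f (y * e k H i) = f (y * x) := by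
  have h := congrArg (fun t => f (y * t)) (sum_ec (k := k) x)
  simp only [Finset.mul_sum, mul_smul_comm, map_sum, map_smul, smul_eq_mul] at h
  exact h

private theorem sum_ec_mul' (f : H →ₗ[k] k) (x y : H) :
    ∑ i, ec k H i x * f (e k H i * y) = f (x * y) := by
  have h := congrArg (fun t => f (t * y)) (sum_ec (k := k) x)
  simp only [Finset.sum_mul, smul_mul_assoc, map_sum, map_smul, smul_eq_mul] at h
  exact h

private theorem dC_coassoc :
    (TensorProduct.assoc k (Du k H) (Du k H) (Du k H)).toLinearMap ∘ₗ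
      (dC k H).rTensor (Du k H) ∘ₗ dC k H = (dC k H).lTensor (Du k H) ∘ₗ dC k H := by
  refine LinearMap.ext fun x => ?_
  obtain ⟨f, rfl⟩ := (toDu k H).surjective x
  simp only [LinearMap.comp_apply, LinearEquiv.coe_coe]
  have hL : (TensorProduct.assoc k (Du k H) (Du k H) (Du k H))
      ((dC k H).rTensor (Du k H) (dC k H (toDu k H f))) =
      ∑ p, ∑ q, ∑ j, f (e k H j * (e k H q * e k H p)) •
        (toDu k H (ec k H p) ⊗ₜ[k] (toDu k H (ec k H q) ⊗ₜ[k] toDu k H (ec k H j))) := by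
    have h0 : ∀ i j, (TensorProduct.assoc k (Du k H) (Du k H) (Du k H))
        (dC k H (toDu k H (ec k H i)) ⊗ₜ[k] toDu k H (ec k H j)) =
        ∑ p, ∑ q, ec k H i (e k H q * e k H p) •
          (toDu k H (ec k H p) ⊗ₜ[k] (toDu k H (ec k H q) ⊗ₜ[k] toDu k H (ec k H j))) := by
      intro i j
      rw [dC_apply, TensorProduct.sum_tmul, map_sum]
      refine Finset.sum_congr rfl fun p _ => ?_
      rw [TensorProduct.sum_tmul, map_sum]
      refine Finset.sum_congr rfl fun q _ => ?_
      rw [← TensorProduct.smul_tmul', map_smul, TensorProduct.assoc_tmul]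
    rw [dC_apply]
    simp only [map_sum, map_smul, LinearMap.rTensor_tmul, h0, Finset.smul_sum, smul_smul]
    have h1 : ∀ p q j, f (e k H j * (e k H q * e k H p)) =
        ∑ i, f (e k H j * e k H i) * ec k H i (e k H q * e k H p) := by
      intro p q j
      rw [← sum_ec_mul f (e k H q * e k H p) (e k H j)]
      exact Finset.sum_congr rfl fun i _ => mul_comm _ _
    simp only [h1, Finset.sum_smul]
    calc _ = ∑ j, ∑ p, ∑ q, ∑ i, (f (e k H j * e k H i) * ec k H i (e k H q * e k H p)) •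
        (toDu k H (ec k H p) ⊗ₜ[k] (toDu k H (ec k H q) ⊗ₜ[k] toDu k H (ec k H j))) := by
          rw [Finset.sum_comm]
          refine Finset.sum_congr rfl fun j _ => ?_
          rw [Finset.sum_comm]
          refine Finset.sum_congr rfl fun p _ => ?_
          rw [Finset.sum_comm]
      _ = _ := by
          rw [Finset.sum_comm]
          refine Finset.sum_congr rfl fun p _ => ?_
          rw [Finset.sum_comm]
  have hR : (dC k H).lTensor (Du k H) (dC k H (toDu k H f)) =
      ∑ i, ∑ p, ∑ q, f (e k H q * (e k H p * e k H i)) •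
        (toDu k H (ec k H i) ⊗ₜ[k] (toDu k H (ec k H p) ⊗ₜ[k] toDu k H (ec k H q))) := by
    rw [dC_apply]
    simp only [map_sum, map_smul, LinearMap.lTensor_tmul, dC_apply, TensorProduct.tmul_sum,
      TensorProduct.tmul_smul, Finset.smul_sum, smul_smul]
    refine Finset.sum_congr rfl fun i _ => ?_
    have h1 : ∀ p q, f (e k H q * (e k H p * e k H i)) =
        ∑ j, f (e k H j * e k H i) * ec k H j (e k H q * e k H p) := by
      intro p q
      rw [← mul_assoc, ← sum_ec_mul' f (e k H q * e k H p) (e k H i)]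
      exact Finset.sum_congr rfl fun i _ => mul_comm _ _
    simp only [h1, Finset.sum_smul]
    rw [Finset.sum_comm]
    refine Finset.sum_congr rfl fun p _ => ?_
    rw [Finset.sum_comm]
  rw [hL, hR]

private theorem dC_rcounit :
    ((LinearMap.applyₗ (R := k) (1 : H)) ∘ₗ (toDu k H).symm.toLinearMap).rTensor (Du k H) ∘ₗ
      dC k H = TensorProduct.mk k _ _ 1 := by
  refine LinearMap.ext fun x => ?_
  obtain ⟨f, rfl⟩ := (toDu k H).surjective x
  rw [LinearMap.comp_apply, dC_apply, TensorProduct.mk_apply]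
  simp only [map_sum, map_smul, LinearMap.rTensor_tmul]
  have h0 : ∀ g : H →ₗ[k] k, ((LinearMap.applyₗ (R := k) (1 : H)) ∘ₗ
      (toDu k H).symm.toLinearMap) (toDu k H g) = g 1 := fun g => rfl
  simp only [h0]
  have h1 : ∀ (i j : Fin (Module.finrank k H)), f (e k H j * e k H i) •
      ((ec k H i 1 : k) ⊗ₜ[k] toDu k H (ec k H j)) =
      (1 : k) ⊗ₜ[k] ((ec k H i 1 * f (e k H j * e k H i)) • toDu k H (ec k H j)) := by
    intro i j
    rw [← TensorProduct.smul_tmul, TensorProduct.smul_tmul']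
    congr 1
    rw [smul_eq_mul, smul_eq_mul, mul_one, mul_comm]
  simp only [h1]
  rw [Finset.sum_comm]
  simp only [← TensorProduct.tmul_sum, ← Finset.sum_smul, sum_ec_mul, mul_one]
  congr 1
  have h2 := congrArg (toDu k H) (sum_e (k := k) f)
  simp only [map_sum, map_smul] at h2
  exact h2

private theorem dC_lcounit :
    ((LinearMap.applyₗ (R := k) (1 : H)) ∘ₗ (toDu k H).symm.toLinearMap).lTensor (Du k H) ∘ₗ
      dC k H = (TensorProduct.mk k _ _).flip 1 := by
  refine LinearMap.ext fun x => ?_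
  obtain ⟨f, rfl⟩ := (toDu k H).surjective x
  rw [LinearMap.comp_apply, dC_apply, LinearMap.flip_apply, TensorProduct.mk_apply]
  simp only [map_sum, map_smul, LinearMap.lTensor_tmul]
  have h0 : ∀ g : H →ₗ[k] k, ((LinearMap.applyₗ (R := k) (1 : H)) ∘ₗ
      (toDu k H).symm.toLinearMap) (toDu k H g) = g 1 := fun g => rfl
  simp only [h0]
  have h1 : ∀ (i j : Fin (Module.finrank k H)), f (e k H j * e k H i) •
      (toDu k H (ec k H i) ⊗ₜ[k] (ec k H j 1 : k)) =
      ((ec k H j 1 * f (e k H j * e k H i)) • toDu k H (ec k H i)) ⊗ₜ[k] (1 : k) := by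
    intro i j
    rw [TensorProduct.smul_tmul, ← TensorProduct.tmul_smul]
    congr 1
    rw [smul_eq_mul, smul_eq_mul, mul_one, mul_comm]
  simp only [h1]
  simp only [← TensorProduct.sum_tmul, ← Finset.sum_smul, sum_ec_mul', one_mul]
  congr 1
  have h2 := congrArg (toDu k H) (sum_e (k := k) f)
  simp only [map_sum, map_smul] at h2
  exact h2

variable (k H)

noncomputable instance instCoDu : Coalgebra k (Du k H) where
  comul := ∑ i, ∑ j, (((LinearMap.applyₗ (R := k) (e k H j * e k H i)) ∘ₗ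
    (toDu k H).symm.toLinearMap).smulRight
      (toDu k H (ec k H i) ⊗ₜ[k] toDu k H (ec k H j)))
  counit := (LinearMap.applyₗ (R := k) (1 : H)) ∘ₗ (toDu k H).symm.toLinearMap
  coassoc := by
    exact dC_coassoc
  rTensor_counit_comp_comul := by
    exact dC_rcounit
  lTensor_counit_comp_comul := by
    exact dC_lcounit

variable {k H}

theorem comul_Du (f : H →ₗ[k] k) : Coalgebra.comul (R := k) (toDu k H f) =
    ∑ i, ∑ j, f (e k H j * e k H i) • (toDu k H (ec k H i) ⊗ₜ[k] toDu k H (ec k H j)) := by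
  exact dC_apply f

theorem counit_Du (f : H →ₗ[k] k) :
    Coalgebra.counit (R := k) (A := Du k H) (toDu k H f) = f 1 := rfl

end

end Pool.Agent.KExp
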