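import Pool.Agent.Lib.KExp.Defs
import Pool.Agent.Lib.KExp.Sw
import Pool.Agent.Lib.KExp.CE
import Pool.Agent.Lib.KOd.Defs
import Pool.Agent.Lib.KOd.DuA
import Pool.Agent.Lib.KOd.DuB

/-!
# KOd.DuC (MP_0d5e35_al, paper /team-store/MP_0d5e35_al_paper77.md)

(1.4) The dual Hopf algebra, third part: bialgebra and antipode `f ↦ f ∘ S`. Fill in the proofs (`sorry`) without changing the data; every
element of `Du k H` is `toDu f`. comul_Du, toDu_mul (`f * g = cv g f`), counit_Du.
`counit_mul`: `(cv g f)(1) = g(1) f(1)` (`Δ 1 = 1 ⊗ 1`). `comul_one`: `∑ ε(e_j e_i) e^i ⊗ e^j = ε ⊗ ε` (ep_mul, sum_e).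
`comul_mul`: `Δ(f * g) = ∑ (cv g f)(e_j e_i) e^i ⊗ e^j`, `(cv g f)(y x) = ∑ g(y₁ x₁) f(y₂ x₂)` (sw2_mul), against
`Δ f Δ g = ∑ f(e_j e_i) g(e_q e_p) cv e^p e^i ⊗ cv e^q e^j`; evaluate at `x ⊗ y` (or expand `cv e^p e^i = ∑_l e^p((e_l)₁) e^i((e_l)₂) e^l`, sum_e, ce_cv).
Antipode: `∑ f(e_j e_i) (e^i ∘ S) * e^j = ∑ f(e_j e_i) cv e^j (e^i ∘ S)` evaluated at `x`: `f(x₁ S(x₂)) = ε(x) f(1)` and
`∑ f(e_j e_i) e^i * (e^j ∘ S)` at `x`: `cv (e^j ∘ S) e^i`: `f(S(x₁) x₂) = ε(x) f(1)` (sw2_mul_S, sw2_S_mul; no condition on `S²`).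
-/

set_option autoImplicit false

open scoped TensorProduct

namespace Pool.Agent.KExp

section aux

variable {k H : Type} [Field k] [Ring H] [HopfAlgebra k H]

private noncomputable def evx (x : H) : Du k H →ₗ[k] k :=
  (LinearMap.applyₗ (R := k) x) ∘ₗ (toDu k H).symm.toLinearMap

private theorem evx_toDu (x : H) (f : H →ₗ[k] k) : evx x (toDu k H f) = f x := rfl

private noncomputable def ev (x y : H) : Du k H ⊗[k] Du k H →ₗ[k] k :=
  LinearMap.mul' k k ∘ₗ TensorProduct.map (evx x) (evx y)

private theorem ev_tmul (x y : H) (a b : Du k H) : ev x y (a ⊗ₜ[k] b) = evx x a * evx y b := by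
  simp [ev]

variable [FiniteDimensional k H]

private theorem evx_mul (x : H) (a b : Du k H) :
    evx x (a * b) = sw2 k (fun x1 x2 => evx x1 b * evx x2 a) x :=
  cv_apply ((toDu k H).symm b) ((toDu k H).symm a) x

private theorem sum_evx (a : Du k H) : ∑ i, evx (e k H i) a • toDu k H (ec k H i) = a := by
  have h := congrArg (toDu k H) (sum_e ((toDu k H).symm a))
  rw [map_sum, LinearEquiv.apply_symm_apply] at h
  rw [← h]
  refine Finset.sum_congr rfl fun i _ => ?_
  rw [map_smul]
  congr 1
  rw [h]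
  rfl

private theorem ev_sum (t : Du k H ⊗[k] Du k H) :
    ∑ i, ∑ j, ev (e k H i) (e k H j) t • (toDu k H (ec k H i) ⊗ₜ[k] toDu k H (ec k H j)) = t := by
  induction t using TensorProduct.induction_on with
  | zero => simp
  | tmul a b =>
    conv_rhs => rw [← sum_evx a, ← sum_evx b]
    rw [TensorProduct.sum_tmul]
    refine Finset.sum_congr rfl fun i _ => ?_
    rw [TensorProduct.tmul_sum]
    refine Finset.sum_congr rfl fun j _ => ?_
    rw [ev_tmul, TensorProduct.smul_tmul_smul]
  | add s t hs ht =>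
    conv_rhs => rw [← hs, ← ht]
    rw [← Finset.sum_add_distrib]
    refine Finset.sum_congr rfl fun i _ => ?_
    rw [← Finset.sum_add_distrib]
    refine Finset.sum_congr rfl fun j _ => ?_
    rw [map_add, add_smul]

private theorem ev_ext {s t : Du k H ⊗[k] Du k H} (h : ∀ x y : H, ev x y s = ev x y t) :
    s = t := by
  rw [← ev_sum s, ← ev_sum t]
  simp only [h]

private theorem ev_comul (x y : H) (f : H →ₗ[k] k) :
    ev x y (Coalgebra.comul (R := k) (toDu k H f)) = f (y * x) := by
  rw [comul_Du]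
  simp only [map_sum, map_smul, ev_tmul, evx_toDu]
  conv_rhs => rw [← sum_ec (k := k) x, ← sum_ec (k := k) y]
  rw [Finset.sum_mul_sum, map_sum, Finset.sum_comm]
  refine Finset.sum_congr rfl fun j _ => ?_
  rw [map_sum]
  refine Finset.sum_congr rfl fun i _ => ?_
  rw [smul_mul_smul_comm, map_smul, smul_eq_mul, smul_eq_mul]
  ring

private theorem ev_mul (x y : H) (s t : Du k H ⊗[k] Du k H) :
    ev x y (s * t) = sw2 k (fun x1 x2 => sw2 k (fun y1 y2 => ev x1 y1 t * ev x2 y2 s) y) x := by
  induction s using TensorProduct.induction_on with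
  | zero => simp [sw2]
  | tmul a b =>
    induction t using TensorProduct.induction_on with
    | zero => simp [sw2]
    | tmul c d =>
      rw [Algebra.TensorProduct.tmul_mul_tmul, ev_tmul, evx_mul, evx_mul]
      simp only [sw2, ev_tmul]
      rw [Finset.sum_mul_sum]
      refine Finset.sum_congr rfl fun i _ => Finset.sum_congr rfl fun j _ => ?_
      ring
    | add t t' ht ht' =>
      rw [mul_add, map_add, ht, ht']
      simp only [sw2, ← Finset.sum_add_distrib]
      refine Finset.sum_congr rfl fun i _ => Finset.sum_congr rfl fun j _ => ?_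
      rw [map_add, add_mul]
  | add s s' hs hs' =>
    rw [add_mul, map_add, hs, hs']
    simp only [sw2, ← Finset.sum_add_distrib]
    refine Finset.sum_congr rfl fun i _ => Finset.sum_congr rfl fun j _ => ?_
    rw [map_add, mul_add]

private theorem ev_one (x y : H) : ev x y (1 : Du k H ⊗[k] Du k H) = ep k H x * ep k H y := by
  rw [Algebra.TensorProduct.one_def, ev_tmul, ← toDu_one, evx_toDu, evx_toDu]

private theorem bil2_mul (g f : H →ₗ[k] k) : Bil2 k (fun a b => g a * f b) := by
  refine ⟨fun b' => ⟨fun x y => ?_, fun c x => ?_⟩, fun a' => ⟨fun x y => ?_, fun c x => ?_⟩⟩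
  · simp only [map_add, add_mul]
  · simp only [map_smul, smul_mul_assoc]
  · simp only [map_add, mul_add]
  · simp only [map_smul, mul_smul_comm]

private theorem duC_counit_one : (instCoDu k H).counit (1 : Du k H) = 1 :=
  ep_one (k := k) (H := H)

private theorem duC_counit_mul (a b : Du k H) : (instCoDu k H).counit (a * b) =
    (instCoDu k H).counit a * (instCoDu k H).counit b := by
  have h : (instCoDu k H).counit (a * b) = evx (1 : H) (a * b) := rfl
  have ha : (instCoDu k H).counit a = evx (1 : H) a := rfl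
  have hb : (instCoDu k H).counit b = evx (1 : H) b := rfl
  rw [h, ha, hb, evx_mul]
  refine Eq.trans (sw2_one (bil2_mul ((toDu k H).symm b) ((toDu k H).symm a))) ?_
  exact mul_comm _ _

private theorem duC_comul_one : (instCoDu k H).comul (1 : Du k H) = 1 := by
  refine ev_ext fun x y => ?_
  rw [ev_one, ← toDu_one, ev_comul]
  rw [← mul_comm (ep k H y)]
  exact ep_mul y x

private theorem duC_comul_mul (a b : Du k H) : (instCoDu k H).comul (a * b) =
    (instCoDu k H).comul a * (instCoDu k H).comul b := by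
  refine ev_ext fun x y => ?_
  obtain ⟨f, rfl⟩ := (toDu k H).surjective a
  obtain ⟨g, rfl⟩ := (toDu k H).surjective b
  rw [ev_mul, toDu_mul, ev_comul, cv_apply]
  rw [sw2_mul (bil2_mul g f)]
  simp only [ev_comul]
  simp only [sw2]
  rw [Finset.sum_comm]

private theorem evx_ext {a b : Du k H} (h : ∀ x : H, evx x a = evx x b) : a = b :=
  (toDu k H).symm.injective (LinearMap.ext h)

private theorem evx_algebraMap (c : k) (x : H) :
    evx x (algebraMap k (Du k H) c) = ep k H x * c := by
  rw [Algebra.algebraMap_eq_smul_one, map_smul, ← toDu_one, evx_toDu, smul_eq_mul, mul_comm]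

/-- the antipode of the dual -/
private noncomputable def duS : Du k H →ₗ[k] Du k H :=
  (toDu k H).toLinearMap ∘ₗ LinearMap.lcomp k k (Sa k H) ∘ₗ (toDu k H).symm.toLinearMap

private theorem evx_duS (a : Du k H) (x : H) : evx x (duS a) = evx (Sa k H x) a := rfl

private theorem duC_r (t : Du k H ⊗[k] Du k H) (x : H) :
    evx x (LinearMap.mul' k (Du k H) (duS.rTensor (Du k H) t)) =
      sw2 k (fun a b => ev (Sa k H b) a t) x := by
  induction t using TensorProduct.induction_on with
  | zero => simp [sw2]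
  | tmul c d =>
    rw [LinearMap.rTensor_tmul, LinearMap.mul'_apply, evx_mul]
    simp only [sw2, ev_tmul, evx_duS]
    exact Finset.sum_congr rfl fun i _ => mul_comm _ _
  | add t t' ht ht' =>
    rw [map_add, map_add, map_add, ht, ht']
    simp only [sw2, ← Finset.sum_add_distrib, map_add]

private theorem duC_l (t : Du k H ⊗[k] Du k H) (x : H) :
    evx x (LinearMap.mul' k (Du k H) (duS.lTensor (Du k H) t)) =
      sw2 k (fun a b => ev b (Sa k H a) t) x := by
  induction t using TensorProduct.induction_on with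
  | zero => simp [sw2]
  | tmul c d =>
    rw [LinearMap.lTensor_tmul, LinearMap.mul'_apply, evx_mul]
    simp only [sw2, ev_tmul, evx_duS]
    exact Finset.sum_congr rfl fun i _ => mul_comm _ _
  | add t t' ht ht' =>
    rw [map_add, map_add, map_add, ht, ht']
    simp only [sw2, ← Finset.sum_add_distrib, map_add]

private theorem isLin (f : H →ₗ[k] k) : IsLinearMap k (fun x => f x) :=
  ⟨fun x y => map_add f x y, fun c x => map_smul f c x⟩

private theorem duC_rT : LinearMap.mul' k (Du k H) ∘ₗ duS.rTensor (Du k H) ∘ₗ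
    Coalgebra.comul (R := k) (A := Du k H) =
      Algebra.linearMap k (Du k H) ∘ₗ Coalgebra.counit (R := k) (A := Du k H) := by
  refine LinearMap.ext fun a => evx_ext fun x => ?_
  obtain ⟨f, rfl⟩ := (toDu k H).surjective a
  rw [LinearMap.comp_apply, LinearMap.comp_apply, LinearMap.comp_apply, duC_r,
    Algebra.linearMap_apply, evx_algebraMap, counit_Du]
  simp only [ev_comul]
  rw [sw2_mul_S (isLin f), smul_eq_mul]

private theorem duC_lT : LinearMap.mul' k (Du k H) ∘ₗ duS.lTensor (Du k H) ∘ₗ
    Coalgebra.comul (R := k) (A := Du k H) =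
      Algebra.linearMap k (Du k H) ∘ₗ Coalgebra.counit (R := k) (A := Du k H) := by
  refine LinearMap.ext fun a => evx_ext fun x => ?_
  obtain ⟨f, rfl⟩ := (toDu k H).surjective a
  rw [LinearMap.comp_apply, LinearMap.comp_apply, LinearMap.comp_apply, duC_l,
    Algebra.linearMap_apply, evx_algebraMap, counit_Du]
  simp only [ev_comul]
  rw [sw2_S_mul (isLin f), smul_eq_mul]

end aux

section

variable (k H : Type) [Field k] [Ring H] [HopfAlgebra k H] [FiniteDimensional k H]

noncomputable instance instBiDu : Bialgebra k (Du k H) :=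
  Bialgebra.mk' k (Du k H) (by exact duC_counit_one) (by exact duC_counit_mul _ _)
    (by exact duC_comul_one) (by exact duC_comul_mul _ _)

noncomputable instance instHoDu : HopfAlgebra k (Du k H) where
  antipode := (toDu k H).toLinearMap ∘ₗ LinearMap.lcomp k k (Sa k H) ∘ₗ
    (toDu k H).symm.toLinearMap
  mul_antipode_rTensor_comul := by
    exact duC_rT
  mul_antipode_lTensor_comul := by
    exact duC_lT

variable {k H}

theorem Sa_Du (f : H →ₗ[k] k) : Sa k (Du k H) (toDu k H f) = toDu k H (f ∘ₗ Sa k H) := rfl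

theorem Sa_Sa_Du (hS : ∀ x : H, Sa k H (Sa k H x) = x) (f : Du k H) :
    Sa k (Du k H) (Sa k (Du k H) f) = f := by
  obtain ⟨g, rfl⟩ := (toDu k H).surjective f
  rw [Sa_Du, Sa_Du]
  congr 1
  exact LinearMap.ext fun x => congrArg g (hS x)

end

end Pool.Agent.KExp
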