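import Pool.Agent.Lib.KExp.Defs
import Pool.Agent.Lib.KExp.Sw
import Pool.Agent.Lib.KExp.CE
import Pool.Agent.Lib.KExp.LamInt
import Pool.Agent.Lib.KExp.ExFin
import Pool.Agent.Lib.KOd.Defs
import Pool.Agent.Lib.KOd.DuA
import Pool.Agent.Lib.KOd.DuB
import Pool.Agent.Lib.KOd.DuC

/-!
# KOd.DuReg (MP_0d5e35_al, paper /team-store/MP_0d5e35_al_paper77.md)

(1.4) `κ : H* → End W` is an algebra map on `Du k H` (`κ f * κ g = κ (cv g f)`, toDu_mul, toDu_one): duRep.
Rop_Du: for every basis the canonical element is the same: `∑_j Dreg(ec_j) ⊗ ρ'(e_j)` over the basis `e k (Du k H)` of `Du` applied to `f ⊗ w` is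
`f₍₂₎ ⊗ ρ'(f₍₁₎) w`; with comul_Du: `Dreg φ f = ∑_{i,j} f(e_j e_i) φ(e^i) e^j` for `φ : Du k H → k` (H-basis), `∑_l φ-part`: `∑_l ec_l(e^i) e_l = e^i` (sum_ec for
`Du k H`), so `Rop Dreg ρ' (f ⊗ w) = ∑_i (∑_j f(e_j e_i) e^j) ⊗ κ(e^i) w = ∑_i f(· e_i) ⊗ κ(e^i) w` (sum_e).
det_Lop: `L : H → Du k H`, `L x = (y ↦ λ(y x))` is bijective (lam_nondeg of KExp.ExFin with lam_mul_comm gives injectivity, finrank_Du) and
`L (e_i x) = (L x)(· e_i)`; so `(L ⊗ 1) Lop κ = Rop Dreg ρ' (L ⊗ 1)`, `LinearMap.det_conj`.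
-/

set_option autoImplicit false

open scoped TensorProduct

namespace Pool.Agent.KExp

section

variable {k H : Type} [Field k] [Ring H] [HopfAlgebra k H] [FiniteDimensional k H]

variable {W : Type} [AddCommGroup W] [Module k W]

/-- a comodule of `H` as a module of the dual -/
noncomputable def duRep (κ : (H →ₗ[k] k) →ₗ[k] Module.End k W) (hκ : IsCom κ) :
    Du k H →ₐ[k] Module.End k W :=
  AlgHom.ofLinearMap (κ ∘ₗ (toDu k H).symm.toLinearMap) (by exact hκ.one)
    (by
      intro x y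
      exact (hκ.mul ((toDu k H).symm x) ((toDu k H).symm y)).symm)

theorem duRep_toDu (κ : (H →ₗ[k] k) →ₗ[k] Module.End k W) (hκ : IsCom κ) (f : H →ₗ[k] k) :
    duRep κ hκ (toDu k H f) = κ f := rfl

theorem Rop_Du (κ : (H →ₗ[k] k) →ₗ[k] Module.End k W) (hκ : IsCom κ) (f : H →ₗ[k] k) (w : W) :
    Rop (Dreg k (Du k H)) (duRep κ hκ) (toDu k H f ⊗ₜ[k] w) =
      ∑ i, toDu k H (f ∘ₗ LinearMap.mulRight k (e k H i)) ⊗ₜ[k] κ (ec k H i) w := by
  have hA : ∀ i, ∑ l, f (e k H l * e k H i) • toDu k H (ec k H l) =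
      toDu k H (f ∘ₗ LinearMap.mulRight k (e k H i)) := by
    intro i
    have h := sum_e (k := k) (f ∘ₗ LinearMap.mulRight k (e k H i))
    rw [← h, map_sum]
    refine Finset.sum_congr rfl fun l _ => ?_
    rw [map_smul]
    rfl
  have hD : ∀ φ : Du k H →ₗ[k] k, Dreg k (Du k H) φ (toDu k H f) =
      ∑ i, φ (toDu k H (ec k H i)) • toDu k H (f ∘ₗ LinearMap.mulRight k (e k H i)) := by
    intro φ
    have h1 : Dreg k (Du k H) φ (toDu k H f) = TensorProduct.lid k (Du k H)
        (φ.rTensor (Du k H) (Coalgebra.comul (R := k) (toDu k H f))) := rfl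
    rw [h1, comul_Du]
    simp only [map_sum, map_smul, LinearMap.rTensor_tmul, TensorProduct.lid_tmul]
    refine Finset.sum_congr rfl fun i _ => ?_
    rw [← hA i, Finset.smul_sum]
    refine Finset.sum_congr rfl fun l _ => ?_
    rw [smul_comm]
  have h2 : Rop (Dreg k (Du k H)) (duRep κ hκ) (toDu k H f ⊗ₜ[k] w) =
      ∑ j, Dreg k (Du k H) (ec k (Du k H) j) (toDu k H f) ⊗ₜ[k]
        duRep κ hκ (e k (Du k H) j) w := by
    unfold Rop
    rw [LinearMap.sum_apply]
    exact Finset.sum_congr rfl fun j _ => TensorProduct.map_tmul _ _ _ _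
  rw [h2]
  simp only [hD, TensorProduct.sum_tmul]
  rw [Finset.sum_comm]
  refine Finset.sum_congr rfl fun i _ => ?_
  have h3 : κ (ec k H i) w = ∑ j, ec k (Du k H) j (toDu k H (ec k H i)) •
      duRep κ hκ (e k (Du k H) j) w := by
    have h4 := sum_ec (k := k) (H := Du k H) (toDu k H (ec k H i))
    have h5 : κ (ec k H i) = duRep κ hκ (toDu k H (ec k H i)) := rfl
    rw [h5]
    conv_lhs => rw [← h4]
    rw [map_sum, LinearMap.sum_apply]
    refine Finset.sum_congr rfl fun j _ => ?_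
    rw [map_smul, LinearMap.smul_apply]
  rw [h3, TensorProduct.tmul_sum]
  refine Finset.sum_congr rfl fun j _ => ?_
  rw [TensorProduct.tmul_smul, TensorProduct.smul_tmul']

theorem det_Lop [CharZero k] [FiniteDimensional k W] (hS : ∀ x : H, Sa k H (Sa k H x) = x)
    {κ : (H →ₗ[k] k) →ₗ[k] Module.End k W} (hκ : IsCom κ) :
    LinearMap.det (Lop κ) = LinearMap.det (Rop (Dreg k (Du k H)) (duRep κ hκ)) := by
  let L : H →ₗ[k] Du k H :=
    { toFun := fun x => toDu k H (lam k H ∘ₗ LinearMap.mulRight k x)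
      map_add' := by
        intro x y
        rw [← map_add]
        congr 1
        ext z
        simp [mul_add]
      map_smul' := by
        intro c x
        rw [RingHom.id_apply, ← map_smul]
        congr 1
        ext z
        simp }
  have hLapp : ∀ x, L x = toDu k H (lam k H ∘ₗ LinearMap.mulRight k x) := fun x => rfl
  have hinj : Function.Injective L := by
    rw [← LinearMap.ker_eq_bot, LinearMap.ker_eq_bot']
    intro x hx
    apply lam_nondeg (k := k) hS
    intro y
    rw [hLapp, LinearEquiv.map_eq_zero_iff] at hx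
    have h1 := LinearMap.congr_fun hx y
    rw [lam_mul_comm]
    exact h1
  let Le : H ≃ₗ[k] Du k H := LinearEquiv.ofInjectiveOfFinrankEq L hinj (finrank_Du k H).symm
  let E : H ⊗[k] W ≃ₗ[k] Du k H ⊗[k] W := TensorProduct.congr Le (LinearEquiv.refl k W)
  have hE : ∀ x w, E (x ⊗ₜ[k] w) = L x ⊗ₜ[k] w := fun x w => rfl
  have key : ∀ t, E (Lop κ t) = Rop (Dreg k (Du k H)) (duRep κ hκ) (E t) := by
    intro t
    induction t using TensorProduct.induction_on with
    | zero => simp only [map_zero]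
    | tmul x w =>
      rw [hE, hLapp, Rop_Du]
      unfold Lop
      rw [LinearMap.sum_apply, map_sum]
      refine Finset.sum_congr rfl fun i _ => ?_
      rw [TensorProduct.map_tmul, hE, hLapp]
      congr 2
      ext y
      show lam k H (y * (e k H i * x)) = lam k H (y * e k H i * x)
      rw [mul_assoc]
    | add a b ha hb => simp only [map_add, ha, hb]
  rw [← LinearMap.det_conj (Lop κ) E]
  congr 1
  refine LinearMap.ext fun t => ?_
  rw [LinearMap.comp_apply, LinearMap.comp_apply]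
  show E (Lop κ (E.symm t)) = _
  rw [key, LinearEquiv.apply_symm_apply]

end

end Pool.Agent.KExp
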