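import Pool.Agent.Lib.KExp.Defs
import Pool.Agent.Lib.KExp.Sw
import Pool.Agent.Lib.KExp.CE
import Pool.Agent.Lib.KExp.LamInt
import Pool.Agent.Lib.KExp.ExFin
import Pool.Agent.Lib.KOd.Defs
import Pool.Agent.Lib.KOd.Alpha
import Pool.Agent.Lib.KOd.DuA
import Pool.Agent.Lib.KOd.DuB
import Pool.Agent.Lib.KOd.DuC
import Pool.Agent.Lib.KOd.DuReg

/-!
# KOd.AlphaD (MP_0d5e35_al, paper /team-store/MP_0d5e35_al_paper77.md)

(1.4). alpha for the Hopf algebra `Du k H` (the dual), `ρ' = duRep κ`: Sa_Sa_Du, finrank_Du; det_Lop of DuReg.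
-/

set_option autoImplicit false

open scoped TensorProduct

namespace Pool.Agent.KExp

variable {k : Type} [Field k] {H : Type} [Ring H] [HopfAlgebra k H] [FiniteDimensional k H]

variable {W : Type} [AddCommGroup W] [Module k W] [FiniteDimensional k W]

theorem alpha_dual [CharZero k] [IsAlgClosed k] (hS : ∀ x : H, Sa k H (Sa k H x) = x)
    {κ : (H →ₗ[k] k) →ₗ[k] Module.End k W} (hκ : IsCom κ) :
    LinearMap.det (Lop κ) ^ Module.finrank k H = 1 ∧
      (Odd (Module.finrank k H) → LinearMap.det (Lop κ) = 1) := by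
  have h := alpha (k := k) (H := Du k H) (Sa_Sa_Du hS) (duRep κ hκ)
  rw [finrank_Du k H] at h
  rw [det_Lop hS hκ]
  exact h

end Pool.Agent.KExp
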