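import Pool.Agent.Lib.KExp.Defs
import Pool.Agent.Lib.KExp.Theta
import Pool.Agent.Lib.KOd.Defs

/-!
# MP_0d5e35_al: exp(H)^3 divides dim(H)^4 in odd dimension, definitions of section 4
(paper /team-store/MP_0d5e35_al_paper77.md)
-/

set_option autoImplicit false

open scoped TensorProduct

namespace Pool.Agent.KExp

variable {k : Type} [Field k] {H : Type} [Ring H] [HopfAlgebra k H] [FiniteDimensional k H]

variable {X : Type} [AddCommGroup X] [Module k X]

/-- the algebra of the Yetter-Drinfeld endomorphisms -/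
def cen (ρ : H →ₐ[k] Module.End k X) (σ : (H →ₗ[k] k) →ₗ[k] Module.End k X) :
    Subalgebra k (Module.End k X) where
  carrier := {T | (∀ h, T * ρ h = ρ h * T) ∧ ∀ f, T * σ f = σ f * T}
  mul_mem' := by
    rintro A B ⟨hA1, hA2⟩ ⟨hB1, hB2⟩
    exact ⟨fun h => by rw [mul_assoc, hB1, ← mul_assoc, hA1, mul_assoc],
      fun f => by rw [mul_assoc, hB2, ← mul_assoc, hA2, mul_assoc]⟩
  add_mem' := by
    rintro A B ⟨hA1, hA2⟩ ⟨hB1, hB2⟩
    exact ⟨fun h => by rw [add_mul, mul_add, hA1, hB1],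
      fun f => by rw [add_mul, mul_add, hA2, hB2]⟩
  algebraMap_mem' := by
    intro r
    exact ⟨fun h => (Algebra.commutes r (ρ h)), fun f => (Algebra.commutes r (σ f))⟩

theorem mem_cen {ρ : H →ₐ[k] Module.End k X} {σ : (H →ₗ[k] k) →ₗ[k] Module.End k X}
    {T : Module.End k X} :
    T ∈ cen ρ σ ↔ (∀ h, T * ρ h = ρ h * T) ∧ ∀ f, T * σ f = σ f * T := Iff.rfl

/-- the twist as an element of `cen` -/
noncomputable def thC (hS : ∀ x : H, Sa k H (Sa k H x) = x) {ρ : H →ₐ[k] Module.End k X}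
    {σ : (H →ₗ[k] k) →ₗ[k] Module.End k X} (hX : IsYD ρ σ) : cen ρ σ :=
  ⟨theta ρ σ, theta_rho hS hX, theta_sigma hS hX⟩

theorem coe_thC (hS : ∀ x : H, Sa k H (Sa k H x) = x) {ρ : H →ₐ[k] Module.End k X}
    {σ : (H →ₗ[k] k) →ₗ[k] Module.End k X} (hX : IsYD ρ σ) :
    (thC hS hX : Module.End k X) = theta ρ σ := rfl

variable (k H)

/-- the functional `x ⊗ w ↦ λ(x) ε(w)` on the regular Yetter-Drinfeld module -/
noncomputable def lep : (H ⊗[k] H) →ₗ[k] k :=
  (TensorProduct.lid k k).toLinearMap ∘ₗ TensorProduct.map (lam k H) (ep k H)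

theorem lep_tmul (x w : H) : lep k H (x ⊗ₜ[k] w) = lam k H x * ep k H w := by
  simp [lep]

/-- the generator `1 ⊗ Λ` of the regular Yetter-Drinfeld module -/
noncomputable def gP : H ⊗[k] H := (1 : H) ⊗ₜ[k] Lam k H

variable {k H}

/-- simple Yetter-Drinfeld data: every endomorphism is a scalar -/
def Schur (ρ : H →ₐ[k] Module.End k X) (σ : (H →ₗ[k] k) →ₗ[k] Module.End k X) : Prop :=
  ∀ T : Module.End k X, (∀ h, T * ρ h = ρ h * T) → (∀ f, T * σ f = σ f * T) →
    ∃ c : k, T = c • 1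

end Pool.Agent.KExp
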