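import Pool.Agent.Lib.KExp.Defs
import Pool.Agent.Lib.KExp.Sw
import Pool.Agent.Lib.KExp.LinTr
import Pool.Agent.Lib.KOd.GDefs

/-!
# KOd.GCut (MP_0d5e35_al, section 4, helper38)

A Yetter-Drinfeld idempotent `a` of `X` cuts out Yetter-Drinfeld data on `X' = LinearMap.range a`: `j` the inclusion, `q = a` with values in
the range (`LinearMap.rangeRestrict`), `ρ' h = q ∘ ρ h ∘ j`, `σ' f = q ∘ σ f ∘ j`; `j ∘ q = a`, `q ∘ j = 1`. `j ∘ ρ' h = a ρ h j = ρ h a j = ρ h j`;
so `ρ'` is multiplicative (AlgHom.ofLinearMap) etc.; the YD relation: apply `j` (injective) and `map` through the sums sw3 (finite sums).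
`finrank X' = Tr a`: LinearMap.trace_comp_comm' (`Tr(q j) = Tr(j q)`). theta: `j ∘ theta' = theta ∘ j` (sum).
-/

set_option autoImplicit false

open scoped TensorProduct

namespace Pool.Agent.KExp

variable {k : Type} [Field k] {H : Type} [Ring H] [HopfAlgebra k H] [FiniteDimensional k H]

variable {X : Type} [AddCommGroup X] [Module k X] [FiniteDimensional k X]
  {ρ : H →ₐ[k] Module.End k X} {σ : (H →ₗ[k] k) →ₗ[k] Module.End k X}

omit [FiniteDimensional k X] in
private theorem gcut_key {a : Module.End k X} (ha : a * a = a) :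
    ∃ Φ : Module.End k X →ₗ[k] Module.End k (LinearMap.range a),
      (LinearMap.rangeRestrict a ∘ₗ (LinearMap.range a).subtype = LinearMap.id) ∧
      ((LinearMap.range a).subtype ∘ₗ LinearMap.rangeRestrict a = a) ∧
      Φ 1 = 1 ∧
      (∀ S T : Module.End k X, T * a = a * T → Φ S * Φ T = Φ (S * T)) ∧
      (∀ T : Module.End k X, T * a = a * T →
        (LinearMap.range a).subtype ∘ₗ Φ T = T ∘ₗ (LinearMap.range a).subtype) ∧
      (∀ T : Module.End k X, T * a = a * T →
        Φ T ∘ₗ LinearMap.rangeRestrict a = LinearMap.rangeRestrict a ∘ₗ T) := by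
  have haa : ∀ x, a (a x) = a x := fun x => by
    have := congrArg (fun T : Module.End k X => T x) ha
    exact this
  have h1 : LinearMap.rangeRestrict a ∘ₗ (LinearMap.range a).subtype = LinearMap.id := by
    ext x
    obtain ⟨x, y, rfl⟩ := x
    exact haa y
  have h2 : (LinearMap.range a).subtype ∘ₗ LinearMap.rangeRestrict a = a := by
    ext x
    rfl
  have h3 : a ∘ₗ (LinearMap.range a).subtype = (LinearMap.range a).subtype := by
    ext x
    obtain ⟨x, y, rfl⟩ := x
    exact haa y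
  have h4 : LinearMap.rangeRestrict a ∘ₗ a = LinearMap.rangeRestrict a := by
    ext x
    exact haa x
  refine ⟨{ toFun := fun T => LinearMap.rangeRestrict a ∘ₗ T ∘ₗ (LinearMap.range a).subtype
            map_add' := fun S T => by
              rw [LinearMap.add_comp, LinearMap.comp_add]
            map_smul' := fun c T => by
              rw [LinearMap.smul_comp, LinearMap.comp_smul, RingHom.id_apply] },
    h1, h2, ?_, ?_, ?_, ?_⟩
  · exact h1
  · intro S T hT
    change (LinearMap.rangeRestrict a ∘ₗ S ∘ₗ (LinearMap.range a).subtype) ∘ₗ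
      (LinearMap.rangeRestrict a ∘ₗ T ∘ₗ (LinearMap.range a).subtype) =
      LinearMap.rangeRestrict a ∘ₗ (S ∘ₗ T) ∘ₗ (LinearMap.range a).subtype
    have hT' : T ∘ₗ a = a ∘ₗ T := hT
    calc (LinearMap.rangeRestrict a ∘ₗ S ∘ₗ (LinearMap.range a).subtype) ∘ₗ
      (LinearMap.rangeRestrict a ∘ₗ T ∘ₗ (LinearMap.range a).subtype)
        = LinearMap.rangeRestrict a ∘ₗ S ∘ₗ ((LinearMap.range a).subtype ∘ₗ
            LinearMap.rangeRestrict a) ∘ₗ T ∘ₗ (LinearMap.range a).subtype := by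
          simp only [LinearMap.comp_assoc]
      _ = LinearMap.rangeRestrict a ∘ₗ S ∘ₗ (a ∘ₗ T) ∘ₗ (LinearMap.range a).subtype := by
          rw [h2]
          simp only [LinearMap.comp_assoc]
      _ = LinearMap.rangeRestrict a ∘ₗ S ∘ₗ T ∘ₗ (a ∘ₗ (LinearMap.range a).subtype) := by
          rw [← hT']
          simp only [LinearMap.comp_assoc]
      _ = _ := by
          rw [h3]
          simp only [LinearMap.comp_assoc]
  · intro T hT
    change (LinearMap.range a).subtype ∘ₗ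
      (LinearMap.rangeRestrict a ∘ₗ T ∘ₗ (LinearMap.range a).subtype) =
      T ∘ₗ (LinearMap.range a).subtype
    have hT' : T ∘ₗ a = a ∘ₗ T := hT
    rw [← LinearMap.comp_assoc, h2, ← LinearMap.comp_assoc, ← hT', LinearMap.comp_assoc, h3]
  · intro T hT
    change (LinearMap.rangeRestrict a ∘ₗ T ∘ₗ (LinearMap.range a).subtype) ∘ₗ
      LinearMap.rangeRestrict a = LinearMap.rangeRestrict a ∘ₗ T
    have hT' : T ∘ₗ a = a ∘ₗ T := hT
    rw [LinearMap.comp_assoc, LinearMap.comp_assoc, h2, hT', ← LinearMap.comp_assoc, h4]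

theorem exists_cut (hX : IsYD ρ σ) {a : Module.End k X} (ha : a * a = a) (hac : a ∈ cen ρ σ) :
    ∃ (X' : Type) (_ : AddCommGroup X') (_ : Module k X') (_ : FiniteDimensional k X')
      (ρ' : H →ₐ[k] Module.End k X') (σ' : (H →ₗ[k] k) →ₗ[k] Module.End k X')
      (j : X' →ₗ[k] X) (q : X →ₗ[k] X'), IsYD ρ' σ' ∧ q ∘ₗ j = LinearMap.id ∧ j ∘ₗ q = a ∧
      (∀ h, j ∘ₗ ρ' h = ρ h ∘ₗ j) ∧ (∀ f, j ∘ₗ σ' f = σ f ∘ₗ j) ∧
      (∀ h, ρ' h ∘ₗ q = q ∘ₗ ρ h) ∧ (∀ f, σ' f ∘ₗ q = q ∘ₗ σ f) ∧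
      j ∘ₗ theta ρ' σ' = theta ρ σ ∘ₗ j ∧
      (Module.finrank k X' : k) = LinearMap.trace k X a := by
  obtain ⟨Φ, h1, h2, hone, hmul, hj, hq⟩ := gcut_key ha
  have cr : ∀ h, ρ h * a = a * ρ h := fun h => ((mem_cen.1 hac).1 h).symm
  have cs : ∀ f, σ f * a = a * σ f := fun f => ((mem_cen.1 hac).2 f).symm
  let ρ' : H →ₐ[k] Module.End k (LinearMap.range a) :=
    AlgHom.ofLinearMap (Φ ∘ₗ ρ.toLinearMap) (by
      change Φ (ρ 1) = 1
      rw [map_one, hone]) (by
      intro x y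
      change Φ (ρ (x * y)) = Φ (ρ x) * Φ (ρ y)
      rw [map_mul, hmul _ _ (cr y)])
  have hρ' : ∀ h, ρ' h = Φ (ρ h) := fun h => rfl
  refine ⟨LinearMap.range a, inferInstance, inferInstance, inferInstance, ρ', Φ ∘ₗ σ,
    (LinearMap.range a).subtype, LinearMap.rangeRestrict a, ⟨?_, ?_, ?_⟩, h1, h2,
    fun h => hj _ (cr h), fun f => hj _ (cs f), fun h => hq _ (cr h), fun f => hq _ (cs f), ?_, ?_⟩
  · rw [LinearMap.comp_apply, hX.one, hone]
  · intro f g
    rw [LinearMap.comp_apply, LinearMap.comp_apply, LinearMap.comp_apply, hmul _ _ (cs g),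
      hX.mul]
  · intro f h
    rw [LinearMap.comp_apply, hρ', hmul _ _ (cr h), hX.yd]
    simp only [sw3, map_sum]
    refine Finset.sum_congr rfl fun j _ => Finset.sum_congr rfl fun l _ => ?_
    rw [LinearMap.comp_apply, hρ', hmul _ _ (cs _)]
  · unfold theta
    ext x
    have h5 : ∀ i, (LinearMap.range a).subtype ∘ₗ (ρ' (e k H i) * (Φ ∘ₗ σ) (ec k H i)) =
        (ρ (e k H i) * σ (ec k H i)) ∘ₗ (LinearMap.range a).subtype := by
      intro i
      rw [LinearMap.comp_apply, hρ', hmul _ _ (cs _)]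
      refine hj _ ?_
      rw [mul_assoc, cs, ← mul_assoc, cr, mul_assoc]
    have h6 : (LinearMap.range a).subtype ∘ₗ ∑ i, (ρ' (e k H i) * (Φ ∘ₗ σ) (ec k H i)) =
        (∑ i, (ρ (e k H i) * σ (ec k H i))) ∘ₗ (LinearMap.range a).subtype := by
      ext y
      have h7 : ∀ i, ((LinearMap.range a).subtype ((ρ' (e k H i) * (Φ ∘ₗ σ) (ec k H i)) y)) =
          (ρ (e k H i) * σ (ec k H i)) ((LinearMap.range a).subtype y) := fun i =>
        congrArg (fun T => T y) (h5 i)
      rw [LinearMap.comp_apply, LinearMap.comp_apply, LinearMap.sum_apply, map_sum,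
        LinearMap.sum_apply]
      exact Finset.sum_congr rfl fun i _ => h7 i
    exact congrArg (fun T => T x) h6
  · refine (LinearMap.IsProj.trace (p := LinearMap.range a) (f := a) ⟨fun x => ⟨x, rfl⟩, ?_⟩).symm
    rintro _ ⟨y, rfl⟩
    have := congrArg (fun T : Module.End k X => T y) ha
    exact this

end Pool.Agent.KExp
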