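import Pool.Agent.Lib.KExp.Defs
import Pool.Agent.Lib.KExp.PYD
import Pool.Agent.Lib.KOd.GDefs
import Pool.Agent.Lib.KOd.GCut

/-!
# KOd.GSim (MP_0d5e35_al, section 4, helper38)

(4.4). `a = Φ⁻¹(E^i_00)`, `E^i_00 = Pi.single i (Matrix.single 0 0 1)`, idempotent in `cen`. exists_cut: `Y`, `ρ`, `σ`, `j`, `q`.
`finrank Y = Tr a = d i` (in `k`, hence in ℕ: CharZero). `θ`: `j θ_Y = θ_P j`, and `θ_P a = v_i a` (apply `Φ`: `(v_i • 1) * single`), so
`θ_Y = q θ_P j = q θ_P a j = v_i q a j = v_i`. Schur: `T` a YD-endomorphism of `Y`: `U = j T q ∈ cen rP sP`, `a U a = U`, so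
`Φ U = E^i_00 (Φ U) E^i_00` is a multiple `c` of `E^i_00` and `U = c a`, `T = q U j = c`.
-/

set_option autoImplicit false

open scoped TensorProduct

namespace Pool.Agent.KExp

variable {k : Type} [Field k] {H : Type} [Ring H] [HopfAlgebra k H] [FiniteDimensional k H]

theorem exists_sim [CharZero k] (hS : ∀ x : H, Sa k H (Sa k H x) = x) {n : ℕ} {d : Fin n → ℕ}
    [∀ i, NeZero (d i)]
    (Φ : cen (rP (k := k) (H := H)) sP ≃ₐ[k] ((i : Fin n) → Matrix (Fin (d i)) (Fin (d i)) k))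
    (htr : ∀ T : cen (rP (k := k) (H := H)) sP,
      LinearMap.trace k (H ⊗[k] H) (T : Module.End k (H ⊗[k] H)) = ∑ i, (d i : k) * (Φ T i).trace)
    {v : Fin n → k} (hv : ∀ i, Φ (thC hS (isYD_P hS)) i = v i • 1) (i : Fin n) :
    ∃ (Y : Type) (_ : AddCommGroup Y) (_ : Module k Y) (_ : FiniteDimensional k Y)
      (ρ : H →ₐ[k] Module.End k Y) (σ : (H →ₗ[k] k) →ₗ[k] Module.End k Y),
      IsYD ρ σ ∧ Module.finrank k Y = d i ∧ theta ρ σ = v i • 1 ∧ Schur ρ σ := by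
  classical
  set M : Matrix (Fin (d i)) (Fin (d i)) k := Matrix.single 0 0 1 with hM
  set E : (i : Fin n) → Matrix (Fin (d i)) (Fin (d i)) k := Pi.single i M with hE
  have hEi : E i = M := by rw [hE, Pi.single_eq_same]
  have hEn : ∀ j, j ≠ i → E j = 0 := by
    intro j hj
    rw [hE, Pi.single_eq_of_ne hj]
  have hMM : M * M = M := by rw [hM, Matrix.single_mul_single_same, one_mul]
  have hEE : E * E = E := by rw [hE, ← Pi.single_mul, hMM]
  set a : cen (rP (k := k) (H := H)) sP := Φ.symm E with ha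
  have hΦa : Φ a = E := by rw [ha, AlgEquiv.apply_symm_apply]
  have haa : a * a = a := by
    apply Φ.injective
    rw [map_mul, hΦa, hEE]
  have hA2 : (a : Module.End k (H ⊗[k] H)) * (a : Module.End k (H ⊗[k] H)) = a := by
    have := congrArg (fun t : cen (rP (k := k) (H := H)) sP => (t : Module.End k (H ⊗[k] H))) haa
    exact this
  obtain ⟨Y, i1, i2, i3, ρ, σ, j, q, hYD, hqj, hjq, hjρ, hjσ, hρq, hσq, hθ, hfin⟩ :=
    exists_cut (isYD_P hS) hA2 a.2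
  have hAj : (a : Module.End k (H ⊗[k] H)) ∘ₗ j = j := by
    rw [← hjq, LinearMap.comp_assoc, hqj, LinearMap.comp_id]
  refine ⟨Y, i1, i2, i3, ρ, σ, hYD, ?_, ?_, ?_⟩
  · -- the dimension
    have h1 : (Module.finrank k Y : k) = (d i : k) := by
      rw [hfin, htr, Finset.sum_eq_single i]
      · rw [hΦa, hEi, hM, Matrix.trace_single_eq_same, mul_one]
      · intro l _ hl
        rw [hΦa, hEn l hl, Matrix.trace_zero, mul_zero]
      · intro h
        exact absurd (Finset.mem_univ i) h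
    exact_mod_cast h1
  · -- the twist
    have h1 : thC hS (isYD_P hS) * a = v i • a := by
      apply Φ.injective
      rw [map_mul, map_smul, hΦa]
      funext l
      rw [Pi.mul_apply, Pi.smul_apply, hv]
      by_cases hl : l = i
      · subst hl
        rw [smul_mul_assoc, one_mul]
      · rw [hEn l hl, mul_zero, smul_zero]
    have h2 : theta (rP (k := k) (H := H)) sP ∘ₗ (a : Module.End k (H ⊗[k] H)) =
        v i • (a : Module.End k (H ⊗[k] H)) :=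
      congrArg (fun t : cen (rP (k := k) (H := H)) sP => (t : Module.End k (H ⊗[k] H))) h1
    calc theta ρ σ = (q ∘ₗ j) ∘ₗ theta ρ σ := by rw [hqj, LinearMap.id_comp]
      _ = q ∘ₗ (theta rP sP ∘ₗ j) := by rw [LinearMap.comp_assoc, hθ]
      _ = q ∘ₗ ((theta rP sP ∘ₗ (a : Module.End k (H ⊗[k] H))) ∘ₗ j) := by
          rw [LinearMap.comp_assoc, hAj]
      _ = q ∘ₗ (v i • j) := by rw [h2, LinearMap.smul_comp, hAj]
      _ = v i • 1 := by
          rw [LinearMap.comp_smul, hqj]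
          rfl
  · -- Schur
    intro T hT1 hT2
    have hU : (j ∘ₗ T ∘ₗ q : Module.End k (H ⊗[k] H)) ∈ cen (rP (k := k) (H := H)) sP := by
      rw [mem_cen]
      constructor
      · intro h
        change (j ∘ₗ T ∘ₗ q) ∘ₗ rP h = rP h ∘ₗ (j ∘ₗ T ∘ₗ q)
        have e1 : T ∘ₗ ρ h = ρ h ∘ₗ T := hT1 h
        calc (j ∘ₗ T ∘ₗ q) ∘ₗ rP h = j ∘ₗ T ∘ₗ (q ∘ₗ rP h) := by
              rw [LinearMap.comp_assoc, LinearMap.comp_assoc]
          _ = j ∘ₗ (T ∘ₗ ρ h) ∘ₗ q := by rw [← hρq, LinearMap.comp_assoc]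
          _ = (j ∘ₗ ρ h) ∘ₗ T ∘ₗ q := by rw [e1, LinearMap.comp_assoc, LinearMap.comp_assoc]
          _ = rP h ∘ₗ (j ∘ₗ T ∘ₗ q) := by rw [hjρ, LinearMap.comp_assoc]
      · intro f
        change (j ∘ₗ T ∘ₗ q) ∘ₗ sP f = sP f ∘ₗ (j ∘ₗ T ∘ₗ q)
        have e1 : T ∘ₗ σ f = σ f ∘ₗ T := hT2 f
        calc (j ∘ₗ T ∘ₗ q) ∘ₗ sP f = j ∘ₗ T ∘ₗ (q ∘ₗ sP f) := by
              rw [LinearMap.comp_assoc, LinearMap.comp_assoc]
          _ = j ∘ₗ (T ∘ₗ σ f) ∘ₗ q := by rw [← hσq, LinearMap.comp_assoc]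
          _ = (j ∘ₗ σ f) ∘ₗ T ∘ₗ q := by rw [e1, LinearMap.comp_assoc, LinearMap.comp_assoc]
          _ = sP f ∘ₗ (j ∘ₗ T ∘ₗ q) := by rw [hjσ, LinearMap.comp_assoc]
    set U : cen (rP (k := k) (H := H)) sP := ⟨j ∘ₗ T ∘ₗ q, hU⟩ with hUdef
    have hUU : a * U * a = U := by
      apply Subtype.ext
      change ((a : Module.End k (H ⊗[k] H)) ∘ₗ (j ∘ₗ T ∘ₗ q)) ∘ₗ
        (a : Module.End k (H ⊗[k] H)) = j ∘ₗ T ∘ₗ q
      rw [← LinearMap.comp_assoc, hAj, ← hjq]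
      calc (j ∘ₗ T ∘ₗ q) ∘ₗ j ∘ₗ q = j ∘ₗ T ∘ₗ (q ∘ₗ j) ∘ₗ q := by
            simp only [LinearMap.comp_assoc]
        _ = j ∘ₗ T ∘ₗ q := by rw [hqj, LinearMap.id_comp]
    set c : k := Φ U i 0 0 with hc
    have hUc : U = c • a := by
      apply Φ.injective
      rw [← hUU, map_mul, map_mul, map_smul, hΦa]
      funext l
      rw [Pi.mul_apply, Pi.mul_apply, Pi.smul_apply]
      by_cases hl : l = i
      · subst hl
        rw [hEi, hM, Matrix.single_mul_mul_single, one_mul, mul_one, Matrix.smul_single,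
          smul_eq_mul, mul_one]
      · rw [hEn l hl, mul_zero, smul_zero]
    refine ⟨c, ?_⟩
    have hUc' : j ∘ₗ T ∘ₗ q = c • (a : Module.End k (H ⊗[k] H)) :=
      congrArg (fun t : cen (rP (k := k) (H := H)) sP => (t : Module.End k (H ⊗[k] H))) hUc
    calc T = (q ∘ₗ j) ∘ₗ T ∘ₗ (q ∘ₗ j) := by rw [hqj, LinearMap.id_comp, LinearMap.comp_id]
      _ = q ∘ₗ (j ∘ₗ T ∘ₗ q) ∘ₗ j := by simp only [LinearMap.comp_assoc]
      _ = c • 1 := by
          rw [hUc', LinearMap.smul_comp, hAj, LinearMap.comp_smul, hqj]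
          rfl

end Pool.Agent.KExp
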