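import Pool.Agent.Lib.KExp.Defs
import Pool.Agent.Lib.KExp.TensApp
import Pool.Agent.Lib.KExp.TensYD
import Pool.Agent.Lib.KExp.MFin
import Pool.Agent.Lib.KExp.Ptr
import Pool.Agent.Lib.KExp.PtrYD
import Pool.Agent.Lib.KExp.PYD
import Pool.Agent.Lib.KExp.TnPtr
import Pool.Agent.Lib.KExp.PowTr
import Pool.Agent.Lib.KExp.TrFin
import Pool.Agent.Lib.KExp.Almost
import Pool.Agent.Lib.KExp.Integ
import Pool.Agent.Lib.KOd.GDefs

/-!
# KOd.GC (MP_0d5e35_al, section 4, helper38)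

(4.5). `Y` simple (Schur). For `T ∈ cen rP sP`: `M (T ⊗ 1)`, `M = Mop rP sP ρ σ`, commutes with `tR rP ρ h`, `tS sP σ f` (Mop_tR, Mop_tS; `T ⊗ 1` commutes with
them by tR_apply / tS_apply), so `ptr (M (T ⊗ 1))` commutes with `ρ`, `σ` (ptr_rho, ptr_sigma) and is a scalar `c T` (Schur); `c` is linear (ptr_linear;
`Y ≠ 0`). `c(T U) = c(U T)`: `M (T U ⊗ 1) = M (T ⊗ 1)(U ⊗ 1)`, ptr_comm, Mop_end. `c(θ^n) = t n`: ptr_Mop_P. `T` idempotent: `c T` is an algebraic
integer: pow_trick, trace_adjoin, integral_of_almost exactly as at the end of the proof of tau_integral (KExp.Integ).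
-/

set_option autoImplicit false

open scoped TensorProduct

namespace Pool.Agent.KExp

variable {k : Type} [Field k] {H : Type} [Ring H] [HopfAlgebra k H] [FiniteDimensional k H]

variable {Y : Type} [AddCommGroup Y] [Module k Y] [FiniteDimensional k Y]
  {ρ : H →ₐ[k] Module.End k Y} {σ : (H →ₗ[k] k) →ₗ[k] Module.End k Y}

private theorem gc_tR (hS : ∀ x : H, Sa k H (Sa k H x) = x) (hY : IsYD ρ σ)
    (T : Module.End k (H ⊗[k] H)) (hT : ∀ h, T * (rP (k := k) (H := H)) h = rP h * T) (h : H) :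
    (Mop (rP (k := k) (H := H)) sP ρ σ * TensorProduct.map T 1) * tR rP ρ h =
    tR rP ρ h * (Mop (rP (k := k) (H := H)) sP ρ σ * TensorProduct.map T 1) := by
  have h1 : TensorProduct.map T (1 : Module.End k Y) *
      tR rP ρ h = tR rP ρ h * TensorProduct.map T 1 := by
    rw [tR_apply]
    unfold sw2
    rw [Finset.mul_sum, Finset.sum_mul]
    refine Finset.sum_congr rfl fun i _ => ?_
    rw [← TensorProduct.map_mul, ← TensorProduct.map_mul, hT, one_mul, mul_one]
  rw [mul_assoc, h1, ← mul_assoc, Mop_tR hS (isYD_P hS) hY, mul_assoc]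

private theorem gc_tS (hS : ∀ x : H, Sa k H (Sa k H x) = x) (hY : IsYD ρ σ)
    (T : Module.End k (H ⊗[k] H)) (hT : ∀ f, T * (sP (k := k) (H := H)) f = sP f * T)
    (f : H →ₗ[k] k) :
    (Mop (rP (k := k) (H := H)) sP ρ σ * TensorProduct.map T 1) * tS sP σ f =
    tS sP σ f * (Mop (rP (k := k) (H := H)) sP ρ σ * TensorProduct.map T 1) := by
  have h1 : TensorProduct.map T (1 : Module.End k Y) *
      tS sP σ f = tS sP σ f * TensorProduct.map T 1 := by
    rw [tS_apply]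
    rw [Finset.mul_sum, Finset.sum_mul]
    refine Finset.sum_congr rfl fun i _ => ?_
    rw [Finset.mul_sum, Finset.sum_mul]
    refine Finset.sum_congr rfl fun j _ => ?_
    rw [mul_smul_comm, smul_mul_assoc, ← TensorProduct.map_mul, ← TensorProduct.map_mul,
      hT, one_mul, mul_one]
  rw [mul_assoc, h1, ← mul_assoc, Mop_tS hS (isYD_P hS) hY, mul_assoc]

theorem exists_c [CharZero k] [IsAlgClosed k] (hS : ∀ x : H, Sa k H (Sa k H x) = x) {N : ℕ}
    (hN : 0 < N) (hQ : Q k H N = Q k H 0) (hY : IsYD ρ σ) (hd : 0 < Module.finrank k Y)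
    (hsch : Schur ρ σ) (t : ℕ → k) (ht : ∀ n, Tn n ρ σ = t n • 1) :
    ∃ c : cen (rP (k := k) (H := H)) sP →ₗ[k] k, (∀ T U, c (T * U) = c (U * T)) ∧
      (∀ n, c (thC hS (isYD_P hS) ^ n) = t n) ∧
      (∀ T, T * T = T → IsIntegral ℤ (c T)) := by
  have hP : IsYD (rP (k := k) (H := H)) sP := isYD_P hS
  set M : Module.End k ((H ⊗[k] H) ⊗[k] Y) := Mop (rP (k := k) (H := H)) sP ρ σ with hM
  set L : Module.End k (H ⊗[k] H) →ₗ[k] Module.End k Y :=
    (IsLinearMap.mk' _ (ptr_linear (k := k) (X := H ⊗[k] H) (Y := Y))) ∘ₗ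
      LinearMap.mulLeft k M ∘ₗ LinearMap.rTensorHom Y with hL
  have hLa : ∀ x, L x = ptr (M * TensorProduct.map x 1) := fun x => rfl
  have hd' : (Module.finrank k Y : k) ≠ 0 := Nat.cast_ne_zero.2 hd.ne'
  set φ : Module.End k Y →ₗ[k] k := (Module.finrank k Y : k)⁻¹ • LinearMap.trace k Y with hφ
  have hφ1 : ∀ s : k, φ (s • 1) = s := by
    intro s
    rw [hφ, map_smul, LinearMap.smul_apply, smul_eq_mul, smul_eq_mul, LinearMap.trace_one,
      inv_mul_cancel₀ hd', mul_one]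
  set c : cen (rP (k := k) (H := H)) sP →ₗ[k] k :=
    φ ∘ₗ L ∘ₗ (cen (rP (k := k) (H := H)) sP).val.toLinearMap with hc
  have hca : ∀ T : cen (rP (k := k) (H := H)) sP, c T = φ (L (T : Module.End k (H ⊗[k] H))) :=
    fun T => rfl
  have hcs : ∀ T : cen (rP (k := k) (H := H)) sP,
      ptr (M * TensorProduct.map (T : Module.End k (H ⊗[k] H)) 1) = c T • 1 := by
    intro T
    obtain ⟨hT1, hT2⟩ := mem_cen.1 T.2
    obtain ⟨s, hs⟩ := hsch (ptr (M * TensorProduct.map (T : Module.End k (H ⊗[k] H)) 1))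
      (ptr_rho hS _ (gc_tR hS hY _ hT1)) (ptr_sigma hS hP _ (gc_tS hS hY _ hT2))
    rw [hca, hLa, hs, hφ1]
  refine ⟨c, ?_, ?_, ?_⟩
  · intro T U
    obtain ⟨hT1, hT2⟩ := mem_cen.1 T.2
    have h1 : M * TensorProduct.map (T : Module.End k (H ⊗[k] H)) (1 : Module.End k Y) =
        TensorProduct.map (T : Module.End k (H ⊗[k] H)) 1 * M := Mop_end hT1 hT2
    have h2 : ∀ A B : Module.End k (H ⊗[k] H), TensorProduct.map (A * B) (1 : Module.End k Y) =
        TensorProduct.map A 1 * TensorProduct.map B 1 := by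
      intro A B
      rw [← TensorProduct.map_mul, mul_one]
    rw [hca, hca, hLa, hLa, MulMemClass.coe_mul, MulMemClass.coe_mul, h2, h2, ← mul_assoc,
      ← mul_assoc, h1, mul_assoc, ← ptr_comm]
  · intro n
    have h1 : ((thC hS (isYD_P hS) ^ n : cen (rP (k := k) (H := H)) sP) :
        Module.End k (H ⊗[k] H)) = theta (rP (k := k) (H := H)) sP ^ n := by
      rw [SubmonoidClass.coe_pow, coe_thC]
    rw [hca, hLa, h1, hM, ptr_Mop_P hS hY n, ht n, hφ1]
  · intro T hT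
    obtain ⟨hT1, hT2⟩ := mem_cen.1 T.2
    have hTT : (T : Module.End k (H ⊗[k] H)) * T = T := by
      have := congrArg (fun x : cen (rP (k := k) (H := H)) sP => (x : Module.End k (H ⊗[k] H))) hT
      exact this
    have : NeZero (N : k) := ⟨Nat.cast_ne_zero.2 hN.ne'⟩
    obtain ⟨ζ, hζ⟩ : ∃ ζ : k, IsPrimitiveRoot ζ N := HasEnoughRootsOfUnity.exists_primitiveRoot k N
    have hall : ∀ j : ℕ, (Module.finrank k Y : k) * c T ^ (j + 1) ∈
        Algebra.adjoin ℤ ({ζ} : Set k) := by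
      intro j
      obtain ⟨X', i1, i2, i3, B, hB, hT'⟩ := pow_trick hS hQ hP hY
        (T : Module.End k (H ⊗[k] H)) hTT hT1 hT2 (c T) (hcs T) j
      have h1 := trace_adjoin hN hζ B hB
      rw [hT', mul_comm] at h1
      exact h1
    exact integral_of_almost (hζ.isIntegral hN) hd' hall

end Pool.Agent.KExp
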