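import Mathlib

/-!
# KOd.GPi (MP_0d5e35_al, section 4, helper38; pure linear algebra)

trace_mulLeft_pi: by LinearMap.trace_conj' for `Φ` it is the trace of left multiplication by `E = Φ a` on `∏ M_{d i}(k)`. In the basis of the matrix
units (Pi.basis, Matrix.stdBasis) the coordinate `(i,(p,q))` of `E * E^i_pq` is `(E i) p p`; the sum over `q` gives `d i`.
tracial_pi: `c` linear on `∏ M_{d i}(k)` with `c (E F) = c (F E)`. `E = ∑_{i,p,q} (E i p q) E^i_pq` and `c(E^i_pq) = c(E^i_p0 E^i_0q) = c(E^i_0q E^i_p0)`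
`= δ_pq c(E^i_00)`.
-/

set_option autoImplicit false

namespace Pool.Agent.KExp

private theorem trace_pi_aux {k : Type} [Field k] {n : ℕ} {d : Fin n → ℕ}
    (E : (i : Fin n) → Matrix (Fin (d i)) (Fin (d i)) k) :
    LinearMap.trace k ((i : Fin n) → Matrix (Fin (d i)) (Fin (d i)) k) (LinearMap.mulLeft k E) =
      ∑ i, (d i : k) * (E i).trace := by
  classical
  have key := LinearMap.trace_eq_matrix_trace k
    (Pi.basis (fun i : Fin n => Matrix.stdBasis k (Fin (d i)) (Fin (d i))))
    (LinearMap.mulLeft k E)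
  rw [key, Matrix.trace, ← Finset.univ_sigma_univ, Finset.sum_sigma]
  refine Finset.sum_congr rfl fun i _ => ?_
  rw [← Finset.univ_product_univ, Finset.sum_product]
  have h : ∀ p q : Fin (d i), (LinearMap.toMatrix
      (Pi.basis (fun i : Fin n => Matrix.stdBasis k (Fin (d i)) (Fin (d i))))
      (Pi.basis (fun i : Fin n => Matrix.stdBasis k (Fin (d i)) (Fin (d i))))
      (LinearMap.mulLeft k E)).diag ⟨i, (p, q)⟩ = E i p p := by
    intro p q
    rw [Matrix.diag_apply, LinearMap.toMatrix_apply, Pi.basis_repr, Pi.basis_apply,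
      LinearMap.mulLeft_apply, Matrix.stdBasis_eq_single, Pi.mul_apply, Pi.single_eq_same]
    change (E i * Matrix.single p q (1 : k) : Matrix (Fin (d i)) (Fin (d i)) k) p q = E i p p
    simp
  simp only [h]
  rw [Matrix.trace, Finset.mul_sum]
  refine Finset.sum_congr rfl fun p _ => ?_
  simp

theorem trace_mulLeft_pi {k : Type} [Field k] {A : Type} [Ring A] [Algebra k A]
    [FiniteDimensional k A] {n : ℕ} {d : Fin n → ℕ}
    (Φ : A ≃ₐ[k] ((i : Fin n) → Matrix (Fin (d i)) (Fin (d i)) k)) (a : A) :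
    LinearMap.trace k A (LinearMap.mulLeft k a) = ∑ i, (d i : k) * (Φ a i).trace := by
  have h := LinearMap.trace_conj' (LinearMap.mulLeft k a) Φ.toLinearEquiv
  have h2 : Φ.toLinearEquiv.conj (LinearMap.mulLeft k a) = LinearMap.mulLeft k (Φ a) := by
    refine LinearMap.ext fun x => ?_
    change Φ (a * Φ.symm x) = Φ a * x
    rw [map_mul, AlgEquiv.apply_symm_apply]
  rw [← h, h2, trace_pi_aux]

theorem tracial_pi {k : Type} [Field k] {n : ℕ} {d : Fin n → ℕ} [∀ i, NeZero (d i)]
    (c : ((i : Fin n) → Matrix (Fin (d i)) (Fin (d i)) k) →ₗ[k] k)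
    (hc : ∀ E F, c (E * F) = c (F * E)) (E : (i : Fin n) → Matrix (Fin (d i)) (Fin (d i)) k) :
    c E = ∑ i, c (Pi.single i (Matrix.single 0 0 1)) * (E i).trace := by
  classical
  have hE : E = ∑ i, ∑ p, ∑ q, E i p q • (Pi.single i (Matrix.single p q (1 : k)) :
      (i : Fin n) → Matrix (Fin (d i)) (Fin (d i)) k) := by
    have h1 : E = ∑ i, Pi.single i (E i) := (Finset.univ_sum_single E).symm
    conv_lhs => rw [h1]
    refine Finset.sum_congr rfl fun i _ => ?_
    conv_lhs => rw [Matrix.matrix_eq_sum_single (E i)]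
    rw [← LinearMap.single_apply (R := k), map_sum]
    refine Finset.sum_congr rfl fun p _ => ?_
    rw [map_sum]
    refine Finset.sum_congr rfl fun q _ => ?_
    rw [← LinearMap.single_apply (R := k), ← map_smul]
    simp
  have hpq : ∀ (i : Fin n) (p q : Fin (d i)),
      c (Pi.single i (Matrix.single p q (1 : k))) =
        if p = q then c (Pi.single i (Matrix.single 0 0 1)) else 0 := by
    intro i p q
    have h1 : (Pi.single i (Matrix.single p q (1 : k)) :
        (i : Fin n) → Matrix (Fin (d i)) (Fin (d i)) k) =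
        Pi.single i (Matrix.single p 0 1) * Pi.single i (Matrix.single 0 q 1) := by
      rw [← Pi.single_mul]
      simp
    rw [h1, hc, ← Pi.single_mul]
    split_ifs with hpq
    · subst hpq
      simp
    · rw [Matrix.single_mul_single_of_ne]
      · simp
      · exact fun h => hpq h.symm
  conv_lhs => rw [hE]
  rw [map_sum]
  refine Finset.sum_congr rfl fun i _ => ?_
  rw [Matrix.trace, Finset.mul_sum, map_sum]
  refine Finset.sum_congr rfl fun p _ => ?_
  rw [map_sum, Finset.sum_eq_single p]
  · rw [map_smul, smul_eq_mul, hpq i p p, if_pos rfl, Matrix.diag_apply, mul_comm]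
  · intro q _ hq
    rw [map_smul, smul_eq_mul, hpq i p q, if_neg (fun h => hq h.symm), mul_zero]
  · intro h
    exact absurd (Finset.mem_univ p) h

end Pool.Agent.KExp
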