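import Pool.Agent.Lib.KExp.Defs
import Pool.Agent.Lib.KExp.PYD
import Pool.Agent.Lib.KExp.ThetaPow
import Pool.Agent.Lib.KOd.GDefs
import Pool.Agent.Lib.KOd.GPi
import Pool.Agent.Lib.KOd.GC

/-!
# KOd.GTau (MP_0d5e35_al, section 4, helper38)

(4.5), (4.6). `c` from exists_c, `Φ` an isomorphism `cen rP sP ≃ ∏ M_{d j}(k)`, `Φ θ = (v_j)`, `v_j^N = 1` (theta_pow_one). `π = N⁻¹ ∑_{l<N} (ζ^i)^{-l} θ^l ∈ cen`:
`c π = τ_i := N⁻¹ ∑ (ζ^i)^{-l} t_l`, `Φ π j = (N⁻¹ ∑_l (ζ^{-i} v_j)^l) • 1 = δ(v_j = ζ^i) • 1` (geometric sum). tracial_pi for `c ∘ Φ⁻¹`: `τ_i = ∑_j c_j d_j δ(v_j = ζ^i)`,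
`c_j = c(Φ⁻¹ E^j_00)` integral (idempotent). If `q` divides all `d_j` with `v_j = ζ^i`: `τ_i / q` is integral.
-/

set_option autoImplicit false

open scoped TensorProduct

namespace Pool.Agent.KExp

variable {k : Type} [Field k] {H : Type} [Ring H] [HopfAlgebra k H] [FiniteDimensional k H]

variable {Y : Type} [AddCommGroup Y] [Module k Y] [FiniteDimensional k Y]
  {ρ : H →ₐ[k] Module.End k Y} {σ : (H →ₗ[k] k) →ₗ[k] Module.End k Y}

private theorem gtau_thC_pow (hS : ∀ x : H, Sa k H (Sa k H x) = x) {N : ℕ}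
    (hQ : Q k H N = Q k H 0) :
    thC hS (isYD_P (k := k) (H := H) hS) ^ N = 1 := by
  apply Subtype.ext
  rw [SubmonoidClass.coe_pow, coe_thC]
  exact theta_pow_one hS (isYD_P hS) hQ

theorem theta_val_pow (hS : ∀ x : H, Sa k H (Sa k H x) = x) {N : ℕ}
    (hQ : Q k H N = Q k H 0) {n : ℕ} {d : Fin n → ℕ} [∀ i, NeZero (d i)]
    (Φ : cen (rP (k := k) (H := H)) sP ≃ₐ[k] ((i : Fin n) → Matrix (Fin (d i)) (Fin (d i)) k))
    {v : Fin n → k} (hv : ∀ i, Φ (thC hS (isYD_P hS)) i = v i • 1) (i : Fin n) :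
    v i ^ N = 1 := by
  have h1 : (Φ (thC hS (isYD_P hS) ^ N)) i = v i ^ N • 1 := by
    rw [map_pow, Pi.pow_apply, hv, smul_pow, one_pow]
  rw [gtau_thC_pow hS hQ, map_one, Pi.one_apply] at h1
  have h2 := congrFun (congrFun h1 0) 0
  rw [Matrix.smul_apply, Matrix.one_apply_eq, smul_eq_mul, mul_one] at h2
  exact h2.symm

private theorem gtau_geom {N : ℕ} {x : k} (hx : x ^ N = 1) (hx1 : x ≠ 1) :
    ∑ l ∈ Finset.range N, x ^ l = 0 := by
  rw [geom_sum_eq hx1, hx, sub_self, zero_div]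

private theorem gtau_idem {n : ℕ} {d : Fin n → ℕ} [∀ i, NeZero (d i)] (j : Fin n) :
    (Pi.single j (Matrix.single 0 0 1) : (i : Fin n) → Matrix (Fin (d i)) (Fin (d i)) k) *
      Pi.single j (Matrix.single 0 0 1) = Pi.single j (Matrix.single 0 0 1) := by
  rw [← Pi.single_mul, Matrix.single_mul_single_same, mul_one]

theorem tau_div [CharZero k] [IsAlgClosed k] (hS : ∀ x : H, Sa k H (Sa k H x) = x) {N : ℕ}
    (hN : 0 < N) (hQ : Q k H N = Q k H 0) (hY : IsYD ρ σ) (hd : 0 < Module.finrank k Y)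
    (hsch : Schur ρ σ) {ζ : k} (hζ : IsPrimitiveRoot ζ N) (t : ℕ → k)
    (ht : ∀ n, Tn n ρ σ = t n • 1) {n : ℕ} {d : Fin n → ℕ} [∀ i, NeZero (d i)]
    (Φ : cen (rP (k := k) (H := H)) sP ≃ₐ[k] ((i : Fin n) → Matrix (Fin (d i)) (Fin (d i)) k))
    {v : Fin n → k} (hv : ∀ i, Φ (thC hS (isYD_P hS)) i = v i • 1) {q : ℕ} (hq : 0 < q) (i : ℕ)
    (hdiv : ∀ j, v j = ζ ^ i → q ∣ d j) :
    IsIntegral ℤ ((q : k)⁻¹ * ((N : k)⁻¹ * ∑ l ∈ Finset.range N, ((ζ ^ i)⁻¹) ^ l * t l)) := by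
  classical
  obtain ⟨c, hc1, hc2, hc3⟩ := exists_c hS hN hQ hY hd hsch t ht
  have hNk : (N : k) ≠ 0 := Nat.cast_ne_zero.2 hN.ne'
  have hqk : (q : k) ≠ 0 := Nat.cast_ne_zero.2 hq.ne'
  set θ : cen (rP (k := k) (H := H)) sP := thC hS (isYD_P hS) with hθ
  set π : cen (rP (k := k) (H := H)) sP :=
    (N : k)⁻¹ • ∑ l ∈ Finset.range N, ((ζ ^ i)⁻¹) ^ l • θ ^ l with hπ
  have hcπ : c π = (N : k)⁻¹ * ∑ l ∈ Finset.range N, ((ζ ^ i)⁻¹) ^ l * t l := by
    rw [hπ, map_smul, map_sum, smul_eq_mul]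
    congr 1
    refine Finset.sum_congr rfl fun l _ => ?_
    rw [map_smul, hc2, smul_eq_mul]
  have hζ0 : ζ ^ i ≠ 0 := pow_ne_zero _ (hζ.ne_zero hN.ne')
  have hΦ : ∀ j, (Φ π j).trace = if v j = ζ ^ i then (d j : k) else 0 := by
    intro j
    have e1 : Φ π j = ((N : k)⁻¹ * ∑ l ∈ Finset.range N, ((ζ ^ i)⁻¹ * v j) ^ l) • 1 := by
      rw [hπ, map_smul, map_sum, Pi.smul_apply, Finset.sum_apply, ← smul_smul, Finset.sum_smul]
      congr 1
      refine Finset.sum_congr rfl fun l _ => ?_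
      rw [map_smul, Pi.smul_apply, map_pow, Pi.pow_apply, hv, smul_pow, one_pow, smul_smul,
        mul_pow]
    rw [e1, Matrix.trace_smul, Matrix.trace_one, Fintype.card_fin, smul_eq_mul]
    split_ifs with h
    · rw [h, inv_mul_cancel₀ hζ0]
      simp only [one_pow, Finset.sum_const, Finset.card_range, nsmul_eq_mul, mul_one]
      rw [inv_mul_cancel₀ hNk, one_mul]
    · have hx : ((ζ ^ i)⁻¹ * v j) ^ N = 1 := by
        rw [mul_pow, theta_val_pow hS hQ Φ hv j, inv_pow, ← pow_mul, mul_comm i N, pow_mul,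
          hζ.pow_eq_one, one_pow, inv_one, mul_one]
      have hx1 : (ζ ^ i)⁻¹ * v j ≠ 1 := by
        intro h1
        apply h
        rw [inv_mul_eq_iff_eq_mul₀ hζ0, mul_one] at h1
        exact h1
      rw [gtau_geom hx hx1, mul_zero, zero_mul]
  have htr := tracial_pi (c ∘ₗ Φ.symm.toLinearMap) (by
    intro E F
    simp only [LinearMap.comp_apply, AlgEquiv.toLinearMap_apply, map_mul]
    exact hc1 _ _) (Φ π)
  simp only [LinearMap.comp_apply, AlgEquiv.toLinearMap_apply, AlgEquiv.symm_apply_apply] at htr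
  rw [← hcπ, htr, Finset.mul_sum]
  refine IsIntegral.sum _ fun j _ => ?_
  rw [hΦ j]
  have hint := hc3 (Φ.symm (Pi.single j (Matrix.single 0 0 1))) (by
    rw [← map_mul, gtau_idem])
  split_ifs with h
  · obtain ⟨r, hr⟩ := hdiv j h
    have hr' : (d j : k) = (q : k) * (r : k) := by
      rw [← Nat.cast_mul]
      exact congrArg (Nat.cast : ℕ → k) hr
    have e : (q : k)⁻¹ * (c (Φ.symm (Pi.single j (Matrix.single 0 0 1))) * (d j : k)) =
        c (Φ.symm (Pi.single j (Matrix.single 0 0 1))) * (r : k) := by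
      rw [hr', mul_left_comm, inv_mul_cancel_left₀ hqk]
    rw [e]
    exact hint.mul (isIntegral_natCast r)
  · rw [mul_zero, mul_zero]
    exact isIntegral_zero

end Pool.Agent.KExp
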