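import Pool.Agent.Lib.KExp.Defs
import Pool.Agent.Lib.KExp.Sw
import Pool.Agent.Lib.KExp.CE
import Pool.Agent.Lib.KExp.LamInt
import Pool.Agent.Lib.KExp.LInt
import Pool.Agent.Lib.KExp.PYD
import Pool.Agent.Lib.KOd.GDefs

/-!
# KOd.GGen (MP_0d5e35_al, section 4, helper38)

The generator of the regular Yetter-Drinfeld module and the bijection `f ↦ f(Λ₁) Λ₂`.
-/

/-!
# KOd.GGen (MP_0d5e35_al, section 4, helper38)

gen_P: `sP f (1 ⊗ w) = 1 ⊗ Dreg f w`: sP_tmul with `x = 1` (sw3_eq, sw2_one twice, Sa_one), then rP_tmul.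
lam_Dreg: with `y = Dreg f Λ = ∑ f(Λ₁) Λ₂`: `λ(z S(y)) = ∑ f(Λ₁) λ(z S(Λ₂)) = ∑ f(Λ₁) λ(S(Λ₂) z)` (lam_mul_comm)
`= ∑ f(z Λ₁) λ(S(Λ₂))` (Lam_shift for `F u v = f u * λ v`, from right to left) `= ∑ λ(Λ₂) f(z Λ₁)` (lam_Sa) `= λ(Λ) f(z)` (lam_comul')
`= m f(z)` (lam_Lam). Dreg_Lam_bijective: injective by lam_Dreg (`m ≠ 0`), and the dimensions are equal.
-/

set_option autoImplicit false

open scoped TensorProduct

namespace Pool.Agent.KExp

variable {k : Type} [Field k] {H : Type} [Ring H] [HopfAlgebra k H] [FiniteDimensional k H]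

private theorem GGen_Dreg (f : H →ₗ[k] k) (w : H) :
    Dreg k H f w = sw2 k (fun a b => f a • b) w := by
  have h := sw2_eq_lift (k := k) ((LinearMap.lsmul k H) ∘ₗ f) w
  have h1 : TensorProduct.lift ((LinearMap.lsmul k H) ∘ₗ f) =
      (TensorProduct.lid k H).toLinearMap ∘ₗ f.rTensor H := by
    apply TensorProduct.ext'
    intro x y
    simp
  rw [h1] at h
  exact h.symm

private theorem GGen_tri (f : H →ₗ[k] k) (w : H) : Tri3 k (fun a b c : H =>
    sw2 k (fun p q => f (a * (p * Sa k H c)) • (b ⊗ₜ[k] q)) w) := by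
  refine ⟨fun b c => ⟨fun x y => ?_, fun r x => ?_⟩, fun a c => ⟨fun x y => ?_, fun r x => ?_⟩,
    fun a b => ⟨fun x y => ?_, fun r x => ?_⟩⟩
  · simp only [sw2, add_mul, map_add, add_smul, Finset.sum_add_distrib]
  · simp only [sw2, smul_mul_assoc, map_smul, smul_eq_mul, mul_smul, Finset.smul_sum]
  · simp only [sw2, TensorProduct.add_tmul, smul_add, Finset.sum_add_distrib]
  · simp only [sw2, Finset.smul_sum]
    refine Finset.sum_congr rfl fun j _ => ?_
    rw [← TensorProduct.smul_tmul', smul_comm]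
  · simp only [sw2, map_add, mul_add, add_smul, Finset.sum_add_distrib]
  · simp only [sw2, map_smul, mul_smul_comm, smul_eq_mul, mul_smul, Finset.smul_sum]

theorem gen_P (a w : H) (f : H →ₗ[k] k) :
    rP (k := k) (H := H) a (sP f ((1 : H) ⊗ₜ[k] w)) = a ⊗ₜ[k] Dreg k H f w := by
  have hT := GGen_tri f w
  have hb : ∀ a, Bil2 k (fun b c : H =>
      sw2 k (fun p q => f (a * (p * Sa k H c)) • (b ⊗ₜ[k] q)) w) := fun a =>
    ⟨fun c => hT.2.1 a c, fun b => hT.2.2 a b⟩
  have ho : Bil2 k (fun a y : H => sw2 k (fun b c : H =>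
      sw2 k (fun p q => f (a * (p * Sa k H c)) • (b ⊗ₜ[k] q)) w) y) := by
    refine ⟨fun y => ⟨fun u v => ?_, fun r u => ?_⟩, fun a => sw2_linear (hb a)⟩
    · unfold sw2
      rw [← Finset.sum_add_distrib]
      exact Finset.sum_congr rfl fun j _ => (hT.1 _ _).map_add u v
    · unfold sw2
      rw [Finset.smul_sum]
      exact Finset.sum_congr rfl fun j _ => (hT.1 _ _).map_smul r u
  rw [sP_tmul, sw3_eq, sw2_one ho, sw2_one (hb 1), Sa_one]
  simp only [one_mul, mul_one]
  rw [GGen_Dreg]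
  unfold sw2
  rw [map_sum, TensorProduct.tmul_sum]
  refine Finset.sum_congr rfl fun j _ => ?_
  rw [map_smul, rP_tmul, mul_one, TensorProduct.tmul_smul]

theorem lam_Dreg [CharZero k] (hS : ∀ x : H, Sa k H (Sa k H x) = x) (f : H →ₗ[k] k) (z : H) :
    lam k H (z * Sa k H (Dreg k H f (Lam k H))) = (Module.finrank k H : k) * f z := by
  have e1 : lam k H (z * Sa k H (Dreg k H f (Lam k H))) =
      sw2 k (fun a b => f a * lam k H (Sa k H b * z)) (Lam k H) := by
    rw [GGen_Dreg]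
    unfold sw2
    rw [map_sum, Finset.mul_sum, map_sum]
    refine Finset.sum_congr rfl fun j _ => ?_
    rw [map_smul, mul_smul_comm, map_smul, smul_eq_mul, lam_mul_comm]
  have hF : Bil2 k (fun u v : H => f u * lam k H v) :=
    ⟨fun b => ⟨fun x y => by beta_reduce; rw [map_add, add_mul], fun r x => by
      beta_reduce; rw [map_smul, smul_eq_mul, smul_eq_mul, mul_assoc]⟩,
     fun a => ⟨fun x y => by beta_reduce; rw [map_add, mul_add], fun r x => by
      beta_reduce; rw [map_smul, smul_eq_mul, smul_eq_mul, mul_left_comm]⟩⟩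
  have e2 := Lam_shift hS hF z
  beta_reduce at e2
  rw [e1, ← e2]
  have e3 : (fun a b : H => f (z * a) * lam k H (Sa k H b)) =
      fun a b => lam k H b • f (z * a) := by
    funext a b
    rw [lam_Sa hS, smul_eq_mul, mul_comm]
  rw [e3]
  have hl : IsLinearMap k (fun a : H => f (z * a)) :=
    ⟨fun x y => by rw [mul_add, map_add], fun r x => by rw [mul_smul_comm, map_smul]⟩
  rw [lam_comul' hS hl, lam_Lam hS, mul_one, smul_eq_mul]

theorem Dreg_Lam_bijective [CharZero k] (hS : ∀ x : H, Sa k H (Sa k H x) = x) :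
    Function.Bijective (fun f : H →ₗ[k] k => Dreg k H f (Lam k H)) := by
  have hm : (Module.finrank k H : k) ≠ 0 := by
    exact_mod_cast (finrank_pos_H (k := k) (H := H)).ne'
  let φ : (H →ₗ[k] k) →ₗ[k] H := (LinearMap.applyₗ (R := k) (Lam k H)) ∘ₗ Dreg k H
  have hφ : ∀ f, φ f = Dreg k H f (Lam k H) := fun f => rfl
  have hinj : Function.Injective φ := by
    rw [injective_iff_map_eq_zero]
    intro f hf
    ext z
    have h1 := lam_Dreg hS f z
    rw [← hφ, hf, map_zero, mul_zero, map_zero] at h1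
    rw [LinearMap.zero_apply]
    exact (mul_eq_zero.1 h1.symm).resolve_left hm
  have hsur : Function.Surjective φ :=
    (LinearMap.injective_iff_surjective_of_finrank_eq_finrank
      (Subspace.dual_finrank_eq (K := k) (V := H))).1 hinj
  exact ⟨hinj, hsur⟩

end Pool.Agent.KExp
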