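import Pool.Agent.Lib.KExp.Defs
import Pool.Agent.Lib.KExp.Sw
import Pool.Agent.Lib.KExp.CE
import Pool.Agent.Lib.KExp.PYD
import Pool.Agent.Lib.KOd.GDefs
import Pool.Agent.Lib.KOd.GGen

/-!
# KOd.GEv (MP_0d5e35_al, section 4, helper38)

(4.1). `g = 1 ⊗ Λ` (gP). By gen_P: `rP a (sP f g) = a ⊗ Dreg f Λ`, and `f ↦ Dreg f Λ` is bijective (Dreg_Lam_bijective): let
`β y` be the functional with `Dreg (β y) Λ = y` (linear in `y`: take `β y = m⁻¹ • (z ↦ λ(z S(y)))`, lam_Dreg, or the inverse of the linear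
equivalence). cen_ev_zero: `T(a ⊗ y) = T(rP a (sP (β y) g)) = rP a (sP (β y) (T g)) = 0`. cen_ev_surj: define
`T (a ⊗ y) = rP a (sP (β y) x)` (TensorProduct.lift), so `T (rP a (sP f g)) = rP a (sP f x)` for all `a`, `f`. `T` commutes with `rP b` (map_mul).
`T (sP f' (rP a (sP f g)))`: by `isYD_P.yd` and `.mul`, `sP f' * rP a * sP f = sw3 (fun b c d => rP c * sP (cv f (tw f' b (S d)))) a`,
so both sides are `sw3 (...) a` applied to `x`. `T g = T (rP 1 (sP ε g)) = x`.
-/

set_option autoImplicit false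

open scoped TensorProduct

namespace Pool.Agent.KExp

variable {k : Type} [Field k] {H : Type} [Ring H] [HopfAlgebra k H] [FiniteDimensional k H]

private theorem GEv_eq [CharZero k] (hS : ∀ x : H, Sa k H (Sa k H x) = x) :
    ∃ β : H →ₗ[k] (H →ₗ[k] k), (∀ y, Dreg k H (β y) (Lam k H) = y) ∧
      ∀ f, β (Dreg k H f (Lam k H)) = f := by
  let φ : (H →ₗ[k] k) →ₗ[k] H := (LinearMap.applyₗ (R := k) (Lam k H)) ∘ₗ Dreg k H
  let E := LinearEquiv.ofBijective φ (Dreg_Lam_bijective hS)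
  exact ⟨E.symm.toLinearMap, fun y => E.apply_symm_apply y, fun f => E.symm_apply_apply f⟩

private theorem GEv_gen (a : H) (f : H →ₗ[k] k) :
    rP (k := k) (H := H) a (sP f (gP k H)) = a ⊗ₜ[k] Dreg k H f (Lam k H) := gen_P a (Lam k H) f

private theorem GEv_yd (hS : ∀ x : H, Sa k H (Sa k H x) = x) (f' f : H →ₗ[k] k) (a : H)
    (x : H ⊗[k] H) : sP f' (rP (k := k) (H := H) a (sP f x)) =
      sw3 k (fun p q c => rP (k := k) (H := H) q (sP (cv f (tw f' p (Sa k H c))) x)) a := by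
  have h1 := congrArg (fun T : Module.End k (H ⊗[k] H) => T (sP f x)) ((isYD_P hS).yd f' a)
  beta_reduce at h1
  rw [Module.End.mul_apply] at h1
  rw [h1]
  unfold sw3
  rw [LinearMap.sum_apply]
  refine Finset.sum_congr rfl fun j _ => ?_
  rw [LinearMap.sum_apply]
  refine Finset.sum_congr rfl fun l _ => ?_
  rw [Module.End.mul_apply, ← Module.End.mul_apply (sP (tw f' _ _)) (sP f), (isYD_P hS).mul]

theorem cen_ev_zero [CharZero k] (hS : ∀ x : H, Sa k H (Sa k H x) = x)
    {T : Module.End k (H ⊗[k] H)} (hT : T ∈ cen (rP (k := k) (H := H)) sP)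
    (h : T (gP k H) = 0) : T = 0 := by
  obtain ⟨β, hβ, _⟩ := GEv_eq (k := k) (H := H) hS
  obtain ⟨h1, h2⟩ := mem_cen.1 hT
  apply TensorProduct.ext'
  intro a y
  have h3 : a ⊗ₜ[k] y = rP (k := k) (H := H) a (sP (β y) (gP k H)) := by
    rw [GEv_gen, hβ]
  have h4 := congrArg (fun A : Module.End k (H ⊗[k] H) => A (sP (β y) (gP k H))) (h1 a)
  have h5 := congrArg (fun A : Module.End k (H ⊗[k] H) => A (gP k H)) (h2 (β y))
  simp only [Module.End.mul_apply] at h4 h5
  rw [h3, h4, h5, h, map_zero, map_zero, LinearMap.zero_apply]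

theorem cen_ev_surj [CharZero k] (hS : ∀ x : H, Sa k H (Sa k H x) = x) (x : H ⊗[k] H) :
    ∃ T ∈ cen (rP (k := k) (H := H)) sP, T (gP k H) = x := by
  obtain ⟨β, hβ, hβ'⟩ := GEv_eq (k := k) (H := H) hS
  let B : H →ₗ[k] H →ₗ[k] (H ⊗[k] H) :=
    LinearMap.mk₂ k (fun a y => rP (k := k) (H := H) a (sP (β y) x))
      (fun a b y => by rw [map_add, LinearMap.add_apply])
      (fun c a y => by rw [map_smul, LinearMap.smul_apply])
      (fun a y z => by rw [map_add, map_add, LinearMap.add_apply, map_add])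
      (fun c a y => by rw [map_smul, map_smul, LinearMap.smul_apply, map_smul])
  let T : Module.End k (H ⊗[k] H) := TensorProduct.lift B
  have hT0 : ∀ a y, T (a ⊗ₜ[k] y) = rP (k := k) (H := H) a (sP (β y) x) := fun a y =>
    TensorProduct.lift.tmul a y
  have hT : ∀ a f, T (rP (k := k) (H := H) a (sP f (gP k H))) =
      rP (k := k) (H := H) a (sP f x) := by
    intro a f
    rw [GEv_gen, hT0, hβ']
  refine ⟨T, mem_cen.2 ⟨fun b => ?_, fun f' => ?_⟩, ?_⟩
  · apply TensorProduct.ext'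
    intro a y
    rw [Module.End.mul_apply, Module.End.mul_apply, rP_tmul, hT0, hT0, map_mul,
      Module.End.mul_apply]
  · apply TensorProduct.ext'
    intro a y
    have h3 : a ⊗ₜ[k] y = rP (k := k) (H := H) a (sP (β y) (gP k H)) := by
      rw [GEv_gen, hβ]
    rw [Module.End.mul_apply, Module.End.mul_apply, h3, hT, GEv_yd hS, GEv_yd hS]
    unfold sw3
    rw [map_sum]
    refine Finset.sum_congr rfl fun j _ => ?_
    rw [map_sum]
    exact Finset.sum_congr rfl fun l _ => hT _ _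
  · have h4 : rP (k := k) (H := H) 1 (sP (ep k H) (gP k H)) = gP k H := by
      rw [map_one, Module.End.one_apply, (isYD_P hS).one, Module.End.one_apply]
    rw [← h4, hT, map_one, Module.End.one_apply, (isYD_P hS).one, Module.End.one_apply]

end Pool.Agent.KExp
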