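import Pool.Agent.Lib.KExp.Defs
import Pool.Agent.Lib.KExp.Sw
import Pool.Agent.Lib.KExp.CE
import Pool.Agent.Lib.KExp.LamInt
import Pool.Agent.Lib.KExp.ExFin
import Pool.Agent.Lib.KExp.PYD
import Pool.Agent.Lib.KOd.GDefs

/-!
# KOd.GSep (MP_0d5e35_al, section 4, helper38)

PROOF. (1) `(λ ⊗ ε)(sP f (x ⊗ w)) = λ(x) f(w)`: sP_tmul: `∑ f(x₁ w₁ S(x₃)) λ(x₂) ε(w₂)`: sw2_counit_right for `w`, lam_comul for
`x₂ ⊗ x₃`, lam_comul' for `x₁`. (2) By `isYD_P.yd`: `sP f (rP h y) = ∑ rP h₂ (sP (tw f h₁ (S h₃)) y)`, so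
`(λ ⊗ ε)(sP f (rP h y)) = 0` for all `h`, `f`. (3) So for all `f`, `h`: `λ(h · z_f) = 0`, `z_f = (1 ⊗ f) y ∈ H` (for `y = ∑ x ⊗ w`:
`z_f = ∑ f(w) x`); `z_f = 0` by lam_nondeg (and lam_mul_comm). All coordinates `(1 ⊗ ec_j) y` vanish, so `y = 0`
(`y = ∑_j z_{ec_j} ⊗ e_j`, sum_ec).
-/

set_option autoImplicit false

open scoped TensorProduct

namespace Pool.Agent.KExp

variable {k : Type} [Field k] {H : Type} [Ring H] [HopfAlgebra k H] [FiniteDimensional k H]

/-- `(λ ⊗ ε)(sP f (x ⊗ w)) = λ(x) f(w)` -/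
private theorem lep_sP (hS : ∀ x : H, Sa k H (Sa k H x) = x) (f : H →ₗ[k] k) (x w : H) :
    lep k H (sP f (x ⊗ₜ[k] w)) = lam k H x * f w := by
  rw [sP_tmul]
  have e1 : lep k H (sw3 k (fun a b c => sw2 k (fun p q => f (a * (p * Sa k H c)) •
      (b ⊗ₜ[k] q)) w) x) = sw3 k (fun a b c => lam k H b • f (a * (w * Sa k H c))) x := by
    have e2 : lep k H (sw3 k (fun a b c => sw2 k (fun p q => f (a * (p * Sa k H c)) •
        (b ⊗ₜ[k] q)) w) x) = sw3 k (fun a b c => lep k H (sw2 k (fun p q =>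
          f (a * (p * Sa k H c)) • (b ⊗ₜ[k] q)) w)) x := by
      simp only [sw3, map_sum]
    rw [e2]
    congr 1
    funext a b c
    have e3 : lep k H (sw2 k (fun p q => f (a * (p * Sa k H c)) • (b ⊗ₜ[k] q)) w) =
        sw2 k (fun p q => ep k H q • (f (a * (p * Sa k H c)) * lam k H b)) w := by
      simp only [sw2, map_sum, map_smul, lep_tmul]
      refine Finset.sum_congr rfl fun j _ => ?_
      simp only [smul_eq_mul]
      ring
    rw [e3, sw2_counit_right (f := fun p => f (a * (p * Sa k H c)) * lam k H b)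
      ⟨fun u v => by rw [add_mul, mul_add, map_add, add_mul],
        fun r u => by
          rw [smul_mul_assoc, mul_smul_comm, map_smul, smul_eq_mul, smul_eq_mul, mul_assoc]⟩ w,
      smul_eq_mul, mul_comm]
  rw [e1, sw3_eq]
  have e4 : (fun a y : H => sw2 k (fun b c => lam k H b • f (a * (w * Sa k H c))) y) =
      fun a y => lam k H y • f (a * (w * Sa k H 1)) := by
    funext a y
    exact lam_comul hS (f := fun c => f (a * (w * Sa k H c)))
      ⟨fun u v => by rw [map_add, mul_add, mul_add, map_add],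
        fun r u => by rw [map_smul, mul_smul_comm, mul_smul_comm, map_smul]⟩ y
  rw [e4, lam_comul' hS (f := fun a => f (a * (w * Sa k H 1)))
    ⟨fun u v => by rw [add_mul, map_add], fun r u => by rw [smul_mul_assoc, map_smul]⟩ x,
    Sa_one, mul_one, one_mul, smul_eq_mul]

/-- the slice `z_f = (1 ⊗ f) y` -/
private noncomputable def zs (f : H →ₗ[k] k) : (H ⊗[k] H) →ₗ[k] H :=
  (TensorProduct.rid k H).toLinearMap ∘ₗ f.lTensor H

private theorem zs_tmul (f : H →ₗ[k] k) (x w : H) : zs f (x ⊗ₜ[k] w) = f w • x := by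
  simp [zs]

private theorem lep_sP_rP (hS : ∀ x : H, Sa k H (Sa k H x) = x) (f : H →ₗ[k] k) (a : H)
    (y : H ⊗[k] H) : lep k H (sP f (rP (k := k) (H := H) a y)) = lam k H (a * zs f y) := by
  induction y using TensorProduct.induction_on with
  | zero => simp
  | tmul x w =>
    rw [rP_tmul, lep_sP hS, zs_tmul, mul_smul_comm, map_smul, smul_eq_mul, mul_comm]
  | add x y hx hy => rw [map_add, map_add, map_add, hx, hy, map_add, mul_add, map_add]

private theorem sum_zs (y : H ⊗[k] H) : ∑ j, zs (ec k H j) y ⊗ₜ[k] e k H j = y := by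
  induction y using TensorProduct.induction_on with
  | zero => simp
  | tmul x w =>
    simp only [zs_tmul]
    conv_rhs => rw [← sum_ec (k := k) w, TensorProduct.tmul_sum]
    refine Finset.sum_congr rfl fun j _ => ?_
    rw [TensorProduct.smul_tmul]
  | add x y hx hy =>
    conv_rhs => rw [← hx, ← hy, ← Finset.sum_add_distrib]
    refine Finset.sum_congr rfl fun j _ => ?_
    rw [map_add, TensorProduct.add_tmul]

theorem lep_sep [CharZero k] (hS : ∀ x : H, Sa k H (Sa k H x) = x) {y : H ⊗[k] H}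
    (h : ∀ (a : H) (f : H →ₗ[k] k), lep k H (rP (k := k) (H := H) a (sP f y)) = 0) : y = 0 := by
  have h1 : ∀ (a : H) (f : H →ₗ[k] k), lam k H (a * zs f y) = 0 := by
    intro a f
    rw [← lep_sP_rP hS]
    rw [← Module.End.mul_apply, (isYD_P hS).yd f a]
    simp only [sw3, LinearMap.sum_apply, map_sum, Module.End.mul_apply]
    refine Finset.sum_eq_zero fun i _ => Finset.sum_eq_zero fun j _ => ?_
    exact h _ _
  have h3 : ∀ f : H →ₗ[k] k, zs f y = 0 := by
    intro f
    apply lam_nondeg hS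
    intro x
    rw [lam_mul_comm]
    exact h1 x f
  rw [← sum_zs y]
  refine Finset.sum_eq_zero fun j _ => ?_
  rw [h3, TensorProduct.zero_tmul]

end Pool.Agent.KExp
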