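import Pool.Agent.Lib.KExp.Defs
import Pool.Agent.Lib.KExp.Sw
import Pool.Agent.Lib.KExp.CE
import Pool.Agent.Lib.KExp.LamInt
import Pool.Agent.Lib.KExp.LInt
import Pool.Agent.Lib.KExp.PYD
import Pool.Agent.Lib.KOd.GDefs

/-!
# KOd.GTr (MP_0d5e35_al, section 4, helper38)

`T` a Yetter-Drinfeld endomorphism of `P = H ⊗ H`: `Tr_P(T) = (λ ⊗ ε)(T(1 ⊗ Λ))`. PROOF. (1) `T(h ⊗ w) = rP h (T(1 ⊗ w))` (rP_tmul), so
with `T(1 ⊗ w) = ∑_j e_j ⊗ T_j w` (`T_j = (ec_j ⊗ 1) T (1 ⊗ ·)`, sum_ec): `T = ∑_j map (mulRight e_j) T_j`, and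
`Tr T = ∑_j Tr(mulRight e_j) Tr(T_j)` (LinearMap.trace_tensorProduct'), `Tr(mulRight x) = λ(x)`: `mulRight x = S ∘ mulLeft (S x) ∘ S`
(`S² = 1`, Sa_mul), `S ∘ S = 1`, trace cyclic, lam_Sa. So `Tr T = Tr K`, `K w = ∑_j λ(e_j) T_j w = (λ ⊗ 1)(T(1 ⊗ w))`.
(2) For `z ∈ P`, `f`: `(λ ⊗ 1)(sP f z) = Dreg f ((λ ⊗ 1) z)`: on `x ⊗ w`: sP_tmul,
`∑ f(x₁ w₁ S(x₃)) λ(x₂) w₂`, inner sum over `x₂ ⊗ x₃` with lam_comul (`∑ λ(b) G(c) = λ(y) G(1)`), then lam_comul' for `x₁`:
`λ(x) f(w₁) w₂`. Also `sP f (1 ⊗ w) = 1 ⊗ Dreg f w`. As `T` commutes with `sP f`: `K (Dreg f w) = Dreg f (K w)`.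
(3) `κ = ε ∘ K`. `f(K w) = ε(Dreg f (K w)) = ε(K(Dreg f w)) = f(w₁) κ(w₂)`, so `K w = κ(w₂) w₁`. Conjugate by `S`: `S K S w = κ(S(w₁)) w₂`
(sw2_Sa), whose trace is `(κ ∘ S)(Λ)` (apply_Lam) `= κ(Λ)` (Sa_Lam) `= (λ ⊗ ε)(T(1 ⊗ Λ))`.
-/

set_option autoImplicit false

open scoped TensorProduct

namespace Pool.Agent.KExp

variable {k : Type} [Field k] {H : Type} [Ring H] [HopfAlgebra k H] [FiniteDimensional k H]

/-- `T_f(w) = f(w₁) w₂` -/
private noncomputable def TT (f : H →ₗ[k] k) : H →ₗ[k] H :=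
  (TensorProduct.lid k H).toLinearMap ∘ₗ f.rTensor H ∘ₗ Coalgebra.comul (R := k) (A := H)

private theorem TT_apply (f : H →ₗ[k] k) (w : H) :
    TT f w = sw2 k (fun a b => f a • b) w := by
  have h := sw2_eq_lift (k := k) ((LinearMap.lsmul k H) ∘ₗ f) w
  have h1 : TensorProduct.lift ((LinearMap.lsmul k H) ∘ₗ f) =
      (TensorProduct.lid k H).toLinearMap ∘ₗ f.rTensor H := by
    apply TensorProduct.ext'
    intro x y
    simp
  rw [h1] at h
  exact h.symm

private theorem lin_sw2 {Z : Type} [AddCommGroup Z] [Module k Z] {G : H → H → H → Z}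
    (hG : ∀ a b, IsLinearMap k (fun x => G x a b))
    (w : H) : IsLinearMap k (fun x => sw2 k (fun a b => G x a b) w) where
  map_add x y := by
    simp only [sw2, (hG _ _).map_add, Finset.sum_add_distrib]
  map_smul c x := by
    simp only [sw2, (hG _ _).map_smul, Finset.smul_sum]

private theorem ext_of_dual {x y : H} (h : ∀ f : H →ₗ[k] k, f x = f y) : x = y := by
  rw [← sum_ec (k := k) x, ← sum_ec (k := k) y]
  exact Finset.sum_congr rfl fun i _ => by rw [h]

theorem trace_mulRight [CharZero k] (hS : ∀ x : H, Sa k H (Sa k H x) = x) (x : H) :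
    LinearMap.trace k H (LinearMap.mulRight k x) = lam k H x := by
  have h1 : (LinearMap.mulRight k x : Module.End k H) =
      (Sa k H : Module.End k H) * ((LinearMap.mulLeft k (Sa k H x) : Module.End k H) *
        (Sa k H : Module.End k H)) := by
    ext w
    simp only [Module.End.mul_apply, LinearMap.mulRight_apply, LinearMap.mulLeft_apply]
    rw [Sa_mul, hS, hS]
  have h2 : (Sa k H : Module.End k H) * (Sa k H : Module.End k H) = 1 := by
    ext w
    simp only [Module.End.mul_apply, Module.End.one_apply]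
    exact hS w
  rw [h1, LinearMap.trace_mul_comm, mul_assoc, h2, mul_one, ← lam_Sa hS x]
  rfl

/-- `(λ ⊗ 1)(x ⊗ w) = λ(x) w` -/
private noncomputable def lamL (f : H →ₗ[k] k) : (H ⊗[k] H) →ₗ[k] H :=
  (TensorProduct.lid k H).toLinearMap ∘ₗ f.rTensor H

private theorem lamL_tmul (f : H →ₗ[k] k) (x w : H) : lamL f (x ⊗ₜ[k] w) = f x • w := by
  simp [lamL]

private theorem expand (t : H ⊗[k] H) : ∑ j, e k H j ⊗ₜ[k] lamL (ec k H j) t = t := by
  induction t using TensorProduct.induction_on with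
  | zero => simp
  | tmul x y =>
    simp only [lamL_tmul]
    conv_rhs => rw [← sum_ec (k := k) x, TensorProduct.sum_tmul]
    refine Finset.sum_congr rfl fun j _ => ?_
    rw [TensorProduct.tmul_smul, TensorProduct.smul_tmul']
  | add x y hx hy =>
    simp only [map_add, TensorProduct.tmul_add, Finset.sum_add_distrib]
    rw [hx, hy]

/-- `w ↦ (f ⊗ 1)(T (1 ⊗ w))` -/
private noncomputable def KK (T : Module.End k (H ⊗[k] H)) (f : H →ₗ[k] k) : Module.End k H :=
  lamL f ∘ₗ T ∘ₗ TensorProduct.mk k H H 1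

private theorem KK_apply (T : Module.End k (H ⊗[k] H)) (f : H →ₗ[k] k) (w : H) :
    KK T f w = lamL f (T ((1 : H) ⊗ₜ[k] w)) := rfl

private theorem trace_step [CharZero k] (hS : ∀ x : H, Sa k H (Sa k H x) = x)
    {T : Module.End k (H ⊗[k] H)} (hT : ∀ h, T * (rP (k := k) (H := H)) h = rP h * T) :
    LinearMap.trace k (H ⊗[k] H) T = LinearMap.trace k H (KK T (lam k H)) := by
  have h1 : T = ∑ j, TensorProduct.map (LinearMap.mulRight k (e k H j)) (KK T (ec k H j)) := by
    apply TensorProduct.ext'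
    intro x w
    have h2 : (x ⊗ₜ[k] w : H ⊗[k] H) = (rP (k := k) (H := H)) x ((1 : H) ⊗ₜ[k] w) := by
      rw [rP_tmul, mul_one]
    rw [h2]
    have h3 := congrArg (fun A : Module.End k (H ⊗[k] H) => A ((1 : H) ⊗ₜ[k] w)) (hT x)
    simp only [Module.End.mul_apply] at h3
    rw [h3]
    conv_lhs => rw [← expand (T ((1 : H) ⊗ₜ[k] w))]
    rw [← h2, map_sum, LinearMap.sum_apply]
    refine Finset.sum_congr rfl fun j _ => ?_
    rw [rP_tmul, TensorProduct.map_tmul, LinearMap.mulRight_apply, KK_apply]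
  have h4 : KK T (lam k H) = ∑ j, lam k H (e k H j) • KK T (ec k H j) := by
    ext w
    simp only [LinearMap.sum_apply, LinearMap.smul_apply, KK_apply]
    generalize T ((1 : H) ⊗ₜ[k] w) = t
    induction t using TensorProduct.induction_on with
    | zero => simp
    | tmul x y =>
      simp only [lamL_tmul]
      conv_lhs => rw [← sum_e (lam k H)]
      simp only [LinearMap.sum_apply, LinearMap.smul_apply, Finset.sum_smul, smul_eq_mul, mul_smul]
    | add x y hx hy =>
      simp only [map_add, smul_add, Finset.sum_add_distrib]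
      rw [hx, hy]
  rw [h4]
  conv_lhs => rw [h1]
  rw [map_sum, map_sum]
  refine Finset.sum_congr rfl fun j _ => ?_
  rw [LinearMap.trace_tensorProduct', map_smul, trace_mulRight hS, smul_eq_mul]

private theorem lamL_sP (hS : ∀ x : H, Sa k H (Sa k H x) = x) (f : H →ₗ[k] k)
    (z : H ⊗[k] H) :
    lamL (lam k H) ((sP (k := k) (H := H)) f z) = TT f (lamL (lam k H) z) := by
  induction z using TensorProduct.induction_on with
  | zero => simp
  | add x y hx hy => rw [map_add, map_add, hx, hy, map_add, map_add]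
  | tmul x w =>
    rw [sP_tmul, lamL_tmul, map_smul, sw3_eq]
    have e1 : lamL (lam k H) (sw2 k (fun a y => sw2 k (fun b c =>
        sw2 k (fun p q => f (a * (p * Sa k H c)) • (b ⊗ₜ[k] q)) w) y) x) =
        sw2 k (fun a y => sw2 k (fun b c => lam k H b •
          sw2 k (fun p q => f (a * (p * Sa k H c)) • q) w) y) x := by
      simp only [sw2, map_sum, map_smul, lamL_tmul, Finset.smul_sum]
      refine Finset.sum_congr rfl fun j _ => Finset.sum_congr rfl fun l _ =>
        Finset.sum_congr rfl fun q _ => ?_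
      rw [smul_comm]
    rw [e1]
    have e2 : ∀ a y : H, sw2 k (fun b c => lam k H b •
          sw2 k (fun p q => f (a * (p * Sa k H c)) • q) w) y =
        lam k H y • sw2 k (fun p q => f (a * (p * Sa k H 1)) • q) w := by
      intro a y
      exact lam_comul hS (f := fun c => sw2 k (fun p q => f (a * (p * Sa k H c)) • q) w)
        (lin_sw2 (G := fun c p q => f (a * (p * Sa k H c)) • q) (fun p q =>
          ⟨fun x y => by beta_reduce; rw [map_add, mul_add, mul_add, map_add, add_smul],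
            fun c x => by beta_reduce; rw [map_smul, mul_smul_comm, mul_smul_comm, map_smul,
              smul_eq_mul, mul_smul]⟩) w) y
    simp only [e2]
    have e3 := lam_comul' hS (f := fun a => sw2 k (fun p q => f (a * (p * Sa k H 1)) • q) w)
        (lin_sw2 (G := fun a p q => f (a * (p * Sa k H 1)) • q) (fun p q =>
          ⟨fun x y => by beta_reduce; rw [add_mul, map_add, add_smul],
            fun c x => by beta_reduce; rw [smul_mul_assoc, map_smul,
              smul_eq_mul, mul_smul]⟩) w) x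
    rw [e3, TT_apply]
    congr 1
    simp only [Sa_one, mul_one, one_mul]

private theorem sP_one_tmul (f : H →ₗ[k] k) (w : H) :
    (sP (k := k) (H := H)) f ((1 : H) ⊗ₜ[k] w) = (1 : H) ⊗ₜ[k] TT f w := by
  have hb : ∀ a : H, Bil2 k (fun b c : H =>
      sw2 k (fun p q => f (a * (p * Sa k H c)) • (b ⊗ₜ[k] q)) w) := by
    intro a
    refine ⟨fun c => ?_, fun b => ?_⟩
    · exact lin_sw2 (G := fun b p q => f (a * (p * Sa k H c)) • (b ⊗ₜ[k] q)) (fun p q =>
        ⟨fun x y => by beta_reduce; rw [TensorProduct.add_tmul, smul_add],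
          fun r x => by beta_reduce; rw [← TensorProduct.smul_tmul', smul_comm]⟩) w
    · exact lin_sw2 (G := fun c p q => f (a * (p * Sa k H c)) • (b ⊗ₜ[k] q)) (fun p q =>
        ⟨fun x y => by beta_reduce; rw [map_add, mul_add, mul_add, map_add, add_smul],
          fun r x => by beta_reduce; rw [map_smul, mul_smul_comm, mul_smul_comm, map_smul,
              smul_eq_mul, mul_smul]⟩) w
  rw [sP_tmul, sw3_eq, sw2_one, sw2_one (hb 1)]
  · simp only [Sa_one, mul_one, one_mul]
    rw [TT_apply]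
    simp only [sw2, TensorProduct.tmul_sum, TensorProduct.tmul_smul]
  · refine ⟨fun y => ?_, fun a => sw2_linear (hb a)⟩
    exact lin_sw2 (G := fun a b c => sw2 k (fun p q => f (a * (p * Sa k H c)) • (b ⊗ₜ[k] q)) w)
      (fun b c => lin_sw2 (G := fun a p q => f (a * (p * Sa k H c)) • (b ⊗ₜ[k] q)) (fun p q =>
        ⟨fun x y => by beta_reduce; rw [add_mul, map_add, add_smul],
          fun r x => by beta_reduce; rw [smul_mul_assoc, map_smul,
              smul_eq_mul, mul_smul]⟩) w) y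

private theorem KK_TT (hS : ∀ x : H, Sa k H (Sa k H x) = x)
    {T : Module.End k (H ⊗[k] H)} (hT : ∀ f, T * (sP (k := k) (H := H)) f = sP f * T)
    (f : H →ₗ[k] k) (w : H) : KK T (lam k H) (TT f w) = TT f (KK T (lam k H) w) := by
  rw [KK_apply, KK_apply, ← sP_one_tmul, ← lamL_sP hS]
  have h3 := congrArg (fun A : Module.End k (H ⊗[k] H) => A ((1 : H) ⊗ₜ[k] w)) (hT f)
  simp only [Module.End.mul_apply] at h3
  rw [h3]

private theorem ep_TT (f : H →ₗ[k] k) (u : H) : ep k H (TT f u) = f u := by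
  rw [TT_apply]
  have h1 : ep k H (sw2 k (fun a b => f a • b) u) = sw2 k (fun a b => ep k H b • f a) u := by
    simp only [sw2, map_sum, map_smul, smul_eq_mul]
    exact Finset.sum_congr rfl fun j _ => mul_comm _ _
  rw [h1]
  exact sw2_counit_right f.isLinear u

theorem trace_cenP [CharZero k] (hS : ∀ x : H, Sa k H (Sa k H x) = x)
    {T : Module.End k (H ⊗[k] H)} (hT : T ∈ cen (rP (k := k) (H := H)) sP) :
    LinearMap.trace k (H ⊗[k] H) T = lep k H (T (gP k H)) := by
  rw [trace_step hS hT.1]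
  set K : Module.End k H := KK T (lam k H) with hK
  have hKf : ∀ (f : H →ₗ[k] k) (w : H), f (K w) = ep k H (K (TT f w)) := by
    intro f w
    rw [hK, KK_TT hS hT.2, ep_TT]
  have hKw : ∀ w, K w = sw2 k (fun a b => ep k H (K b) • a) w := by
    intro w
    apply ext_of_dual (k := k)
    intro f
    rw [hKf, TT_apply]
    simp only [sw2, map_sum, map_smul, smul_eq_mul]
    exact Finset.sum_congr rfl fun j _ => mul_comm _ _
  have hSS : (Sa k H : Module.End k H) * (Sa k H : Module.End k H) = 1 := by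
    ext w
    simp only [Module.End.mul_apply, Module.End.one_apply]
    exact hS w
  have h5 : (Sa k H : Module.End k H) * (K * (Sa k H : Module.End k H)) =
      TT ((ep k H ∘ₗ K) ∘ₗ Sa k H) := by
    ext w
    simp only [Module.End.mul_apply]
    rw [hKw (Sa k H w), sw2_Sa, TT_apply]
    · simp only [sw2, map_sum, map_smul, LinearMap.comp_apply]
      refine Finset.sum_congr rfl fun j _ => ?_
      rw [hS]
    · refine ⟨fun b => ⟨fun x y => by beta_reduce; rw [smul_add], fun c x => by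
          beta_reduce; rw [smul_comm]⟩, fun a => ⟨fun x y => by
          beta_reduce; rw [map_add, map_add, add_smul], fun c x => by
          beta_reduce; rw [map_smul, map_smul, smul_eq_mul, mul_smul]⟩⟩
  have h6 : LinearMap.trace k H K = LinearMap.trace k H
      ((Sa k H : Module.End k H) * (K * (Sa k H : Module.End k H))) := by
    rw [LinearMap.trace_mul_comm, mul_assoc, hSS, mul_one]
  rw [h6, h5]
  have h7 := apply_Lam ((ep k H ∘ₗ K) ∘ₗ Sa k H)
  have h8 : LinearMap.trace k H (TT ((ep k H ∘ₗ K) ∘ₗ Sa k H)) =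
      ((ep k H ∘ₗ K) ∘ₗ Sa k H) (Lam k H) := h7.symm
  rw [h8, LinearMap.comp_apply, Sa_Lam hS, LinearMap.comp_apply, hK, KK_apply, gP]
  generalize T ((1 : H) ⊗ₜ[k] Lam k H) = t
  induction t using TensorProduct.induction_on with
  | zero => simp
  | tmul x y => rw [lamL_tmul, lep_tmul, map_smul, smul_eq_mul]
  | add x y hx hy => rw [map_add, map_add, map_add, hx, hy]

end Pool.Agent.KExp
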