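import Pool.Agent.Lib.KExp.Defs
import Pool.Agent.Lib.KOd.GDefs
import Pool.Agent.Lib.KOd.TF
import Pool.Agent.Lib.KOd.GTr
import Pool.Agent.Lib.KOd.GSep
import Pool.Agent.Lib.KOd.GEv

/-!
# KOd.GSS (MP_0d5e35_al, section 4, helper38)

semisimple_of_trace with `A = cen rP sP`, `V = H ⊗ H`, `ρ = (cen rP sP).val`. Let `T ∈ cen` with `Tr(T T') = 0` for all `T' ∈ cen`. For `x ∈ P`
take `T'` with `T' g = x` (cen_ev_surj); trace_cenP: `0 = (λ ⊗ ε)(T(T' g)) = (λ ⊗ ε)(T x)`. So `(λ ⊗ ε)(T x) = 0` for all `x`, hence for all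
`a`, `f`: `(λ ⊗ ε)(rP a (sP f (T x))) = (λ ⊗ ε)(T(rP a (sP f x))) = 0`; lep_sep: `T x = 0`. trace_cen_eq: by cen_ev_zero and cen_ev_surj
`E : cen ≃ P`, `T ↦ T g`, is a linear equivalence with `E(T U) = T(E U)`; LinearMap.trace_conj'.
-/

set_option autoImplicit false

open scoped TensorProduct

namespace Pool.Agent.KExp

variable {k : Type} [Field k] {H : Type} [Ring H] [HopfAlgebra k H] [FiniteDimensional k H]

private theorem trace_conj_sub {B V : Type} [Ring B] [Algebra k B] [AddCommGroup V] [Module k V]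
    (S : Subalgebra k B) (E : S ≃ₗ[k] V) (f : Module.End k S) :
    LinearMap.trace k V (LinearEquiv.conj E f) = LinearMap.trace k S f :=
  LinearMap.trace_conj' (R := k) (M := S) (N := V) _ E

theorem cen_semisimple [CharZero k] (hS : ∀ x : H, Sa k H (Sa k H x) = x) :
    IsSemisimpleRing (cen (rP (k := k) (H := H)) sP) := by
  refine semisimple_of_trace (V := H ⊗[k] H) (cen (rP (k := k) (H := H)) sP).val ?_
  intro T hT
  obtain ⟨hT1, hT2⟩ := T.2
  have h1 : ∀ x : H ⊗[k] H, lep k H ((T : Module.End k (H ⊗[k] H)) x) = 0 := by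
    intro x
    obtain ⟨U, hU, hUx⟩ := cen_ev_surj hS x
    have h2 := hT ⟨U, hU⟩
    have h3 := trace_cenP hS (T * (⟨U, hU⟩ : cen (rP (k := k) (H := H)) sP)).2
    have h4 : (((T * (⟨U, hU⟩ : cen (rP (k := k) (H := H)) sP) :
        cen (rP (k := k) (H := H)) sP)) : Module.End k (H ⊗[k] H)) (gP k H) =
        (T : Module.End k (H ⊗[k] H)) x := by
      rw [← hUx]
      rfl
    rw [h4] at h3
    rw [← h3]
    exact h2
  apply Subtype.ext
  apply LinearMap.ext
  intro x
  change (T : Module.End k (H ⊗[k] H)) x = 0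
  refine lep_sep hS fun a f => ?_
  have h5 : rP (k := k) (H := H) a (sP f ((T : Module.End k (H ⊗[k] H)) x)) =
      (T : Module.End k (H ⊗[k] H)) (rP (k := k) (H := H) a (sP f x)) := by
    have e1 := LinearMap.congr_fun (hT2 f) x
    have e2 := LinearMap.congr_fun (hT1 a) (sP f x)
    rw [Module.End.mul_apply, Module.End.mul_apply] at e1 e2
    rw [e2, e1]
  rw [h5]
  exact h1 _

theorem trace_cen_eq [CharZero k] (hS : ∀ x : H, Sa k H (Sa k H x) = x)
    (T : cen (rP (k := k) (H := H)) sP) :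
    LinearMap.trace k (H ⊗[k] H) (T : Module.End k (H ⊗[k] H)) =
      LinearMap.trace k (cen (rP (k := k) (H := H)) sP) (LinearMap.mulLeft k T) := by
  let L : cen (rP (k := k) (H := H)) sP →ₗ[k] (H ⊗[k] H) :=
    (LinearMap.applyₗ (R := k) (gP k H)) ∘ₗ (cen (rP (k := k) (H := H)) sP).val.toLinearMap
  have hL : ∀ U : cen (rP (k := k) (H := H)) sP, L U = (U : Module.End k (H ⊗[k] H)) (gP k H) :=
    fun U => rfl
  have hinj : Function.Injective L := by
    rw [injective_iff_map_eq_zero]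
    intro U hU
    exact Subtype.ext (cen_ev_zero hS U.2 (by rw [← hL, hU]))
  have hsurj : Function.Surjective L := by
    intro x
    obtain ⟨U, hU, hUx⟩ := cen_ev_surj hS x
    exact ⟨⟨U, hU⟩, hUx⟩
  let E := LinearEquiv.ofBijective L ⟨hinj, hsurj⟩
  have hE : ∀ U, E U = L U := fun U => rfl
  have hc : LinearMap.trace k (H ⊗[k] H) (LinearEquiv.conj E (LinearMap.mulLeft k T)) =
      LinearMap.trace k (cen (rP (k := k) (H := H)) sP) (LinearMap.mulLeft k T) :=
    trace_conj_sub (cen (rP (k := k) (H := H)) sP) E _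
  rw [← hc]
  congr 1
  apply LinearMap.ext
  intro x
  obtain ⟨U, rfl⟩ := E.surjective x
  rw [LinearEquiv.conj_apply_apply, LinearEquiv.symm_apply_apply, LinearMap.mulLeft_apply, hE, hE,
    hL, hL]
  rfl

end Pool.Agent.KExp
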