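import Pool.Agent.Lib.KExp.Defs
import Pool.Agent.Lib.KExp.LamInt
import Pool.Agent.Lib.KExp.PYD
import Pool.Agent.Lib.KOd.GDefs
import Pool.Agent.Lib.KOd.GSS
import Pool.Agent.Lib.KOd.GPi

/-!
# KOd.GWed (MP_0d5e35_al, section 4, helper38)

exists_wed: cen_semisimple, `IsSemisimpleRing.exists_algEquiv_pi_matrix_of_isAlgClosed`, trace_cen_eq and trace_mulLeft_pi.
theta_central: `θ = ∑ rP(e_i) sP(ec_i)` commutes with every element of `cen`, so `Φ θ` is central in `∏ M_{d i}(k)`; its `i`-th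
component commutes with all matrices (Pi.single i M), hence is a scalar (Matrix.mem_range_scalar_iff_commute_single or
Matrix.center_eq...).
-/

set_option autoImplicit false

open scoped TensorProduct

namespace Pool.Agent.KExp

variable {k : Type} [Field k] {H : Type} [Ring H] [HopfAlgebra k H] [FiniteDimensional k H]

theorem exists_wed [CharZero k] [IsAlgClosed k] (hS : ∀ x : H, Sa k H (Sa k H x) = x) :
    ∃ (n : ℕ) (d : Fin n → ℕ) (_ : ∀ i, NeZero (d i))
      (Φ : cen (rP (k := k) (H := H)) sP ≃ₐ[k] ((i : Fin n) → Matrix (Fin (d i)) (Fin (d i)) k)),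
      ∀ T : cen (rP (k := k) (H := H)) sP,
        LinearMap.trace k (H ⊗[k] H) (T : Module.End k (H ⊗[k] H)) =
          ∑ i, (d i : k) * (Φ T i).trace := by
  have := cen_semisimple (k := k) (H := H) hS
  obtain ⟨n, d, hd, ⟨Φ⟩⟩ := IsSemisimpleRing.exists_algEquiv_pi_matrix_of_isAlgClosed k
    (cen (rP (k := k) (H := H)) sP)
  exact ⟨n, d, hd, Φ, fun T => by rw [trace_cen_eq hS T, trace_mulLeft_pi Φ T]⟩

theorem theta_central (hS : ∀ x : H, Sa k H (Sa k H x) = x) {n : ℕ} {d : Fin n → ℕ}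
    (Φ : cen (rP (k := k) (H := H)) sP ≃ₐ[k] ((i : Fin n) → Matrix (Fin (d i)) (Fin (d i)) k)) :
    ∃ v : Fin n → k, ∀ i, Φ (thC hS (isYD_P hS)) i = v i • 1 := by
  have hcom : ∀ T : cen (rP (k := k) (H := H)) sP,
      thC hS (isYD_P hS) * T = T * thC hS (isYD_P hS) := by
    intro T
    apply Subtype.ext
    change theta rP sP * (T : Module.End k (H ⊗[k] H)) =
      (T : Module.End k (H ⊗[k] H)) * theta rP sP
    unfold theta
    rw [Finset.sum_mul, Finset.mul_sum]
    refine Finset.sum_congr rfl fun i _ => ?_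
    obtain ⟨h1, h2⟩ := T.2
    rw [mul_assoc, ← h2, ← mul_assoc, ← h1, mul_assoc]
  have hc2 : ∀ F : (i : Fin n) → Matrix (Fin (d i)) (Fin (d i)) k,
      Φ (thC hS (isYD_P hS)) * F = F * Φ (thC hS (isYD_P hS)) := by
    intro F
    have h := congrArg Φ (hcom (Φ.symm F))
    rw [map_mul, map_mul, AlgEquiv.apply_symm_apply] at h
    exact h
  have hex : ∀ i, ∃ c : k, Φ (thC hS (isYD_P hS)) i = c • 1 := by
    intro i
    have h1 : Φ (thC hS (isYD_P hS)) i ∈ Set.range (Matrix.scalar (Fin (d i)) : k →+* _) := by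
      rw [Matrix.mem_range_scalar_iff_commute_single']
      intro a b
      have h := congrFun (hc2 (Pi.single i (Matrix.single a b 1))) i
      rw [Pi.mul_apply, Pi.mul_apply, Pi.single_eq_same] at h
      exact h.symm
    obtain ⟨c, hc⟩ := h1
    refine ⟨c, ?_⟩
    rw [← hc, Matrix.scalar_apply, Matrix.smul_one_eq_diagonal]
  choose v hv using hex
  exact ⟨v, hv⟩

end Pool.Agent.KExp
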