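import Pool.Agent.Lib.KExp.Defs
import Pool.Agent.Lib.KExp.PYD
import Pool.Agent.Lib.KExp.ThetaPow
import Pool.Agent.Lib.KOd.GDefs
import Pool.Agent.Lib.KOd.GWed
import Pool.Agent.Lib.KOd.GSim
import Pool.Agent.Lib.KOd.GTau

/-!
# KOd.GEx (MP_0d5e35_al, section 5, helper38)

`Φ`, `d`, `v` from exists_wed, theta_central. There is `i` with `v_i^(N/p) ≠ 1`: otherwise `Φ(θ^(N/p)) = 1`, `θ_P^(N/p) = 1`, and
theta_P_pow contradicts `Q (N/p) ≠ Q 0`. Choose such an `i` with `padicValNat p (d i)` minimal (finite set) and `Y` from exists_sim; `δ = padicValNat p (d i)`.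
`v_i^N = 1`: theta_val_pow. Last claim: tau_div with `q = p^δ`: if `v_j = ζ^l` and `(ζ^l)^(N/p) ≠ 1` then `p^δ ∣ d j` by the choice
(`padicValNat` minimal, `pow_padicValNat_dvd`).
-/

set_option autoImplicit false

open scoped TensorProduct

namespace Pool.Agent.KExp

variable {k : Type} [Field k] {H : Type} [Ring H] [HopfAlgebra k H] [FiniteDimensional k H]

theorem exists_simple_min [CharZero k] [IsAlgClosed k] (hS : ∀ x : H, Sa k H (Sa k H x) = x)
    {N p : ℕ} (hN : 0 < N) (hp : p.Prime) (hQ : Q k H N = Q k H 0)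
    (hQp : Q k H (N / p) ≠ Q k H 0) :
    ∃ (Y : Type) (_ : AddCommGroup Y) (_ : Module k Y) (_ : FiniteDimensional k Y)
      (ρ : H →ₐ[k] Module.End k Y) (σ : (H →ₗ[k] k) →ₗ[k] Module.End k Y) (v : k),
      IsYD ρ σ ∧ 0 < Module.finrank k Y ∧ theta ρ σ = v • 1 ∧ v ^ N = 1 ∧ v ^ (N / p) ≠ 1 ∧
      Schur ρ σ ∧ ∀ (ζ : k) (t : ℕ → k), IsPrimitiveRoot ζ N → (∀ n, Tn n ρ σ = t n • 1) →
        ∀ i : ℕ, (ζ ^ i) ^ (N / p) ≠ 1 →
          IsIntegral ℤ (((p : k) ^ padicValNat p (Module.finrank k Y))⁻¹ *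
            ((N : k)⁻¹ * ∑ l ∈ Finset.range N, ((ζ ^ i)⁻¹) ^ l * t l)) := by
  classical
  obtain ⟨n, d, hd, Φ, htr⟩ := exists_wed (k := k) (H := H) hS
  have : ∀ i, NeZero (d i) := hd
  obtain ⟨v, hv⟩ := theta_central hS Φ
  have hvN : ∀ i, v i ^ N = 1 := fun i => theta_val_pow hS hQ Φ hv i
  have hex : ∃ i, v i ^ (N / p) ≠ 1 := by
    by_contra hcon
    push Not at hcon
    apply hQp
    apply theta_P_pow hS
    have h1 : Φ ((thC hS (isYD_P hS)) ^ (N / p)) = 1 := by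
      rw [map_pow]
      funext i
      rw [Pi.pow_apply, hv i, smul_pow, one_pow, hcon i, one_smul]
      rfl
    have h2 : (thC hS (isYD_P hS)) ^ (N / p) = 1 := by
      apply Φ.injective
      rw [h1, map_one]
    have h3 := congrArg (fun T : cen (rP (k := k) (H := H)) sP =>
      (T : Module.End k (H ⊗[k] H))) h2
    simpa [coe_thC] using h3
  obtain ⟨i, hi, hmin⟩ := (Finset.univ.filter (fun i => v i ^ (N / p) ≠ 1)).exists_min_image
    (fun i => padicValNat p (d i)) (by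
      obtain ⟨i, hi⟩ := hex
      exact ⟨i, by rw [Finset.mem_filter]; exact ⟨Finset.mem_univ _, hi⟩⟩)
  rw [Finset.mem_filter] at hi
  obtain ⟨Y, a1, a2, a3, ρ, σ, hY, hfr, hth, hsch⟩ := exists_sim hS Φ htr hv i
  have hpos : 0 < Module.finrank k Y := by
    rw [hfr]
    exact Nat.pos_of_ne_zero (NeZero.ne _)
  refine ⟨Y, a1, a2, a3, ρ, σ, v i, hY, hpos, hth, hvN i, hi.2, hsch, ?_⟩
  intro ζ t hζ ht j hj
  have h := tau_div hS hN hQ hY hpos hsch hζ t ht Φ hv (q := p ^ padicValNat p (d i))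
    (pow_pos hp.pos _) j (by
      intro l hl
      have h1 : v l ^ (N / p) ≠ 1 := by
        rw [hl]
        exact hj
      have hle := hmin l (by rw [Finset.mem_filter]; exact ⟨Finset.mem_univ _, h1⟩)
      exact (pow_dvd_pow p hle).trans pow_padicValNat_dvd)
  rw [hfr]
  rw [Nat.cast_pow] at h
  exact h

end Pool.Agent.KExp
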