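import Pool.Agent.Lib.KExp.Defs
import Pool.Agent.Lib.KExp.CntA
import Pool.Agent.Lib.KExp.CntB
import Pool.Agent.Lib.KExp.CntC

/-!
# KOd.Kl2 (MP_0d5e35_al, helper38: variant of the file of Lib/KExp with an additional exponent `e`)
(MP_0d5e35_al, paper /team-store/MP_0d5e35_al_paper38.md)

The bounds. `a = 2c`: `s = 1, u = 2, w = 1`: `p^{2c} | m p^c`, so `p^c | m`, `a = 2c ≤ 2 v_p(m)`.
`a = 2c+1`, `c ≥ 1`, `p` odd: `p^{2c+1} | m (p^c - 2p^c)`, so `p^{c+1} | m`, `a ≤ 2 v_p(m)`. `a = 1`: `s = 0, u = 0, w = 1`: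
`p | m`. `p = 2`, `a = 2c+1`, `c ≥ 2`: `2^{2c+1} | m 2^{c+1}`, `2^c | m`; `a = 3`: `8 | 4m` (`s = -1, u = 0, w = 1`).
-/

set_option autoImplicit false

open scoped TensorProduct

namespace Pool.Agent.KExp


private theorem le_val {p m i j : ℕ} (hp : p.Prime) (hm : 0 < m)
    (h : ((p : ℤ) ^ (i + j)) ∣ (m : ℤ) * (p : ℤ) ^ j) : i ≤ padicValNat p m := by
  have h1 : p ^ (i + j) ∣ m * p ^ j := by exact_mod_cast h
  rw [pow_add] at h1
  have h2 : p ^ i ∣ m := Nat.dvd_of_mul_dvd_mul_right (pow_pos hp.pos j) h1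
  have := Fact.mk hp
  exact (padicValNat_dvd_iff_le hm.ne').mp h2

private theorem unit_one_sub {c : ℕ} (hc : 2 ≤ c) :
    IsUnit (1 - 2 ^ (2 * c - 2) : ZMod (2 ^ (2 * c + 1))) := by
  have h1 : IsNilpotent ((2 : ZMod (2 ^ (2 * c + 1))) ^ (2 * c - 2)) := by
    refine ⟨2 * c + 1, ?_⟩
    have h2 : (2 : ZMod (2 ^ (2 * c + 1))) ^ (2 * c + 1) = 0 := by
      have h3 := ZMod.natCast_self (2 ^ (2 * c + 1))
      push_cast at h3
      exact h3
    rw [← pow_mul, mul_comm (2 * c - 2), pow_mul, h2, zero_pow (by omega)]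
  exact h1.isUnit_one_sub

theorem kl_bound_gen {p a m e : ℕ} (hp : p.Prime) (ha : 2 ≤ a) (hm : 0 < m)
    (h : ∀ s u w : ZMod (p ^ a), IsUnit s → ((p : ℤ) ^ (a + e)) ∣ (m : ℤ) *
      (klc (p ^ a) s u - klc (p ^ a) s (u + w * (p : ZMod (p ^ a)) ^ (a - 1)))) :
    (p ≠ 2 → a + 2 * e ≤ 2 * padicValNat p m) ∧ a + 2 * e ≤ 2 * padicValNat p m + 1 := by
  rcases Nat.even_or_odd' a with ⟨c, rfl | rfl⟩
  · have hc : 0 < c := by omega
    have h1 := h 1 2 1 isUnit_one
    rw [klc_even_two hp hc, one_mul, klc_even_off hp hc, sub_zero] at h1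
    have h2 : c + e ≤ padicValNat p m :=
      le_val hp hm (i := c + e) (j := c) (by
        have e2 : c + e + c = 2 * c + e := by ring
        rw [e2]
        exact h1)
    exact ⟨fun _ => by omega, by omega⟩
  · have hc : 0 < c := by omega
    by_cases hp2 : p = 2
    · subst hp2
      refine ⟨fun hne => absurd rfl hne, ?_⟩
      rcases Nat.lt_or_ge c 2 with hc2 | hc2
      · have hc1 : c = 1 := by omega
        subst hc1
        have h1 := h (-1) 0 1 isUnit_one.neg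
        have e1 : (0 + 1 * ((2 : ℕ) : ZMod (2 ^ (2 * 1 + 1))) ^ (2 * 1 + 1 - 1)) = 4 := by
          norm_num
        rw [e1] at h1
        have e2 : klc (2 ^ (2 * 1 + 1)) (-1) 0 = 4 := klc_eight.1
        have e3 : klc (2 ^ (2 * 1 + 1)) (-1) 4 = 0 := klc_eight.2
        rw [e2, e3] at h1
        have h2 : 1 + e ≤ padicValNat 2 m := by
          refine le_val hp hm (i := 1 + e) (j := 2) ?_
          have h3 : (m : ℤ) * (4 - 0) = (m : ℤ) * ((2 : ℕ) : ℤ) ^ 2 := by norm_num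
          rw [h3] at h1
          have e4 : 1 + e + 2 = 2 * 1 + 1 + e := by ring
          rw [e4]
          exact h1
        omega
      · have h1 := h (1 - 2 ^ (2 * c - 2)) 2 1 (unit_one_sub hc2)
        have e1 : (2 + 1 * ((2 : ℕ) : ZMod (2 ^ (2 * c + 1))) ^ (2 * c + 1 - 1)) =
            2 + 2 ^ (2 * c) := by
          rw [one_mul, Nat.add_sub_cancel, Nat.cast_ofNat]
        rw [e1, klc_two_on hc2, klc_two_off hc2, sub_zero] at h1
        have h2 : c + e ≤ padicValNat 2 m := by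
          refine le_val hp hm (i := c + e) (j := c + 1) ?_
          have e2 : c + e + (c + 1) = 2 * c + 1 + e := by ring
          rw [e2]
          exact_mod_cast h1
        omega
    · have h1 := h 1 2 1 isUnit_one
      have e1 : (2 + 1 * (p : ZMod (p ^ (2 * c + 1))) ^ (2 * c + 1 - 1)) =
          2 + (p : ZMod (p ^ (2 * c + 1))) ^ (2 * c) := by
        rw [one_mul, Nat.add_sub_cancel]
      rw [e1, klc_odd_two hp hc, klc_odd_off hp hp2 hc] at h1
      have h2 : c + 1 + e ≤ padicValNat p m := by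
        refine le_val hp hm (i := c + 1 + e) (j := c) ?_
        have e2 : c + 1 + e + c = 2 * c + 1 + e := by ring
        rw [e2]
        have h3 : (m : ℤ) * ((p : ℤ) ^ c - 2 * (p : ℤ) ^ c) = -((m : ℤ) * (p : ℤ) ^ c) := by ring
        rw [h3, dvd_neg] at h1
        exact h1
      exact ⟨fun _ => by omega, by omega⟩

end Pool.Agent.KExp
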