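import Pool.Agent.Lib.KExp.Defs
import Pool.Agent.Lib.KExp.QPow
import Pool.Agent.Lib.KExp.LamInt
import Pool.Agent.Lib.KExp.Theta
import Pool.Agent.Lib.KExp.ThetaPow
import Pool.Agent.Lib.KExp.TnPtr
import Pool.Agent.Lib.KExp.Integ
import Pool.Agent.Lib.KExp.Four
import Pool.Agent.Lib.KExp.Rot
import Pool.Agent.Lib.KExp.Gal
import Pool.Agent.Lib.KExp.Tk
import Pool.Agent.Lib.KExp.T0
import Pool.Agent.Lib.KOd.GDefs
import Pool.Agent.Lib.KOd.GEx
import Pool.Agent.Lib.KOd.KInt2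
import Pool.Agent.Lib.KOd.CoefDiv2
import Pool.Agent.Lib.KOd.Kl2

/-!
# KOd.GBound (MP_0d5e35_al, section 5, helper38)

The bound of section 4 for a simple Yetter-Drinfeld module of minimal `p`-part of the dimension: assembly as in KExp.AlgCl, with exists_simple_min,
kint_unit, coef_div_gen and kl_bound_gen.
-/

set_option autoImplicit false

open scoped TensorProduct

namespace Pool.Agent.KExp

variable {k : Type} [Field k] {H : Type} [Ring H] [HopfAlgebra k H] [FiniteDimensional k H]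

theorem simple_bound [IsAlgClosed k] [CharZero k] (hS : ∀ x : H, Sa k H (Sa k H x) = x)
    {N : ℕ} (hN : 0 < N) (hQ : Q k H N = Q k H 0) (hmin : ∀ n, 0 < n → Q k H n = Q k H 0 → N ≤ n)
    {p a N' : ℕ} (hp : p.Prime) (ha : 0 < a) (hNa : N = p ^ a * N') (hpN' : ¬ p ∣ N') :
    ∃ (Y : Type) (_ : AddCommGroup Y) (_ : Module k Y) (_ : FiniteDimensional k Y)
      (ρ : H →ₐ[k] Module.End k Y) (σ : (H →ₗ[k] k) →ₗ[k] Module.End k Y) (v : k),
      IsYD ρ σ ∧ 0 < Module.finrank k Y ∧ theta ρ σ = v • 1 ∧ v ^ N = 1 ∧ v ^ (N / p) ≠ 1 ∧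
      (2 ≤ a →
        (p ≠ 2 → a + 2 * padicValNat p (Module.finrank k Y) ≤
          2 * padicValNat p (Module.finrank k H)) ∧
        a + 2 * padicValNat p (Module.finrank k Y) ≤
          2 * padicValNat p (Module.finrank k H) + 1) := by
  have hN'0 : 0 < N' := by
    rcases Nat.eq_zero_or_pos N' with h | h
    · rw [h, mul_zero] at hNa
      omega
    · exact h
  have hpN : p ∣ N := by
    rw [hNa]
    exact Dvd.dvd.mul_right (dvd_pow_self p ha.ne') N'
  have hQp : Q k H (N / p) ≠ Q k H 0 := by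
    intro h
    have h1 : 0 < N / p := Nat.div_pos (Nat.le_of_dvd hN hpN) hp.pos
    have h2 := hmin _ h1 h
    have h3 : N / p < N := Nat.div_lt_self hN hp.one_lt
    omega
  obtain ⟨Y, i1, i2, i3, ρ, σ, v, hY, hd, hθ, hvN, hvp, hschur, hτd⟩ :=
    exists_simple_min hS hN hp hQ hQp
  refine ⟨Y, i1, i2, i3, ρ, σ, v, hY, hd, hθ, hvN, hvp, fun ha2 => ?_⟩
  have hT : ∀ n, ∃ c : k, Tn n ρ σ = c • 1 := fun n =>
    hschur (Tn n ρ σ) (Tn_rho hS hY n) (Tn_sigma hS hY n)
  choose t ht using hT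
  have htr : ∀ n, LinearMap.trace k Y (Tn n ρ σ) = (Module.finrank k Y : k) * t n := by
    intro n
    rw [ht n, map_smul, LinearMap.trace_one, smul_eq_mul, mul_comm]
  have hd0 : (Module.finrank k Y : k) ≠ 0 := Nat.cast_ne_zero.2 hd.ne'
  have hper : ∀ n, t (n + N) = t n := by
    intro n
    have h1 : Tn (n + N) ρ σ = Tn n ρ σ := by
      unfold Tn
      rw [Q_period hQ n]
    have h2 := htr (n + N)
    rw [h1, htr n] at h2
    exact (mul_left_cancel₀ hd0 h2).symm
  obtain ⟨ζ, hζ⟩ : ∃ ζ : k, IsPrimitiveRoot ζ N := by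
    have : NeZero ((N : ℕ) : k) := ⟨Nat.cast_ne_zero.2 hN.ne'⟩
    obtain ⟨x, hx⟩ := IsAlgClosed.exists_root (Polynomial.cyclotomic N k) (by
      rw [Polynomial.degree_cyclotomic]
      have := Nat.totient_pos.2 hN
      exact_mod_cast this.ne')
    exact ⟨x, Polynomial.isRoot_cyclotomic_iff.1 hx⟩
  have hτ := fun i => tau_integral hS hN hQ hY hd hζ t ht i
  set τ : ℕ → k := fun i => (N : k)⁻¹ * ∑ n ∈ Finset.range N, ((ζ ^ i)⁻¹) ^ n * t n with hτd'
  have htf : ∀ n, t n = ∑ i ∈ Finset.range N, ζ ^ (i * n) * τ i := fun n =>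
    fourier_inv hN hζ t hper n
  have hti : ∀ n, (Module.finrank k Y : k) * t n ∈ Algebra.adjoin ℤ ({ζ} : Set k) := by
    intro n
    rw [htf n, Finset.mul_sum]
    refine Subalgebra.sum_mem _ fun i _ => ?_
    have h1 : (Module.finrank k Y : k) * (ζ ^ (i * n) * τ i) =
        ζ ^ (i * n) * ((Module.finrank k Y : k) * τ i) := by ring
    rw [h1]
    exact Subalgebra.mul_mem _
      (Subalgebra.pow_mem _ (Algebra.subset_adjoin (Set.mem_singleton _)) _) (hτ i).2
  have hv0 : v ≠ 0 := by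
    intro h
    rw [h, zero_pow hN.ne'] at hvN
    exact zero_ne_one hvN
  have hE : ∀ n, 0 < n → ∃ (V : Type) (_ : AddCommGroup V) (_ : Module k V)
      (_ : FiniteDimensional k V) (E : Module.End k V), E ^ n = v⁻¹ • 1 ∧
      Module.finrank k V = Module.finrank k Y * Module.finrank k H ^ (n - 1) ∧
      (Module.finrank k H : k) * LinearMap.trace k V E = (Module.finrank k Y : k) * t n := by
    intro n hn
    obtain ⟨V, i1, i2, i3, E, h1, h2, h3⟩ := rotation hS hY hv0 hθ hn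
    exact ⟨V, i1, i2, i3, E, h1, h2, by rw [h3, htr n]⟩
  have hm : 0 < Module.finrank k H := finrank_pos_H (k := k) (H := H)
  have h1 : ∀ r r' : ℕ, r * r' ≡ 1 [MOD N] → t r * v ^ r' = (Module.finrank k H : k) :=
    fun r r' h => Tk_value hN hd hm hζ t hper hti hvN hE h
  have h0 : ∀ n, 0 < n → p ∣ n → t n = 0 := fun n hn hpn =>
    T0_value hN hd hm hp hpN hζ t hti hvN hvp hE hn hpn
  obtain ⟨η, hη, hηs⟩ := kint_unit (m := Module.finrank k H)
    (e := padicValNat p (Module.finrank k Y)) hp ha hNa hN'0 hpN' hζ t τ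
    (fun i hi => hτd ζ t hζ ht i hi) htf hvN hvp h1 h0
  exact kl_bound_gen hp ha2 hm fun s u w hs =>
    coef_div_gen hp ha hη (fun u => klc (p ^ a) s u) (hηs s hs) u w

end Pool.Agent.KExp
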