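import Pool.Agent.Lib.KExp.Defs
import Pool.Agent.Lib.KExp.Sw
import Pool.Agent.Lib.KExp.CE
import Pool.Agent.Lib.KExp.Theta
import Pool.Agent.Lib.KExp.DetA
import Pool.Agent.Lib.KOd.Defs
import Pool.Agent.Lib.KOd.RopUnit

/-!
# KOd.ThDet (MP_0d5e35_al, paper /team-store/MP_0d5e35_al_paper77.md)

(1.1), (1.2). On `H ⊗ X`: `Xi = Rop Dreg ρ : x ⊗ y ↦ x₂ ⊗ x₁ y`, `Ps = Lop σ : x ⊗ y ↦ y₍₋₁₎ x ⊗ y₍₀₎`. Let `s = S ⊗ 1`, `s s = 1`, `det s * det s = 1`,
`Th' = ∑_j mulRight(e_j) ⊗ σ(e^j) : x ⊗ y ↦ x y₍₋₁₎ ⊗ y₍₀₎`, `Xi' = ∑_j Dreg(e^j) ⊗ ρ(S e_j) : x ⊗ y ↦ x₂ ⊗ S(x₁) y`, `Th = s Xi' s : x ⊗ y ↦ x₁ ⊗ x₂ y`.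
(i) `Xi Xi' = 1` (`x₃ ⊗ x₂ S(x₁) y`, S² = 1). (ii) `Th' (s Ps s) = 1`: `s Ps s (x ⊗ y) = x S(y₍₋₁₎) ⊗ y₍₀₎` (`mulRight(e_j) S mulLeft(e_i) S x = x S(e_i) e_j`,
`σ(e^j) σ(e^i) = σ(cv e^i e^j)`, ce_cv, sw2_S_mul). (iii) `Th Th' = Ps Xi (1 ⊗ θ)`: left `x ⊗ y ↦ (x y₋₂)₁ ...= x₁ y₍₋₁₎ ⊗ x₂ θ(y₍₀₎)`, i.e.
`Th Th' (x ⊗ y) = ∑_{i} ∑ x₁ e_i ⊗ ρ(x₂) θ σ(e^i) y` (sw2_mul, `∑ (e_j)₁ ⊗ ρ((e_j)₂) σ(e^j) = ∑_{i,l} e_i ⊗ ρ(e_l) σ(e^l) σ(e^i)`, ce_cv);
right: `Ps Xi (1 ⊗ θ)(x ⊗ y) = ∑_i ∑ e_i x₂ ⊗ σ(e^i) ρ(x₁) θ y`, Yetter-Drinfeld `σ(e^i) ρ(h) = ∑ ρ(h₂) σ(tw e^i h₁ S(h₃))`, ce_lin: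
`∑_i ∑ x₁ e_i S(x₃) x₄ ⊗ ρ(x₂) σ(e^i) θ y = ∑_i ∑ x₁ e_i ⊗ ρ(x₂) σ(e^i) θ y`, `σ(e^i) θ = θ σ(e^i)` (theta_sigma).
(iv) `θ = v`: `det (1 ⊗ θ) = v^(m d)` (det_map of KExp.DetA, `LinearMap.det_smul`). From (i) `det Xi det Xi' = 1`, `det Th = det Xi'`, (ii) `det Th' det Ps = 1`,
(iii) `det Th det Th' = det Ps det Xi v^(m d)`; multiply by `det Xi det Ps`: `1 = (det Xi det Ps)^2 v^(m d)`.
-/

set_option autoImplicit false

open scoped TensorProduct

namespace Pool.Agent.KExp

variable {k : Type} [Field k] {H : Type} [Ring H] [HopfAlgebra k H] [FiniteDimensional k H]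

variable {X : Type} [AddCommGroup X] [Module k X] [FiniteDimensional k X]
  {ρ : H →ₐ[k] Module.End k X} {σ : (H →ₗ[k] k) →ₗ[k] Module.End k X}

/-- `x ⊗ y ↦ x₂ ⊗ S(x₁) y` -/
private noncomputable def Xi' (ρ : H →ₐ[k] Module.End k X) : Module.End k (H ⊗[k] X) :=
  ∑ j, TensorProduct.map (D k H j) (ρ (Sa k H (e k H j)))

/-- `x ⊗ y ↦ x y₍₋₁₎ ⊗ y₍₀₎` -/
private noncomputable def Th' (σ : (H →ₗ[k] k) →ₗ[k] Module.End k X) :
    Module.End k (H ⊗[k] X) :=
  ∑ j, TensorProduct.map (LinearMap.mulRight k (e k H j)) (σ (ec k H j))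

/-- `S ⊗ 1` -/
private noncomputable def ss : Module.End k (H ⊗[k] X) :=
  TensorProduct.map (Sa k H) (1 : Module.End k X)

omit [FiniteDimensional k X] in
private theorem Xi_tmul (x : H) (y : X) :
    Rop (Dreg k H) ρ (x ⊗ₜ[k] y) = sw2 k (fun a b => b ⊗ₜ[k] ρ a y) x := by
  unfold Rop
  rw [LinearMap.sum_apply]
  rfl

omit [FiniteDimensional k X] in
private theorem Xi'_tmul (x : H) (y : X) :
    Xi' ρ (x ⊗ₜ[k] y) = sw2 k (fun a b => b ⊗ₜ[k] ρ (Sa k H a) y) x := by
  unfold Xi'
  rw [LinearMap.sum_apply]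
  rfl

omit [FiniteDimensional k X] in
private theorem Th'_tmul (x : H) (y : X) :
    Th' σ (x ⊗ₜ[k] y) = ∑ j, (x * e k H j) ⊗ₜ[k] σ (ec k H j) y := by
  unfold Th'
  rw [LinearMap.sum_apply]
  rfl

omit [FiniteDimensional k X] in
private theorem Ps_tmul (x : H) (y : X) :
    Lop σ (x ⊗ₜ[k] y) = ∑ j, (e k H j * x) ⊗ₜ[k] σ (ec k H j) y := by
  unfold Lop
  rw [LinearMap.sum_apply]
  rfl

omit [FiniteDimensional k X] in
private theorem map_sw2' {P Q : Type} [AddCommGroup P] [Module k P] [AddCommGroup Q] [Module k Q]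
    (F : P →ₗ[k] Q) (G : H → H → P) (x : H) :
    F (sw2 k G x) = sw2 k (fun a b => F (G a b)) x := by
  unfold sw2
  rw [map_sum]

omit [FiniteDimensional k X] in
private theorem Th_tmul (hS : ∀ x : H, Sa k H (Sa k H x) = x) (x : H) (y : X) :
    (ss * Xi' ρ * ss : Module.End k (H ⊗[k] X)) (x ⊗ₜ[k] y) =
      sw2 k (fun a b => a ⊗ₜ[k] ρ b y) x := by
  change ss (Xi' ρ (Sa k H x ⊗ₜ[k] y)) = _
  rw [Xi'_tmul, sw2_Sa, map_sw2']
  · refine congrArg (fun F => sw2 k F x) (funext fun a => funext fun b => ?_)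
    change Sa k H (Sa k H a) ⊗ₜ[k] ρ (Sa k H (Sa k H b)) y = _
    rw [hS, hS]
  · refine ⟨fun b => ⟨fun x y => ?_, fun c x => ?_⟩, fun a => ⟨fun x y => ?_, fun c x => ?_⟩⟩
    all_goals beta_reduce
    · rw [map_add, map_add, LinearMap.add_apply, TensorProduct.tmul_add]
    · rw [map_smul, map_smul, LinearMap.smul_apply, TensorProduct.tmul_smul]
    · rw [TensorProduct.add_tmul]
    · rw [TensorProduct.smul_tmul']

omit [FiniteDimensional k X] in
private theorem Xi_mul (hS : ∀ x : H, Sa k H (Sa k H x) = x) :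
    Rop (Dreg k H) ρ * Xi' ρ = 1 := by
  refine TensorProduct.ext' fun x y => ?_
  change Rop (Dreg k H) ρ (Xi' ρ (x ⊗ₜ[k] y)) = x ⊗ₜ[k] y
  rw [Xi'_tmul, map_sw2']
  simp only [Xi_tmul]
  have h1 := sw2_assoc (k := k) (H := H) (F := fun a c d => d ⊗ₜ[k] ρ c (ρ (Sa k H a) y))
    ⟨fun b c => ⟨fun x y => by
        beta_reduce; rw [map_add, map_add, LinearMap.add_apply, map_add, TensorProduct.tmul_add],
      fun r x => by
        beta_reduce
        rw [map_smul, map_smul, LinearMap.smul_apply, map_smul, TensorProduct.tmul_smul]⟩,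
      fun b c => ⟨fun x y => by
        beta_reduce; rw [map_add, LinearMap.add_apply, TensorProduct.tmul_add],
      fun r x => by
        beta_reduce; rw [map_smul, LinearMap.smul_apply, TensorProduct.tmul_smul]⟩,
      fun b c => ⟨fun x y => by beta_reduce; rw [TensorProduct.add_tmul],
      fun r x => by beta_reduce; rw [TensorProduct.smul_tmul']⟩⟩ x
  rw [sw3_eq] at h1
  rw [← h1]
  have h2 : ∀ z d : H, sw2 k (fun a c => d ⊗ₜ[k] ρ c (ρ (Sa k H a) y)) z =
      ep k H z • (d ⊗ₜ[k] y) := by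
    intro z d
    have h3 := sw2_mul_S' hS (f := fun t : H => d ⊗ₜ[k] ρ t y)
      ⟨fun x y => by rw [map_add, LinearMap.add_apply, TensorProduct.tmul_add],
        fun r x => by rw [map_smul, LinearMap.smul_apply, TensorProduct.tmul_smul]⟩ z
    rw [map_one] at h3
    rw [Module.End.one_apply] at h3
    rw [← h3]
    refine congrArg (fun F => sw2 k F z) (funext fun a => funext fun b => ?_)
    rw [map_mul]
    rfl
  simp only [h2]
  exact sw2_counit_left (f := fun d : H => d ⊗ₜ[k] y)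
    ⟨fun x y => by rw [TensorProduct.add_tmul],
      fun r x => by rw [TensorProduct.smul_tmul']⟩ x

omit [FiniteDimensional k X] in
private theorem Th'_mul (hS : ∀ x : H, Sa k H (Sa k H x) = x) (hX : IsYD ρ σ) :
    Th' σ * (ss * Lop σ * ss) = 1 := by
  refine TensorProduct.ext' fun x y => ?_
  change Th' σ (ss (Lop σ (Sa k H x ⊗ₜ[k] y))) = x ⊗ₜ[k] y
  rw [Ps_tmul, map_sum, map_sum]
  have h1 : ∀ i, Th' σ (ss ((e k H i * Sa k H x) ⊗ₜ[k] σ (ec k H i) y)) =
      ∑ j, (x * (Sa k H (e k H i) * e k H j)) ⊗ₜ[k] σ (cv (ec k H i) (ec k H j)) y := by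
    intro i
    change Th' σ (Sa k H (e k H i * Sa k H x) ⊗ₜ[k] σ (ec k H i) y) = _
    rw [Sa_mul, hS, Th'_tmul]
    refine Finset.sum_congr rfl fun j _ => ?_
    rw [← hX.mul, mul_assoc]
    rfl
  rw [Finset.sum_congr rfl fun i _ => h1 i]
  have h2 := ce_cv (k := k) (H := H)
    (G := fun a b f => (x * (Sa k H a * b)) ⊗ₜ[k] σ f y)
    (fun b f => ⟨fun x y => by
        rw [map_add, add_mul, mul_add, TensorProduct.add_tmul], fun r x => by
        rw [map_smul, smul_mul_assoc, mul_smul_comm, TensorProduct.smul_tmul']⟩)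
    (fun a f => ⟨fun x y => by
        rw [mul_add, mul_add, TensorProduct.add_tmul], fun r x => by
        rw [mul_smul_comm, mul_smul_comm, TensorProduct.smul_tmul']⟩)
    (fun a b => ⟨fun x y => by
        rw [map_add, LinearMap.add_apply, TensorProduct.tmul_add], fun r x => by
        rw [map_smul, LinearMap.smul_apply, TensorProduct.tmul_smul]⟩)
  rw [h2]
  have h3 : ∀ i, sw2 k (fun a b => (x * (Sa k H a * b)) ⊗ₜ[k] σ (ec k H i) y) (e k H i) =
      x ⊗ₜ[k] σ (ep k H (e k H i) • ec k H i) y := by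
    intro i
    have h4 := sw2_S_mul (k := k) (f := fun t : H => (x * t) ⊗ₜ[k] σ (ec k H i) y)
      ⟨fun x y => by rw [mul_add, TensorProduct.add_tmul],
        fun r x => by rw [mul_smul_comm, TensorProduct.smul_tmul']⟩ (e k H i)
    rw [mul_one] at h4
    rw [h4, map_smul, LinearMap.smul_apply, TensorProduct.tmul_smul]
  rw [Finset.sum_congr rfl fun i _ => h3 i, ← TensorProduct.tmul_sum, ← LinearMap.sum_apply,
    ← map_sum, sum_e, hX.one]
  rfl

omit [FiniteDimensional k X] in
private theorem Th_mul (hS : ∀ x : H, Sa k H (Sa k H x) = x) (hX : IsYD ρ σ) :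
    (ss * Xi' ρ * ss) * Th' σ =
      Lop σ * Rop (Dreg k H) ρ * TensorProduct.map (1 : Module.End k H) (theta ρ σ) := by
  refine TensorProduct.ext' fun x y => ?_
  have hl : (ss * Xi' ρ * ss * Th' σ : Module.End k (H ⊗[k] X)) (x ⊗ₜ[k] y) =
      sw2 k (fun a b => ∑ i, (a * e k H i) ⊗ₜ[k] ρ b (theta ρ σ (σ (ec k H i) y))) x := by
    rw [Module.End.mul_apply, Th'_tmul, map_sum]
    simp only [Th_tmul hS]
    have h1 : ∀ j, sw2 k (fun a b => a ⊗ₜ[k] ρ b (σ (ec k H j) y)) (x * e k H j) =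
        sw2 k (fun a b => sw2 k (fun a' b' => (a * a') ⊗ₜ[k] ρ (b * b') (σ (ec k H j) y))
          (e k H j)) x := by
      intro j
      exact sw2_mul ⟨fun b => ⟨fun x y => by beta_reduce; rw [TensorProduct.add_tmul],
          fun c x => by beta_reduce; rw [TensorProduct.smul_tmul']⟩,
        fun a => ⟨fun x y => by
            beta_reduce; rw [map_add, LinearMap.add_apply, TensorProduct.tmul_add],
          fun c x => by
            beta_reduce; rw [map_smul, LinearMap.smul_apply, TensorProduct.tmul_smul]⟩⟩ _ _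
    rw [Finset.sum_congr rfl fun j _ => h1 j]
    have h2 : ∑ j, sw2 k (fun a b => sw2 k (fun a' b' => (a * a') ⊗ₜ[k]
        ρ (b * b') (σ (ec k H j) y)) (e k H j)) x =
        sw2 k (fun a b => ∑ j, sw2 k (fun a' b' => (a * a') ⊗ₜ[k]
        ρ (b * b') (σ (ec k H j) y)) (e k H j)) x := by
      unfold sw2
      rw [Finset.sum_comm]
    rw [h2]
    refine congrArg (fun F => sw2 k F x) (funext fun a => funext fun b => ?_)
    have h3 := ce_cv (k := k) (H := H)
      (G := fun a' b' f => (a * a') ⊗ₜ[k] ρ (b * b') (σ f y))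
      (fun b f => ⟨fun x y => by
          rw [mul_add, TensorProduct.add_tmul], fun r x => by
          rw [mul_smul_comm, TensorProduct.smul_tmul']⟩)
      (fun a f => ⟨fun x y => by
          rw [mul_add, map_add, LinearMap.add_apply, TensorProduct.tmul_add], fun r x => by
          rw [mul_smul_comm, map_smul, LinearMap.smul_apply, TensorProduct.tmul_smul]⟩)
      (fun a b => ⟨fun x y => by
          rw [map_add, LinearMap.add_apply, map_add, TensorProduct.tmul_add], fun r x => by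
          rw [map_smul, LinearMap.smul_apply, map_smul, TensorProduct.tmul_smul]⟩)
    rw [← h3]
    refine Finset.sum_congr rfl fun i _ => ?_
    rw [theta, LinearMap.sum_apply, map_sum, TensorProduct.tmul_sum]
    refine Finset.sum_congr rfl fun l _ => ?_
    rw [← hX.mul, map_mul]
    rfl
  have hr : (Lop σ * Rop (Dreg k H) ρ * TensorProduct.map (1 : Module.End k H) (theta ρ σ) :
      Module.End k (H ⊗[k] X)) (x ⊗ₜ[k] y) =
      sw2 k (fun a b => ∑ i, (a * e k H i) ⊗ₜ[k] ρ b (σ (ec k H i) (theta ρ σ y))) x := by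
    change Lop σ (Rop (Dreg k H) ρ (x ⊗ₜ[k] theta ρ σ y)) = _
    generalize theta ρ σ y = w
    rw [Xi_tmul, map_sw2']
    simp only [Ps_tmul]
    have h1 : ∀ a b : H, ∑ j, (e k H j * b) ⊗ₜ[k] σ (ec k H j) (ρ a w) =
        sw3 k (fun p q r => ∑ i, (p * (e k H i * (Sa k H r * b))) ⊗ₜ[k]
          ρ q (σ (ec k H i) w)) a := by
      intro a b
      have h2 : ∀ j, (e k H j * b) ⊗ₜ[k] σ (ec k H j) (ρ a w) =
          sw3 k (fun p q r => (e k H j * b) ⊗ₜ[k]
            ρ q (σ (tw (ec k H j) p (Sa k H r)) w)) a := by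
        intro j
        have h3 : σ (ec k H j) (ρ a w) = sw3 k (fun p q r =>
            ρ q (σ (tw (ec k H j) p (Sa k H r)) w)) a := by
          have h4 := congrArg (fun T : Module.End k X => T w) (hX.yd (ec k H j) a)
          beta_reduce at h4
          rw [Module.End.mul_apply] at h4
          rw [h4]
          simp only [sw3, LinearMap.sum_apply, Module.End.mul_apply]
        rw [h3]
        simp only [sw3, TensorProduct.tmul_sum]
      rw [Finset.sum_congr rfl fun j _ => h2 j]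
      have h5 : ∀ p q r : H, ∑ j, (e k H j * b) ⊗ₜ[k]
          ρ q (σ (tw (ec k H j) p (Sa k H r)) w) =
          ∑ i, (p * (e k H i * (Sa k H r * b))) ⊗ₜ[k] ρ q (σ (ec k H i) w) := by
        intro p q r
        have h6 := ce_lin (k := k) (H := H)
          (LinearMap.mulLeft k p ∘ₗ LinearMap.mulRight k (Sa k H r))
          (G := fun a f => (a * b) ⊗ₜ[k] ρ q (σ f w))
          (fun f => ⟨fun x y => by rw [add_mul, TensorProduct.add_tmul],
            fun r x => by rw [smul_mul_assoc, TensorProduct.smul_tmul']⟩)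
          (fun a => ⟨fun x y => by
              rw [map_add, LinearMap.add_apply, map_add, TensorProduct.tmul_add],
            fun r x => by
              rw [map_smul, LinearMap.smul_apply, map_smul, TensorProduct.tmul_smul]⟩)
        refine Eq.trans h6 ?_
        refine Finset.sum_congr rfl fun i _ => ?_
        simp only [LinearMap.comp_apply, LinearMap.mulLeft_apply, LinearMap.mulRight_apply,
          mul_assoc]
      simp only [← h5]
      simp only [sw3]
      rw [Finset.sum_comm]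
      refine Finset.sum_congr rfl fun j _ => ?_
      rw [Finset.sum_comm]
    simp only [h1, sw3_eq]
    -- reassociate
    have lp : ∀ q r b : H, IsLinearMap k (fun p : H =>
        ∑ i, (p * (e k H i * (Sa k H r * b))) ⊗ₜ[k] ρ q (σ (ec k H i) w)) := fun q r b =>
      ⟨fun x y => by simp only [add_mul, TensorProduct.add_tmul, Finset.sum_add_distrib],
        fun c x => by
          rw [Finset.smul_sum]
          exact Finset.sum_congr rfl fun i _ => by
            rw [smul_mul_assoc, TensorProduct.smul_tmul']⟩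
    have lq : ∀ p r b : H, IsLinearMap k (fun q : H =>
        ∑ i, (p * (e k H i * (Sa k H r * b))) ⊗ₜ[k] ρ q (σ (ec k H i) w)) := fun p r b =>
      ⟨fun x y => by
          simp only [map_add, LinearMap.add_apply, TensorProduct.tmul_add,
            Finset.sum_add_distrib],
        fun c x => by
          rw [Finset.smul_sum]
          exact Finset.sum_congr rfl fun i _ => by
            rw [map_smul, LinearMap.smul_apply, TensorProduct.tmul_smul]⟩
    have lr : ∀ p q b : H, IsLinearMap k (fun r : H =>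
        ∑ i, (p * (e k H i * (Sa k H r * b))) ⊗ₜ[k] ρ q (σ (ec k H i) w)) := fun p q b =>
      ⟨fun x y => by
          simp only [map_add, add_mul, mul_add, TensorProduct.add_tmul,
            Finset.sum_add_distrib],
        fun c x => by
          rw [Finset.smul_sum]
          exact Finset.sum_congr rfl fun i _ => by
            rw [map_smul, smul_mul_assoc, mul_smul_comm, mul_smul_comm,
              TensorProduct.smul_tmul']⟩
    have lb : ∀ p q r : H, IsLinearMap k (fun b : H =>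
        ∑ i, (p * (e k H i * (Sa k H r * b))) ⊗ₜ[k] ρ q (σ (ec k H i) w)) := fun p q r =>
      ⟨fun x y => by
          simp only [mul_add, TensorProduct.add_tmul,
            Finset.sum_add_distrib],
        fun c x => by
          rw [Finset.smul_sum]
          exact Finset.sum_congr rfl fun i _ => by
            rw [mul_smul_comm, mul_smul_comm, mul_smul_comm,
              TensorProduct.smul_tmul']⟩
    have lin_sw2 : ∀ {G : H → H → H → H ⊗[k] X}
        (_ : ∀ a b, IsLinearMap k (fun x => G x a b)) (z : H),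
        IsLinearMap k (fun x => sw2 k (fun a b => G x a b) z) := by
      intro G hG z
      exact ⟨fun x y => by simp only [sw2, (hG _ _).map_add, Finset.sum_add_distrib],
        fun c x => by simp only [sw2, (hG _ _).map_smul, Finset.smul_sum]⟩
    rw [sw2_assoc (F := fun p y b => sw2 k (fun q r =>
      ∑ i, (p * (e k H i * (Sa k H r * b))) ⊗ₜ[k] ρ q (σ (ec k H i) w)) y), sw3_eq]
    · refine congrArg (fun F => sw2 k F x) (funext fun p => funext fun z => ?_)
      rw [sw2_assoc (F := fun q r b =>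
        ∑ i, (p * (e k H i * (Sa k H r * b))) ⊗ₜ[k] ρ q (σ (ec k H i) w)), sw3_eq]
      · have h7 : ∀ q z' : H, sw2 k (fun r b =>
            ∑ i, (p * (e k H i * (Sa k H r * b))) ⊗ₜ[k] ρ q (σ (ec k H i) w)) z' =
            ep k H z' • ∑ i, (p * (e k H i * 1)) ⊗ₜ[k] ρ q (σ (ec k H i) w) := by
          intro q z'
          exact sw2_S_mul (k := k) (f := fun t : H =>
            ∑ i, (p * (e k H i * t)) ⊗ₜ[k] ρ q (σ (ec k H i) w))
            ⟨fun x y => by
              simp only [mul_add, TensorProduct.add_tmul, Finset.sum_add_distrib],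
            fun c x => by
              rw [Finset.smul_sum]
              exact Finset.sum_congr rfl fun i _ => by
                rw [mul_smul_comm, mul_smul_comm, TensorProduct.smul_tmul']⟩ z'
        simp only [h7]
        rw [sw2_counit_right (f := fun q => ∑ i, (p * (e k H i * 1)) ⊗ₜ[k]
          ρ q (σ (ec k H i) w))]
        · simp only [mul_one]
        · exact ⟨fun x y => by
              simp only [map_add, LinearMap.add_apply, TensorProduct.tmul_add,
                Finset.sum_add_distrib],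
            fun c x => by
              rw [Finset.smul_sum]
              exact Finset.sum_congr rfl fun i _ => by
                rw [map_smul, LinearMap.smul_apply, TensorProduct.tmul_smul]⟩
      · exact ⟨fun r b => lq p r b, fun q b => lr p q b, fun q r => lb p q r⟩
    · refine ⟨fun y b => ?_, fun p b => ?_, fun p y => ?_⟩
      · exact lin_sw2 (G := fun p q r =>
          ∑ i, (p * (e k H i * (Sa k H r * b))) ⊗ₜ[k] ρ q (σ (ec k H i) w))
          (fun q r => lp q r b) y
      · exact sw2_linear ⟨fun r => lq p r b, fun q => lr p q b⟩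
      · exact lin_sw2 (G := fun b q r =>
          ∑ i, (p * (e k H i * (Sa k H r * b))) ⊗ₜ[k] ρ q (σ (ec k H i) w))
          (fun q r => lb p q r) y
  rw [hl, hr]
  refine congrArg (fun F => sw2 k F x) (funext fun a => funext fun b => ?_)
  refine Finset.sum_congr rfl fun i _ => ?_
  rw [← Module.End.mul_apply (theta ρ σ), theta_sigma hS hX]
  rfl

theorem theta_det (hS : ∀ x : H, Sa k H (Sa k H x) = x) (hX : IsYD ρ σ) {v : k}
    (hθ : theta ρ σ = v • 1) :
    v ^ (Module.finrank k H * Module.finrank k X) *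
      (LinearMap.det (Rop (Dreg k H) ρ) * LinearMap.det (Lop σ)) ^ 2 = 1 := by
  have hss : (ss : Module.End k (H ⊗[k] X)) * ss = 1 := by
    refine TensorProduct.ext' fun x y => ?_
    change Sa k H (Sa k H x) ⊗ₜ[k] y = x ⊗ₜ[k] y
    rw [hS]
  have d0 := congrArg LinearMap.det hss
  have d1 := congrArg LinearMap.det (Xi_mul (X := X) (ρ := ρ) hS)
  have d2 := congrArg LinearMap.det (Th'_mul hS hX)
  have d3 := congrArg LinearMap.det (Th_mul hS hX)
  simp only [map_mul, map_one] at d0 d1 d2 d3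
  rw [hθ, det_map, LinearMap.det_smul, map_one, one_pow, one_mul, map_one, mul_one] at d3
  rw [← pow_mul, mul_comm (Module.finrank k X)] at d3
  set s := LinearMap.det (ss : Module.End k (H ⊗[k] X)) with hs
  set a := LinearMap.det (Rop (Dreg k H) ρ) with ha
  set b := LinearMap.det (Lop σ) with hb
  set a' := LinearMap.det (Xi' ρ) with ha'
  set b' := LinearMap.det (Th' σ) with hb'
  have e2 : b' * b = 1 := by
    have : b' * b * (s * s) = 1 := by rw [← d2]; ring
    rw [d0, mul_one] at this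
    exact this
  have e3 : a' * b' = b * a * v ^ (Module.finrank k H * Module.finrank k X) := by
    have : a' * b' * (s * s) = b * a * v ^ (Module.finrank k H * Module.finrank k X) := by
      rw [← d3]; ring
    rw [d0, mul_one] at this
    exact this
  calc v ^ (Module.finrank k H * Module.finrank k X) * (a * b) ^ 2 =
      (b * a * v ^ (Module.finrank k H * Module.finrank k X)) * (a * b) := by ring
    _ = (a * a') * (b' * b) := by rw [← e3]; ring
    _ = 1 := by rw [d1, e2, mul_one]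

end Pool.Agent.KExp
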