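import Pool.Agent.Lib.KExp.Defs
import Pool.Agent.Lib.KExp.Sw
import Pool.Agent.Lib.KExp.CE
import Pool.Agent.Lib.KOd.Defs
import Pool.Agent.Lib.KOd.ThDet
import Pool.Agent.Lib.KOd.Alpha
import Pool.Agent.Lib.KOd.AlphaD

/-!
# KOd.YdRoot (MP_0d5e35_al, paper /team-store/MP_0d5e35_al_paper77.md)

(1.5). `D = det (Rop Dreg ρ)`, `L = det (Lop σ)`: theta_det `v^(m d) (D L)² = 1`; alpha, alpha_dual (`IsCom σ` from `hX.one`, `hX.mul`). `m` odd: `D = L = 1`.
`m` even, `m = 2 c`: `v^(m d c) (D L)^(2c) = 1`, `(D L)^m = 1`, `m d c = m m / 2 * d`.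
-/

set_option autoImplicit false

open scoped TensorProduct

namespace Pool.Agent.KExp

variable {k : Type} [Field k] {H : Type} [Ring H] [HopfAlgebra k H] [FiniteDimensional k H]

variable {X : Type} [AddCommGroup X] [Module k X] [FiniteDimensional k X]
  {ρ : H →ₐ[k] Module.End k X} {σ : (H →ₗ[k] k) →ₗ[k] Module.End k X}

theorem yd_root [CharZero k] [IsAlgClosed k] (hS : ∀ x : H, Sa k H (Sa k H x) = x)
    (hX : IsYD ρ σ) {v : k} (hθ : theta ρ σ = v • 1) :
    (Even (Module.finrank k H) →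
        v ^ (Module.finrank k H * Module.finrank k H / 2 * Module.finrank k X) = 1) ∧
      (Odd (Module.finrank k H) → v ^ (Module.finrank k H * Module.finrank k X) = 1) := by
  have hcom : IsCom σ := ⟨hX.one, hX.mul⟩
  have h1 := theta_det hS hX hθ
  obtain ⟨hD, hD'⟩ := alpha hS ρ
  obtain ⟨hL, hL'⟩ := alpha_dual hS hcom
  generalize LinearMap.det (Rop (Dreg k H) ρ) = D at h1 hD hD'
  generalize LinearMap.det (Lop σ) = L at h1 hL hL'
  generalize Module.finrank k H = m at h1 hD hD' hL hL' ⊢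
  generalize Module.finrank k X = d at h1 ⊢
  refine ⟨?_, ?_⟩
  · rintro ⟨c, hc⟩
    have h2 : m * m / 2 * d = m * d * c := by
      have h3 : m * m / 2 = m * c := by
        have h4 : m * m = m * c * 2 := by
          rw [hc]
          ring
        rw [h4, Nat.mul_div_cancel _ (by norm_num)]
      rw [h3]
      ring
    have h5 : (v ^ (m * d) * (D * L) ^ 2) ^ c = 1 := by rw [h1, one_pow]
    have h6 : (v ^ (m * d) * (D * L) ^ 2) ^ c = v ^ (m * d * c) * (D ^ m * L ^ m) := by
      rw [mul_pow, ← pow_mul, ← pow_mul, ← mul_pow, hc]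
      ring
    rw [h6, hD, hL, mul_one, mul_one] at h5
    rw [h2]
    exact h5
  · intro ho
    rw [hD' ho, hL' ho, mul_one, one_pow, mul_one] at h1
    exact h1

end Pool.Agent.KExp
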