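import Pool.Agent.Lib.KExp.Defs
import Pool.Agent.Lib.KExp.LamInt
import Pool.Agent.Lib.KExp.AlgCl
import Pool.Agent.Lib.KOd.GBound
import Pool.Agent.Lib.KOd.YdRoot

/-!
# KOd.HEnd (MP_0d5e35_al, paper /team-store/MP_0d5e35_al_paper77.md, section 5)

The end over an algebraically closed field: simple_bound (`a + 2δ ≤ 2b`, resp. `≤ 2b + 1` for `p = 2`) and yd_root
(`a ≤ b + δ` for odd `dim H`, `a ≤ 2b - 1 + δ` for even `dim H` and `p = 2`).
-/

set_option autoImplicit false

open scoped TensorProduct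

namespace Pool.Agent.KExp

variable {k : Type} [Field k] {H : Type} [Ring H] [HopfAlgebra k H] [FiniteDimensional k H]

private theorem val_le {F : Type} [Field F] {v : F} {N K p : ℕ} (hp : p.Prime) (hN : 0 < N)
    (hK : 0 < K) (hvN : v ^ N = 1) (hvp : v ^ (N / p) ≠ 1) (hvK : v ^ K = 1) :
    padicValNat p N ≤ padicValNat p K := by
  have := Fact.mk hp
  by_contra hlt
  have hlt' : padicValNat p K < padicValNat p N := not_le.mp hlt
  have h1 : orderOf v ∣ N := orderOf_dvd_of_pow_eq_one hvN
  have h2 : orderOf v ∣ K := orderOf_dvd_of_pow_eq_one hvK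
  have h0 : orderOf v ≠ 0 := fun h => hN.ne' (by rw [h] at h1; exact Nat.eq_zero_of_zero_dvd h1)
  have h3 : padicValNat p (orderOf v) ≤ padicValNat p K :=
    (padicValNat_dvd_iff_le hK.ne').mp (pow_padicValNat_dvd.trans h2)
  obtain ⟨r, hr⟩ := h1
  have hr0 : r ≠ 0 := fun h => hN.ne' (by rw [hr, h, mul_zero])
  have h4 : padicValNat p N = padicValNat p (orderOf v) + padicValNat p r := by
    rw [hr, padicValNat.mul h0 hr0]
  have h5 : p ∣ r := by
    rw [dvd_iff_padicValNat_ne_zero hr0]
    omega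
  obtain ⟨r', rfl⟩ := h5
  apply hvp
  have h6 : N / p = orderOf v * r' := by
    rw [hr, mul_left_comm, Nat.mul_div_cancel_left _ hp.pos]
  rw [h6, pow_mul, pow_orderOf_eq_one, one_pow]

theorem end_bound [IsAlgClosed k] [CharZero k] (hS : ∀ x : H, Sa k H (Sa k H x) = x)
    {N : ℕ} (hN : 0 < N) (hQ : Q k H N = Q k H 0) (hmin : ∀ n, 0 < n → Q k H n = Q k H 0 → N ≤ n)
    {p : ℕ} (hp : p.Prime) :
    (Odd (Module.finrank k H) →
      3 * padicValNat p N ≤ 4 * padicValNat p (Module.finrank k H)) ∧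
    (Even (Module.finrank k H) → p = 2 →
      padicValNat p N + 1 ≤ 2 * padicValNat p (Module.finrank k H)) := by
  have := Fact.mk hp
  have hm : 0 < Module.finrank k H := finrank_pos_H (k := k) (H := H)
  obtain ⟨a, N', hpN', hNa⟩ := Nat.exists_eq_pow_mul_and_not_dvd hN.ne' p hp.ne_one
  have hval : padicValNat p N = a := by
    have hN'0 : N' ≠ 0 := by
      rintro rfl
      exact hpN' (dvd_zero p)
    rw [hNa, padicValNat.mul (pow_ne_zero _ hp.ne_zero) hN'0, padicValNat.prime_pow,
      padicValNat.eq_zero_of_not_dvd hpN', add_zero]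
  have hev : Even (Module.finrank k H) → p = 2 → 1 ≤ padicValNat p (Module.finrank k H) := by
    intro h1 h2
    have h3 : p ∣ Module.finrank k H := by
      rw [h2]
      exact h1.two_dvd
    exact Nat.one_le_iff_ne_zero.mpr ((dvd_iff_padicValNat_ne_zero hm.ne').mp h3)
  rcases Nat.eq_zero_or_pos a with ha | ha
  · rw [hval, ha]
    exact ⟨fun _ => by omega, fun h1 h2 => by have := hev h1 h2; omega⟩
  · have hpm : p ∣ Module.finrank k H :=
      (bound_algClosed hS hN hQ hmin hp).2.2 (by
        rw [hNa]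
        exact Dvd.dvd.mul_right (dvd_pow_self p ha.ne') N')
    have hb1 : 1 ≤ padicValNat p (Module.finrank k H) :=
      Nat.one_le_iff_ne_zero.mpr ((dvd_iff_padicValNat_ne_zero hm.ne').mp hpm)
    obtain ⟨Y, i1, i2, i3, ρ, σ, v, hY, hd, hθ, hvN, hvp, hbd⟩ :=
      simple_bound hS hN hQ hmin hp ha hNa hpN'
    obtain ⟨hre, hro⟩ := yd_root hS hY hθ
    refine ⟨fun hodd => ?_, fun heven h2 => ?_⟩
    · have hp2 : p ≠ 2 := by
        intro h
        rw [h] at hpm
        exact (Nat.not_even_iff_odd.mpr hodd) (even_iff_two_dvd.mpr hpm)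
      have h3 := val_le hp hN (Nat.mul_pos hm hd) hvN hvp (hro hodd)
      rw [padicValNat.mul hm.ne' hd.ne'] at h3
      rw [hval] at h3 ⊢
      rcases Nat.lt_or_ge a 2 with ha2 | ha2
      · omega
      · have h4 := (hbd ha2).1 hp2
        omega
    · subst h2
      obtain ⟨c, hc⟩ := heven.two_dvd
      have hc0 : 0 < c := by
        rcases Nat.eq_zero_or_pos c with h | h
        · rw [h, mul_zero] at hc
          omega
        · exact h
      have e1 : Module.finrank k H * Module.finrank k H / 2 = c * Module.finrank k H := by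
        conv_lhs => rw [hc]
        rw [mul_assoc, Nat.mul_div_cancel_left _ (by norm_num), ← hc]
      have e2 : padicValNat 2 (Module.finrank k H) = 1 + padicValNat 2 c := by
        rw [hc, padicValNat.mul (by norm_num) hc0.ne', padicValNat_self]
      have h3 := val_le hp hN (Nat.mul_pos (Nat.mul_pos hc0 hm) hd) hvN hvp
        (by rw [← e1]; exact hre heven)
      rw [padicValNat.mul (Nat.mul_pos hc0 hm).ne' hd.ne', padicValNat.mul hc0.ne' hm.ne'] at h3
      rw [hval] at h3 ⊢
      rcases Nat.lt_or_ge a 2 with ha2 | ha2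
      · omega
      · have h4 := (hbd ha2).2
        omega

end Pool.Agent.KExp
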