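import Pool.Agent.Lib.KExp.Defs
import Pool.Agent.Lib.KExp.BaseCh
import Pool.Agent.Lib.KExp.Main
import Pool.Agent.Lib.KExp.Fin
import Pool.Agent.Lib.KOd.HEnd

/-!
# KOd.HMain (MP_0d5e35_al, paper /team-store/MP_0d5e35_al_paper77.md)

The final theorem: `exp(H)^3` divides `dim(H)^4` for odd `dim H`, `2 exp(H)` divides `dim(H)^2` for even `dim H`.
-/

set_option autoImplicit false

open scoped TensorProduct

namespace Pool.Agent.KExp

private theorem bound' {k : Type} [Field k] [CharZero k] {H : Type} [Ring H] [HopfAlgebra k H]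
    [FiniteDimensional k H] (hS : ∀ x : H, Sa k H (Sa k H x) = x) {N : ℕ} (hN : 0 < N)
    (hQ : Q k H N = Q k H 0) (hmin : ∀ n, 0 < n → Q k H n = Q k H 0 → N ≤ n) {p : ℕ}
    (hp : p.Prime) :
    (Odd (Module.finrank k H) →
      3 * padicValNat p N ≤ 4 * padicValNat p (Module.finrank k H)) ∧
    (Even (Module.finrank k H) → p = 2 →
      padicValNat p N + 1 ≤ 2 * padicValNat p (Module.finrank k H)) := by
  obtain ⟨K, hK1, hK2, hK3, H', hR, hH, hF, h1, h2, h3⟩ := baseChange_facts k H hS
  have : CharZero K := charZero_of_injective_algebraMap (algebraMap k K).injective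
  have hb := end_bound (k := K) (H := H') h1 hN ((h3 N).2 hQ)
    (fun n hn hn' => hmin n hn ((h3 n).1 hn')) hp
  rw [h2] at hb
  exact hb

private theorem dvd_of_val' {N M : ℕ} (hN : 0 < N) (hM : M ≠ 0)
    (h : ∀ p : ℕ, p.Prime → padicValNat p N ≤ padicValNat p M) : N ∣ M := by
  rw [← Nat.factorization_le_iff_dvd hN.ne' hM]
  intro p
  by_cases hp : p.Prime
  · rw [Nat.factorization_def _ hp, Nat.factorization_def _ hp]
    exact h p hp
  · rw [Nat.factorization_eq_zero_of_not_prime _ hp]
    exact Nat.zero_le _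

theorem exponent_cube_dvd {k : Type} [Field k] [CharZero k] {H : Type} [Ring H] [HopfAlgebra k H]
    [FiniteDimensional k H] (hS : ∀ x : H, Sa k H (Sa k H x) = x) {N : ℕ} (hN : 0 < N)
    (hQ : Q k H N = Q k H 0) (hmin : ∀ n, 0 < n → Q k H n = Q k H 0 → N ≤ n) :
    (Odd (Module.finrank k H) → N ^ 3 ∣ Module.finrank k H ^ 4) ∧
      (Even (Module.finrank k H) → 2 * N ∣ Module.finrank k H ^ 2) := by
  have hb := fun (p : ℕ) (hp : p.Prime) => bound' hS hN hQ hmin hp
  have hb' := fun (p : ℕ) (hp : p.Prime) => bound hS hN hQ hmin hp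
  generalize Module.finrank k H = d at hb hb' ⊢
  refine ⟨fun hodd => ?_, fun heven => ?_⟩
  · have hd : 0 < d := hodd.pos
    refine dvd_of_val' (pow_pos hN 3) (by positivity) fun p hp => ?_
    have := Fact.mk hp
    rw [padicValNat.pow, padicValNat.pow]
    exact (hb p hp).1 hodd
  · rcases Nat.eq_zero_or_pos d with rfl | hd
    · simp
    refine dvd_of_val' (by positivity) (by positivity) fun p hp => ?_
    have := Fact.mk hp
    rw [padicValNat.mul (by norm_num) hN.ne', padicValNat.pow]
    by_cases h2 : p = 2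
    · subst h2
      have := (hb 2 hp).2 heven rfl
      rw [padicValNat_self]
      omega
    · have := (hb' p hp).1 h2
      have h3 : padicValNat p 2 = 0 := by
        apply padicValNat.eq_zero_of_not_dvd
        intro h
        exact h2 ((Nat.prime_dvd_prime_iff_eq hp Nat.prime_two).mp h)
      rw [h3]
      omega

/-- the least positive `N` with `Q_N = ε 1` exists, and `N^3` divides `dim(H)^4` if `dim H` is odd,
`2 N` divides `dim(H)^2` if `dim H` is even -/
theorem exponent_cube {k : Type} [Field k] [CharZero k] {H : Type} [Ring H]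
    [HopfAlgebra k H] [FiniteDimensional k H] (hS : ∀ x : H, Sa k H (Sa k H x) = x) :
    ∃ N : ℕ, IsLeast {n : ℕ | 0 < n ∧ Q k H n = Q k H 0} N ∧
      (Odd (Module.finrank k H) → N ^ 3 ∣ Module.finrank k H ^ 4) ∧
      (Even (Module.finrank k H) → 2 * N ∣ Module.finrank k H ^ 2) := by
  classical
  have hex : ∃ n, 0 < n ∧ Q k H n = Q k H 0 := exists_exponent_field hS
  exact ⟨Nat.find hex, ⟨Nat.find_spec hex, fun n hn => Nat.find_min' hex hn⟩,
    exponent_cube_dvd (k := k) (H := H) hS (Nat.find_spec hex).1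
    (Nat.find_spec hex).2 (fun n h1 h2 => Nat.find_min' hex ⟨h1, h2⟩)⟩

end Pool.Agent.KExp
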